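import Pool.Agent.Lib.MP_3bda03_nt.H.Ana
import Pool.Agent.Lib.MP_3bda03_nt.H.Equi
import Pool.Agent.Lib.MP_3bda03_nt.H.Radial
import Pool.Agent.Lib.MP_3bda03_nt.H.Orb

-- part Pool.Agent.Lib.MP_3bda03_nt.B.Defs
section

/-!
Random gluing of four fixed lattices: definitions.
-/

set_option autoImplicit false

noncomputable section

open MeasureTheory Matrix Finset
open scoped ENNReal

namespace Pool.Agent.Eps.B

open Pool.Agent.Eps.H

section
variable {ι κ : Type}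

/-- sum of a function of the squared length over the nonzero vectors of a lattice -/
def sn [Fintype ι] [Fintype κ] (g : Matrix ι κ ℝ) (ψ : ℝ → ℝ≥0∞) : ℝ≥0∞ :=
  ∑' k : {k : ι → ℤ // k ≠ 0}, ψ (nsq (lv k.1 g))

/-- the lattice with sublattice `A`, quotient `B` and gluing `T` -/
def glue [Fintype ι] (A : Matrix ι ι ℝ) (B : Matrix κ κ ℝ) (T : Matrix κ ι ℝ) :
    Matrix (ι ⊕ κ) (ι ⊕ κ) ℝ :=
  Matrix.fromBlocks A 0 (T * A) B

/-- random gluing of a fixed quotient on a random sublattice -/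
def ens [Fintype ι] [Fintype κ] (μ : Measure (Matrix ι ι ℝ)) (B : Matrix κ κ ℝ) :
    Measure (Matrix (ι ⊕ κ) (ι ⊕ κ) ℝ) :=
  (μ.prod (volume.restrict (cube κ ι))).map (fun p => glue p.1 B p.2)

/-- no nonzero vector is very short -/
def MinN [Fintype ι] (M : Matrix ι ι ℝ) : Prop := ∀ w : ι → ℤ, w ≠ 0 → 1 / 6 ≤ nsq (lv w M)

/-- the sum over one fibre of the glued lattice -/
def fib [Fintype ι] [Fintype κ] (A : Matrix ι ι ℝ) (ψ : ℝ → ℝ≥0∞) (l : κ → ℤ) (ρ : ℝ)
    (T : Matrix κ ι ℝ) : ℝ≥0∞ :=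
  ∑' m : ι → ℤ, ψ (nsq ((cv m + cv l ᵥ* T) ᵥ* A) + ρ)

end

/-- Gaussian -/
def ga (t ρ : ℝ) : ℝ≥0∞ := ENNReal.ofReal (Real.exp (-Real.pi * t * ρ))

/-- Gaussian outside the ball -/
def ph (R t ρ : ℝ) : ℝ≥0∞ := if R ≤ ρ then ga t ρ else 0

/-- Gaussian inside the ball -/
def pl (R t ρ : ℝ) : ℝ≥0∞ := if ρ < R then ga t ρ else 0

/-- indicator of the ball -/
def bi (R ρ : ℝ) : ℝ≥0∞ := if ρ < R then 1 else 0

/-- integral over an affine space of dimension `d` at squared distance `ρ` -/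
def sm (d : ℕ) (ψ : ℝ → ℝ≥0∞) (ρ : ℝ) : ℝ≥0∞ := ∫⁻ x : Fin d → ℝ, ψ (nsq x + ρ)

/-- the main term of a theta series of covolume `c` in dimension `n` -/
def Pn (c : ℝ) (n : ℕ) (t : ℝ) : ℝ≥0∞ := ENNReal.ofReal (c⁻¹ * t ^ (-((n : ℝ) / 2)))

/-- functionals of the lattice that are measurable in every dimension -/
def MF (Γ : ((ℝ → ℝ≥0∞) → ℝ≥0∞) → ℝ≥0∞) : Prop :=
  ∀ (ι : Type) [Fintype ι], Measurable fun g : Matrix ι ι ℝ => Γ (sn g)

/-- a block -/
structure RB where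
  g : ℕ
  M : Matrix (Fin g) (Fin g) ℝ
  hM : M.det ≠ 0

/-- the dual block -/
def RB.dl (x : RB) : RB := ⟨x.g, dual x.M, by rw [det_dual]; exact inv_ne_zero x.hM⟩

section
variable (b : ℕ → RB)

/-- dimension below layer `j` -/
def dm (j : ℕ) : ℕ := ∑ l ∈ range j, (b l).g

/-- covolume below layer `j` -/
def cov (j : ℕ) : ℝ := ∏ l ∈ range j, |(b l).M.det|

/-- main term below layer `j` -/
def PP (j : ℕ) (t : ℝ) : ℝ≥0∞ := Pn (cov b j) (dm b j) t

/-- mean of the sum over the vectors of layer `j` -/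
def lay (j : ℕ) (ψ : ℝ → ℝ≥0∞) : ℝ≥0∞ :=
  ENNReal.ofReal (cov b j)⁻¹ * sn (b j).M (sm (dm b j) ψ)

/-- theta series of block `j` without its constant term -/
def vt (j : ℕ) (t : ℝ) : ℝ≥0∞ := sn (b j).M (ga t)

/-- theta series of the dual of block `j` without its constant term -/
def vs (j : ℕ) (t : ℝ) : ℝ≥0∞ := sn (dual (b j).M) (ga t)

/-- error term of the mean theta series below layer `j` -/
def ee (j l1 : ℕ) (c : ℝ) : ℝ≥0∞ :=
  ∑ l ∈ range j, if l < l1 then PP b l c * vt b l c else PP b (l + 1) c * vs b l c⁻¹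

/-- error term of the mean of the truncated theta series -/
def er (R : ℝ) (k l0 : ℕ) (t : ℝ) : ℝ≥0∞ :=
  ∑ l ∈ range k, if l < l0 then lay b l (ph R t) else PP b (l + 1) t * vs b l t⁻¹

/-- the product of the removed mean and the full mean, summed over layer `j` -/
def hh (R : ℝ) (j : ℕ) (t : ℝ) : ℝ≥0∞ :=
  PP b j t * (ENNReal.ofReal (cov b j)⁻¹ *
    sn (b j).M (fun ρ => ga t ρ * sm (dm b j) (pl R t) ρ))

/-- the variance of layer `j` is at most this -/
def VV (R : ℝ) (l1 j : ℕ) (t : ℝ) : ℝ≥0∞ :=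
  (2 * lay b j (ph R (2 * t)) + 7 * hh b R j t) +
    2 * (PP b j (2 * t) * vt b j (2 * t) * ee b j l1 (t / 2)) +
    4 * (PP b j (4 * t) * vt b j (4 * t) * (1 + ee b j 0 (t / 4)))

/-- the excess of a pair of parallel fibres over the product of their means -/
def brk (R : ℝ) (l1 j : ℕ) (t : ℝ) (p q : ℤ) (ν : ℝ) : ℝ≥0∞ :=
  ENNReal.ofReal (cov b j)⁻¹ *
      sm (dm b j) (fun ρ => ph R t ((p : ℝ) ^ 2 * ρ) * ph R t ((q : ℝ) ^ 2 * ρ)) ν +
    PP b j (((p : ℝ) ^ 2 + (q : ℝ) ^ 2) * t) * ga (((p : ℝ) ^ 2 + (q : ℝ) ^ 2) * t) ν *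
      ee b j l1 (t / ((p : ℝ) ^ 2 + (q : ℝ) ^ 2)) +
    (ENNReal.ofReal (cov b j)⁻¹ * sm (dm b j) (pl R t) ((p : ℝ) ^ 2 * ν) *
        (PP b j t * ga t ((q : ℝ) ^ 2 * ν)) +
      PP b j t * ga t ((p : ℝ) ^ 2 * ν) *
        (ENNReal.ofReal (cov b j)⁻¹ * sm (dm b j) (pl R t) ((q : ℝ) ^ 2 * ν)))

/-- the law of a lattice glued from the first `k` blocks: first moments -/
structure Good (ι : Type) [Fintype ι] [DecidableEq ι] (μ : Measure (Matrix ι ι ℝ)) (k : ℕ) :
    Prop where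
  prob : IsProbabilityMeasure μ
  card : Fintype.card ι = dm b k
  det : ∀ᵐ g ∂μ, |g.det| = cov b k
  mean : ∀ ψ : ℝ → ℝ≥0∞, Measurable ψ → ∫⁻ g, sn g ψ ∂μ = ∑ j ∈ range k, lay b j ψ

/-- second moments -/
def Var (ι : Type) [Fintype ι] (μ : Measure (Matrix ι ι ℝ)) (k : ℕ) : Prop :=
  ∀ (R t : ℝ) (l1 : ℕ), 1 ≤ t → ∫⁻ g, sn g (ph R t) ^ 2 ∂μ ≤
    (∫⁻ g, sn g (ph R t) ∂μ) ^ 2 + ∑ j ∈ Ico 1 k, VV b R l1 j t

/-- index set of the lattice glued from four blocks -/
abbrev I4 : Type := ((Fin (b 0).g ⊕ Fin (b 1).g) ⊕ Fin (b 2).g) ⊕ Fin (b 3).g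

/-- its law -/
def mu4 : Measure (Matrix (I4 b) (I4 b) ℝ) :=
  ens (ens (ens (Measure.dirac (b 0).M) (b 1).M) (b 2).M) (b 3).M

/-- the dual blocks in the reverse order -/
def rev : ℕ → RB := fun j => (b (3 - j)).dl

end

/-- the grid: 24 points for each factor two -/
def tt (y : ℝ) : ℝ := (2 : ℝ) ^ (y / 24)

/-- the unit of exponents -/
def Wr (x : ℝ) : ℝ := (2 : ℝ) ^ (x / 384)

/-- integer powers of the unit -/
def WW (e : ℤ) : ℝ≥0∞ := ENNReal.ofReal (Wr e)

/-- the logarithmic length of a cell -/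
def hc : ℝ≥0∞ := ENNReal.ofReal (Real.log 2 / 24)

/-- logarithmic convexity on the positive reals -/
def LC (f : ℝ → ℝ≥0∞) : Prop :=
  ∀ x y η : ℝ, 0 < x → 0 < y → 0 ≤ η → η ≤ 1 → f ((1 - η) * x + η * y) ≤ f x ^ (1 - η) * f y ^ η

/-- geometric interpolation bound on the cell `m` -/
def GC (m : ℤ) (f : ℝ → ℝ≥0∞) (A B : ℝ≥0∞) : Prop :=
  ∀ η : ℝ, 0 ≤ η → η ≤ 1 → f (tt (m + η)) ≤ A ^ (1 - η) * B ^ η

/-- the function with the values `WW (γ m)` at the grid points, interpolated geometrically -/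
def geo (γ : ℕ → ℤ) (t : ℝ) : ℝ≥0∞ :=
  ENNReal.ofReal (Wr ((1 - (24 * Real.logb 2 t - ⌊24 * Real.logb 2 t⌋₊)) * γ ⌊24 * Real.logb 2 t⌋₊ +
    (24 * Real.logb 2 t - ⌊24 * Real.logb 2 t⌋₊) * γ (⌊24 * Real.logb 2 t⌋₊ + 1)))

/-- volume of the ball of squared radius `X / π` in dimension `d` -/
def tm (d : ℕ) (X : ℝ) : ℝ := X ^ ((d : ℝ) / 2) / Real.Gamma ((d : ℝ) / 2 + 1)

/-- majorant of the normalised upper incomplete gamma function times the exponential -/
def qs (d : ℕ) (X : ℝ) : ℝ :=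
  (if d % 2 = 0 ∧ d ≠ 0 then 0 else 1) + ∑ q ∈ range (d / 2), tm (d % 2 + 2 * q) X

/-- the test functional of one side -/
def Gam (c : ℝ) (n : ℕ) (R : ℝ) (M : ℕ) (γ β : ℕ → ℤ) (S : (ℝ → ℝ≥0∞) → ℝ≥0∞) : ℝ≥0∞ :=
  (∫⁻ t in Set.Ioc (1 : ℝ) (tt M),
      geo β t * (S (ph R t) + geo γ t - Pn c n t) ^ 2 * ENNReal.ofReal t⁻¹) +
    S (bi R) / 2 + 8 * ((Pn c n (tt M))⁻¹ * S (ph R (tt M)))

/-- the guaranteed drift of one side -/
def GG (c : ℝ) (n M : ℕ) (γ : ℕ → ℤ) (s : ℝ) : ℝ≥0∞ :=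
  (∫⁻ t in Set.Ioc (1 : ℝ) (tt M), geo γ t * ENNReal.ofReal (t ^ (s - 1))) +
    ENNReal.ofReal (7 / 8 * (c⁻¹ * tt M ^ (s - (n : ℝ) / 2) / ((n : ℝ) / 2 - s)))

/-- the dual norm of one side -/
def HH (M : ℕ) (β : ℕ → ℤ) (s : ℝ) : ℝ≥0∞ :=
  ∫⁻ t in Set.Ioc (1 : ℝ) (tt M), (geo β t)⁻¹ * ENNReal.ofReal (t ^ (2 * s - 1))

/-- loss of the chord bound -/
def jm (m : ℕ) : ℤ := (((2 * m + 1) ^ 2 * 7 / 7680 + 1 : ℕ) : ℤ)

/-- lower bound for the drift at `s = i / 4`, for the covolume `Wr (2 * cf)` -/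
def Gn (cf : ℤ) (n M : ℕ) (γ : ℕ → ℤ) (i : ℕ) : ℝ≥0∞ :=
  hc * (∑ m ∈ range M, WW ((γ m + γ (m + 1)) / 2 - jm m + 2 * (2 * m + 1) * i)) +
    7 * WW (-2 * cf - 8 * n * M + 4 * M * i - jm M) / ((2 * (2 * n - i + 1) : ℕ) : ℝ≥0∞)

/-- upper bound for the dual norm at `s = i / 4` -/
def Hn (M : ℕ) (β : ℕ → ℤ) (i : ℕ) : ℝ≥0∞ :=
  hc * ∑ m ∈ range M, (WW (-β m + 8 * m * i) + WW (-β (m + 1) + 8 * (m + 1) * i)) / 2

/-- the shells of a lattice below `N1`, and a Gaussian bound for the rest -/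
def Spec {ι : Type} [Fintype ι] (M : Matrix ι ι ℝ) (sh : List (ℕ × ℕ)) (N1 : ℕ) (k0 tbe : ℤ) :
    Prop :=
  ∀ (ψ : ℝ → ℝ≥0∞) (x : ℝ) (c : ℝ≥0∞), tt k0 ≤ x → (∀ ρ : ℝ, (N1 : ℝ) ≤ ρ → ψ ρ ≤ c * ga x ρ) →
    sn M ψ ≤ (sh.map fun p => (p.2 : ℝ≥0∞) * ψ p.1).sum + c * (WW tbe * ga x N1)

end Pool.Agent.Eps.B
end
end

-- part Pool.Agent.Lib.MP_3bda03_nt.B.Glue
section

/-!
Algebra and measurability of glued lattices.
-/

set_option autoImplicit false

noncomputable section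

open MeasureTheory Matrix Finset
open scoped ENNReal

namespace Pool.Agent.Eps.B

open Pool.Agent.Eps.H

variable {ι κ ι' κ' : Type} [Fintype ι] [Fintype κ] [Fintype ι'] [Fintype κ']

theorem measurable_ga (t : ℝ) : Measurable (ga t) := by
  unfold ga
  fun_prop

theorem measurable_ph (R t : ℝ) : Measurable (ph R t) := by
  exact Measurable.ite measurableSet_Ici (measurable_ga t) measurable_const

theorem measurable_pl (R t : ℝ) : Measurable (pl R t) := by
  exact Measurable.ite measurableSet_Iio (measurable_ga t) measurable_const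

theorem measurable_bi (R : ℝ) : Measurable (bi R) := by
  exact Measurable.ite measurableSet_Iio measurable_const measurable_const

theorem measurable_ph_uncurry (R : ℝ) : Measurable fun p : ℝ × ℝ => ph R p.1 p.2 := by
  refine Measurable.ite (measurableSet_le measurable_const measurable_snd) ?_ measurable_const
  unfold ga
  fun_prop

theorem measurable_sm (d : ℕ) {ψ : ℝ → ℝ≥0∞} (hψ : Measurable ψ) : Measurable (sm d ψ) := by
  exact Measurable.lintegral_prod_right' (f := fun p : ℝ × (Fin d → ℝ) => ψ (nsq p.2 + p.1))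
    (hψ.comp ((measurable_nsq.comp measurable_snd).add measurable_fst))

theorem ph_add_pl (R t ρ : ℝ) : ph R t ρ + pl R t ρ = ga t ρ := by
  rcases le_or_gt R ρ with h | h
  · rw [ph, pl, if_pos h, if_neg h.not_gt, add_zero]
  · rw [ph, pl, if_pos h, if_neg h.not_ge, zero_add]

theorem ga_add (t ρ ρ' : ℝ) : ga t (ρ + ρ') = ga t ρ * ga t ρ' := by
  rw [ga, ga, ga, mul_add, Real.exp_add, ENNReal.ofReal_mul (Real.exp_pos _).le]

theorem ga_mul (t c ρ : ℝ) : ga t (c * ρ) = ga (c * t) ρ := by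
  rw [ga, ga, show -Real.pi * t * (c * ρ) = -Real.pi * (c * t) * ρ by ring]

theorem ga_anti {t t' ρ : ℝ} (h : t ≤ t') (hρ : 0 ≤ ρ) : ga t' ρ ≤ ga t ρ := by
  refine ENNReal.ofReal_le_ofReal (Real.exp_le_exp.2 ?_)
  nlinarith [mul_nonneg Real.pi_pos.le (mul_nonneg (sub_nonneg.2 h) hρ)]

theorem measurable_sn {ψ : ℝ → ℝ≥0∞} (hψ : Measurable ψ) :
    Measurable fun g : Matrix ι κ ℝ => sn g ψ := by
  exact Measurable.tsum fun k => hψ.comp (measurable_nsq.comp (measurable_lv k.1))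

theorem measurable_sn_ph (R : ℝ) :
    Measurable fun p : Matrix ι κ ℝ × ℝ => sn p.1 (ph R p.2) := by
  exact Measurable.tsum fun k => (measurable_ph_uncurry R).comp
    (measurable_snd.prodMk (measurable_nsq.comp ((measurable_lv k.1).comp measurable_fst)))

omit [Fintype κ] in
theorem measurable_glue {Ω : Type} [MeasurableSpace Ω] {A : Ω → Matrix ι ι ℝ}
    {B : Ω → Matrix κ κ ℝ} {T : Ω → Matrix κ ι ℝ} (hA : Measurable A) (hB : Measurable B)
    (hT : Measurable T) : Measurable fun x => glue (A x) (B x) (T x) := by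
  refine measurable_mx.2 ?_
  rintro (a | a) (i | i)
  exacts [measurable_mx.1 hA a i, measurable_const, measurable_mx.1 (Measurable.mxmul hT hA) a i,
    measurable_mx.1 hB a i]

theorem measurable_fib {ψ : ℝ → ℝ≥0∞} (hψ : Measurable ψ) (l : κ → ℤ) (ρ : ℝ) :
    Measurable fun p : Matrix ι ι ℝ × Matrix κ ι ℝ => fib p.1 ψ l ρ p.2 := by
  exact Measurable.tsum fun m => hψ.comp ((measurable_nsq.comp (Measurable.vmul
    (measurable_const.add (Measurable.vmul measurable_const measurable_snd))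
      measurable_fst)).add_const ρ)

theorem sn_mono (g : Matrix ι κ ℝ) {ψ φ : ℝ → ℝ≥0∞} (h : ∀ ρ, 0 ≤ ρ → ψ ρ ≤ φ ρ) :
    sn g ψ ≤ sn g φ := by
  exact ENNReal.tsum_le_tsum fun k => h _ (nsq_nonneg _)

theorem sn_add (g : Matrix ι κ ℝ) (ψ φ : ℝ → ℝ≥0∞) :
    sn g (fun ρ => ψ ρ + φ ρ) = sn g ψ + sn g φ := by
  exact ENNReal.tsum_add

theorem sn_const_mul (g : Matrix ι κ ℝ) (c : ℝ≥0∞) (ψ : ℝ → ℝ≥0∞) :
    sn g (fun ρ => c * ψ ρ) = c * sn g ψ := by
  exact ENNReal.tsum_mul_left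

theorem sn_of_isEmpty [IsEmpty ι] (g : Matrix ι κ ℝ) (ψ : ℝ → ℝ≥0∞) : sn g ψ = 0 := by
  exact ENNReal.tsum_eq_zero.2 fun k => absurd (Subsingleton.elim _ _) k.2

theorem sn_of_card_eq_zero (h : Fintype.card ι = 0) (g : Matrix ι κ ℝ) (ψ : ℝ → ℝ≥0∞) :
    sn g ψ = 0 := by
  have := Fintype.card_eq_zero_iff.1 h
  exact sn_of_isEmpty g ψ

theorem sn_smul (c : ℝ) (g : Matrix ι κ ℝ) (ψ : ℝ → ℝ≥0∞) :
    sn (c • g) ψ = sn g (fun ρ => ψ (c ^ 2 * ρ)) := by
  refine tsum_congr fun k => ?_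
  rw [lv, vecMul_smul, nsq_smul, lv]

theorem glue_le {g : Matrix ι κ ℝ} {g' : Matrix ι' κ' ℝ} {f : (ι → ℤ) → ι' → ℤ}
    (hf : Function.Injective f) (h0 : f 0 = 0) (h : ∀ k, nsq (lv k g) = nsq (lv (f k) g'))
    (ψ : ℝ → ℝ≥0∞) : sn g ψ ≤ sn g' ψ := by
  simp only [sn, h]
  exact ENNReal.tsum_comp_le_tsum_of_injective
    (f := fun k : {k : ι → ℤ // k ≠ 0} => (⟨f k.1, fun e => k.2 (hf (e.trans h0.symm))⟩ :
      {k : ι' → ℤ // k ≠ 0})) (fun _ _ e => Subtype.ext (hf (congrArg Subtype.val e)))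
    fun k => ψ (nsq (lv k.1 g'))

theorem glue_reindex (e : ι ≃ ι') (e' : κ ≃ κ') (g : Matrix ι κ ℝ) (ψ : ℝ → ℝ≥0∞) :
    sn (Matrix.reindex e e' g) ψ ≤ sn g ψ := by
  refine glue_le (f := fun k => k ∘ e) e.surjective.injective_comp_right rfl (fun k => ?_) ψ
  rw [lv, reindex_apply, submatrix_vecMul_equiv]
  exact e'.symm.sum_comp fun j => lv (k ∘ e) g j ^ 2

theorem glue_cz [DecidableEq ι] (V : Matrix ι ι ℤ) (hV : V.det ≠ 0) (g : Matrix ι κ ℝ)
    (ψ : ℝ → ℝ≥0∞) : sn (cz V * g) ψ ≤ sn g ψ :=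
  glue_le (f := fun k => k ᵥ* V) (fun k l e => sub_eq_zero.1 (eq_zero_of_vecMul_eq_zero hV
    ((sub_vecMul V k l).trans (sub_eq_zero.2 e)))) (zero_vecMul V) (fun k => by rw [lv_vecMul]) ψ

theorem glue_ite {X : Type} [Zero X] [DecidableEq X] (f : X → ℝ≥0∞) :
    ∑' k : {k : X // k ≠ 0}, f k.1 = ∑' k, if k = 0 then 0 else f k :=
  (tsum_subtype {k : X | k ≠ 0} f).trans (tsum_congr fun k => by
    by_cases h : k = 0 <;> simp [h])

theorem sn_reindex (e : ι ≃ ι') (e' : κ ≃ κ') (g : Matrix ι κ ℝ) :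
    sn (Matrix.reindex e e' g) = sn g := by
  refine funext fun ψ => (glue_reindex e e' g ψ).antisymm ?_
  simpa using glue_reindex e.symm e'.symm (Matrix.reindex e e' g) ψ

theorem sn_gl [DecidableEq ι] (γ : GL ι ℤ) (g : Matrix ι κ ℝ) : sn (cz γ.val * g) = sn g := by
  have h : ∀ (γ : GL ι ℤ) (g : Matrix ι κ ℝ) ψ, sn (cz γ.val * g) ψ ≤ sn g ψ := fun γ g =>
    glue_cz γ.val (isUnit_iff_isUnit_det _ |>.1 γ.isUnit).ne_zero g
  refine funext fun ψ => (h γ g ψ).antisymm ?_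
  have h1 := h γ⁻¹ (cz γ.val * g) ψ
  rwa [← Matrix.mul_assoc, ← cz_mul, Units.inv_mul, cz_one, Matrix.one_mul] at h1

/-- a sublattice -/
theorem sn_cz_mul_le [DecidableEq ι] (V : Matrix ι ι ℤ) (hV : V.det ≠ 0) (g : Matrix ι κ ℝ)
    (ψ : ℝ → ℝ≥0∞) : sn (cz V * g) ψ ≤ sn g ψ := by
  exact glue_cz V hV g ψ

theorem sn_ga_eq [DecidableEq ι] {g : Matrix ι ι ℝ} (hg : g.det ≠ 0) {t : ℝ} (ht : 0 < t) :
    sn g (ga t) = ENNReal.ofReal (theta g t - 1) := by
  have h := hasSum_theta hg ht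
  rw [← h.tsum_eq, ENNReal.ofReal_tsum_of_nonneg (fun _ => (Real.exp_pos _).le) h.summable]
  rfl

/-- the inversion of theta series -/
theorem sn_ga_dual [DecidableEq ι] {g : Matrix ι ι ℝ} (hg : g.det ≠ 0) {t : ℝ} (ht : 0 < t) :
    1 + sn g (ga t) = Pn |g.det| (Fintype.card ι) t * (1 + sn (dual g) (ga t⁻¹)) := by
  have h : ∀ {g : Matrix ι ι ℝ} {t : ℝ}, g.det ≠ 0 → 0 < t →
      1 + sn g (ga t) = ENNReal.ofReal (theta g t) := fun {g t} hg ht => by
    rw [sn_ga_eq hg ht, ← ENNReal.ofReal_one, ← ENNReal.ofReal_add zero_le_one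
      ((hasSum_theta hg ht).nonneg fun _ => (Real.exp_pos _).le), add_sub_cancel]
  rw [h hg ht, h (by rw [det_dual]; exact inv_ne_zero hg) (inv_pos.2 ht), theta_dual hg ht, Pn,
    ENNReal.ofReal_mul (by positivity)]

/-- fewer than two vectors in a ball means none -/
theorem le_nsq_of_sn_bi_lt [DecidableEq ι] {g : Matrix ι κ ℝ} {R : ℝ} (h : sn g (bi R) < 2)
    (k : ι → ℤ) (hk : k ≠ 0) : R ≤ nsq (lv k g) := by
  by_contra hR
  have h1 : (⟨k, hk⟩ : {k : ι → ℤ // k ≠ 0}) ≠ ⟨-k, neg_ne_zero.2 hk⟩ := fun e =>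
    hk (self_eq_neg.1 (congrArg Subtype.val e))
  have h2 := ENNReal.sum_le_tsum (f := fun k : {k : ι → ℤ // k ≠ 0} => bi R (nsq (lv k.1 g)))
    {⟨k, hk⟩, ⟨-k, neg_ne_zero.2 hk⟩}
  rw [sum_pair h1, lv_neg, nsq_neg, bi, if_pos (not_le.1 hR), one_add_one_eq_two] at h2
  exact h.not_ge h2

theorem det_glue [DecidableEq ι] [DecidableEq κ] (A : Matrix ι ι ℝ) (B : Matrix κ κ ℝ)
    (T : Matrix κ ι ℝ) : (glue A B T).det = A.det * B.det := by
  exact det_fromBlocks_zero₁₂ _ _ _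

theorem nsq_lv_glue (A : Matrix ι ι ℝ) (B : Matrix κ κ ℝ) (T : Matrix κ ι ℝ) (m : ι → ℤ)
    (l : κ → ℤ) :
    nsq (lv (Sum.elim m l) (glue A B T)) = nsq ((cv m + cv l ᵥ* T) ᵥ* A) + nsq (lv l B) := by
  have h : cv (Sum.elim m l) = Sum.elim (cv m) (cv l) := by
    funext i
    cases i <;> rfl
  rw [lv, glue, h, vecMul_fromBlocks, vecMul_zero, zero_add, add_vecMul, vecMul_vecMul,
    nsq, Fintype.sum_sum_type]
  rfl

theorem sn_glue (A : Matrix ι ι ℝ) (B : Matrix κ κ ℝ) (T : Matrix κ ι ℝ) (ψ : ℝ → ℝ≥0∞) :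
    sn (glue A B T) ψ =
      sn A ψ + ∑' l : {l : κ → ℤ // l ≠ 0}, fib A ψ l.1 (nsq (lv l.1 B)) T := by
  classical
  rw [sn, glue_ite fun k => ψ (nsq (lv k (glue A B T))),
    ← ((Equiv.prodComm _ _).trans (Equiv.sumArrowEquivProdArrow ι κ ℤ).symm).tsum_eq,
    ENNReal.tsum_prod', ENNReal.tsum_eq_add_tsum_ite 0, sn, glue_ite fun k => ψ (nsq (lv k A)),
    glue_ite fun l => fib A ψ l (nsq (lv l B)) T]
  have e : ∀ (l : κ → ℤ) (m : ι → ℤ), ((Equiv.prodComm _ _).trans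
      (Equiv.sumArrowEquivProdArrow ι κ ℤ).symm) (l, m) = Sum.elim m l := fun _ _ => rfl
  have e0 : ∀ (l : κ → ℤ) (m : ι → ℤ), Sum.elim m l = 0 ↔ m = 0 ∧ l = 0 := fun l m => by
    simp only [funext_iff, Sum.forall, Sum.elim_inl, Sum.elim_inr, Pi.zero_apply]
  simp only [e, nsq_lv_glue, e0]
  refine congrArg₂ _ (tsum_congr fun m => ?_) (tsum_congr fun l => ?_)
  · simp [cv_zero, lv, nsq_eq_zero.2 rfl]
  · by_cases h : l = 0 <;> simp [h, fib]

theorem sn_glue_add_cz (A : Matrix ι ι ℝ) (B : Matrix κ κ ℝ) (T : Matrix κ ι ℝ)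
    (z : Matrix κ ι ℤ) : sn (glue A B (cz z + T)) = sn (glue A B T) := by
  classical
  have h : ∀ (T : Matrix κ ι ℝ) (z : Matrix κ ι ℤ) ψ,
      sn (glue A B (cz z + T)) ψ ≤ sn (glue A B T) ψ := fun T z ψ => by
    have e : cz (fromBlocks 1 0 z 1 : Matrix (ι ⊕ κ) (ι ⊕ κ) ℤ) = fromBlocks 1 0 (cz z) 1 := by
      rw [cz, fromBlocks_map, ← cz_one, ← cz_one]
      simp [cz]
    have h1 := glue_cz (fromBlocks 1 0 z 1) (by simp) (glue A B T) ψ
    rw [e, glue, fromBlocks_multiply] at h1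
    simpa [glue, Matrix.add_mul] using h1
  refine funext fun ψ => (h T z ψ).antisymm ?_
  simpa [equi_cz_neg] using h (cz z + T) (-z) ψ

theorem dual_glue [DecidableEq ι] [DecidableEq κ] {A : Matrix ι ι ℝ} {B : Matrix κ κ ℝ}
    (hA : A.det ≠ 0) (hB : B.det ≠ 0) (T : Matrix κ ι ℝ) :
    dual (glue A B T) =
      Matrix.reindex (Equiv.sumComm κ ι) (Equiv.sumComm κ ι) (glue (dual B) (dual A) (-Tᵀ)) := by
  have h : (glue A B T)⁻¹ = fromBlocks A⁻¹ 0 (-(B⁻¹ * T)) B⁻¹ := by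
    refine inv_eq_right_inv ?_
    rw [glue, fromBlocks_multiply, Matrix.mul_assoc, mul_nonsing_inv _ (isUnit_iff_ne_zero.2 hA),
      mul_nonsing_inv _ (isUnit_iff_ne_zero.2 hB), Matrix.mul_neg B,
      mul_nonsing_inv_cancel_left _ _ (isUnit_iff_ne_zero.2 hB)]
    simp
  rw [dual, h, glue, dual, dual, Matrix.neg_mul, ← transpose_mul]
  ext (i | i) (j | j) <;> rfl

theorem lintegral_ens (μ : Measure (Matrix ι ι ℝ)) [SFinite μ] (B : Matrix κ κ ℝ)
    {F : Matrix (ι ⊕ κ) (ι ⊕ κ) ℝ → ℝ≥0∞} (hF : Measurable F) :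
    ∫⁻ g, F g ∂(ens μ B) = ∫⁻ A, (∫⁻ T in cube κ ι, F (glue A B T)) ∂μ := by
  have h : Measurable fun p : Matrix ι ι ℝ × Matrix κ ι ℝ => glue p.1 B p.2 :=
    measurable_glue measurable_fst measurable_const measurable_snd
  rw [ens, lintegral_map hF h]
  exact lintegral_prod _ (hF.comp h).aemeasurable

theorem isProbabilityMeasure_ens (μ : Measure (Matrix ι ι ℝ)) [IsProbabilityMeasure μ]
    (B : Matrix κ κ ℝ) : IsProbabilityMeasure (ens μ B) := by
  have : IsProbabilityMeasure (volume.restrict (cube κ ι)) :=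
    ⟨by rw [Measure.restrict_apply_univ, volume_cube]⟩
  exact Measure.isProbabilityMeasure_map
    (measurable_glue measurable_fst measurable_const measurable_snd).aemeasurable

theorem cov_pos (b : ℕ → RB) (j : ℕ) : 0 < cov b j := by
  exact prod_pos fun l _ => abs_pos.2 (b l).hM

theorem dm_rev (b : ℕ → RB) : dm (rev b) 4 = dm b 4 := by
  exact sum_range_reflect (fun l => (b l).g) 4

theorem cov_rev (b : ℕ → RB) : cov (rev b) 4 = (cov b 4)⁻¹ := by
  rw [cov, cov, ← prod_inv_distrib, ← prod_range_reflect (fun l => |(b l).M.det|⁻¹) 4]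
  exact prod_congr rfl fun l _ => (congrArg abs (det_dual _)).trans (abs_inv _)

end Pool.Agent.Eps.B
end
end

-- part Pool.Agent.Lib.MP_3bda03_nt.B.Tail
section

/-!
Gaussian integrals over affine spaces, inside and outside a ball.
-/

set_option autoImplicit false

noncomputable section

open MeasureTheory Matrix Finset
open scoped ENNReal

namespace Pool.Agent.Eps.B

open Pool.Agent.Eps.H

private theorem tail_gam (d : ℕ) : 0 < Real.Gamma ((d : ℝ) / 2 + 1) :=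
  Real.Gamma_pos_of_pos (by positivity)

theorem tm_zero (X : ℝ) : tm 0 X = 1 := by
  rw [tm, Nat.cast_zero, zero_div, Real.rpow_zero, zero_add, Real.Gamma_one, div_one]

theorem tm_one {X : ℝ} (hX : 0 ≤ X) : tm 1 X = 2 * Real.sqrt (X / Real.pi) := by
  have h : Real.sqrt Real.pi ≠ 0 := (Real.sqrt_pos.2 Real.pi_pos).ne'
  rw [tm, Nat.cast_one, Real.Gamma_add_one one_half_pos.ne', Real.Gamma_one_half_eq,
    ← Real.sqrt_eq_rpow, Real.sqrt_div hX]
  field_simp

theorem tm_add_two (d : ℕ) {X : ℝ} (hX : 0 ≤ X) : tm (d + 2) X = tm d X * (2 * X / (d + 2)) := by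
  have e : ((d + 2 : ℕ) : ℝ) / 2 = (d : ℝ) / 2 + 1 := by
    push_cast
    ring
  have h1 : (d : ℝ) / 2 + 1 ≠ 0 := by positivity
  have h2 := (tail_gam d).ne'
  rw [tm, tm, e, Real.rpow_add_one' hX h1, Real.Gamma_add_one h1]
  field_simp

theorem tm_nonneg (d : ℕ) {X : ℝ} (hX : 0 ≤ X) : 0 ≤ tm d X := by
  exact div_nonneg (Real.rpow_nonneg hX _) (tail_gam d).le

theorem tm_mono (d : ℕ) {X Y : ℝ} (hX : 0 ≤ X) (h : X ≤ Y) : tm d X ≤ tm d Y := by
  exact div_le_div_of_nonneg_right (Real.rpow_le_rpow hX h (by positivity)) (tail_gam d).le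

theorem tm_mul (d : ℕ) {t X : ℝ} (ht : 0 ≤ t) (hX : 0 ≤ X) :
    tm d (t * X) = Real.sqrt t ^ d * tm d X := by
  rw [tm, tm, Real.mul_rpow ht hX, rad_sqrt_pow ht, mul_div_assoc]

theorem sm_eq {ι : Type} [Fintype ι] {d : ℕ} (h : Fintype.card ι = d) {ψ : ℝ → ℝ≥0∞}
    (hψ : Measurable ψ) (ρ : ℝ) : ∫⁻ x : ι → ℝ, ψ (nsq x + ρ) = sm d ψ ρ := by
  have hm : Measurable fun x : Fin d → ℝ => ψ (nsq x + ρ) :=
    hψ.comp (measurable_nsq.add_const ρ)
  rw [sm, ← (lin_reidx ℝ (Fintype.equivFinOfCardEq h)).lintegral_comp hm]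
  refine lintegral_congr fun x => ?_
  rw [nsq, nsq, (Fintype.equivFinOfCardEq h).symm.sum_comp fun i => x i ^ 2]

theorem sm_zero (ψ : ℝ → ℝ≥0∞) (ρ : ℝ) : sm 0 ψ ρ = ψ ρ := by
  have h : ∀ x : Fin 0 → ℝ, ψ (nsq x + ρ) = ψ ρ := fun x => by
    rw [nsq, Fin.sum_univ_zero, zero_add]
  rw [sm, lintegral_congr h, lintegral_const, volume_pi, Measure.pi_univ, Fin.prod_univ_zero,
    mul_one]

theorem sm_mono (d : ℕ) {ψ φ : ℝ → ℝ≥0∞} {ρ : ℝ} (h : ∀ σ, ρ ≤ σ → ψ σ ≤ φ σ) :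
    sm d ψ ρ ≤ sm d φ ρ := by
  exact lintegral_mono fun x => h _ (le_add_of_nonneg_left (nsq_nonneg x))

theorem sm_ga (d : ℕ) {t : ℝ} (ht : 0 < t) (ρ : ℝ) :
    sm d (ga t) ρ = ENNReal.ofReal (t ^ (-((d : ℝ) / 2))) * ga t ρ := by
  have h1 := integrable_gauss (α := Fin d) (mul_pos Real.pi_pos ht)
  have h2 := integral_gauss (α := Fin d) ht
  simp only [← neg_mul] at h1
  rw [Fintype.card_fin] at h2
  rw [sm, lintegral_congr fun x => ga_add t (nsq x) ρ,
    lintegral_mul_const _ ((measurable_ga t).fun_comp measurable_nsq), ← h2,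
    ofReal_integral_eq_lintegral_ofReal h1 (ae_of_all _ fun x => (Real.exp_pos _).le)]
  rfl

theorem sm_ph_add_pl (d : ℕ) (R t ρ : ℝ) :
    sm d (ph R t) ρ + sm d (pl R t) ρ = sm d (ga t) ρ := by
  rw [sm, sm, sm, ← lintegral_add_left ((measurable_ph R t).fun_comp (measurable_nsq.add_const ρ))]
  exact lintegral_congr fun x => ph_add_pl R t _

theorem sm_pl_of_le (d : ℕ) {R ρ : ℝ} (t : ℝ) (h : R ≤ ρ) : sm d (pl R t) ρ = 0 := by
  have h1 : ∀ x : Fin d → ℝ, pl R t (nsq x + ρ) = 0 := fun x =>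
    if_neg (not_lt.2 (h.trans (le_add_of_nonneg_left (nsq_nonneg x))))
  rw [sm, lintegral_congr h1, lintegral_zero]

theorem sm_bi_of_le (d : ℕ) {R ρ : ℝ} (h : R ≤ ρ) : sm d (bi R) ρ = 0 := by
  have h1 : ∀ x : Fin d → ℝ, bi R (nsq x + ρ) = 0 := fun x =>
    if_neg (not_lt.2 (h.trans (le_add_of_nonneg_left (nsq_nonneg x))))
  rw [sm, lintegral_congr h1, lintegral_zero]

theorem sm_pl_add_le (d : ℕ) (R t ρ : ℝ) {σ : ℝ} (hσ : 0 ≤ σ) :
    sm d (pl R t) (ρ + σ) ≤ ga t σ * sm d (pl R t) ρ := by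
  rw [sm, sm, ← lintegral_const_mul _ ((measurable_pl R t).fun_comp (measurable_nsq.add_const ρ))]
  refine lintegral_mono fun x => ?_
  rw [pl, pl]
  split_ifs with h1 h2
  · rw [← add_assoc, ga_add, mul_comm]
  · exact absurd (by linarith) h2
  · exact zero_le
  · exact zero_le

theorem sm_bi_le (d : ℕ) {R ρ r : ℝ} (hr : 0 ≤ r) (h : R - ρ ≤ r) :
    sm d (bi R) ρ ≤ ENNReal.ofReal (tm d (Real.pi * r)) := by
  rcases eq_or_ne d 0 with rfl | hd
  · rw [sm_zero, tm_zero, ENNReal.ofReal_one, bi]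
    split_ifs
    · exact le_rfl
    · exact zero_le
  · have : Nonempty (Fin d) := ⟨⟨0, Nat.pos_of_ne_zero hd⟩⟩
    have e := volume_nsq_lt (ι := Fin d) hr
    rw [Fintype.card_fin] at e
    rw [tm, ← e, ← lintegral_indicator_one (measurableSet_lt measurable_nsq measurable_const)]
    refine lintegral_mono fun x => ?_
    rw [bi]
    split_ifs with h1
    · have h2 : x ∈ {x : Fin d → ℝ | nsq x < r} := by
        rw [Set.mem_ofPred_eq]
        linarith
      rw [Set.indicator_of_mem h2, Pi.one_apply]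
    · exact zero_le

private theorem tail_qs_step {d : ℕ} (hd : d ≠ 0) (X : ℝ) : qs (d + 2) X = qs d X + tm d X := by
  have e1 : (d + 2) % 2 = d % 2 := Nat.add_mod_right d 2
  have e2 : (d + 2) / 2 = d / 2 + 1 := Nat.add_div_right d two_pos
  have e3 : d % 2 + 2 * (d / 2) = d := Nat.mod_add_div d 2
  have e4 : d + 2 ≠ 0 := Nat.succ_ne_zero _
  rw [qs, qs, e1, e2, sum_range_succ, e3, add_assoc]
  simp only [hd, e4, ne_eq, not_false_eq_true]

private theorem tail_qs_one (X : ℝ) : qs 1 X = 1 := by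
  simp [qs]

private theorem tail_qs_two (X : ℝ) : qs 2 X = 1 := by
  simp [qs, tm_zero]

private theorem tail_qs_mono (d : ℕ) {X Y : ℝ} (hX : 0 ≤ X) (h : X ≤ Y) : qs d X ≤ qs d Y :=
  add_le_add le_rfl (sum_le_sum fun _ _ => tm_mono _ hX h)

private theorem tail_one_le_qs (d : ℕ) {X : ℝ} (hX : 0 ≤ X) : 1 ≤ qs d X := by
  induction d using Nat.twoStepInduction with
  | zero => simp [qs]
  | one => rw [tail_qs_one]
  | more d ih _ =>
    rcases eq_or_ne d 0 with rfl | hd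
    · rw [zero_add, tail_qs_two]
    · rw [tail_qs_step hd]
      linarith [tm_nonneg d hX]

private theorem tail_int {a b r : ℝ} (ha : 0 < a) (hb : 0 < b) (hr : 0 ≤ r) :
    IntegrableOn (fun s : ℝ => s ^ (a - 1) * Real.exp (-b * s)) (Set.Ioi r) := by
  have h := integrableOn_rpow_mul_exp_neg_mul_rpow (s := a - 1) (p := 1) (by linarith) one_pos hb
  simp only [Real.rpow_one] at h
  exact h.mono_set (Set.Ioi_subset_Ioi hr)

private theorem tail_parts {a b r : ℝ} (ha : 0 < a) (hb : 0 < b) (hr : 0 < r) :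
    b * ∫ s in Set.Ioi r, s ^ (a + 1 - 1) * Real.exp (-b * s) =
      a * (∫ s in Set.Ioi r, s ^ (a - 1) * Real.exp (-b * s)) + r ^ a * Real.exp (-b * r) := by
  have h1 := (tail_int ha hb hr.le).const_mul a
  have h2 := (tail_int (add_pos ha one_pos) hb hr.le).const_mul b
  have h := integral_Ioi_of_hasDerivAt_of_tendsto' (a := r)
    (f := fun s : ℝ => s ^ a * Real.exp (-b * s))
    (f' := fun s : ℝ => a * (s ^ (a - 1) * Real.exp (-b * s)) -
      b * (s ^ (a + 1 - 1) * Real.exp (-b * s))) (fun s hs => ?_) (h1.sub h2)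
    (tendsto_rpow_mul_exp_neg_mul_atTop_nhds_zero a b hb)
  · rw [integral_sub h1 h2, integral_const_mul, integral_const_mul] at h
    linarith
  · have hs0 : s ≠ 0 := (hr.trans_le hs).ne'
    have d1 := Real.hasDerivAt_rpow_const (p := a) (Or.inl hs0)
    have d2 : HasDerivAt (fun s : ℝ => Real.exp (-b * s)) (Real.exp (-b * s) * -b) s := by
      have := ((hasDerivAt_id s).const_mul (-b)).exp
      simpa only [id, mul_one] using this
    refine (d1.mul d2).congr_deriv ?_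
    rw [add_sub_cancel_right]
    ring

private theorem tail_half {b r : ℝ} (hb : 0 < b) (hr : 0 < r) :
    ∫ s in Set.Ioi r, s ^ ((1 : ℝ) / 2 - 1) * Real.exp (-b * s) ≤
      Real.exp (-b * r) * ((1 / b) ^ ((1 : ℝ) / 2) * Real.Gamma (1 / 2)) := by
  have e : (fun s : ℝ => s + r) ⁻¹' Set.Ioi r = Set.Ioi 0 := by
    rw [Set.preimage_add_const_Ioi, sub_self]
  have mp := measurePreserving_add_right (volume : Measure ℝ) r
  have me := (Homeomorph.addRight r).measurableEmbedding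
  have h0 : (0 : ℝ) < 1 / 2 := one_half_pos
  have h1 := (mp.integrableOn_comp_preimage me).2 (tail_int h0 hb hr.le)
  have h2 := (tail_int h0 hb le_rfl).const_mul (Real.exp (-b * r))
  rw [← mp.setIntegral_preimage_emb me, ← Real.integral_rpow_mul_exp_neg_mul_Ioi h0 hb,
    ← integral_const_mul, e]
  rw [e] at h1
  simp only [← neg_mul]
  refine setIntegral_mono_on h1 h2 measurableSet_Ioi fun s hs => ?_
  have hs0 : 0 < s := hs
  have h3 : (s + r) ^ ((1 : ℝ) / 2 - 1) ≤ s ^ ((1 : ℝ) / 2 - 1) :=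
    Real.rpow_le_rpow_of_nonpos hs0 (by linarith) (by norm_num)
  rw [mul_add, Real.exp_add]
  calc (s + r) ^ ((1 : ℝ) / 2 - 1) * (Real.exp (-b * s) * Real.exp (-b * r))
      ≤ s ^ ((1 : ℝ) / 2 - 1) * (Real.exp (-b * s) * Real.exp (-b * r)) := by gcongr
    _ = _ := by ring

/-- the upper incomplete gamma function -/
private theorem tail_inc {b r : ℝ} (hb : 0 < b) (hr : 0 < r) (d : ℕ) (hd : d ≠ 0) :
    b ^ ((d : ℝ) / 2) / Real.Gamma ((d : ℝ) / 2) *
      ∫ s in Set.Ioi r, s ^ ((d : ℝ) / 2 - 1) * Real.exp (-b * s) ≤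
      Real.exp (-b * r) * qs d (b * r) := by
  induction d using Nat.twoStepInduction with
  | zero => exact absurd rfl hd
  | one =>
    have hg : 0 < Real.Gamma (1 / 2) := Real.Gamma_pos_of_pos one_half_pos
    have hp : 0 < b ^ ((1 : ℝ) / 2) := Real.rpow_pos_of_pos hb _
    rw [tail_qs_one, Nat.cast_one]
    refine (mul_le_mul_of_nonneg_left (tail_half hb hr) (div_pos hp hg).le).trans_eq ?_
    rw [Real.div_rpow zero_le_one hb.le, Real.one_rpow]
    field_simp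
  | more d ih _ =>
    rcases eq_or_ne d 0 with rfl | hd'
    · have e : (((0 + 2 : ℕ) : ℝ)) / 2 = 1 := by norm_num
      rw [e, tail_qs_two, Real.rpow_one, Real.Gamma_one, sub_self]
      simp only [Real.rpow_zero, one_mul]
      rw [integral_exp_mul_Ioi (neg_lt_zero.2 hb)]
      refine le_of_eq ?_
      field_simp
    · have ha : 0 < (d : ℝ) / 2 := by positivity
      have e : ((d + 2 : ℕ) : ℝ) / 2 = (d : ℝ) / 2 + 1 := by
        push_cast
        ring
      have hg := Real.Gamma_pos_of_pos ha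
      have h1 := tail_parts ha hb hr
      have h2 := ih hd'
      rw [e, tail_qs_step hd', tm, Real.Gamma_add_one ha.ne', Real.rpow_add_one hb.ne',
        Real.mul_rpow hb.le hr.le, mul_add]
      generalize (d : ℝ) / 2 = a at *
      generalize ∫ s in Set.Ioi r, s ^ (a + 1 - 1) * Real.exp (-b * s) = I at *
      generalize ∫ s in Set.Ioi r, s ^ (a - 1) * Real.exp (-b * s) = J at *
      generalize Real.exp (-b * r) = E at *
      have e2 : b ^ a * b / (a * Real.Gamma a) * I = b ^ a / Real.Gamma a * J +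
          E * (b ^ a * r ^ a / (a * Real.Gamma a)) := by
        field_simp
        linear_combination h1
      rw [e2]
      exact add_le_add h2 le_rfl

/-- polar coordinates -/
private theorem tail_rad {d : ℕ} (hd : d ≠ 0) {ψ : ℝ → ℝ≥0∞} (hψ : Measurable ψ) (ρ : ℝ)
    {S : Set ℝ} (hS : MeasurableSet S) {G : ℝ → ℝ} (hG : IntegrableOn G S)
    (h0 : ∀ s ∈ S, 0 ≤ G s)
    (h : ∀ s, 0 < s → ψ (s + ρ) * ENNReal.ofReal (Real.pi ^ ((d : ℝ) / 2) /
      Real.Gamma ((d : ℝ) / 2) * s ^ ((d : ℝ) / 2 - 1)) ≤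
        S.indicator (fun s => ENNReal.ofReal (G s)) s) :
    sm d ψ ρ ≤ ENNReal.ofReal (∫ s in S, G s) := by
  have : Nonempty (Fin d) := ⟨⟨0, Nat.pos_of_ne_zero hd⟩⟩
  have e := lintegral_radial (ι := Fin d) (fun s => ψ (s + ρ)) (hψ.comp (measurable_add_const ρ))
  rw [Fintype.card_fin] at e
  rw [sm, e, ofReal_integral_eq_lintegral_ofReal hG ((ae_restrict_mem hS).mono h0),
    ← lintegral_indicator hS, ← lintegral_indicator measurableSet_Ioi]
  refine lintegral_mono fun s => ?_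
  by_cases hs : s ∈ Set.Ioi (0 : ℝ)
  · rw [Set.indicator_of_mem hs]
    exact h s hs
  · rw [Set.indicator_of_notMem hs]
    exact zero_le

/-- the Gaussian integral outside the ball -/
theorem sm_ph_le (d : ℕ) {R t ρ r : ℝ} (ht : 0 < t) (hr : 0 ≤ r) (h : R - ρ ≤ r) :
    sm d (ph R t) ρ ≤ ENNReal.ofReal (t ^ (-((d : ℝ) / 2))) *
      (ga t R * ENNReal.ofReal (qs d (t * (Real.pi * r)))) := by
  have hb : 0 < Real.pi * t := mul_pos Real.pi_pos ht
  have hX : 0 ≤ t * (Real.pi * r) := by positivity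
  rcases le_or_gt R ρ with hρ | hρ
  · have h1 : ga t ρ ≤ ga t R := ENNReal.ofReal_le_ofReal (Real.exp_le_exp.2 (by nlinarith))
    have h2 : 1 ≤ ENNReal.ofReal (qs d (t * (Real.pi * r))) :=
      ENNReal.one_le_ofReal.2 (tail_one_le_qs d hX)
    refine ((le_self_add.trans_eq (sm_ph_add_pl d R t ρ)).trans_eq (sm_ga d ht ρ)).trans ?_
    exact mul_le_mul_right (h1.trans (le_mul_of_one_le_right' h2)) _
  rcases eq_or_ne d 0 with rfl | hd
  · rw [sm_zero, ph, if_neg (not_le.2 hρ)]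
    exact zero_le
  have ha : 0 < (d : ℝ) / 2 := by positivity
  have h0 : 0 < R - ρ := sub_pos.2 hρ
  have hc := rad_c ha
  have key := tail_rad hd (measurable_ph R t) ρ measurableSet_Ici
    (G := fun s => Real.exp (-(Real.pi * t) * ρ) * (Real.pi ^ ((d : ℝ) / 2) /
      Real.Gamma ((d : ℝ) / 2)) * (s ^ ((d : ℝ) / 2 - 1) * Real.exp (-(Real.pi * t) * s)))
    (((integrableOn_Ici_iff_integrableOn_Ioi).2 (tail_int ha hb h0.le)).const_mul _)
    (fun s hs => by
      have : 0 < s := h0.trans_le hs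
      positivity)
    (fun s hs => by
      rw [ph]
      split_ifs with h1
      · have h2 : s ∈ Set.Ici (R - ρ) := sub_le_iff_le_add.2 h1
        rw [Set.indicator_of_mem h2, ga, ← ENNReal.ofReal_mul (Real.exp_pos _).le]
        refine le_of_eq (congrArg _ ?_)
        rw [mul_add, Real.exp_add, neg_mul Real.pi t]
        ring
      · rw [zero_mul]
        exact zero_le)
  refine key.trans ?_
  rw [ga, ← ENNReal.ofReal_mul (Real.exp_pos _).le,
    ← ENNReal.ofReal_mul (Real.rpow_nonneg ht.le _), integral_Ici_eq_integral_Ioi,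
    integral_const_mul]
  refine ENNReal.ofReal_le_ofReal ?_
  have h1 := tail_inc hb h0 d hd
  have h2 : qs d (Real.pi * t * (R - ρ)) ≤ qs d (t * (Real.pi * r)) :=
    tail_qs_mono d (by positivity) (by nlinarith)
  have h3 : Real.exp (-Real.pi * t * R) =
      Real.exp (-(Real.pi * t) * ρ) * Real.exp (-(Real.pi * t) * (R - ρ)) := by
    rw [← Real.exp_add]
    exact congrArg _ (by ring)
  have h4 : Real.pi ^ ((d : ℝ) / 2) = t ^ (-((d : ℝ) / 2)) * (Real.pi * t) ^ ((d : ℝ) / 2) := by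
    have := (Real.rpow_pos_of_pos ht ((d : ℝ) / 2)).ne'
    rw [Real.mul_rpow Real.pi_pos.le ht.le, Real.rpow_neg ht.le]
    field_simp
  have h5 := h1.trans (mul_le_mul_of_nonneg_left h2 (Real.exp_pos _).le)
  have h6 := mul_le_mul_of_nonneg_left h5 (mul_pos (Real.rpow_pos_of_pos ht (-((d : ℝ) / 2)))
    (Real.exp_pos (-(Real.pi * t) * ρ))).le
  rw [h3, h4]
  refine le_of_eq_of_le (by ring) (h6.trans_eq (by ring))

/-- the Gaussian integral inside the ball -/
theorem sm_pl_le (d : ℕ) {R t ρ r : ℝ} (ht : 0 < t) (hr : 0 ≤ r) (h : R - ρ ≤ r)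
    (hX : 2 * (t * (Real.pi * r)) < d) :
    sm d (pl R t) ρ ≤
      ga t R * ENNReal.ofReal (tm d (Real.pi * r) * (d / (d - 2 * (t * (Real.pi * r))))) := by
  rcases le_or_gt R ρ with hρ | hρ
  · rw [sm_pl_of_le d t hρ]
    exact zero_le
  have hX0 : 0 ≤ t * (Real.pi * r) := by positivity
  have hd0 : (0 : ℝ) < d := by linarith
  have hd : d ≠ 0 := Nat.cast_ne_zero.1 hd0.ne'
  have ha : 0 < (d : ℝ) / 2 := by positivity
  have hr0 : 0 < r := (sub_pos.2 hρ).trans_le h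
  have hc := rad_c ha
  have hp : -1 < (d : ℝ) / 2 - 1 - t * (Real.pi * r) := by linarith
  have key := tail_rad hd (measurable_pl R t) ρ measurableSet_Ioc
    (G := fun s => Real.exp (-Real.pi * t * R) * (Real.pi ^ ((d : ℝ) / 2) /
      Real.Gamma ((d : ℝ) / 2) * r ^ (t * (Real.pi * r))) *
        s ^ ((d : ℝ) / 2 - 1 - t * (Real.pi * r)))
    ((intervalIntegral.intervalIntegrable_rpow' (a := 0) (b := r) hp).1.const_mul _)
    (fun s hs => by
      have : 0 < s := hs.1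
      positivity)
    (fun s hs => by
      rw [pl]
      split_ifs with h1
      · have h2 : s ∈ Set.Ioc 0 r := ⟨hs, by linarith⟩
        rw [Set.indicator_of_mem h2, ga, ← ENNReal.ofReal_mul (Real.exp_pos _).le]
        refine ENNReal.ofReal_le_ofReal ?_
        have h3 := Real.one_sub_inv_le_log_of_pos (div_pos hr0 hs)
        have h4 : Real.exp (-Real.pi * t * (s + ρ)) ≤
            Real.exp (-Real.pi * t * R) * (r / s) ^ (t * (Real.pi * r)) := by
          rw [Real.rpow_def_of_pos (div_pos hr0 hs), ← Real.exp_add]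
          refine Real.exp_le_exp.2 ?_
          have h5 := mul_le_mul_of_nonneg_right h3 hX0
          have h6 : (1 - (r / s)⁻¹) * (t * (Real.pi * r)) = t * Real.pi * (r - s) := by
            field_simp
          have h7 := mul_le_mul_of_nonneg_left h (mul_pos ht Real.pi_pos).le
          rw [h6] at h5
          linarith
        refine (mul_le_mul_of_nonneg_right h4 (by positivity)).trans_eq ?_
        rw [Real.div_rpow hr0.le hs.le, Real.rpow_sub hs (_ - 1)]
        ring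
      · rw [zero_mul]
        exact zero_le)
  refine key.trans ?_
  rw [ga, ← ENNReal.ofReal_mul (Real.exp_pos _).le, integral_const_mul,
    ← intervalIntegral.integral_of_le hr0.le, integral_rpow (Or.inl hp),
    Real.zero_rpow (by linarith), sub_zero]
  refine le_of_eq (congrArg _ ?_)
  have e : (d : ℝ) / 2 - 1 - t * (Real.pi * r) + 1 = (d : ℝ) / 2 - t * (Real.pi * r) := by ring
  have h1 := (Real.rpow_pos_of_pos hr0 (t * (Real.pi * r))).ne'
  have h2 := (Real.Gamma_pos_of_pos ha).ne'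
  have h3 : (d : ℝ) - 2 * (t * (Real.pi * r)) ≠ 0 := (sub_pos.2 hX).ne'
  have h4 : (d : ℝ) / 2 - t * (Real.pi * r) = (d - 2 * (t * (Real.pi * r))) / 2 := by ring
  rw [e, tm, Real.Gamma_add_one ha.ne', Real.mul_rpow Real.pi_pos.le hr0.le, Real.rpow_sub hr0, h4]
  generalize (d : ℝ) - 2 * (t * (Real.pi * r)) = D at *
  field_simp

end Pool.Agent.Eps.B
end
end

-- part Pool.Agent.Lib.MP_3bda03_nt.B.Mean
section

/-!
First moments.
-/

set_option autoImplicit false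

noncomputable section

open MeasureTheory Matrix Finset
open scoped ENNReal

namespace Pool.Agent.Eps.B

open Pool.Agent.Eps.H

section
variable {ι κ : Type} [Fintype ι] [Fintype κ]

theorem equiR_one {l : κ → ℤ} (hl : l ≠ 0) {G : (ι → ℝ) → ℝ≥0∞} (hG : Measurable G) :
    ∫⁻ T in cube κ ι, ∑' m : ι → ℤ, G (cv m + cv l ᵥ* T) = ∫⁻ x, G x := by
  have h1 : Ind (Matrix.of fun (_ : Unit) a => l a) := linearIndependent_unique_iff.2 hl
  have h2 : Measurable fun s : Matrix Unit ι ℝ => G (s ()) := hG.comp (measurable_row ())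
  have h3 := equi _ h1 _ h2
  rw [← (mp_one_row (ι := ι)).lintegral_comp h2] at h3
  refine Eq.trans (lintegral_congr fun t => ?_) h3
  exact ((Equiv.funUnique Unit (ι → ℤ)).tsum_eq fun m => G (cv m + cv l ᵥ* t)).symm

theorem equiR_two {l l' : κ → ℤ} (hl : Ind2 (l, l')) {G G' : (ι → ℝ) → ℝ≥0∞} (hG : Measurable G)
    (hG' : Measurable G') :
    ∫⁻ T in cube κ ι, (∑' m : ι → ℤ, G (cv m + cv l ᵥ* T)) * ∑' m : ι → ℤ, G' (cv m + cv l' ᵥ* T) =
      (∫⁻ x, G x) * ∫⁻ x, G' x := by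
  have h1 : Ind (Matrix.of ![l, l']) := hl
  have h0 : Measurable fun p : (ι → ℝ) × (ι → ℝ) => G p.1 * G' p.2 :=
    (hG.comp measurable_fst).mul (hG'.comp measurable_snd)
  have h2 : Measurable fun s : Matrix (Fin 2) ι ℝ => G (s 0) * G' (s 1) :=
    h0.comp ((measurable_row 0).prodMk (measurable_row 1))
  have h3 := equi _ h1 _ h2
  rw [← (mp_two_rows (ι := ι)).lintegral_comp h2] at h3
  refine Eq.trans (lintegral_congr fun t => ?_)
    (h3.trans (lintegral_prod_mul hG.aemeasurable hG'.aemeasurable))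
  simp only [← ENNReal.tsum_mul_right]
  simp only [← ENNReal.tsum_mul_left]
  rw [← ENNReal.tsum_prod]
  exact ((finTwoArrowEquiv (ι → ℤ)).tsum_eq
    fun p => G (cv p.1 + cv l ᵥ* t) * G' (cv p.2 + cv l' ᵥ* t)).symm

variable [DecidableEq ι]

theorem lintegral_vecMul {A : Matrix ι ι ℝ} (hA : A.det ≠ 0) {F : (ι → ℝ) → ℝ≥0∞}
    (hF : Measurable F) : ∫⁻ x, F (x ᵥ* A) = ENNReal.ofReal |A.det|⁻¹ * ∫⁻ x, F x := by
  have h : Measurable fun x : ι → ℝ => x ᵥ* A := Measurable.vmul measurable_id measurable_const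
  rw [← lintegral_map hF h, map_vecMul A hA, lintegral_smul_measure, smul_eq_mul]

theorem lintegral_fib {A : Matrix ι ι ℝ} (hA : A.det ≠ 0) {ψ : ℝ → ℝ≥0∞} (hψ : Measurable ψ)
    {l : κ → ℤ} (hl : l ≠ 0) (ρ : ℝ) :
    ∫⁻ T in cube κ ι, fib A ψ l ρ T = ENNReal.ofReal |A.det|⁻¹ * sm (Fintype.card ι) ψ ρ := by
  have h1 : Measurable fun x : ι → ℝ => ψ (nsq x + ρ) := hψ.comp (measurable_nsq.add_const ρ)
  rw [← sm_eq rfl hψ, ← lintegral_vecMul hA h1]
  exact equiR_one hl (h1.comp (Measurable.vmul measurable_id measurable_const))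

theorem lintegral_fib_mul {A : Matrix ι ι ℝ} (hA : A.det ≠ 0) {ψ : ℝ → ℝ≥0∞} (hψ : Measurable ψ)
    {l l' : κ → ℤ} (hl : Ind2 (l, l')) (ρ ρ' : ℝ) :
    ∫⁻ T in cube κ ι, fib A ψ l ρ T * fib A ψ l' ρ' T =
      ENNReal.ofReal |A.det|⁻¹ * sm (Fintype.card ι) ψ ρ *
        (ENNReal.ofReal |A.det|⁻¹ * sm (Fintype.card ι) ψ ρ') := by
  have h1 : ∀ ρ, Measurable fun x : ι → ℝ => ψ (nsq x + ρ) := fun ρ =>
    hψ.comp (measurable_nsq.add_const ρ)
  rw [← sm_eq rfl hψ, ← sm_eq rfl hψ, ← lintegral_vecMul hA (h1 ρ), ← lintegral_vecMul hA (h1 ρ')]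
  exact equiR_two hl ((h1 ρ).comp (Measurable.vmul measurable_id measurable_const))
    ((h1 ρ').comp (Measurable.vmul measurable_id measurable_const))

end

variable (b : ℕ → RB)

theorem good_base : Good b (Fin (b 0).g) (Measure.dirac (b 0).M) 1 := by
  refine ⟨inferInstance, by simp [dm], (ae_dirac_iff (measurableSet_eq_fun
    (continuous_abs.measurable.comp measurable_det) measurable_const)).2 (by simp [cov]),
    fun ψ hψ => ?_⟩
  rw [lintegral_dirac' _ (measurable_sn hψ), sum_range_one, lay, show dm b 0 = 0 from rfl,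
    show sm 0 ψ = ψ from funext (sm_zero ψ)]
  simp [cov]

theorem good_step {ι : Type} [Fintype ι] [DecidableEq ι] {μ : Measure (Matrix ι ι ℝ)} {k : ℕ}
    (h : Good b ι μ k) : Good b (ι ⊕ Fin (b k).g) (ens μ (b k).M) (k + 1) := by
  have := h.prob
  refine ⟨isProbabilityMeasure_ens μ _, by simp [dm, sum_range_succ, h.card], ?_, fun ψ hψ => ?_⟩
  · refine (ae_map_iff (measurable_glue measurable_fst measurable_const
      measurable_snd).aemeasurable (measurableSet_eq_fun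
        (continuous_abs.measurable.comp measurable_det) measurable_const)).2 ?_
    filter_upwards [Measure.quasiMeasurePreserving_fst.ae h.det] with p hp
    show |(glue _ _ _).det| = _
    rw [det_glue, abs_mul, hp, cov, cov, prod_range_succ]
  · have h1 : ∀ᵐ A ∂μ, ∫⁻ T in cube (Fin (b k).g) ι, sn (glue A (b k).M T) ψ =
        sn A ψ + lay b k ψ := by
      filter_upwards [h.det] with A hA
      have h2 : A.det ≠ 0 := abs_pos.1 (hA ▸ cov_pos b k)
      have h3 : ∀ (l : Fin (b k).g → ℤ) (ρ : ℝ), Measurable (fib A ψ l ρ) := fun l ρ =>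
        Measurable.of_uncurry_left (f := fun A T => fib A ψ l ρ T) (measurable_fib hψ l ρ)
      simp only [sn_glue]
      rw [lintegral_add_left measurable_const, setLIntegral_const, volume_cube, mul_one,
        lintegral_tsum fun l : {l : Fin (b k).g → ℤ // l ≠ 0} => (h3 l.1 _).aemeasurable]
      simp only [fun l : {l : Fin (b k).g → ℤ // l ≠ 0} => lintegral_fib h2 hψ l.2]
      rw [ENNReal.tsum_mul_left, hA, h.card]
      rfl
    rw [lintegral_ens μ _ (measurable_sn hψ), lintegral_congr_ae h1,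
      lintegral_add_right _ measurable_const, h.mean ψ hψ, lintegral_const, measure_univ, mul_one,
      sum_range_succ]

theorem good_mu4 : Good b (I4 b) (mu4 b) 4 :=
  good_step b (good_step b (good_step b (good_base b)))

theorem PP_ne_top (j : ℕ) (t : ℝ) : PP b j t ≠ ⊤ := ENNReal.ofReal_ne_top

theorem PP_ne_zero (j : ℕ) {t : ℝ} (ht : 0 < t) : PP b j t ≠ 0 := by
  exact (ENNReal.ofReal_pos.2 (mul_pos (inv_pos.2 (cov_pos b j)) (Real.rpow_pos_of_pos ht _))).ne'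

theorem vt_ne_top (j : ℕ) {t : ℝ} (ht : 0 < t) : vt b j t ≠ ⊤ := by
  rw [vt, sn_ga_eq (b j).hM ht]
  exact ENNReal.ofReal_ne_top

theorem lay_ga (j : ℕ) {t : ℝ} (ht : 0 < t) : lay b j (ga t) = PP b j t * vt b j t := by
  rw [lay, show sm (dm b j) (ga t) = _ from funext (sm_ga _ ht), sn_const_mul, PP, Pn,
    ENNReal.ofReal_mul (inv_pos.2 (cov_pos b j)).le, mul_assoc, vt]

theorem lay_ph_le (j : ℕ) (R : ℝ) {t : ℝ} (ht : 0 < t) :
    lay b j (ph R t) ≤ PP b j t * vt b j t := by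
  rw [← lay_ga b j ht]
  exact mul_le_mul_right (sn_mono _ fun ρ _ => sm_mono _ fun σ _ =>
    le_self_add.trans (ph_add_pl R t σ).le) _

theorem PP_step (l : ℕ) {t : ℝ} (ht : 0 < t) :
    PP b l t * (1 + vt b l t) = PP b (l + 1) t * (1 + vs b l t⁻¹) := by
  rw [vt, vs, sn_ga_dual (b l).hM ht, ← mul_assoc, PP, PP, Pn, Pn, Pn, ← ENNReal.ofReal_mul
    (mul_pos (inv_pos.2 (cov_pos b l)) (Real.rpow_pos_of_pos ht _)).le, mul_mul_mul_comm,
    ← Real.rpow_add ht, ← mul_inv, cov, cov, dm, dm, prod_range_succ, sum_range_succ,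
    Fintype.card_fin, Nat.cast_add, add_div, neg_add]

theorem tele {l0 k : ℕ} (h : l0 ≤ k) {t : ℝ} (ht : 0 < t) :
    (∑ l ∈ Ico l0 k, PP b l t * vt b l t) + PP b l0 t =
      PP b k t + ∑ l ∈ Ico l0 k, PP b (l + 1) t * vs b l t⁻¹ := by
  induction k, h using Nat.le_induction with
  | base => simp
  | succ k h ih =>
    rw [sum_Ico_succ_top h, sum_Ico_succ_top h, add_right_comm, ih, add_right_comm,
      ← mul_one_add, PP_step b k ht]
    ring

theorem mean_split {l0 k : ℕ} (h : l0 ≤ k) (f g : ℕ → ℝ≥0∞) :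
    ∑ l ∈ range k, (if l < l0 then f l else g l) = ∑ l ∈ range l0, f l + ∑ l ∈ Ico l0 k, g l := by
  rw [← sum_range_add_sum_Ico _ h]
  exact congrArg₂ _ (sum_congr rfl fun l hl => if_pos (mem_range.1 hl))
    (sum_congr rfl fun l hl => if_neg (not_lt.2 (mem_Ico.1 hl).1))

theorem sum_lay_ga_le (j l1 : ℕ) {c : ℝ} (hc : 0 < c) :
    ∑ l ∈ range j, lay b l (ga c) ≤ PP b j c + ee b j l1 c := by
  simp only [lay_ga b _ hc, ee]
  rcases le_total j l1 with h | h
  · refine le_add_left (le_of_eq (sum_congr rfl fun l hl => ?_))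
    rw [if_pos ((mem_range.1 hl).trans_le h)]
  · rw [mean_split h, ← sum_range_add_sum_Ico _ h, add_left_comm, ← tele b h hc]
    exact add_le_add_right le_self_add _

theorem mean_le (R : ℝ) {l0 k : ℕ} (h : l0 ≤ k) {t : ℝ} (ht : 0 < t) :
    (∑ l ∈ range k, lay b l (ph R t)) + PP b l0 t ≤ PP b k t + er b R k l0 t := by
  rw [er, mean_split h, ← sum_range_add_sum_Ico _ h, add_left_comm, ← tele b h ht, add_assoc]
  exact add_le_add_right (add_le_add_left (sum_le_sum fun l _ => lay_ph_le b l R ht) _) _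

end Pool.Agent.Eps.B
end
end

-- part Pool.Agent.Lib.MP_3bda03_nt.B.Pair
section

/-!
Pairs of parallel fibres.
-/

set_option autoImplicit false

noncomputable section

open MeasureTheory Matrix Finset
open scoped ENNReal

namespace Pool.Agent.Eps.B

open Pool.Agent.Eps.H

/-- the unimodular change of a pair of integer vectors -/
def pairEquiv (ι : Type) {p q u v : ℤ} (h : p * v - q * u = 1) :
    (ι → ℤ) × (ι → ℤ) ≃ (ι → ℤ) × (ι → ℤ) where
  toFun x := (p • x.2 + u • x.1, q • x.2 + v • x.1)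
  invFun x := (p • x.2 - q • x.1, v • x.1 - u • x.2)
  left_inv x := by
    ext i <;> simp only [Pi.add_apply, Pi.sub_apply, Pi.smul_apply, smul_eq_mul]
    · linear_combination x.1 i * h
    · linear_combination x.2 i * h
  right_inv x := by
    ext i <;> simp only [Pi.add_apply, Pi.sub_apply, Pi.smul_apply, smul_eq_mul]
    · linear_combination x.1 i * h
    · linear_combination x.2 i * h

theorem pair_split {α : Type} (f : α → ℝ≥0∞) (a : α) :
    ∑' x, f x = f a + ∑' x : {x // x ≠ a}, f x.1 := by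
  classical
  rw [ENNReal.tsum_eq_add_tsum_ite a]
  congr 1
  refine Eq.trans (tsum_congr fun x => ?_) (tsum_subtype {x | x ≠ a} f).symm
  by_cases hx : x = a <;> simp [hx]

theorem pair_pos {p q : ℤ} (h : p ≠ 0 ∨ q ≠ 0) : 0 < (p : ℝ) ^ 2 + (q : ℝ) ^ 2 := by
  rcases h with h | h
  · have : (p : ℝ) ≠ 0 := Int.cast_ne_zero.2 h
    positivity
  · have : (q : ℝ) ≠ 0 := Int.cast_ne_zero.2 h
    positivity

theorem pair_ph_le (R t ρ : ℝ) : ph R t ρ ≤ ga t ρ := ph_add_pl R t ρ ▸ le_self_add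

theorem pair_ga_ne (t ρ : ℝ) : ga t ρ ≠ ⊤ := ENNReal.ofReal_ne_top

theorem pair_ga_zero (t : ℝ) : ga t 0 = 1 := by simp [ga]

section
variable {ι κ : Type} [Fintype ι] [Fintype κ] [DecidableEq ι]

omit [DecidableEq ι] in
/-- unfolding a pair of parallel fibres -/
theorem pair_unfold {w : κ → ℤ} (hw : w ≠ 0) {p q u v : ℤ} (h : p * v - q * u = 1)
    {F G : (ι → ℝ) → ℝ≥0∞} (hF : Measurable F) (hG : Measurable G) :
    ∫⁻ T in cube κ ι, (∑' m : ι → ℤ, F (cv m + cv (p • w) ᵥ* T)) *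
        ∑' m : ι → ℤ, G (cv m + cv (q • w) ᵥ* T) =
      ∑' r : ι → ℤ, ∫⁻ x : ι → ℝ,
        F ((p : ℝ) • x + (u : ℝ) • cv r) * G ((q : ℝ) • x + (v : ℝ) • cv r) := by
  have hm : ∀ r : ι → ℤ, Measurable fun x : ι → ℝ =>
      F ((p : ℝ) • x + (u : ℝ) • cv r) * G ((q : ℝ) • x + (v : ℝ) • cv r) := fun r =>
    (hF.comp (by fun_prop)).mul (hG.comp (by fun_prop))
  have h1 : ∀ T : Matrix κ ι ℝ, (∑' m : ι → ℤ, F (cv m + cv (p • w) ᵥ* T)) *
        ∑' m : ι → ℤ, G (cv m + cv (q • w) ᵥ* T) = ∑' r : ι → ℤ, ∑' a : ι → ℤ,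
      F ((p : ℝ) • (cv a + cv w ᵥ* T) + (u : ℝ) • cv r) *
        G ((q : ℝ) • (cv a + cv w ᵥ* T) + (v : ℝ) • cv r) := fun T => by
    rw [← ENNReal.tsum_mul_right]
    simp only [← ENNReal.tsum_mul_left]
    rw [← ENNReal.tsum_prod, ← ENNReal.tsum_prod, ← (pairEquiv ι h).tsum_eq]
    refine tsum_congr fun x => ?_
    simp only [pairEquiv, Equiv.coe_fn_mk, cv_add, cv_smul, smul_vecMul, smul_add]
    rw [add_right_comm, add_right_comm ((q : ℝ) • cv x.2)]
  simp only [h1]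
  exact (lintegral_tsum fun r => (Measurable.tsum fun a => (hm r).comp
    (measurable_const.add (Measurable.vmul measurable_const measurable_id))).aemeasurable).trans
    (tsum_congr fun r => equiR_one hw (hm r))

omit [DecidableEq ι] in
theorem lintegral_ga_pair {p q u v : ℤ} (h : p * v - q * u = 1) {t : ℝ} (ht : 0 < t) (z : ι → ℝ) :
    ∫⁻ y : ι → ℝ, ga t (nsq ((p : ℝ) • y + (u : ℝ) • z)) * ga t (nsq ((q : ℝ) • y + (v : ℝ) • z)) =
      ENNReal.ofReal ((((p : ℝ) ^ 2 + (q : ℝ) ^ 2) * t) ^ (-((Fintype.card ι : ℝ) / 2))) *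
        ga (t / ((p : ℝ) ^ 2 + (q : ℝ) ^ 2)) (nsq z) := by
  have hN : 0 < (p : ℝ) ^ 2 + (q : ℝ) ^ 2 := pair_pos (by
    by_contra hc
    rw [not_or, not_not, not_not] at hc
    simp [hc.1, hc.2] at h)
  have h' : (p : ℝ) * v - q * u = 1 := by exact_mod_cast h
  set N := (p : ℝ) ^ 2 + (q : ℝ) ^ 2 with hN'
  have h1 : ∀ y : ι → ℝ, ga t (nsq ((p : ℝ) • y + (u : ℝ) • z)) *
      ga t (nsq ((q : ℝ) • y + (v : ℝ) • z)) =
      ga (N * t) (nsq (y + (((p : ℝ) * u + q * v) / N) • z) + 0) * ga (t / N) (nsq z) := fun y => by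
    rw [add_zero, div_eq_inv_mul t, ← ga_mul, ← ga_mul, ← ga_add, ← ga_add]
    congr 1
    simp only [nsq, mul_sum, ← sum_add_distrib, Pi.add_apply, Pi.smul_apply, smul_eq_mul]
    refine sum_congr rfl fun i _ => ?_
    field_simp
    rw [hN']
    linear_combination z i ^ 2 * ((p : ℝ) * v - q * u + 1) * h'
  simp only [h1]
  rw [lintegral_mul_const' _ _ (pair_ga_ne _ _), lintegral_add_right_eq_self (fun y : ι → ℝ => ga (N * t) (nsq y + 0)),
    sm_eq rfl (measurable_ga _), sm_ga _ (mul_pos hN ht), pair_ga_zero, mul_one]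

theorem pair_dep {A : Matrix ι ι ℝ} (hA : A.det ≠ 0) {w : κ → ℤ} (hw : w ≠ 0) {p q : ℤ}
    (h : IsCoprime p q) (R : ℝ) {t : ℝ} (ht : 0 < t) (ν : ℝ) :
    ∫⁻ T in cube κ ι, fib A (ph R t) (p • w) ((p : ℝ) ^ 2 * ν) T *
        fib A (ph R t) (q • w) ((q : ℝ) ^ 2 * ν) T ≤
      ENNReal.ofReal |A.det|⁻¹ *
          sm (Fintype.card ι) (fun ρ => ph R t ((p : ℝ) ^ 2 * ρ) * ph R t ((q : ℝ) ^ 2 * ρ)) ν +
        Pn |A.det| (Fintype.card ι) (((p : ℝ) ^ 2 + (q : ℝ) ^ 2) * t) *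
          ga (((p : ℝ) ^ 2 + (q : ℝ) ^ 2) * t) ν *
          sn A (ga (t / ((p : ℝ) ^ 2 + (q : ℝ) ^ 2))) := by
  obtain ⟨v, u', huv⟩ := h
  have h1 : p * v - q * -u' = 1 := by linear_combination huv
  generalize -u' = u at h1
  have hm : ∀ ρ : ℝ, Measurable fun x : ι → ℝ => ph R t (nsq (x ᵥ* A) + ρ) := fun ρ =>
    (measurable_ph R t).comp
      ((measurable_nsq.comp (Measurable.vmul measurable_id measurable_const)).add_const ρ)
  have hψ : Measurable fun ρ : ℝ => ph R t ((p : ℝ) ^ 2 * ρ) * ph R t ((q : ℝ) ^ 2 * ρ) :=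
    ((measurable_ph R t).comp (measurable_const_mul _)).mul
      ((measurable_ph R t).comp (measurable_const_mul _))
  refine (pair_unfold hw h1 (hm _) (hm _)).trans_le ?_
  rw [pair_split _ 0, sn, ← ENNReal.tsum_mul_left]
  refine add_le_add (le_of_eq ?_) (ENNReal.tsum_le_tsum fun r => ?_)
  · rw [← sm_eq rfl hψ]
    refine (lintegral_congr fun x => ?_).trans
      (lintegral_vecMul hA (hψ.comp (measurable_nsq.add_const ν)))
    simp only [cv_zero, smul_zero, add_zero, smul_vecMul, nsq_smul, mul_add]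
  · have hg : ∀ a c : ℝ, Measurable fun y : ι → ℝ => ga t (nsq (a • y + c • lv r.1 A)) :=
      fun a c => (measurable_ga t).comp (measurable_nsq.comp (by fun_prop))
    have h2 := lintegral_vecMul hA ((hg p u).mul (hg q v))
    simp only [Pi.mul_apply] at h2
    rw [lintegral_ga_pair h1 ht] at h2
    rw [Pn, ENNReal.ofReal_mul (by positivity), mul_right_comm, mul_assoc (ENNReal.ofReal _), ← h2,
      ← lintegral_mul_const' _ _ (pair_ga_ne _ _)]
    refine lintegral_mono fun x => ?_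
    refine (mul_le_mul' (pair_ph_le _ _ _) (pair_ph_le _ _ _)).trans_eq ?_
    rw [← ga_mul, add_mul, ga_add, ga_add, ga_add, add_vecMul, add_vecMul, smul_vecMul,
      smul_vecMul, smul_vecMul, smul_vecMul, mul_mul_mul_comm]
    rfl

end

theorem dep_le (b : ℕ → RB) {ι κ : Type} [Fintype ι] [DecidableEq ι] [Fintype κ]
    {μ : Measure (Matrix ι ι ℝ)} {j : ℕ} (hμ : Good b ι μ j) {w : κ → ℤ} (hw : w ≠ 0) {p q : ℤ}
    (h : IsCoprime p q) (R : ℝ) (l1 : ℕ) {t : ℝ} (ht : 0 < t) (ν : ℝ) :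
    ∫⁻ A, (∫⁻ T in cube κ ι, fib A (ph R t) (p • w) ((p : ℝ) ^ 2 * ν) T *
        fib A (ph R t) (q • w) ((q : ℝ) ^ 2 * ν) T) ∂μ ≤
      ENNReal.ofReal (cov b j)⁻¹ * sm (dm b j) (ph R t) ((p : ℝ) ^ 2 * ν) *
          (ENNReal.ofReal (cov b j)⁻¹ * sm (dm b j) (ph R t) ((q : ℝ) ^ 2 * ν)) +
        brk b R l1 j t p q ν := by
  have := hμ.prob
  have hc := cov_pos b j
  have hN := pair_pos h.ne_zero_or_ne_zero
  set N := (p : ℝ) ^ 2 + (q : ℝ) ^ 2 with hN'
  have h1 : ∀ᵐ A ∂μ, ∫⁻ T in cube κ ι, fib A (ph R t) (p • w) ((p : ℝ) ^ 2 * ν) T *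
      fib A (ph R t) (q • w) ((q : ℝ) ^ 2 * ν) T ≤ ENNReal.ofReal (cov b j)⁻¹ *
        sm (dm b j) (fun ρ => ph R t ((p : ℝ) ^ 2 * ρ) * ph R t ((q : ℝ) ^ 2 * ρ)) ν +
      PP b j (N * t) * ga (N * t) ν * sn A (ga (t / N)) := by
    filter_upwards [hμ.det] with A hA
    have h2 := pair_dep (abs_pos.1 (hA ▸ hc)) hw h R ht ν
    rwa [hA, hμ.card] at h2
  have h3 : PP b j (N * t) * PP b j (t / N) = PP b j t * PP b j t := by
    simp only [PP, Pn]
    rw [← ENNReal.ofReal_mul (by positivity), ← ENNReal.ofReal_mul (by positivity),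
      mul_mul_mul_comm, mul_mul_mul_comm _ (t ^ _), ← Real.mul_rpow (by positivity) (by positivity),
      ← Real.mul_rpow ht.le ht.le]
    congr 3
    field_simp
  have h4 : ∀ ρ, PP b j t * ga t ρ = ENNReal.ofReal (cov b j)⁻¹ * sm (dm b j) (ph R t) ρ +
      ENNReal.ofReal (cov b j)⁻¹ * sm (dm b j) (pl R t) ρ := fun ρ => by
    rw [← mul_add, sm_ph_add_pl, sm_ga _ ht, PP, Pn, ENNReal.ofReal_mul (by positivity), mul_assoc]
  have h5 : PP b j (N * t) * ga (N * t) ν * PP b j (t / N) =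
      PP b j t * ga t ((p : ℝ) ^ 2 * ν) * (PP b j t * ga t ((q : ℝ) ^ 2 * ν)) := by
    rw [mul_right_comm, h3, ← ga_mul, hN', add_mul, ga_add, mul_mul_mul_comm]
  refine (lintegral_mono_ae h1).trans ?_
  rw [lintegral_add_left measurable_const, lintegral_const, measure_univ, mul_one,
    lintegral_const_mul _ (measurable_sn (measurable_ga _)), hμ.mean _ (measurable_ga _)]
  refine (add_le_add le_rfl (mul_le_mul' le_rfl (sum_lay_ga_le b j l1 (div_pos ht hN)))).trans ?_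
  rw [mul_add, h5, brk, ← hN', h4, h4]
  generalize ENNReal.ofReal (cov b j)⁻¹ * sm (dm b j) (ph R t) ((p : ℝ) ^ 2 * ν) = y
  generalize ENNReal.ofReal (cov b j)⁻¹ * sm (dm b j) (ph R t) ((q : ℝ) ^ 2 * ν) = y'
  generalize ENNReal.ofReal (cov b j)⁻¹ * sm (dm b j) (pl R t) ((p : ℝ) ^ 2 * ν) = z
  generalize ENNReal.ofReal (cov b j)⁻¹ * sm (dm b j) (pl R t) ((q : ℝ) ^ 2 * ν) = z'
  refine (le_self_add (b := z * z')).trans_eq ?_
  ring

end Pool.Agent.Eps.B
end
end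

-- part Pool.Agent.Lib.MP_3bda03_nt.B.Assoc
section

/-!
The dual of a glued lattice is glued from the dual blocks in the reverse order.
-/

set_option autoImplicit false

noncomputable section

open MeasureTheory Matrix Finset
open scoped ENNReal

namespace Pool.Agent.Eps.B

open Pool.Agent.Eps.H

variable {α β γ : Type} [Fintype α] [Fintype β] [Fintype γ]

theorem assoc_neg {F : Matrix β α ℝ → ℝ≥0∞} (hF : Measurable F)
    (hp : ∀ (z : Matrix β α ℤ) (T : Matrix β α ℝ), F (cz z + T) = F T) :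
    ∫⁻ T in cube β α, F (-T) = ∫⁻ T in cube β α, F T := by
  have hi : Measurable ((cube β α).indicator (1 : Matrix β α ℝ → ℝ≥0∞)) :=
    measurable_one.indicator measurableSet_cube
  have h1 := equi_unfold (fun s => (cube β α).indicator 1 (-s) * F (-s))
    ((hi.mul hF).comp measurable_neg)
  rw [lintegral_neg_eq_self (fun s => (cube β α).indicator 1 s * F s)] at h1
  have h2 : ∀ s : Matrix β α ℝ, ∑' m : Matrix β α ℤ,
      (cube β α).indicator 1 (-(cz m + s)) * F (-(cz m + s)) = F (-s) := fun s => by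
    simp only [neg_add, ← equi_cz_neg, hp, ENNReal.tsum_mul_right]
    have h3 : ∑' m : Matrix β α ℤ,
        (cube β α).indicator (1 : Matrix β α ℝ → ℝ≥0∞) (cz (-m) + -s) = 1 :=
      ((Equiv.neg (Matrix β α ℤ)).tsum_eq fun m =>
        (cube β α).indicator (1 : Matrix β α ℝ → ℝ≥0∞) (cz m + -s)).trans (equi_tile _)
    rw [h3, one_mul]
  simp only [h2] at h1
  rw [h1, ← lintegral_indicator measurableSet_cube]
  refine lintegral_congr fun s => ?_
  by_cases h : s ∈ cube β α <;> simp [h]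

theorem assoc_mp_rows :
    MeasurePreserving (fun p : Matrix β α ℝ × Matrix γ α ℝ => Matrix.fromRows p.1 p.2)
      (volume.prod volume) volume := by
  have h : (fun p : Matrix β α ℝ × Matrix γ α ℝ => Matrix.fromRows p.1 p.2) =
      fun p : Matrix β α ℝ × Matrix γ α ℝ => (Matrix.of fun k j =>
        Sum.elim (fun a => p.1 a j) (fun b => p.2 b j) ((Equiv.refl (β ⊕ γ)).symm k) :
          Matrix (β ⊕ γ) α ℝ) := by
    funext p
    ext (k | k) j <;> rfl
  rw [h]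
  exact mp_rows (Equiv.refl (β ⊕ γ))

theorem assoc_mf {Γ : ((ℝ → ℝ≥0∞) → ℝ≥0∞) → ℝ≥0∞} (hΓ : MF Γ) {Ω : Type} [MeasurableSpace Ω]
    {f : Ω → Matrix α α ℝ} (hf : Measurable f) : Measurable fun x => Γ (sn (f x)) :=
  (hΓ α).comp hf

theorem assoc_meas_rows {Ω : Type} [MeasurableSpace Ω] {f : Ω → Matrix β α ℝ}
    {g : Ω → Matrix γ α ℝ} (hf : Measurable f) (hg : Measurable g) :
    Measurable fun x => Matrix.fromRows (f x) (g x) :=
  measurable_mx.2 fun k j => by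
    cases k
    exacts [measurable_mx.1 hf _ j, measurable_mx.1 hg _ j]

omit [Fintype γ] in
theorem assoc_glue (A : Matrix α α ℝ) (B : Matrix β β ℝ) (C : Matrix γ γ ℝ) (T : Matrix β α ℝ)
    (U : Matrix γ α ℝ) (S : Matrix γ β ℝ) :
    glue (glue A B T) C (Matrix.fromCols U S) =
      Matrix.reindex (Equiv.sumAssoc α β γ).symm (Equiv.sumAssoc α β γ).symm
        (glue A (glue B C S) (Matrix.fromRows T (U + S * T))) := by
  simp only [glue, Matrix.fromCols_mul_fromBlocks, Matrix.fromRows_mul, Matrix.mul_zero, zero_add,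
    Matrix.add_mul, Matrix.mul_assoc]
  ext (((i | i) | i)) (((j | j) | j)) <;> rfl

omit [Fintype α] [Fintype β] [Fintype γ] in
theorem assoc_rows_cz (T : Matrix β α ℝ) (z : Matrix γ α ℤ) (U : Matrix γ α ℝ) :
    Matrix.fromRows T (cz z + U) = cz (Matrix.fromRows 0 z) + Matrix.fromRows T U := by
  ext (i | i) j <;> simp [cz]

/-- the mean of a periodic function over the cube is translation invariant -/
theorem lintegral_cube_add {F : Matrix β α ℝ → ℝ≥0∞} (hF : Measurable F)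
    (hp : ∀ (z : Matrix β α ℤ) (T : Matrix β α ℝ), F (cz z + T) = F T) (S : Matrix β α ℝ) :
    ∫⁻ T in cube β α, F (T + S) = ∫⁻ T in cube β α, F T := by
  exact equi_per F hF hp S

theorem lintegral_cube_flip {F : Matrix α β ℝ → ℝ≥0∞} (hF : Measurable F)
    (hp : ∀ (z : Matrix α β ℤ) (T : Matrix α β ℝ), F (cz z + T) = F T) :
    ∫⁻ T in cube β α, F (-Tᵀ) = ∫⁻ T in cube α β, F T := by
  have h3 := (mp_transpose (α := β) (ι := α)).setLIntegral_comp_preimage
    (measurableSet_cube (α := β) (β := α)) (hF.comp measurable_neg)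
  have h4 : (fun X : Matrix β α ℝ => Xᵀ) ⁻¹' cube α β = cube β α :=
    Set.ext fun X => ⟨fun h b a => h a b, fun h a b => h b a⟩
  rw [h4] at h3
  exact h3.trans (assoc_neg hF hp)

theorem lintegral_cube_reindex {α' β' : Type} [Fintype α'] [Fintype β'] (e : β ≃ β') (e' : α ≃ α')
    {F : Matrix β' α' ℝ → ℝ≥0∞} (hF : Measurable F) :
    ∫⁻ T in cube β α, F (Matrix.reindex e e' T) = ∫⁻ T in cube β' α', F T := by
  have h3 := (mp_reindex (α := β) (ι := α) e e').setLIntegral_comp_preimage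
    (measurableSet_cube (α := α') (β := β')) hF
  have h4 : (fun X : Matrix β α ℝ => Matrix.reindex e e' X) ⁻¹' cube β' α' = cube β α :=
    Set.ext fun X => ⟨fun h b a => by simpa using h (e b) (e' a), fun h b a => h _ _⟩
  rwa [h4] at h3

theorem lintegral_cube_cols {F : Matrix γ (α ⊕ β) ℝ → ℝ≥0∞} (hF : Measurable F) :
    ∫⁻ T in cube γ (α ⊕ β), F T =
      ∫⁻ S in cube γ β, ∫⁻ U in cube γ α, F (Matrix.fromCols U S) := by
  have hm : MeasurePreserving (fun p : Matrix γ α ℝ × Matrix γ β ℝ => Matrix.fromCols p.1 p.2)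
      (volume.prod volume) volume := mp_cols (Equiv.refl (α ⊕ β))
  have h3 := hm.setLIntegral_comp_preimage (measurableSet_cube (α := α ⊕ β) (β := γ)) hF
  have h4 : (fun p : Matrix γ α ℝ × Matrix γ β ℝ => Matrix.fromCols p.1 p.2) ⁻¹'
      cube γ (α ⊕ β) = cube γ α ×ˢ cube γ β :=
    Set.ext fun p => ⟨fun h => ⟨fun c a => h c (Sum.inl a), fun c b => h c (Sum.inr b)⟩,
      fun h c j => by
        cases j
        exacts [h.1 c _, h.2 c _]⟩
  rw [← h3, h4, ← Measure.prod_restrict]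
  exact lintegral_prod_symm' _ (hF.comp hm.measurable)

theorem lintegral_cube_rows {F : Matrix (β ⊕ γ) α ℝ → ℝ≥0∞} (hF : Measurable F) :
    ∫⁻ T in cube (β ⊕ γ) α, F T =
      ∫⁻ S in cube β α, ∫⁻ U in cube γ α, F (Matrix.fromRows S U) := by
  have hm := assoc_mp_rows (α := α) (β := β) (γ := γ)
  have h3 := hm.setLIntegral_comp_preimage (measurableSet_cube (α := α) (β := β ⊕ γ)) hF
  have h4 : (fun p : Matrix β α ℝ × Matrix γ α ℝ => Matrix.fromRows p.1 p.2) ⁻¹'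
      cube (β ⊕ γ) α = cube β α ×ˢ cube γ α :=
    Set.ext fun p => ⟨fun h => ⟨fun b a => h (Sum.inl b) a, fun c a => h (Sum.inr c) a⟩,
      fun h k a => by
        cases k
        exacts [h.1 _ a, h.2 _ a]⟩
  rw [← h3, h4, ← Measure.prod_restrict]
  exact lintegral_prod _ (hF.comp hm.measurable).aemeasurable

/-- random gluing is associative -/
theorem assoc {Γ : ((ℝ → ℝ≥0∞) → ℝ≥0∞) → ℝ≥0∞} (hΓ : MF Γ) (A : Matrix α α ℝ) (B : Matrix β β ℝ)
    (C : Matrix γ γ ℝ) :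
    ∫⁻ T in cube β α, ∫⁻ T' in cube γ (α ⊕ β), Γ (sn (glue (glue A B T) C T')) =
      ∫⁻ S in cube γ β, ∫⁻ S' in cube (β ⊕ γ) α, Γ (sn (glue A (glue B C S) S')) := by
  have hG : Measurable fun p : (Matrix β α ℝ × Matrix γ β ℝ) × Matrix γ α ℝ =>
      Γ (sn (glue A (glue B C p.1.2) (Matrix.fromRows p.1.1 p.2))) :=
    assoc_mf hΓ (measurable_glue measurable_const
      (measurable_glue measurable_const measurable_const measurable_fst.snd)
      (assoc_meas_rows measurable_fst.fst measurable_snd))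
  have h1 : ∀ T : Matrix β α ℝ, ∫⁻ T' in cube γ (α ⊕ β), Γ (sn (glue (glue A B T) C T')) =
      ∫⁻ S in cube γ β, ∫⁻ U in cube γ α,
        Γ (sn (glue A (glue B C S) (Matrix.fromRows T U))) := fun T => by
    have hm : Measurable fun T' : Matrix γ (α ⊕ β) ℝ => Γ (sn (glue (glue A B T) C T')) :=
      assoc_mf hΓ (measurable_glue measurable_const measurable_const measurable_id')
    rw [lintegral_cube_cols hm]
    refine lintegral_congr fun S => ?_
    have hm' : Measurable fun U : Matrix γ α ℝ =>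
        Γ (sn (glue A (glue B C S) (Matrix.fromRows T U))) :=
      assoc_mf hΓ (measurable_glue measurable_const measurable_const
        (assoc_meas_rows measurable_const measurable_id'))
    rw [← lintegral_cube_add hm' (fun z U => by rw [assoc_rows_cz, sn_glue_add_cz]) (S * T)]
    refine lintegral_congr fun U => ?_
    rw [assoc_glue, sn_reindex]
  have h2 : ∀ S : Matrix γ β ℝ, ∫⁻ S' in cube (β ⊕ γ) α, Γ (sn (glue A (glue B C S) S')) =
      ∫⁻ T in cube β α, ∫⁻ U in cube γ α,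
        Γ (sn (glue A (glue B C S) (Matrix.fromRows T U))) := fun S => by
    have hm : Measurable fun S' : Matrix (β ⊕ γ) α ℝ => Γ (sn (glue A (glue B C S) S')) :=
      assoc_mf hΓ (measurable_glue measurable_const measurable_const measurable_id')
    rw [lintegral_cube_rows hm]
  rw [lintegral_congr h1, lintegral_congr h2]
  exact lintegral_lintegral_swap (f := fun (T : Matrix β α ℝ) (S : Matrix γ β ℝ) =>
    ∫⁻ U in cube γ α, Γ (sn (glue A (glue B C S) (Matrix.fromRows T U))))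
    hG.lintegral_prod_right'.aemeasurable

end Pool.Agent.Eps.B
end
end
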