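import Mathlib

-- part Pool.Agent.Lib.MP_3bda03_nt.T.Stir
section

/-! Stirling bounds at integers and half integers. -/

set_option autoImplicit false

namespace Pool.Agent.Eps.T

open Real Stirling Filter in
theorem stir_log {m : ℕ} (hm : 1 ≤ m) :
    0 ≤ log m.factorial - (log (2 * π * m) / 2 + m * (log m - 1)) ∧
      log m.factorial - (log (2 * π * m) / 2 + m * (log m - 1)) ≤ 1 / (12 * m) := by
  have h0 : (0 : ℝ) < m := by exact_mod_cast hm
  have e : log m.factorial - (log (2 * π * m) / 2 + m * (log m - 1)) =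
      log (stirlingSeq m) - log √π := by
    rw [log_stirlingSeq_formula, log_sqrt pi_pos.le, log_div h0.ne' (exp_pos 1).ne', log_exp,
      mul_right_comm, log_mul (x := 2 * m) (by positivity) pi_pos.ne']
    ring
  have h1 : ∀ k : ℕ, log (stirlingSeq m) - 1 / (12 * m) ≤ log (stirlingSeq (k + m)) -
      1 / (12 * (k + m : ℕ)) := fun k => by
    induction k with
    | zero => rw [zero_add]
    | succ k ih =>
      have h2 := log_stirlingSeq_sdiff_le (k + m)
      have h3 : (0 : ℝ) < (k + m : ℕ) := by exact_mod_cast Nat.add_pos_right k hm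
      rw [show (1 : ℝ) / (12 * (k + m : ℕ) * ((k + m : ℕ) + 1)) =
        1 / (12 * (k + m : ℕ)) - 1 / (12 * ((k + m : ℕ) + 1)) by field_simp; ring] at h2
      rw [Nat.add_right_comm, Nat.cast_add_one]
      linarith
  have h4 := ge_of_tendsto' ((tendsto_add_atTop_iff_nat m).2
    (tendsto_stirlingSeq_sqrt_pi.log (by positivity))) fun k =>
      (h1 k).trans (sub_le_self _ (by positivity))
  rw [e]
  exact ⟨sub_nonneg.2 (log_le_log (by positivity) (sqrt_pi_le_stirlingSeq (by omega))), by linarith⟩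

open Real in
theorem stir_exp {x y : ℝ} (hx : 0 < x) (hy : 0 < y) : y = √(2 * π * x) * (x / exp 1) ^ x *
    exp (log y - (log (2 * π * x) / 2 + x * (log x - 1))) := by
  rw [sqrt_eq_rpow, rpow_def_of_pos (by positivity), rpow_def_of_pos (by positivity), ← exp_add,
    ← exp_add, log_div hx.ne' (exp_pos 1).ne', log_exp, ← exp_log hy, log_exp]
  congr 1
  ring

theorem stirling_nat {m : ℕ} (hm : 1 ≤ m) : ∃ θ : ℝ, 0 ≤ θ ∧ θ ≤ 1 / (12 * m) ∧
    (m.factorial : ℝ) = Real.sqrt (2 * Real.pi * m) * ((m : ℝ) / Real.exp 1) ^ m * Real.exp θ := by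
  refine ⟨_, (stir_log hm).1, (stir_log hm).2, ?_⟩
  rw [← Real.rpow_natCast]
  exact stir_exp (by exact_mod_cast hm) (by positivity)

open Real in
theorem stir_half {m : ℝ} (hm : 1 ≤ m) : 1 / (12 * m) ≤ (m + 1 / 2) * log (1 + 1 / (2 * m)) - 1 / 2 ∧
    (m + 1 / 2) * log (1 + 1 / (2 * m)) - 1 / 2 ≤ 1 / (8 * m) := by
  have h0 : 0 < m := by linarith
  have h1 := le_log_one_add_of_nonneg (x := 1 / (2 * m)) (by positivity)
  have h2 := self_le_sinh_iff.2 (log_nonneg (x := 1 + 1 / (2 * m)) (by simp [h0.le]))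
  rw [sinh_log (by positivity)] at h2
  constructor
  · refine le_trans ?_ (sub_le_sub_right (mul_le_mul_of_nonneg_left h1 (by positivity)) _)
    rw [show (m + 1 / 2) * (2 * (1 / (2 * m)) / (1 / (2 * m) + 2)) - 1 / 2 = 1 / (8 * m + 2) by
      field_simp; ring]
    exact one_div_le_one_div_of_le (by positivity) (by linarith)
  · refine (sub_le_sub_right (mul_le_mul_of_nonneg_left h2 (by positivity)) _).trans (le_of_eq ?_)
    field_simp
    ring

theorem stirling {n : ℕ} (hn : 2 ≤ n) : ∃ θ : ℝ, 0 ≤ θ ∧ θ ≤ 1 / (4 * ((n : ℝ) / 2)) ∧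
    Real.Gamma ((n : ℝ) / 2 + 1) = Real.sqrt (2 * Real.pi * ((n : ℝ) / 2)) *
      ((n : ℝ) / 2 / Real.exp 1) ^ ((n : ℝ) / 2) * Real.exp θ := by
  refine ⟨_, ?_, ?_, stir_exp (by positivity) (Real.Gamma_pos_of_pos (by positivity))⟩ <;>
    obtain ⟨m, rfl | rfl⟩ := n.even_or_odd'
  all_goals
    have hm : 1 ≤ m := by omega
    have h0 : (1 : ℝ) ≤ m := by exact_mod_cast hm
    have h1 := stir_log hm
    have h2 := stir_log (m := 2 * m + 1) (by omega)
    have h3 := stir_half h0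
    have h4 := congrArg Real.log (Real.Gamma_mul_Gamma_add_half ((m : ℝ) + 1))
    have h5 : Real.log (1 + 1 / (2 * m)) = Real.log (m + 1 / 2) - Real.log m := by
      rw [← Real.log_div (by positivity) (by positivity)]
      congr 1
      field_simp
    have h6 : ((2 * m + 1 : ℕ) : ℝ) = 2 * (m + 1 / 2) := by push_cast; ring
    have h7 : ∀ x : ℝ, 0 < x → Real.log (2 * Real.pi * x) =
        Real.log 2 + Real.log Real.pi + Real.log x := fun x hx => by
      rw [Real.log_mul (by positivity) hx.ne', Real.log_mul two_ne_zero Real.pi_pos.ne']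
    rw [show 2 * ((m : ℝ) + 1) = (2 * m + 1 : ℕ) + 1 by push_cast; ring, Real.Gamma_nat_eq_factorial,
      Real.Gamma_nat_eq_factorial, Real.log_mul (by positivity) (by positivity),
      Real.log_mul (by positivity) (by positivity), Real.log_mul (by positivity) (by positivity),
      Real.log_rpow two_pos, Real.log_sqrt Real.pi_pos.le, h6, add_right_comm] at h4
    rw [h6, h7 _ (by positivity), Real.log_mul two_ne_zero (by positivity)] at h2
  · rw [show ((2 * m : ℕ) : ℝ) / 2 = m by push_cast; ring, Real.Gamma_nat_eq_factorial]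
    exact h1.1
  · rw [h6, mul_div_cancel_left₀ _ two_ne_zero, h7 _ (by positivity)]
    rw [h7 _ (by positivity)] at h1
    rw [h5] at h3
    linarith [h1.2, h2.1, h3.1]
  · rw [show ((2 * m : ℕ) : ℝ) / 2 = m by push_cast; ring, Real.Gamma_nat_eq_factorial]
    exact h1.2.trans (one_div_le_one_div_of_le (by positivity) (by linarith))
  · rw [h6, mul_div_cancel_left₀ _ two_ne_zero, h7 _ (by positivity)]
    rw [h7 _ (by positivity)] at h1
    rw [h5] at h3
    have h8 : 1 / (12 * (2 * ((m : ℝ) + 1 / 2))) + 1 / (8 * m) ≤ 1 / (4 * (m + 1 / 2)) := by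
      rw [div_add_div _ _ (by positivity) (by positivity), div_le_div_iff₀ (by positivity)
        (by positivity)]
      nlinarith
    linarith [h1.1, h2.2, h3.2]

end Pool.Agent.Eps.T
end

-- part Pool.Agent.Lib.MP_3bda03_nt.B.Chk
section

/-!
The numerical checker: fixed point arithmetic with 512 fractional bits, exponents in units of
the 384-th root of two.
-/

set_option autoImplicit false

namespace Pool.Agent.Eps.B

/-- evaluate the argument first -/
def frc {α : Type} (x : ℕ) (f : ℕ → α) : α := Nat.rec (f 0) (fun n _ => f (Nat.succ n)) x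

/-- sum over the indices below `n` -/
def sumTo (n : ℕ) (f : ℕ → ℕ) : ℕ := Nat.rec 0 (fun i acc => Nat.add acc (f i)) n

/-- conjunction over the indices below `n` -/
def allTo (n : ℕ) (f : ℕ → Bool) : Bool := Nat.rec true (fun i acc => and (f i) acc) n

/-- sum over a list -/
def sumL {α : Type} (l : List α) (f : α → ℕ) : ℕ :=
  List.rec 0 (fun a _ acc => Nat.add (f a) acc) l

/-- the powers of the unit, rounded up at scale `2 ^ 64`, in fields of 72 bits -/
def tU : ℕ :=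
  0x1ff139e81d5a4ce4b01fe27aa259e2915ca01fd3c22b8f71f109801fc510809955bef7601fb6659e544ed1c8401fa7c1819e90d82ea01f99242757c1adb7301f8a8d8c60f8afe1d01f7bfdad9cbe1389201f6d7487ef0a3a99201f5ef2183d450a14601f50765b6e454067501f42014e6a4fcc0a901f3392ee1b172272a01f252b376bba974e901f16ca2748c5b413a01f086fbaa02f8fd7601efa1bee615a2777201eebcebf7d11b60d001edd882ae58c0db1f01ecf482d8e67f08dc01ec10ec46cac6a33401eb2dbec76c8294a401ea4afa2a490d985901e9689e3ef427de6301e886aad517ecb4ab01e7a51fbc74c834b601e6c3fcc4e16cf62101e5e341be4ac9c5eb01e502ee78b3ff627401e42302c436563c4301e3437e7101343b7a01e264614f5a128a1301e185ab2f9c7362c701e0a75be239d7e4af01dfc97337b9b5eb9701deebf100b96ded0001de0ed50dec40d9d201dd321f301b4604b701dc55cf3825610d2301db79e4f6ff37cf0201da9e603db328570901d9c340dd613edbb101d8e886a73f2bbacb01d80e316c98397bb901d73440fecd42d64101d65ab52f54a8bdfc01d5818dcfba48725e01d4a8cab19f71935201d3d06ba6badc3a6b01d2f87080d89f18ae01d220d911da2598e001d149a52bb62606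6d01d072d4a07897b8d101cf9c674242a9439a01cec65ce34ab6aade01cdf0b555dc3f9c4501cd1b706c57ddac9601cc468df9333a99bc01cb720dcef906915101ca9defc048ee7baa01c9ca339fd7924b5601c8f6d9406e7b511b01c823e074ec12946b01c75149104397304701c67f12e57d14b4a301c5ad3dc7b5598c2801c4dbc98a1ded667801c40ab5fffd07a6d201c33a02fcad85d72301c269b0539ee21f8601c199bdd85529c22301c0ca2b5e68f39b7701bffaf8b98756a6ff01bf2c25bd71e0884101be5db23dfe8c183401bd8f9e0f17b7f70a01bcc1e904bc1d224801bbf492f2fec58f4a01bb279bae0702ca0801ba5b030a1064984101b98ec8db6aafa0ee01b8c2ecf679d4180b01b7f76f2fb5e46eab01b72c4f5bab0c075c01b6618d4ef985eed301b59728de559398e401b4cd21de8773a1ba01b40378246b58935b01b33a2b84f15faf6c01b2713bd51d87bd3501b1a8a8ea07a7dbe301b0e07298db66590901b01898b6d82f8b5b01af511b19512cb1a301ae89f995ad3ad5e901adc3340166e1b4d701acfcca320c4aa94801ac36bbfd3f379c0e01ab710938b4f9f7e601aaabb1ba3669a19701a9e6b5579fdbf43f01a92213e6e11ac1c801a85dcd3dfd5b578501a799e1330b3586f301a6d64f9c349ab2a4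01a613184fb6ccdf4101a5503b23e255c8b501a48db7ef1afdfb7001a3cb8e87d7c3f1ce01a309bec4a2d3358d01a248487c197b856401a1872b84ec27feaf01a0c667b5de564b2a01a005fce5c68dd2c6019f45eaeb8e56f18a019e86319e32323183019dc6d0d4c18f88c4019d07c8665ec59b70019c49182a3f0901c8019b8abff7aa63924a019accbfa5fbabafcd019a0f170ca07b9ba4019951c6031928cbc4019894cc60f8bb44ea0197d829fde4e4f8ba01971bdeb195f927e101965fea53d6e3c82c0195a44cbc8520ee9c0194e905c390b43d6f01942e1540fc20561c0193737b0cdc5e4f460192b936ff58d52e990191ff48f0ab5166a2019145b0b91ffc588b01908c6e311553d9c4018fd38130fc21bd9c018f1ae991577362ba018e62a72abc914483018daab9d5d2f69063018cf3216b5448bef3018c3bddc40c4f310b018b84eeb8d8ead0a9018ace5422aa0db5bb018a180dda81b2cec20189621bb973d58d520188ac7d98a66996660187f733515152768d0187423cbcbe5b59eb01868d99b4492ec80f0185d94a115f4e63910185254dad800aad8f018471a4623c7acce60183be4e093774594401830b4a7c258329fd0182589994cce128ad0181a63b2d056e279b0180f42f1eb8a7bbe10180427543e1a11b6101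7f910d768cfafe6e017edff790d8db853a017e2f336cf4e62106017d7ec0e522338106017cce9fd3b3498307017c1ed0130c1327c5017b6f517da1d88b04017ac023edfb36df50017a11473eb0186d7e017962bb4a69ac97d20178b47febe25fe0e201780694fde5d3f61a017758fa5b50d7bdfa0176abafdf115f69f40175feb564267c8bf70175520ac5a0562fa90174a5afdea020f7360173f9a48a58173bd601734de8a40b7131e90172a27c070e5d10b70171f75e8ec5f73dd301714c9016a8427c140170a2107a3c201e32016ff7df9519483cf9016f4dfd42e841f112016ea4695f625b9069016dfb23c651a2ef23016d522c5390dda428016ca982e30b815146016c012750bdabeed8016b591978b41c1b05016ab159370c296c89016a09e667f3bcc909016962c0e7a948bef30168bbe8927bc1e2df0168155d44ca97308201676f1edb05aa6f1a0166c92d31ad48996401662388255222491301657e2f92954425c50164d92356280f5778016434634ccc31fc7701638fef53539fa2cd0162ebc746a089c522016247eb03a5584b200161a45a6764a20d3f016101154ef1255c1401605e1b976dc08b08015fbb6d1e0d6a7e85015f1909c0132b3d96015e76f15ad21486ea015dd523cbad3a6956015d33a0f017abdfb0015c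9268a5946b701d015bf17ac9b667cec6015b50d73a207483f4015ab07dd48542958d015a106e76a75933f6015970a8fe590e6a5c0158d12d497c7fd253015831fb36038b4add01579312a1efc7b2ca0156f4736b527da66f0156561d704ca040c40155b8108f0ec5dfca01551a4ca5d920ec5301547cd192fb78a51f0153df9f34d521ed44015342b569d4f81df10152a614107955db82015209bb07500dedd901516daa2cf6641c120150d1e16019060b78015036607f740421cd014f9b2769d2ca6ad4014f0035fe10198128014e658c1b15ff7a55014dcb299fddd0d63c014d310e6b702171ad014c973a5ce4bd7c53014bfdad5362a271d5014b64672e1ff81635014acb67cc62097577014a32af0d7d3de67301499a3cd0d51210f201490210f5dc10f6f401486a2b5c13cd013d0147d28be30cd90f0501473b326a66c188ef0146a41ed1d005772601460d50f9060f9aac014576c8bfd52f89e20144e086061892d03201444a88abba3e10ed0143b4d090b3062d5401431f5d950a896dc801428a2f98d728ae230141f5467c3e008d3b014160a21f72e29f850140cc4262b84ea4e101403827265f6bc185013fa4504ac801ba0c013f10bdb0607232a2013e7d6f37a5b1f14e013dea64c12342235c013d579e2d7329a5df013cc5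1b5d3dee5150013c32dc313a8e4841013ba0e08a2e794929013b0f2848ed8a0349013a7db34e59ff6ea20139ec817b647626fb01395b92b10be1c9fc0138cae6d05d86585b01383a7dba74f19a120137aa57507bf485a401371a7373aa9caa7201368ad205472d9e110135fb72e6a61a6cb401356c55f929ff0c950134dd7b1e4399d46601344ee23771c4f4c90133c08b26416ff4ca01333275cc4d99315c0132a4a20b3f475fcf0132170fc4cd831354013189bedabd50456f0130fcaf2ee1a7e16f01306fe0a31b7152df012fe35319597c16ee012f570673987950d1012ecafa93e2f5611d012e3f2f5c51518016012db3a4af09bd5af0012d285a6e4030b401012c9d507c366505ef012c1286bb3bcf29bf012b87fd0dad98ffde012afdb355f69b1c15012a73a9768f5674610129e9df51fdee12c301296054cad620c9ee0128d709c3b942ece201284dfe1f5638096d0127c531c0696ca59301273ca489bccfffd40126b4565e27cdd25801262c47208f4819030125a476b3e590da5b01251ce4fb2a63f35901249591d96ae0e60f01240e7d31c184ab2f012387a6e75623866d0123010edd5de2ddb201227ab4f71b3313330121f49917ddc9625601216ebb230299bf6f0120e91afbf3d0ba53012063b88628cd63b9011fde93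a5261b3572011f59ac3c7d6bfd6c011ed5022fcd91cb89011e509562c278e23c011dcc65b91521a9fe011d4873168b9aa781011cc4bd5ef8fa74b5011c4144763d59bc92011bbe084045cd39ac011b3b08a10c5fb788011ab8457c980c16bd011a35beb6fcb753cc0119b374345b2a90ca01193165d8e10d21bc0118af9388c8de9bbc01182dfd2859f0e6da0117aca29be86252b201172b83c7d517adce0116aaa0908db65fb2011629f8da8c9e85a80115a98c8a58e512490115295b84864defb00114a965adb5462470011429aaea92ddfb350113aa2b1fd8c32d1801132ae6324d3b0eae0112abdc06c31cbfba01122d0c8219cb5d950111ae77893d30384a0111301d0125b50a4f0110b1fcced83e32fb01103416d76624f397010fb66affed31af24010f38f92d97962cbd010ebbc1459be7dcae010e3ec32d3d1a2021010dc1fec9ca789379010d4574009fa15b4f010cc922b7247f7408010c4d0ad2cd45041b010bd12c391a65b0e6010b5586cf9890f62a010ada1a7be0ac8024010a5ee72397ce883b0109e3ecac6f3834530109692afc244ff8ac0108eea1f8809bfc64010874518759bc808d0107fa398e916649d101078059f4155d0cb6010706b29ddf6ddc6e01068d4371f5699c3b0106140c56691f736201059b0d31585743af01052245e8eccc228a0104a9b6635c26d4960104315e86e7f84bd80103b93e39ddb42875010341556296ab3bed0102c9a3e778060ee701025229aef2bf69800101dae69f839ede20010163da9fb33356d90100ed059615cda54301007667694b7b14e0010000000000000000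

def tw (i : ℕ) : ℕ := Nat.mod (Nat.shiftRight tU (Nat.mul 72 i)) 4722366482869645213696

/-- one -/
def one : ℕ := Nat.shiftLeft 1 512

def puN (F : ℕ) : ℕ :=
  Nat.succ (Nat.shiftRight (Nat.shiftLeft (tw (Nat.mod F 384)) (Nat.div F 384)) 64)

def pdN (F : ℕ) : ℕ :=
  Nat.shiftRight (Nat.shiftLeft (Nat.pred (tw (Nat.mod F 384))) (Nat.div F 384)) 64

/-- a power of the unit, rounded up -/
def pu (e : ℤ) : ℕ := puN (Int.toNat (Int.add e 196608))

/-- a power of the unit, rounded down -/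
def pd (e : ℤ) : ℕ := pdN (Int.toNat (Int.add e 196608))

/-- product, rounded up -/
def mu (x y : ℕ) : ℕ := Nat.succ (Nat.shiftRight (Nat.mul x y) 512)

/-- product, rounded down -/
def md (x y : ℕ) : ℕ := Nat.shiftRight (Nat.mul x y) 512

/-- quotient by an integer, rounded up -/
def du (x k : ℕ) : ℕ := Nat.succ (Nat.div x k)

/-- exponent of `exp (-π y)`, rounded up -/
def ex (y : ℕ) : ℤ := Int.neg (Int.ofNat (Nat.shiftRight (Nat.mul y 1913618947384936) 552))

def piU : ℕ := Nat.shiftLeft 3708937962535486895310 442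

def hU : ℕ := Nat.shiftLeft 31755141044 472

def hL : ℕ := Nat.shiftLeft 31755141020 472

def sqStep (Y s : ℕ) : ℕ := Nat.succ (Nat.div (Nat.add s (Nat.div Y s)) 2)

/-- square root, rounded up -/
def sqU (y : ℕ) : ℕ :=
  (fun Y => sqStep Y (sqStep Y (sqStep Y (sqStep Y (sqStep Y (sqStep Y
    (Nat.shiftLeft 1 (Nat.succ (Nat.div (Nat.log2 Y) 2))))))))) (Nat.shiftLeft y 512)

/-- polynomial evaluation, rounded up -/
def horU (c : ℕ → ℕ) (y n : ℕ) : ℕ :=
  Nat.rec (motive := fun _ => ℕ → ℕ) (fun acc => acc)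
    (fun k ih acc => ih (Nat.add (mu acc y) (c k))) n 0

/-- polynomial evaluation, rounded down -/
def horD (c : ℕ → ℕ) (y n : ℕ) : ℕ :=
  Nat.rec (motive := fun _ => ℕ → ℕ) (fun acc => acc)
    (fun k ih acc => ih (Nat.add (md acc y) (c k))) n 0

/-- entry of a packed table of exponents -/
def fld (T i : ℕ) : ℤ :=
  Int.subNatNat (Nat.mod (Nat.shiftRight T (Nat.mul 24 i)) 16777216) 8388608

/-- data of a lattice: dimension, binary logarithm of the squared covolume, shells below `N1`,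
tail bound from the grid point `k0` on, a lower bound for the norms, table of the theta series -/
structure HB where
  g : ℕ
  ld : ℕ
  sh : List (ℕ × ℕ)
  N1 : ℕ
  k0 : ℤ
  tbe : ℤ
  nm : ℕ
  len : ℕ
  tab : ℕ

/-- table value at the grid point `k` -/
def HB.th (h : HB) (k : ℤ) : ℤ :=
  frc (Int.toNat (Int.sub k h.k0)) fun i => fld h.tab (cond (Nat.ble i h.len) i h.len)

/-- theta series without constant term at the grid point `k`, rounded up -/
def HB.node (h : HB) (k : ℕ) : ℕ :=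
  (fun x => Nat.add (sumL h.sh fun p => Nat.mul p.2 (pu (ex (Nat.mul x p.1))))
    (pu (Int.add h.tbe (ex (Nat.mul x h.N1))))) (pd (Int.mul 16 (Int.add h.k0 (Int.ofNat k))))

def HB.cellOK (h : HB) (k : ℕ) : Bool :=
  (fun a c => (fun q => and (Nat.ble (h.node k) (pd (Int.sub a q)))
      (Nat.ble (frc (Nat.succ k) h.node) (pd (Int.sub c q))))
    (Int.ofNat (Nat.succ (Nat.div (Int.toNat (Int.sub a c)) 256))))
    (fld h.tab k) (fld h.tab (Nat.succ k))

/-- the check of the table -/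
def HB.tabOK (h : HB) : Bool :=
  and (Nat.ble 1 h.len) (and (allTo h.len h.cellOK)
    (and (Nat.ble h.nm h.N1) (h.sh.all fun p => Nat.ble h.nm p.1)))

/-- a layer: the block at scale `a`, its dual at scale `ao`, dimension and covolume below,
switching points -/
structure Ly where
  hb : HB
  a : ℤ
  ho : HB
  ao : ℤ
  d : ℕ
  cf : ℤ
  m0 : ℕ
  m1 : ℕ

/-- one side -/
structure SD where
  y0 : Ly
  y1 : Ly
  y2 : Ly
  y3 : Ly
  n : ℕ
  cf : ℤ
  Rn : ℕ
  M : ℕ
  ga : ℕ
  be : ℕ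

def SD.y (S : SD) (j : ℕ) : Ly :=
  Nat.rec S.y0 (fun j _ => Nat.rec S.y1 (fun j _ => Nat.rec S.y2 (fun _ _ => S.y3) j) j) j

def SD.d (S : SD) (j : ℕ) : ℕ := cond (Nat.ble 4 j) S.n (S.y j).d

def SD.c (S : SD) (j : ℕ) : ℤ := cond (Nat.ble 4 j) S.cf (S.y j).cf

/-- exponent of the main term below layer `j` at the grid point `k` -/
def SD.pe (S : SD) (j : ℕ) (k : ℤ) : ℤ :=
  Int.sub (Int.mul (-2) (S.c j)) (Int.mul (Int.ofNat (Nat.mul 8 (S.d j))) k)

def SD.Rf (S : SD) : ℕ := Nat.shiftLeft S.Rn 504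

/-- the scale of the layer, rounded down -/
def Ly.ad (y : Ly) : ℕ := pd (Int.mul 16 y.a)

/-- shells that may lie inside the ball -/
def Ly.lo (y : Ly) (Rf : ℕ) : List (ℕ × ℕ) := y.hb.sh.filter fun p => Nat.blt (Nat.mul y.ad p.1) Rf

/-- shells outside the ball -/
def Ly.hi (y : Ly) (Rf : ℕ) : List (ℕ × ℕ) :=
  y.hb.sh.filter fun p => not (Nat.blt (Nat.mul y.ad p.1) Rf)

def Ly.ru (y : Ly) (Rf N : ℕ) : ℕ := Nat.sub Rf (Nat.mul y.ad N)

def Ly.xu (y : Ly) (Rf N : ℕ) : ℕ := mu piU (y.ru Rf N)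

/-- volumes of balls in the dimensions of the parity of `d` -/
def Ly.tq (y : Ly) (Rf N q : ℕ) : ℕ :=
  Nat.rec (cond (Nat.beq (Nat.mod y.d 2) 0) one (Nat.mul 2 (sqU (y.ru Rf N))))
    (fun q ih => du (Nat.mul 2 (mu ih (y.xu Rf N))) (Nat.add (Nat.mod y.d 2) (Nat.mul 2 (Nat.succ q))))
    q

def Ly.co (y : Ly) (Rf q : ℕ) : ℕ := sumL (y.lo Rf) fun p => Nat.mul p.2 (y.tq Rf p.1 q)

def Ly.c0 (y : Ly) (Rf : ℕ) : ℕ :=
  cond (and (Nat.beq (Nat.mod y.d 2) 0) (not (Nat.beq y.d 0))) 0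
    (Nat.mul (sumL (y.lo Rf) fun p => p.2) one)

def tdn (m : ℕ) : ℕ := pd (Int.ofNat (Nat.mul 16 m))

def tun (m : ℕ) : ℕ := pu (Int.ofNat (Nat.mul 16 m))

def Ly.xd (y : Ly) (m : ℕ) : ℕ := pd (Int.mul 16 (Int.add y.a (Int.ofNat m)))

/-- mean of the truncated Gaussian sum over layer `j` at the grid point `m` -/
def SD.mv (S : SD) (j m : ℕ) : ℕ :=
  cond (Nat.beq (S.y j).hb.g 0) 0
    ((fun y pe => Nat.add
      (mu (pu (Int.add pe (ex (md (tdn m) S.Rf))))
        (Nat.add (y.c0 S.Rf)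
          (mu (cond (Nat.beq (Nat.mod y.d 2) 0) one (pu (Int.ofNat (Nat.mul 8 m))))
            (horU (y.co S.Rf) (tun m) (Nat.div y.d 2)))))
      (Nat.add (sumL (y.hi S.Rf) fun p => Nat.mul p.2 (pu (Int.add pe (ex (Nat.mul (y.xd m) p.1)))))
        (pu (Int.add (Int.add pe y.hb.tbe) (ex (Nat.mul (y.xd m) y.hb.N1))))))
      (S.y j) (S.pe j (Int.ofNat m)))

def mn (x y : ℕ) : ℕ := cond (Nat.ble x y) x y

/-- the removed mean times the full mean -/
def SD.hv (S : SD) (j m : ℕ) : ℕ :=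
  cond (Nat.beq (S.y j).hb.g 0) 0
    ((fun y pe => sumL (y.lo S.Rf) fun p => Nat.mul p.2
      ((fun v X => cond (Nat.blt X (Nat.mul y.d one))
          (mn v (du (Nat.mul (Nat.mul y.d one) (mu (y.tq S.Rf p.1 (Nat.div y.d 2))
            (pu (Int.add (Int.add pe (Int.mul (-2) y.cf))
              (ex (Nat.add (Nat.mul (y.xd m) p.1) (md (tdn m) S.Rf)))))))
            (Nat.sub (Nat.mul y.d one) X))) v)
        (pu (Int.add (Int.mul 2 pe) (ex (Nat.mul 2 (Nat.mul (y.xd m) p.1)))))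
        (Nat.mul 2 (mu (tun m) (y.xu S.Rf p.1)))))
      (S.y j) (S.pe j (Int.ofNat m)))

/-- expected number of vectors of layer `j` in the ball -/
def SD.en (S : SD) (j : ℕ) : ℕ :=
  cond (Nat.beq (S.y j).hb.g 0) 0
    (mu ((S.y j).co S.Rf (Nat.div (S.y j).d 2)) (pu (Int.mul (-2) (S.y j).cf)))

/-- the logarithmically convex part of the variance at the grid point `m` -/
def SD.fv (S : SD) (m : ℕ) : ℕ :=
  Nat.succ (sumTo 3 fun j => Nat.add (Nat.mul 2 (frc (Nat.add m 24) (S.mv (Nat.succ j))))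
    (Nat.mul 7 (S.hv (Nat.succ j) m)))

/-- the primal part of the error of the mean at the grid point `m` -/
def SD.ms (S : SD) (l0 m : ℕ) : ℕ := Nat.succ (sumTo l0 fun l => frc l fun l => S.mv l m)

def corA (A B : ℕ) : ℕ := Nat.add A (du (Nat.mul A (Nat.sub A B)) (Nat.mul 256 B))

def corB (A B : ℕ) : ℕ := Nat.add B (du (Nat.sub A B) 256)

/-- zero for an empty block -/
def nz (y : Ly) (x : ℕ) : ℕ := cond (Nat.beq y.hb.g 0) 0 x

/-- `WW e` times the error term below layer `j` at the grid point `k` -/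
def SD.ev (S : SD) (j l1 : ℕ) (k e : ℤ) : ℕ :=
  sumTo j fun l => nz (S.y l) (cond (Nat.blt l l1)
    (pu (Int.add (Int.add e (S.pe l k)) ((S.y l).hb.th (Int.add (S.y l).a k))))
    (pu (Int.add (Int.add e (S.pe (Nat.succ l) k)) ((S.y l).ho.th (Int.sub (S.y l).ao k)))))

/-- exponent of main term times theta series of layer `j` at the grid point `k` -/
def SD.pt (S : SD) (j : ℕ) (k : ℤ) : ℤ := Int.add (S.pe j k) ((S.y j).hb.th (Int.add (S.y j).a k))

def SD.gam (S : SD) (m : ℕ) : ℤ := fld S.ga m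

def SD.bet (S : SD) (m : ℕ) : ℤ := fld S.be m

def SD.t2 (S : SD) (l1 m : ℕ) : ℕ :=
  sumTo 3 fun j => nz (S.y (Nat.succ j)) (S.ev (Nat.succ j) l1 (Int.subNatNat m 24)
    (Int.add (S.bet m) (S.pt (Nat.succ j) (Int.ofNat (Nat.add m 24)))))

def SD.t3 (S : SD) (m : ℕ) : ℕ :=
  sumTo 3 fun j => nz (S.y (Nat.succ j)) ((fun e => Nat.add (pu e)
    (S.ev (Nat.succ j) 0 (Int.subNatNat m 48) e))
    (Int.add (S.bet m) (S.pt (Nat.succ j) (Int.ofNat (Nat.add m 48)))))

def SD.l0 (S : SD) (m : ℕ) : ℕ := sumTo 4 fun l => cond (Nat.ble (S.y l).m0 m) 1 0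

def SD.l1 (S : SD) (m : ℕ) : ℕ := sumTo 4 fun l => cond (Nat.ble (S.y l).m1 m) 1 0

/-- weighted variance at the end `m'` of a cell, from the corrected convex part `F` -/
def SD.vE (S : SD) (l1 m' F : ℕ) : ℕ :=
  Nat.add (mu (pu (S.bet m')) F) (Nat.add (Nat.mul 2 (S.t2 l1 m')) (Nat.mul 4 (S.t3 m')))

/-- relative centre at the end `m'` of a cell, from the corrected convex part `F` -/
def SD.rE (S : SD) (l0 m' F : ℕ) : ℕ :=
  (fun e => Nat.add (Nat.add (pu (Int.add (S.gam m') e)) (mu (pu e) F))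
    (sumTo 4 fun l => cond (Nat.blt l l0) 0 (nz (S.y l)
      (pu (Int.add (Int.add e (S.pe (Nat.succ l) (Int.ofNat m')))
        ((S.y l).ho.th (Int.sub (S.y l).ao (Int.ofNat m'))))))))
    (Int.neg (S.pe l0 (Int.ofNat m')))

def SD.pE (S : SD) (l0 m' : ℕ) : ℕ := pu (Int.add (S.bet m') (Int.mul 2 (S.pe l0 (Int.ofNat m'))))

def sqm (r : ℕ) : ℕ := mu (Nat.sub r one) (Nat.sub r one)

def cellC (vA vB rA rB pA pB : ℕ) : ℕ :=
  Nat.add (du (Nat.add vA vB) 2)
    (Nat.add (mu (sqm rA) (Nat.add (du pA 3) (du pB 6))) (mu (sqm rB) (Nat.add (du pA 6) (du pB 3))))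

/-- the cost of the cell `m` -/
def SD.cell (S : SD) (m : ℕ) : ℕ :=
  frc (Nat.succ m) fun m' => frc m fun m => frc (S.l0 m) fun l0 => frc (S.l1 m) fun l1 =>
    cellC (S.vE l1 m (corA (S.fv m) (S.fv m'))) (S.vE l1 m' (corB (S.fv m) (S.fv m')))
      (S.rE l0 m (corA (S.ms l0 m) (S.ms l0 m'))) (S.rE l0 m' (corB (S.ms l0 m) (S.ms l0 m')))
      (S.pE l0 m) (S.pE l0 m')

/-- the cost of one side -/
def SD.cost (S : SD) : ℕ :=
  Nat.add (Nat.add (mu hU (sumTo S.M S.cell)) (du (sumTo 4 S.en) 2))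
    (Nat.mul 8 (mu (pu (Int.neg (S.pe 4 (Int.ofNat S.M)))) (frc S.M (S.ms 4))))

def ile (a b : ℤ) : Bool := decide (a ≤ b)

/-- all table entries used on the cell `m` are inside the tables -/
def SD.cellV (S : SD) (m : ℕ) : Bool :=
  allTo 4 fun l => or (Nat.beq (S.y l).hb.g 0)
    (and (or (Nat.blt l (S.l0 m)) (ile (S.y l).ho.k0 ((S.y l).ao - m - 1)))
      (or (Nat.beq l 3) (and (ile (S.y l).ho.k0 ((S.y l).ao - m + 47))
        (cond (Nat.blt l (S.l1 m)) (ile (S.y l).hb.k0 ((S.y l).a + m - 24))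
          (ile (S.y l).ho.k0 ((S.y l).ao - m + 23))))))

def SD.layV (S : SD) (l : ℕ) : Bool :=
  and (Nat.beq (S.d (l + 1)) (S.d l + (S.y l).hb.g))
    (and (decide (S.c (l + 1) = S.c l + 96 * (S.y l).hb.ld + 4 * (S.y l).a * (S.y l).hb.g))
      (or (Nat.beq (S.y l).hb.g 0)
        (and (ile (S.y l).hb.k0 (S.y l).a) (and (Nat.ble S.Rf ((S.y l).ad * (S.y l).hb.N1))
          (Nat.ble one (6 * ((S.y l).ad * (S.y l).hb.nm)))))))

/-- the side conditions -/
def SD.valid (S : SD) : Bool :=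
  and (Nat.beq (S.d 0) 0) (and (decide (S.c 0 = 0)) (and (allTo 4 S.layV) (and (allTo S.M S.cellV)
    (Nat.ble (S.n * one) (6 * md (tdn S.M) S.Rf)))))

def jn (m : ℕ) : ℤ := Int.ofNat ((2 * m + 1) ^ 2 * 7 / 7680 + 1)

def SD.gc (S : SD) (m : ℕ) : ℕ :=
  pd (S.cf + ((S.gam m + S.gam (m + 1)) / 2 - jn m))

def SD.hcf (S : SD) (m : ℕ) : ℕ :=
  Nat.mul (cond (or (Nat.beq m 0) (Nat.beq m S.M)) 1 2) (pu (2 * S.cf - S.bet m))

/-- drift at `s = i / 4`, rounded down -/
def SD.gn (S : SD) (i : ℕ) : ℕ :=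
  Nat.add (md hL (md (pd (Int.ofNat (Nat.mul 2 i))) (horD S.gc (pd (Int.ofNat (Nat.mul 4 i))) S.M)))
    (Nat.div (Nat.mul 7 (pd (-S.cf - 8 * S.n * S.M + 4 * S.M * i - jn S.M))) (2 * (2 * S.n - i + 1)))

/-- dual norm at `s = i / 4`, rounded up -/
def SD.hn (S : SD) (i : ℕ) : ℕ :=
  mu hU (du (horU S.hcf (pu (Int.ofNat (Nat.mul 8 i))) (Nat.succ S.M)) 2)

def aOK (S S' : SD) (i : ℕ) : Bool :=
  (fun G => Nat.blt (Nat.add (S.hn i) (S'.hn (2 * S.n - i))) (md G G))
    (Nat.add (S.gn i) (S'.gn (2 * S.n - i)))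

/-- the whole check for one dimension -/
def check (S S' : SD) : Bool :=
  and (Nat.beq S'.n S.n) (and (decide (S'.cf = -S.cf)) (and S.valid (and S'.valid
    (and (Nat.blt (Nat.add S.cost S'.cost) one) (allTo (2 * S.n + 1) (aOK S S'))))))

end Pool.Agent.Eps.B
end

-- part Pool.Agent.Lib.MP_3bda03_nt.B.Cnt
section

/-!
Counting the short vectors of an integral lattice by generating functions evaluated at a large
power of two.
-/

set_option autoImplicit false

namespace Pool.Agent.Eps.B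

/-- entry of a packed matrix of natural numbers -/
def mxn (P i j : ℕ) : ℕ := Nat.mod (Nat.shiftRight P (Nat.mul 16 (Nat.add (Nat.mul 24 i) j))) 65536

/-- entry of a packed matrix of integers -/
def mxz (P i j : ℕ) : ℤ := Int.subNatNat (mxn P i j) 32768

/-- a lattice: lower triangular basis `G`, weights `w` of the coordinates, and a sublattice
of vectors divisible by `m` with a parity condition, whose basis is `T * G` -/
structure LD where
  g : ℕ
  G : ℕ
  T : ℕ
  w : ℕ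
  par : ℕ
  m : ℕ
  X : ℕ
  N1 : ℕ

def LD.wt (L : LD) (i : ℕ) : ℕ := mxn L.w 0 i

def LD.pr (L : LD) (i : ℕ) : ℕ := mxn L.par 0 i

def LD.gm (L : LD) (i j : ℕ) : ℕ := mxn L.G i j

def LD.tz (L : LD) (i j : ℕ) : ℤ := mxz L.T i j

def LD.td (L : LD) (i : ℕ) : ℕ := Int.toNat (L.tz i i)

/-- the basis of the sublattice -/
def LD.hz (L : LD) (i j : ℕ) : ℤ :=
  if i = j then (if i = 0 then ((L.m * (1 + L.pr 0) : ℕ) : ℤ) else (L.m : ℤ))
  else if j = 0 then ((L.m * L.pr i : ℕ) : ℤ) else 0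

def LD.Md (L : LD) : ℕ := Nat.shiftLeft 1 (Nat.mul 80 L.N1)

/-- one coordinate: the sum over `x = u - X`, congruent to `a` modulo `m`, with the sign given by
the parity of `s * (x - a) / m` -/
def LD.cp (L : LD) (w s a : ℕ) : ℕ :=
  sumTo (2 * L.X + 1) fun u =>
    (fun (x : ℤ) => if (x - a) % L.m = 0 then
      (fun v => if (s * ((x - a) / L.m)) % 2 = 0 then v else L.Md - v)
        (Nat.mod (Nat.shiftLeft 1 (80 * (w * x.natAbs ^ 2))) L.Md) else 0) ((u : ℤ) - L.X)

def LD.cq (L : LD) (sg i a : ℕ) : ℕ :=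
  frc (L.wt i) fun w => frc (Nat.mul sg (L.pr i)) fun s =>
    frc (Nat.mod a (Nat.mul 2 L.m)) fun a => L.cp w s a

/-- the sum over the cosets of the product over the coordinates below `i` -/
def LD.tree (L : LD) (sg i : ℕ) : (ℕ → ℕ) → ℕ :=
  Nat.rec (motive := fun _ => (ℕ → ℕ) → ℕ) (fun _ => 1)
    (fun i ih acc => cond (Nat.beq (L.td i) 1)
      (Nat.mod (Nat.mul (L.cq sg i (acc i)) (ih acc)) L.Md)
      (Nat.mod (sumTo (L.td i) fun r =>
        (fun acc' : ℕ → ℕ => Nat.mul (L.cq sg i (acc' i)) (ih acc'))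
          (cond (Nat.beq r 0) acc (fun j => Nat.add (acc j) (Nat.mul r (L.gm i j))))) L.Md)) i

/-- twice the generating function -/
def LD.tot (L : LD) : ℕ :=
  Nat.mod (cond (Nat.beq (L.pr 0) 0) (Nat.mul 2 (L.tree 0 L.g fun _ => 0))
    (Nat.add (L.tree 0 L.g fun _ => 0) (L.tree 1 L.g fun _ => 0))) L.Md

def prodTo (n : ℕ) (f : ℕ → ℕ) : ℕ := Nat.rec 1 (fun i acc => Nat.mul acc (f i)) n

def sumZ (n : ℕ) (f : ℕ → ℤ) : ℤ := Nat.rec 0 (fun i acc => Int.add acc (f i)) n

def cntOf (sh : List (ℕ × ℕ)) (N : ℕ) : ℕ := sumL sh fun p => cond (Nat.beq p.1 N) p.2 0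

/-- the shape of the data -/
def LD.shape (L : LD) : Bool :=
  and (allTo L.g fun i => allTo L.g fun j =>
      and (or (Nat.ble j i) (and (Nat.beq (L.gm i j) 0) (decide (L.tz i j = 0))))
        (decide (sumZ L.g (fun l => Int.mul (L.tz i l) (Int.ofNat (L.gm l j))) = L.hz i j)))
    (and (allTo L.g fun i => and (Nat.ble 1 (L.td i)) (and (Nat.ble 1 (L.gm i i))
        (and (Nat.ble 1 (L.wt i)) (Nat.ble (L.pr i) (L.pr 0)))))
      (and (Nat.ble (L.pr 0) 1) (and (Nat.ble 1 L.m) (and (Nat.ble L.N1 ((L.X + 1) ^ 2))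
        (Nat.blt (2 * prodTo L.g L.td * (2 * L.X / L.m + 1) ^ L.g) (2 ^ 80))))))

/-- the digits of the generating function are bounded by the shells -/
def LD.digs (L : LD) (sh : List (ℕ × ℕ)) : Bool :=
  allTo L.N1 fun N => or (Nat.beq N 0)
    (Nat.ble (Nat.mod (Nat.shiftRight L.tot (Nat.mul 80 N)) (2 ^ 80)) (2 * cntOf sh N))

/-- exponent of `exp (π y)`, rounded up -/
def exu (y : ℕ) : ℤ := Int.ofNat (Nat.succ (Nat.shiftRight (Nat.mul y 1913618948765322) 552))

/-- the theta series of the integers from an upper bound `q` of the nome -/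
def thz (q : ℕ) : ℕ := Nat.add one (du (Nat.mul (Nat.mul 2 q) one) (Nat.sub one (mu q (mu q q))))

def prodU (n : ℕ) (f : ℕ → ℕ) : ℕ := Nat.rec one (fun i acc => mu acc (f i)) n

def nome (h : HB) (lk w : ℕ) : ℕ := pu (ex (Nat.mul w (pd (16 * (-h.k0 - 24 * lk)))))

/-- the check of the tail constant; `L` carries the weights of the dual lattice -/
def tailOK (h : HB) (L : LD) (lk : ℕ) : Bool :=
  and (allTo h.g fun i => (fun q => Nat.blt (mu q (mu q q)) one) (nome h lk (L.wt i)))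
    (Nat.ble (mu (prodU h.g fun i => frc (L.wt i) fun w => thz (nome h lk w))
      (pu (exu (Nat.mul (pu (16 * h.k0)) h.N1) - 192 * h.ld - 8 * h.g * h.k0))) (pd h.tbe))

/-- the check of duality: `D = V * G'` and `D * Gᵀ = k` -/
def pairOK (L L' : LD) (V D k om lk : ℕ) : Bool :=
  and (Nat.beq L'.g L.g) (and (Nat.beq (om * k ^ 2) (2 ^ lk))
    (and (allTo L.g fun i => Nat.beq (L.wt i * L'.wt i) om)
      (allTo L.g fun i => allTo L.g fun j =>
        and (decide (sumZ L.g (fun l => Int.mul (mxz V i l) (Int.ofNat (L'.gm l j))) = mxz D i j))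
          (decide (sumZ L.g (fun l => Int.mul (mxz D i l) (Int.ofNat (L.gm j l))) =
            if i = j then (k : ℤ) else 0)))))

/-- all the cheap checks of a block -/
def blkOK (L L' : LD) (V D k om lk : ℕ) (h h' : HB) : Bool :=
  and L.shape (and L'.shape (and (pairOK L L' V D k om lk)
    (and (Nat.beq h.g L.g) (and (Nat.beq h'.g L.g) (and (Nat.beq h.N1 L.N1) (and (Nat.beq h'.N1 L'.N1)
      (and (Nat.beq (prodTo L.g fun i => L.gm i i ^ 2 * L.wt i) (2 ^ h.ld))
        (and (Nat.beq (h.ld + h'.ld) (lk * L.g)) (and (tailOK h L' lk) (tailOK h' L lk))))))))))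

end Pool.Agent.Eps.B
end
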