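import Pool.Agent.Lib.MP_3bda03_nt.B.SideMean
import Pool.Agent.Lib.MP_3bda03_nt.B.Cnt

/-!
Soundness of the fixed point arithmetic.
-/

set_option autoImplicit false

noncomputable section

open MeasureTheory Matrix Finset
open scoped ENNReal

namespace Pool.Agent.Eps.B

open Pool.Agent.Eps.H

/-- the real number represented by a fixed point number -/
def vr (x : ℕ) : ℝ := (x : ℝ) / 2 ^ 512

/-- the same as an extended nonnegative real -/
def val (x : ℕ) : ℝ≥0∞ := ENNReal.ofReal (vr x)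

theorem frc_eq {α : Type} (x : ℕ) (f : ℕ → α) : frc x f = f x := by
  cases x <;> rfl

theorem sumTo_eq (n : ℕ) (f : ℕ → ℕ) : sumTo n f = ∑ i ∈ range n, f i := by
  induction n with
  | zero => rfl
  | succ n ih => rw [sum_range_succ, ← ih]; rfl

theorem prodTo_eq (n : ℕ) (f : ℕ → ℕ) : prodTo n f = ∏ i ∈ range n, f i := by
  induction n with
  | zero => rfl
  | succ n ih => rw [prod_range_succ, ← ih]; rfl

theorem sumZ_eq (n : ℕ) (f : ℕ → ℤ) : sumZ n f = ∑ i ∈ range n, f i := by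
  induction n with
  | zero => rfl
  | succ n ih => rw [sum_range_succ, ← ih]; rfl

theorem allTo_iff (n : ℕ) (f : ℕ → Bool) : allTo n f = true ↔ ∀ i, i < n → f i = true := by
  induction n with
  | zero => exact iff_of_true rfl fun i h => absurd h (Nat.not_lt_zero i)
  | succ n ih =>
    rw [Nat.forall_lt_succ_right, ← ih, and_comm, ← Bool.and_eq_true]
    rfl

theorem sumL_eq {α : Type} (l : List α) (f : α → ℕ) : sumL l f = (l.map f).sum := by
  induction l with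
  | nil => rfl
  | cons a l ih => rw [List.map_cons, List.sum_cons, ← ih]; rfl

theorem tw_check : allTo 384 (fun i => and (Nat.ble (2 ^ (24576 + i)) (tw i ^ 384))
    (Nat.ble ((tw i - 1) ^ 384) (2 ^ (24576 + i)))) = true := by
  decide +kernel

theorem fix_pos : (0 : ℝ) < 2 ^ 512 := pow_pos two_pos _

theorem fix_le_div (a k : ℕ) : (a : ℝ) / k ≤ (Nat.succ (Nat.div a k) : ℕ) := by
  have h := Nat.lt_floor_add_one ((a : ℝ) / k)
  rw [Nat.floor_div_eq_div] at h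
  exact h.le.trans_eq (Nat.cast_succ _).symm

theorem fix_shr_le (a k : ℕ) : ((Nat.shiftRight a k : ℕ) : ℝ) ≤ a / 2 ^ k := by
  have h := Nat.cast_div_le (α := ℝ) (m := a) (n := 2 ^ k)
  rwa [← Nat.shiftRight_eq_div_pow, Nat.cast_pow, Nat.cast_ofNat] at h

theorem fix_le_shr (a k : ℕ) : (a : ℝ) / 2 ^ k ≤ (Nat.succ (Nat.shiftRight a k) : ℕ) := by
  have h := fix_le_div a (2 ^ k)
  rw [Nat.cast_pow, Nat.cast_ofNat] at h
  exact h.trans_eq (congrArg (fun x : ℕ => ((Nat.succ x : ℕ) : ℝ))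
    (Nat.shiftRight_eq_div_pow a k).symm)

theorem fix_shl (a k : ℕ) : ((Nat.shiftLeft a k : ℕ) : ℝ) = a * 2 ^ k := by
  have h := congrArg (Nat.cast : ℕ → ℝ) (Nat.shiftLeft_eq a k)
  rwa [Nat.cast_mul, Nat.cast_pow, Nat.cast_ofNat] at h

theorem fix_vr_shl (a : ℕ) {k j : ℕ} (h : k + j = 512) : vr (Nat.shiftLeft a k) = a / 2 ^ j := by
  rw [vr, fix_shl, ← h, pow_add, mul_comm, mul_div_mul_left _ _ (pow_pos two_pos k).ne']

theorem fix_le_vr {a : ℝ} {x : ℕ} (h : a ≤ x) : a / 2 ^ 512 ≤ vr x :=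
  div_le_div_of_nonneg_right h fix_pos.le

theorem fix_vr_le {a : ℝ} {x : ℕ} (h : x ≤ a) : vr x ≤ a / 2 ^ 512 :=
  div_le_div_of_nonneg_right h fix_pos.le

theorem vr_nonneg (x : ℕ) : 0 ≤ vr x := by
  exact div_nonneg x.cast_nonneg fix_pos.le

theorem vr_pos {x : ℕ} (h : 0 < x) : 0 < vr x := by
  exact div_pos (Nat.cast_pos.2 h) fix_pos

theorem vr_one : vr one = 1 := by
  rw [one, fix_vr_shl 1 (j := 0) rfl, pow_zero, div_one, Nat.cast_one]

theorem vr_add (x y : ℕ) : vr (x + y) = vr x + vr y := by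
  rw [vr, Nat.cast_add, add_div, vr, vr]

theorem vr_nat_mul (k x : ℕ) : vr (k * x) = k * vr x := by
  rw [vr, Nat.cast_mul, mul_div_assoc, vr]

theorem vr_mul_nat (x k : ℕ) : vr (x * k) = vr x * k := by
  rw [mul_comm, vr_nat_mul, mul_comm]

theorem vr_sub (x y : ℕ) : vr (x - y) = max (vr x - vr y) 0 := by
  rcases le_total x y with h | h
  · have h1 : vr x ≤ vr y := fix_le_vr (Nat.cast_le.2 h)
    rw [Nat.sub_eq_zero_of_le h, max_eq_right (sub_nonpos.2 h1), vr, Nat.cast_zero, zero_div]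
  · have h1 : vr y ≤ vr x := fix_le_vr (Nat.cast_le.2 h)
    rw [max_eq_left (sub_nonneg.2 h1), vr, Nat.cast_sub h, sub_div, vr, vr]

theorem vr_le_iff {x y : ℕ} : vr x ≤ vr y ↔ x ≤ y := by
  rw [vr, vr, div_le_div_iff_of_pos_right fix_pos, Nat.cast_le]

theorem vr_lt_iff {x y : ℕ} : vr x < vr y ↔ x < y := by
  rw [vr, vr, div_lt_div_iff_of_pos_right fix_pos, Nat.cast_lt]

theorem vr_shift (x : ℕ) : vr (Nat.shiftLeft x 504) = x / 256 := by
  rw [fix_vr_shl x (j := 8) rfl]; norm_num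

theorem fix_Wr (n : ℕ) : Wr (384 * n) = 2 ^ n := by
  rw [Wr, mul_div_cancel_left₀ _ (by norm_num), Real.rpow_natCast]

theorem fix_tw {i : ℕ} (hi : i < 384) :
    2 ^ 64 * Wr i ≤ tw i ∧ ((Nat.pred (tw i) : ℕ) : ℝ) ≤ 2 ^ 64 * Wr i := by
  have h := (allTo_iff _ _).1 tw_check i hi
  rw [Bool.and_eq_true, Nat.ble_eq, Nat.ble_eq] at h
  generalize tw i = w at h ⊢
  have h0 : 0 ≤ 2 ^ 64 * Wr i := mul_nonneg (pow_pos two_pos _).le (Wr_pos _).le
  have h1 : (2 ^ 64 * Wr i) ^ 384 = ((2 ^ (24576 + i) : ℕ) : ℝ) := by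
    rw [mul_pow, ← pow_mul (2 : ℝ) 64 384, Wr, ← Real.rpow_mul_natCast zero_le_two, Nat.cast_ofNat,
      div_mul_cancel₀ _ (by norm_num), Real.rpow_natCast, ← pow_add, Nat.cast_pow, Nat.cast_ofNat]
  constructor
  · refine le_of_pow_le_pow_left₀ (n := 384) (by norm_num) w.cast_nonneg ?_
    rw [h1, ← Nat.cast_pow]
    exact Nat.cast_le.2 h.1
  · refine le_of_pow_le_pow_left₀ (n := 384) (by norm_num) h0 ?_
    rw [h1, ← Nat.cast_pow]
    exact Nat.cast_le.2 h.2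

theorem fix_split (F : ℕ) : Wr ((F : ℝ) - 196608) =
    2 ^ 64 * Wr (F % 384 : ℕ) * 2 ^ (F / 384) / 2 ^ 64 / 2 ^ 512 := by
  have h : (F : ℝ) - 196608 = (F % 384 : ℕ) + 384 * (F / 384 : ℕ) + -(384 * (512 : ℕ)) := by
    have h1 := congrArg (Nat.cast : ℕ → ℝ) (Nat.mod_add_div F 384)
    push_cast at h1 ⊢
    linarith
  rw [h, Wr_add, Wr_add, Wr_neg, fix_Wr, fix_Wr, mul_assoc _ (Wr _),
    mul_div_cancel_left₀ _ (pow_pos two_pos 64).ne', div_eq_mul_inv]

theorem Wr_le_pu (e : ℤ) : Wr e ≤ vr (pu e) := by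
  have h : (e : ℝ) ≤ ((Int.toNat (e + 196608) : ℕ) : ℝ) - 196608 := by
    have h1 : ((e + 196608 : ℤ) : ℝ) ≤ ((Int.toNat (e + 196608) : ℤ) : ℝ) :=
      Int.cast_le.2 (Int.self_le_toNat _)
    push_cast at h1
    linarith
  refine (Wr_mono h).trans ?_
  rw [fix_split]
  refine fix_le_vr (le_trans ?_ (fix_le_shr _ 64))
  rw [fix_shl]
  exact div_le_div_of_nonneg_right (mul_le_mul_of_nonneg_right
    (fix_tw (Nat.mod_lt _ (by norm_num))).1 (pow_pos two_pos _).le) (pow_pos two_pos _).le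

theorem pd_le_Wr (e : ℤ) : vr (pd e) ≤ Wr e := by
  rcases le_total (e + 196608) 0 with h | h
  · have h0 : pdN 0 = 0 := by decide +kernel
    have h1 : pd e = 0 := (congrArg pdN (Int.toNat_of_nonpos h)).trans h0
    rw [h1, vr, Nat.cast_zero, zero_div]
    exact (Wr_pos _).le
  have h1 : (e : ℝ) = ((Int.toNat (e + 196608) : ℕ) : ℝ) - 196608 := by
    have h1 := congrArg (Int.cast : ℤ → ℝ) (Int.toNat_of_nonneg h)
    push_cast at h1
    linarith
  rw [h1, fix_split]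
  refine fix_vr_le ((fix_shr_le _ 64).trans ?_)
  rw [fix_shl]
  exact div_le_div_of_nonneg_right (mul_le_mul_of_nonneg_right
    (fix_tw (Nat.mod_lt _ (by norm_num))).2 (pow_pos two_pos _).le) (pow_pos two_pos _).le

theorem fix_mul (x y : ℕ) : vr x * vr y = ((Nat.mul x y : ℕ) : ℝ) / 2 ^ 512 / 2 ^ 512 := by
  rw [vr, vr, div_mul_div_comm, div_div, Nat.mul_eq, Nat.cast_mul]

theorem vr_mul_le_mu (x y : ℕ) : vr x * vr y ≤ vr (mu x y) := by
  rw [fix_mul]; exact fix_le_vr (fix_le_shr _ _)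

theorem mul_le_mu {a c : ℝ} {x y : ℕ} (hc0 : 0 ≤ c) (ha : a ≤ vr x) (hc : c ≤ vr y) :
    a * c ≤ vr (mu x y) := by
  exact (mul_le_mul ha hc hc0 (vr_nonneg x)).trans (vr_mul_le_mu x y)

theorem md_le_mul (x y : ℕ) : vr (md x y) ≤ vr x * vr y := by
  rw [fix_mul]; exact fix_vr_le (fix_shr_le _ _)

theorem div_le_du (x : ℕ) {k : ℕ} (hk : 0 < k) : vr x / k ≤ vr (du x k) := by
  have _ := hk
  rw [vr, div_right_comm]; exact fix_le_vr (fix_le_div x k)

/-- the quotient of two fixed point numbers -/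
theorem mul_div_le_du (x y : ℕ) {z : ℕ} (hz : 0 < z) : vr x * vr y / vr z ≤ vr (du (x * y) z) := by
  refine le_trans (le_of_eq ?_) (div_le_du (x * y) hz)
  rw [vr_mul_nat, vr, vr, vr, mul_div_assoc, div_div_div_cancel_right₀ fix_pos.ne', mul_div_assoc]

theorem vr_div_le (x k : ℕ) : vr (x / k) ≤ vr x / k := by
  rw [vr.eq_1 x, div_right_comm]; exact fix_vr_le Nat.cast_div_le

theorem fix_552 (y c : ℕ) : ((Nat.mul y c : ℕ) : ℝ) / 2 ^ 552 = vr y * (c / 2 ^ 40) := by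
  rw [vr, div_mul_div_comm, ← pow_add, Nat.mul_eq, Nat.cast_mul]

theorem exp_le_ex {Y : ℝ} {y : ℕ} (h : vr y ≤ Y) : Real.exp (-Real.pi * Y) ≤ Wr (ex y) := by
  have h1 := (fix_shr_le _ 552).trans_eq (fix_552 y 1913618947384936)
  have h2 : ((1913618947384936 : ℕ) : ℝ) / 2 ^ 40 * (Real.log 2 / 384) ≤ Real.pi := by
    push_cast
    linarith [Real.pi_gt_d20, Real.log_two_lt_d9]
  have h3 : 0 ≤ Real.log 2 / 384 := by positivity
  rw [Wr_eq_exp, ex]
  generalize Nat.shiftRight _ 552 = m at h1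
  refine Real.exp_le_exp.2 ?_
  have h4 : ((Int.neg (Int.ofNat m) : ℤ) : ℝ) = -m :=
    (Int.cast_neg (m : ℤ)).trans (by rw [Int.cast_natCast])
  have h5 := mul_le_mul_of_nonneg_right h1 h3
  have h6 := mul_le_mul h h2 (by positivity) ((vr_nonneg y).trans h)
  rw [h4]
  linarith [mul_assoc (vr y) (((1913618947384936 : ℕ) : ℝ) / 2 ^ 40) (Real.log 2 / 384)]

theorem exp_le_exu {Y : ℝ} {y : ℕ} (h : Y ≤ vr y) : Real.exp (Real.pi * Y) ≤ Wr (exu y) := by
  have h1 := (fix_552 y 1913618948765322).symm.trans_le (fix_le_shr _ 552)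
  have h2 : Real.pi ≤ ((1913618948765322 : ℕ) : ℝ) / 2 ^ 40 * (Real.log 2 / 384) := by
    push_cast
    linarith [Real.pi_lt_d20, Real.log_two_gt_d9]
  have h3 : 0 ≤ Real.log 2 / 384 := by positivity
  rw [Wr_eq_exp, exu]
  generalize Nat.succ (Nat.shiftRight _ 552) = m at h1
  refine Real.exp_le_exp.2 ?_
  have h4 : ((Int.ofNat m : ℤ) : ℝ) = m := Int.cast_natCast m
  have h5 := mul_le_mul_of_nonneg_right h1 h3
  have h6 := mul_le_mul h h2 Real.pi_pos.le (vr_nonneg y)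
  rw [h4]
  linarith [mul_assoc (vr y) (((1913618948765322 : ℕ) : ℝ) / 2 ^ 40) (Real.log 2 / 384)]

theorem pi_le_piU : Real.pi ≤ vr piU := by
  rw [piU, fix_vr_shl _ (j := 70) rfl]
  push_cast
  linarith [Real.pi_lt_d20]

theorem fix_sq (Y : ℕ) {s : ℕ} (hs : 0 < s) : Y ≤ sqStep Y s ^ 2 := by
  have h1 := Nat.lt_mul_div_succ Y hs
  change Y ≤ ((s + Y / s) / 2 + 1) ^ 2
  generalize Y / s = q at h1
  have h2 : s + q + 1 ≤ 2 * ((s + q) / 2 + 1) := by omega
  generalize (s + q) / 2 + 1 = r at h2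
  have h3 := Nat.pow_le_pow_left h2 2
  zify at h1 h3 ⊢
  nlinarith [sq_nonneg ((s : ℤ) - (q + 1))]

theorem fix_sqrt (y : ℕ) {r : ℕ} (h : Nat.shiftLeft y 512 ≤ r ^ 2) : Real.sqrt (vr y) ≤ vr r := by
  have h1 : ((Nat.shiftLeft y 512 : ℕ) : ℝ) ≤ (r ^ 2 : ℕ) := Nat.cast_le.2 h
  rw [fix_shl, Nat.cast_pow, ← le_div_iff₀ fix_pos] at h1
  refine Real.sqrt_le_iff.2 ⟨vr_nonneg r, ?_⟩
  rw [vr.eq_1 r, div_pow, sq (_ ^ 512), ← div_div]
  exact fix_vr_le h1

theorem sqrt_le_sqU (y : ℕ) : Real.sqrt (vr y) ≤ vr (sqU y) := by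
  exact fix_sqrt y (fix_sq _ (Nat.succ_pos _))

theorem le_horU {C : ℕ → ℝ} {Y : ℝ} {c : ℕ → ℕ} {y : ℕ} (n : ℕ) (hC : ∀ k, k < n → C k ≤ vr (c k))
    (hY0 : 0 ≤ Y) (hY : Y ≤ vr y) : ∑ k ∈ range n, C k * Y ^ k ≤ vr (horU c y n) := by
  have key : ∀ (acc : ℕ) (A : ℝ), A ≤ vr acc → A * Y ^ n + ∑ k ∈ range n, C k * Y ^ k ≤
      vr (Nat.rec (motive := fun _ => ℕ → ℕ) (fun acc => acc)
        (fun k ih acc => ih (Nat.add (mu acc y) (c k))) n acc) := by
    induction n with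
    | zero => exact fun acc A h => by simpa using h
    | succ n ih =>
      intro acc A h
      refine le_trans (le_of_eq ?_) (ih (fun k hk => hC k (by omega)) (mu acc y + c n) (A * Y + C n)
        ((add_le_add (mul_le_mu hY0 h hY) (hC n (by omega))).trans_eq (vr_add _ _).symm))
      rw [sum_range_succ]
      ring
  have h := key 0 0 (vr_nonneg 0)
  rwa [zero_mul, zero_add] at h

theorem horD_le {C : ℕ → ℝ} {Y : ℝ} {c : ℕ → ℕ} {y : ℕ} (n : ℕ) (hC : ∀ k, k < n → vr (c k) ≤ C k)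
    (hY : vr y ≤ Y) : vr (horD c y n) ≤ ∑ k ∈ range n, C k * Y ^ k := by
  have key : ∀ (acc : ℕ) (A : ℝ), vr acc ≤ A →
      vr (Nat.rec (motive := fun _ => ℕ → ℕ) (fun acc => acc)
        (fun k ih acc => ih (Nat.add (md acc y) (c k))) n acc) ≤
      A * Y ^ n + ∑ k ∈ range n, C k * Y ^ k := by
    induction n with
    | zero => exact fun acc A h => by simpa using h
    | succ n ih =>
      intro acc A h
      refine le_trans (ih (fun k hk => hC k (by omega)) (md acc y + c n) (A * Y + C n)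
        ((vr_add _ _).trans_le (add_le_add ((md_le_mul _ _).trans (mul_le_mul h hY (vr_nonneg y)
          ((vr_nonneg _).trans h))) (hC n (by omega))))) (le_of_eq ?_)
      rw [sum_range_succ]
      ring
  have h := key 0 0 (by rw [vr, Nat.cast_zero, zero_div])
  rwa [zero_mul, zero_add] at h

theorem prod_le_prodU {F : ℕ → ℝ} {f : ℕ → ℕ} (n : ℕ) (h0 : ∀ k, k < n → 0 ≤ F k)
    (h : ∀ k, k < n → F k ≤ vr (f k)) : ∏ k ∈ range n, F k ≤ vr (prodU n f) := by
  induction n with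
  | zero => exact vr_one.ge
  | succ n ih =>
    rw [prod_range_succ]
    exact mul_le_mu (h0 n (by omega)) (ih (fun k hk => h0 k (by omega)) fun k hk => h k (by omega))
      (h n (by omega))

theorem le_corA (A : ℕ) {B : ℕ} (hB : 0 < B) :
    vr A + vr A * max (vr A - vr B) 0 / (256 * vr B) ≤ vr (corA A B) := by
  have h := mul_div_le_du A (A - B) (Nat.mul_pos (by norm_num : 0 < 256) hB)
  rw [vr_sub, vr_nat_mul, Nat.cast_ofNat] at h
  exact (add_le_add le_rfl h).trans_eq (vr_add _ _).symm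

theorem le_corB (A B : ℕ) : vr B + max (vr A - vr B) 0 / 256 ≤ vr (corB A B) := by
  have h := div_le_du (A - B) (by norm_num : 0 < 256)
  rw [vr_sub, Nat.cast_ofNat] at h
  exact (add_le_add le_rfl h).trans_eq (vr_add _ _).symm

theorem val_ne_top (x : ℕ) : val x ≠ ⊤ := ENNReal.ofReal_ne_top

theorem val_zero : val 0 = 0 := by
  rw [val, vr, Nat.cast_zero, zero_div, ENNReal.ofReal_zero]

theorem val_one : val one = 1 := by
  rw [val, vr_one, ENNReal.ofReal_one]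

theorem val_add (x y : ℕ) : val (x + y) = val x + val y := by
  rw [val, vr_add, ENNReal.ofReal_add (vr_nonneg x) (vr_nonneg y), val, val]

theorem val_nat_mul (k x : ℕ) : val (k * x) = k * val x := by
  rw [val, vr_nat_mul, ENNReal.ofReal_mul k.cast_nonneg, ENNReal.ofReal_natCast, val]

theorem val_sub (x y : ℕ) : val (x - y) = val x - val y := by
  rw [val, vr_sub, ENNReal.ofReal_max, ENNReal.ofReal_zero, max_eq_left zero_le,
    ENNReal.ofReal_sub _ (vr_nonneg y), val, val]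

theorem val_mono {x y : ℕ} (h : x ≤ y) : val x ≤ val y := by
  exact ENNReal.ofReal_le_ofReal (vr_le_iff.2 h)

theorem val_lt {x y : ℕ} (h : x < y) : val x < val y := by
  exact (ENNReal.ofReal_lt_ofReal_iff_of_nonneg (vr_nonneg x)).2 (vr_lt_iff.2 h)

theorem val_sumTo (n : ℕ) (f : ℕ → ℕ) : val (sumTo n f) = ∑ i ∈ range n, val (f i) := by
  induction n with
  | zero => exact val_zero
  | succ n ih => rw [sum_range_succ, ← ih, ← val_add]; rfl

theorem val_sumL {α : Type} (l : List α) (f : α → ℕ) :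
    val (sumL l f) = (l.map fun a => val (f a)).sum := by
  induction l with
  | nil => exact val_zero
  | cons a l ih => rw [List.map_cons, List.sum_cons, ← ih, ← val_add]; rfl

theorem WW_le_pu (e : ℤ) : WW e ≤ val (pu e) := by
  exact ENNReal.ofReal_le_ofReal (Wr_le_pu e)

theorem pd_le_WW (e : ℤ) : val (pd e) ≤ WW e := by
  exact ENNReal.ofReal_le_ofReal (pd_le_Wr e)

theorem mul_le_val_mu {a c : ℝ≥0∞} {x y : ℕ} (ha : a ≤ val x) (hc : c ≤ val y) :
    a * c ≤ val (mu x y) := by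
  exact (mul_le_mul' ha hc).trans ((ENNReal.ofReal_mul (vr_nonneg x)).symm.trans_le
    (ENNReal.ofReal_le_ofReal (vr_mul_le_mu x y)))

theorem val_md_le {a c : ℝ≥0∞} {x y : ℕ} (ha : val x ≤ a) (hc : val y ≤ c) :
    val (md x y) ≤ a * c := by
  exact ((ENNReal.ofReal_le_ofReal (md_le_mul x y)).trans_eq
    (ENNReal.ofReal_mul (vr_nonneg x))).trans (mul_le_mul' ha hc)

theorem div_le_val_du {a : ℝ≥0∞} {x k : ℕ} (hk : 0 < k) (ha : a ≤ val x) :
    a / k ≤ val (du x k) := by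
  refine (ENNReal.div_le_div_right ha _).trans
    (le_trans (le_of_eq ?_) (ENNReal.ofReal_le_ofReal (div_le_du x hk)))
  rw [ENNReal.ofReal_div_of_pos (Nat.cast_pos.2 hk), ENNReal.ofReal_natCast, val]

theorem val_div_le {a : ℝ≥0∞} {x : ℕ} (k : ℕ) (ha : val x ≤ a) : val (x / k) ≤ a / k := by
  rcases k.eq_zero_or_pos with rfl | hk
  · rw [Nat.div_zero, val_zero]; exact zero_le
  refine (ENNReal.ofReal_le_ofReal (vr_div_le x k)).trans ?_
  rw [ENNReal.ofReal_div_of_pos (Nat.cast_pos.2 hk), ENNReal.ofReal_natCast]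
  exact ENNReal.div_le_div_right ha _

theorem ga_le_WW {t ρ : ℝ} {y : ℕ} (h : vr y ≤ t * ρ) : ga t ρ ≤ WW (ex y) := by
  rw [ga, mul_assoc]; exact ENNReal.ofReal_le_ofReal (exp_le_ex h)

theorem hc_le_hU : hc ≤ val hU := by
  refine ENNReal.ofReal_le_ofReal ?_
  rw [hU, fix_vr_shl _ (j := 40) rfl]
  push_cast
  linarith [Real.log_two_lt_d9]

theorem hL_le_hc : val hL ≤ hc := by
  refine ENNReal.ofReal_le_ofReal ?_
  rw [hL, fix_vr_shl _ (j := 40) rfl]
  push_cast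
  linarith [Real.log_two_gt_d9]

theorem sq_sub_one_le_sqm {r : ℝ≥0∞} {x : ℕ} (h : r ≤ val x) : (r - 1) ^ 2 ≤ val (sqm x) := by
  have h1 : r - 1 ≤ val (x - one) := by
    rw [val_sub, val_one]
    exact tsub_le_tsub_right h 1
  rw [sq]
  exact mul_le_val_mu h1 h1

end Pool.Agent.Eps.B
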