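import Pool.Agent.Lib.MP_3bda03_nt.B.DatL

/-!
Checking the bases.
-/

set_option autoImplicit false

namespace Pool.Agent.Eps.B

theorem blkZ : blkOK lZ lZ vZ dZ 1 1 0 hZ hZ = true := by decide +kernel

theorem blkD3 : blkOK lD3 lD3d vD3 dD3 2 1 2 hD3 hD3d = true := by decide +kernel

theorem blkD5 : blkOK lD5 lD5d vD5 dD5 2 1 2 hD5 hD5d = true := by decide +kernel

theorem blkD7 : blkOK lD7 lD7d vD7 dD7 2 1 2 hD7 hD7d = true := by decide +kernel

theorem blkS16 : blkOK lS16 lS16d vS16 dS16 4 1 4 hS16 hS16d = true := by decide +kernel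

theorem blkS19 : blkOK lS19 lS19d vS19 dS19 4 1 4 hS19 hS19d = true := by decide +kernel

theorem blkS21 : blkOK lS21 lS21d vS21 dS21 4 1 4 hS21 hS21d = true := by decide +kernel

theorem blkS23 : blkOK lS23 lS23d vS23 dS23 4 1 4 hS23 hS23d = true := by decide +kernel

theorem blkL24 : blkOK lL24 lL24 vL24 dL24 8 1 6 hL24 hL24 = true := by decide +kernel

end Pool.Agent.Eps.B
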