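import Pool.Agent.Lib.MP_3bda03_nt.B.DatL

/-!
Checking the shells.
-/

set_option autoImplicit false

namespace Pool.Agent.Eps.B

theorem digS20d : lS20d.digs hS20d.sh = true := by decide +kernel

theorem digS19d : lS19d.digs hS19d.sh = true := by decide +kernel

end Pool.Agent.Eps.B
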