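import Pool.Agent.Lib.MP_3bda03_nt.B.DatL

/-!
Checking the shells.
-/

set_option autoImplicit false

namespace Pool.Agent.Eps.B

theorem digS18d : lS18d.digs hS18d.sh = true := by decide +kernel

theorem digZ : lZ.digs hZ.sh = true := by decide +kernel

theorem digD2 : lD2.digs hD2.sh = true := by decide +kernel

theorem digD2d : lD2d.digs hD2d.sh = true := by decide +kernel

theorem digD3 : lD3.digs hD3.sh = true := by decide +kernel

theorem digD3d : lD3d.digs hD3d.sh = true := by decide +kernel

theorem digD4 : lD4.digs hD4.sh = true := by decide +kernel

theorem digD4d : lD4d.digs hD4d.sh = true := by decide +kernel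

theorem digD5 : lD5.digs hD5.sh = true := by decide +kernel

theorem digD5d : lD5d.digs hD5d.sh = true := by decide +kernel

theorem digD6 : lD6.digs hD6.sh = true := by decide +kernel

theorem digD6d : lD6d.digs hD6d.sh = true := by decide +kernel

theorem digD7 : lD7.digs hD7.sh = true := by decide +kernel

theorem digD7d : lD7d.digs hD7d.sh = true := by decide +kernel

theorem digE8 : lE8.digs hE8.sh = true := by decide +kernel

theorem digS16 : lS16.digs hS16.sh = true := by decide +kernel

theorem digS18 : lS18.digs hS18.sh = true := by decide +kernel

theorem digS19 : lS19.digs hS19.sh = true := by decide +kernel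

theorem digS20 : lS20.digs hS20.sh = true := by decide +kernel

theorem digL17 : lL17.digs hL17.sh = true := by decide +kernel

end Pool.Agent.Eps.B
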