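import Pool.Agent.Lib.MP_3bda03_nt.B.Dat

/-!
Checking the theta tables.
-/

set_option autoImplicit false

namespace Pool.Agent.Eps.B

theorem tabZ : hZ.tabOK = true := by decide +kernel

theorem tabD2d : hD2d.tabOK = true := by decide +kernel

theorem tabD3d : hD3d.tabOK = true := by decide +kernel

theorem tabD4d : hD4d.tabOK = true := by decide +kernel

theorem tabD5d : hD5d.tabOK = true := by decide +kernel

theorem tabD6d : hD6d.tabOK = true := by decide +kernel

theorem tabD7d : hD7d.tabOK = true := by decide +kernel

theorem tabS16 : hS16.tabOK = true := by decide +kernel

theorem tabS18 : hS18.tabOK = true := by decide +kernel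

theorem tabS19 : hS19.tabOK = true := by decide +kernel

theorem tabS20 : hS20.tabOK = true := by decide +kernel

theorem tabS21 : hS21.tabOK = true := by decide +kernel

theorem tabS22 : hS22.tabOK = true := by decide +kernel

theorem tabS23 : hS23.tabOK = true := by decide +kernel

theorem tabL17 : hL17.tabOK = true := by decide +kernel

theorem tabL24 : hL24.tabOK = true := by decide +kernel

end Pool.Agent.Eps.B
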