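import Pool.Agent.Lib.MP_3bda03_nt.B.Dat

/-!
Checking the theta tables.
-/

set_option autoImplicit false

namespace Pool.Agent.Eps.B

theorem tabD2 : hD2.tabOK = true := by decide +kernel

theorem tabD3 : hD3.tabOK = true := by decide +kernel

theorem tabD4 : hD4.tabOK = true := by decide +kernel

theorem tabD5 : hD5.tabOK = true := by decide +kernel

theorem tabD6 : hD6.tabOK = true := by decide +kernel

theorem tabD7 : hD7.tabOK = true := by decide +kernel

theorem tabE8 : hE8.tabOK = true := by decide +kernel

theorem tabS16d : hS16d.tabOK = true := by decide +kernel

theorem tabS18d : hS18d.tabOK = true := by decide +kernel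

theorem tabS19d : hS19d.tabOK = true := by decide +kernel

theorem tabS20d : hS20d.tabOK = true := by decide +kernel

theorem tabS21d : hS21d.tabOK = true := by decide +kernel

theorem tabS22d : hS22d.tabOK = true := by decide +kernel

theorem tabS23d : hS23d.tabOK = true := by decide +kernel

theorem tabL17d : hL17d.tabOK = true := by decide +kernel

end Pool.Agent.Eps.B
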