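import Pool.Agent.Lib.MP_3bda03_nt.B.SideMean
import Pool.Agent.Lib.MP_3bda03_nt.B.Fix
import Pool.Agent.Lib.MP_3bda03_nt.B.KT0
import Pool.Agent.Lib.MP_3bda03_nt.B.KT1
import Pool.Agent.Lib.MP_3bda03_nt.B.KC0
import Pool.Agent.Lib.MP_3bda03_nt.B.KC1
import Pool.Agent.Lib.MP_3bda03_nt.B.KC2
import Pool.Agent.Lib.MP_3bda03_nt.B.KC3
import Pool.Agent.Lib.MP_3bda03_nt.B.KC4
import Pool.Agent.Lib.MP_3bda03_nt.B.KC5
import Pool.Agent.Lib.MP_3bda03_nt.B.KB0
import Pool.Agent.Lib.MP_3bda03_nt.B.KB1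

-- part Pool.Agent.Lib.MP_3bda03_nt.B.Half
section

/-!
What is known about a block, before and after rescaling.
-/

set_option autoImplicit false

noncomputable section

open MeasureTheory Matrix Finset
open scoped ENNReal

namespace Pool.Agent.Eps.B

open Pool.Agent.Eps.H

section
variable {ι : Type} [Fintype ι] [DecidableEq ι]

/-- the data `h` describe the lattice `M` -/
structure Half (M : Matrix ι ι ℝ) (h : HB) : Prop where
  card : Fintype.card ι = h.g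
  det : |M.det| = Wr (192 * h.ld)
  spec : Spec M h.sh h.N1 h.k0 h.tbe
  tab : h.g = 0 ∨ h.tabOK = true

/-- the data `h` describe the lattice `M` at the scale `a` -/
structure HalfA (M : Matrix ι ι ℝ) (h : HB) (a : ℤ) : Prop where
  card : Fintype.card ι = h.g
  det : |M.det| = Wr (192 * h.ld + 8 * a * h.g)
  spec : ∀ (ψ : ℝ → ℝ≥0∞) (x : ℝ) (c : ℝ≥0∞), tt h.k0 ≤ tt a * x →
    (∀ ρ : ℝ, tt a * h.N1 ≤ ρ → ψ ρ ≤ c * ga x ρ) →
    sn M ψ ≤ (h.sh.map fun p => (p.2 : ℝ≥0∞) * ψ (tt a * p.1)).sum +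
      c * (WW h.tbe * ga (tt a * x) h.N1)
  tab : ∀ k : ℤ, h.k0 ≤ a + k →
    GC k (fun t => sn M (ga t)) (WW (h.th (a + k))) (WW (h.th (a + k + 1)))
  min : ∀ w : ι → ℤ, w ≠ 0 → tt a * h.nm ≤ nsq (lv w M)

theorem half_ga_le {x N : ℕ} {X : ℝ} (hx : vr x ≤ X) : ga X N ≤ WW (ex (Nat.mul x N)) :=
  ga_le_WW (by
    rw [Nat.mul_eq, vr_mul_nat]
    exact mul_le_mul_of_nonneg_right hx (Nat.cast_nonneg N))

theorem Half.node_le {M : Matrix ι ι ℝ} {h : HB} (H : Half M h) (k : ℕ) :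
    sn M (ga (tt ((h.k0 + k : ℤ) : ℝ))) ≤ val (h.node k) := by
  have hx : vr (pd (Int.mul 16 (Int.add h.k0 (Int.ofNat k)))) ≤ tt ((h.k0 + k : ℤ) : ℝ) := by
    refine (pd_le_Wr _).trans_eq ?_
    rw [tt_eq_Wr]
    congr 1
    exact Int.cast_mul 16 (h.k0 + k)
  have hk : (h.k0 : ℝ) ≤ ((h.k0 + k : ℤ) : ℝ) := by exact_mod_cast (by omega : h.k0 ≤ h.k0 + k)
  refine (H.spec _ (tt ((h.k0 + k : ℤ) : ℝ)) 1 (tt_mono hk) fun ρ _ => by rw [one_mul]).trans ?_
  rw [HB.node]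
  beta_reduce
  rw [Nat.add_eq, val_add, val_sumL, one_mul]
  refine add_le_add (List.sum_le_sum fun p _ => ?_) ?_
  · rw [Nat.mul_eq, val_nat_mul]
    exact mul_le_mul_right ((half_ga_le hx).trans (WW_le_pu _)) _
  · refine le_trans ?_ (WW_le_pu _)
    rw [Int.add_def, WW_add]
    exact mul_le_mul_right (half_ga_le hx) _

theorem half_tab {h : HB} (H : h.tabOK = true) : 1 ≤ h.len ∧ (∀ i, i < h.len → h.cellOK i = true) ∧
    h.nm ≤ h.N1 ∧ ∀ p ∈ h.sh, h.nm ≤ p.1 := by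
  simpa only [HB.tabOK, Bool.and_eq_true, Nat.ble_eq, allTo_iff, List.all_eq_true] using H

theorem half_cell {M : Matrix ι ι ℝ} {h : HB} (H : Half M h) {i : ℕ} (hi : h.cellOK i = true) :
    ∃ q : ℤ, 0 ≤ q ∧ fld h.tab i - fld h.tab (i + 1) ≤ 256 * q ∧
      sn M (ga (tt ((h.k0 + i : ℤ) : ℝ))) ≤ WW (fld h.tab i - q) ∧
      sn M (ga (tt ((h.k0 + (i + 1 : ℕ) : ℤ) : ℝ))) ≤ WW (fld h.tab (i + 1) - q) := by
  simp only [HB.cellOK, Bool.and_eq_true, Nat.ble_eq, frc_eq] at hi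
  refine ⟨_, Int.natCast_nonneg _, ?_, (H.node_le i).trans ((val_mono hi.1).trans (pd_le_WW _)),
    (H.node_le (i + 1)).trans ((val_mono hi.2).trans (pd_le_WW _))⟩
  show _ ≤ 256 * (((fld h.tab i - fld h.tab (i + 1)).toNat / 256 + 1 : ℕ) : ℤ)
  omega

theorem half_th (h : HB) (i : ℕ) : h.th (h.k0 + i) = fld h.tab (min i h.len) := by
  have e : Int.toNat (Int.sub (h.k0 + i) h.k0) = i := by
    show (h.k0 + i - h.k0).toNat = i
    omega
  rw [HB.th, frc_eq, e]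
  congr 1
  rw [cond_eq_ite]
  simp only [Nat.ble_eq]
  exact (min_def _ _).symm

theorem Half.gc {M : Matrix ι ι ℝ} {h : HB} (H : Half M h) {k : ℤ} (hk : h.k0 ≤ k) :
    GC k (fun t => sn M (ga t)) (WW (h.th k)) (WW (h.th (k + 1))) := by
  rcases H.tab with h0 | h0
  · exact GC.zero _ _ fun t => sn_of_card_eq_zero (H.card.trans h0) _ _
  obtain ⟨h1, h2, -⟩ := half_tab h0
  obtain ⟨i, rfl⟩ := Int.le.dest hk
  rw [half_th, show h.k0 + i + 1 = h.k0 + (i + 1 : ℕ) by push_cast; ring, half_th]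
  rcases lt_or_ge i h.len with hi | hi
  · obtain ⟨q, q0, q1, q2, q3⟩ := half_cell H (h2 i hi)
    have := (lc_sn_ga M).gc_WW (h.k0 + i) q2 (q3.trans_eq' (by push_cast; rw [add_assoc])) q0
      (by linarith)
    rw [sub_add_cancel, sub_add_cancel] at this
    rwa [min_eq_left hi.le, min_eq_left (by omega)]
  · obtain ⟨j, hj⟩ : ∃ j, h.len = j + 1 := ⟨h.len - 1, by omega⟩
    obtain ⟨q, q0, -, -, q3⟩ := half_cell H (h2 j (by omega))
    rw [min_eq_right hi, min_eq_right (by omega)]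
    refine (GC.const _ _).of_le fun t ht => ?_
    refine le_trans (sn_mono M fun ρ hρ => ga_anti (le_trans (tt_mono ?_) ht) hρ)
      (q3.trans (WW_mono (by rw [hj]; linarith)))
    exact_mod_cast (by omega : h.k0 + (j + 1 : ℕ) ≤ h.k0 + i)

theorem Half.min {M : Matrix ι ι ℝ} {h : HB} (H : Half M h) (w : ι → ℤ) (hw : w ≠ 0) :
    (h.nm : ℝ) ≤ nsq (lv w M) := by
  rcases H.tab with h0 | h0
  · have := Fintype.card_eq_zero_iff.1 (H.card.trans h0)
    exact (hw (Subsingleton.elim _ _)).elim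
  obtain ⟨-, -, h1, h2⟩ := half_tab h0
  refine le_nsq_of_sn_bi_lt ((H.spec (bi h.nm) _ 0 le_rfl fun ρ hρ => ?_).trans_lt ?_) w hw
  · rw [bi, if_neg (not_lt.2 ((Nat.cast_le.2 h1).trans hρ))]
    exact zero_le
  · rw [zero_mul, add_zero, List.sum_eq_zero]
    · exact two_pos
    · intro x hx
      obtain ⟨p, hp, rfl⟩ := List.mem_map.1 hx
      rw [bi, if_neg (not_lt.2 (Nat.cast_le.2 (h2 p hp))), mul_zero]

theorem half_sqrt (a : ℝ) : Real.sqrt (tt a) = Wr (8 * a) := by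
  rw [tt_eq_Wr, show 16 * a = 8 * a + 8 * a by ring, Wr_add, Real.sqrt_mul_self (Wr_pos _).le]

theorem half_pow (a : ℝ) (n : ℕ) : Wr a ^ n = Wr (a * n) := by
  rw [Wr_eq_exp, Wr_eq_exp, ← Real.exp_nat_mul]
  congr 1
  ring

theorem Half.scale {M : Matrix ι ι ℝ} {h : HB} (H : Half M h) (a : ℤ) :
    HalfA (Real.sqrt (tt a) • M) h a := by
  have hs : Real.sqrt (tt a) ^ 2 = tt a := Real.sq_sqrt (tt_pos a).le
  refine ⟨H.card, ?_, fun ψ x c hx hψ => ?_, fun k hk => ?_, fun w hw => ?_⟩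
  · rw [Matrix.det_smul, abs_mul, H.det, H.card, half_sqrt, half_pow, abs_of_pos (Wr_pos _),
      mul_comm, ← Wr_add]
  · rw [sn_smul, hs]
    refine H.spec (fun ρ => ψ (tt a * ρ)) _ c hx fun ρ hρ => ?_
    rw [← ga_mul]
    exact hψ _ (mul_le_mul_of_nonneg_left hρ (tt_pos a).le)
  · simp only [sn_smul, hs, ga_mul]
    rw [add_comm a k] at hk ⊢
    exact (H.gc hk).shift a
  · rw [lv, Matrix.vecMul_smul, nsq_smul, hs]
    exact mul_le_mul_of_nonneg_left (H.min w hw) (tt_pos a).le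

theorem half_dual_smul {M : Matrix ι ι ℝ} (hM : M.det ≠ 0) {c : ℝ} (hc : c ≠ 0) :
    dual (c • M) = c⁻¹ • dual M := by
  rw [dual, dual, ← Matrix.transpose_smul]
  congr 1
  refine Matrix.inv_eq_right_inv ?_
  rw [Matrix.smul_mul, Matrix.mul_smul, smul_smul, mul_inv_cancel₀ hc, one_smul,
    Matrix.mul_nonsing_inv _ hM.isUnit]

end

/-- the data describe a block and its dual -/
structure BlkOK (x : RB) (h h' : HB) (lk : ℕ) : Prop where
  p : Half x.M h
  d : Half (Real.sqrt (2 ^ lk) • dual x.M) h'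

/-- there is such a block -/
def BK (h h' : HB) (lk : ℕ) : Prop := ∃ x : RB, BlkOK x h h' lk

/-- a rescaled block -/
def RB.sc (x : RB) (a : ℤ) : RB :=
  ⟨x.g, Real.sqrt (tt a) • x.M, by
    rw [Matrix.det_smul]
    exact mul_ne_zero (pow_ne_zero _ (Real.sqrt_pos.2 (tt_pos a)).ne') x.hM⟩

theorem BlkOK.primal {x : RB} {h h' : HB} {lk : ℕ} (H : BlkOK x h h' lk) (a : ℤ) :
    HalfA (x.sc a).M h a := H.p.scale a

theorem BlkOK.dual {x : RB} {h h' : HB} {lk : ℕ} (H : BlkOK x h h' lk) (a : ℤ) :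
    HalfA (dual (x.sc a).M) h' (-a - 24 * lk) := by
  have h1 := H.d.scale (-a - 24 * lk)
  rw [smul_smul, ← Real.sqrt_mul (tt_pos _).le, ← tt_nat_mul, ← tt_add,
    show ((-a - 24 * lk : ℤ) : ℝ) + 24 * lk = -a by push_cast; ring, tt_neg, Real.sqrt_inv,
    ← half_dual_smul x.hM (Real.sqrt_pos.2 (tt_pos a)).ne'] at h1
  exact h1

theorem half_empty {h : HB} (hg : h.g = 0) (hl : h.ld = 0) (M : Matrix (Fin 0) (Fin 0) ℝ) :
    Half M h :=
  ⟨by simp [hg], by simp [hl, Wr], fun ψ _ _ _ _ => (sn_of_isEmpty M ψ).trans_le zero_le,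
    Or.inl hg⟩

theorem bk_empty {h : HB} (hg : h.g = 0) (hl : h.ld = 0) : BK h h 0 :=
  ⟨⟨0, 1, by simp⟩, half_empty hg hl _, half_empty hg hl _⟩

/-- the blocks `b` are described by the side `S` -/
def Rl (b : ℕ → RB) (S : SD) : Prop :=
  ∀ j, j < 4 → HalfA (b j).M (S.y j).hb (S.y j).a ∧ HalfA (dual (b j).M) (S.y j).ho (S.y j).ao

/-- a layer and the layer of the dual side come from the block with data `h`, `h'` -/
def Fit (y y' : Ly) (h h' : HB) (lk : ℕ) : Prop :=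
  y.hb = h ∧ y.ho = h' ∧ y'.hb = h' ∧ y'.ho = h ∧ y'.a = y.ao ∧ y'.ao = y.a ∧
    y.ao = -y.a - 24 * lk

theorem half_fit {x : RB} {y y' : Ly} {h h' : HB} {k : ℕ} (B : BlkOK x h h' k)
    (F : Fit y y' h h' k) :
    (HalfA (x.sc y.a).M y.hb y.a ∧ HalfA (dual (x.sc y.a).M) y.ho y.ao) ∧
      HalfA (x.sc y.a).dl.M y'.hb y'.a ∧ HalfA (dual (x.sc y.a).dl.M) y'.ho y'.ao := by
  obtain ⟨f1, f2, f3, f4, f5, f6, f7⟩ := F
  rw [f1, f2, f3, f4, f5, f6, f7]
  refine ⟨⟨B.primal _, B.dual _⟩, B.dual _, ?_⟩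
  have e : dual (x.sc y.a).dl.M = (x.sc y.a).M := dual_dual (x.sc y.a).hM
  rw [e]
  exact B.primal _

theorem exists_rl {S S' : SD} {h0 h0' h1 h1' h2 h2' h3 h3' : HB} {k0 k1 k2 k3 : ℕ}
    (B0 : BK h0 h0' k0) (B1 : BK h1 h1' k1) (B2 : BK h2 h2' k2) (B3 : BK h3 h3' k3)
    (F0 : Fit S.y0 S'.y3 h0 h0' k0) (F1 : Fit S.y1 S'.y2 h1 h1' k1)
    (F2 : Fit S.y2 S'.y1 h2 h2' k2) (F3 : Fit S.y3 S'.y0 h3 h3' k3) :
    ∃ b : ℕ → RB, Rl b S ∧ Rl (rev b) S' := by
  obtain ⟨x0, B0⟩ := B0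
  obtain ⟨x1, B1⟩ := B1
  obtain ⟨x2, B2⟩ := B2
  obtain ⟨x3, B3⟩ := B3
  have H0 := half_fit B0 F0
  have H1 := half_fit B1 F1
  have H2 := half_fit B2 F2
  have H3 := half_fit B3 F3
  refine ⟨fun j => Nat.rec (x0.sc S.y0.a) (fun j _ => Nat.rec (x1.sc S.y1.a)
    (fun j _ => Nat.rec (x2.sc S.y2.a) (fun _ _ => x3.sc S.y3.a) j) j) j, fun j hj => ?_,
    fun j hj => ?_⟩
  · interval_cases j
    exacts [H0.1, H1.1, H2.1, H3.1]
  · interval_cases j
    exacts [H3.2, H2.2, H1.2, H0.2]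

end Pool.Agent.Eps.B
end
end

-- part Pool.Agent.Lib.MP_3bda03_nt.B.Tree
section

/-!
The generating function computed by the tree recursion.
-/

set_option autoImplicit false

noncomputable section

open MeasureTheory Matrix Finset
open scoped ENNReal

namespace Pool.Agent.Eps.B

open Pool.Agent.Eps.H

/-- the offset of the coset with the digits `r` -/
def LD.off (L : LD) (r : Fin L.g → ℕ) (j : Fin L.g) : ℤ := ∑ i : Fin L.g, ((r i * L.gm i j : ℕ) : ℤ)

/-- the weighted squared length -/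
def LD.nz (L : LD) (x : Fin L.g → ℤ) : ℕ := ∑ i : Fin L.g, L.wt i * (x i).natAbs ^ 2

/-- pairs of a coset and a vector of the box congruent to its offset -/
def LD.Om (L : LD) : Finset ((Fin L.g → ℕ) × (Fin L.g → ℤ)) :=
  ((Fintype.piFinset fun i : Fin L.g => range (L.td i)) ×ˢ
    (Fintype.piFinset fun _ : Fin L.g => Finset.Icc (-(L.X : ℤ)) L.X)).filter
    fun p => ∀ i, (p.2 i - L.off p.1 i) % L.m = 0

/-- the parity of such a pair -/
def LD.sgn (L : LD) (p : (Fin L.g → ℕ) × (Fin L.g → ℤ)) : ℤ :=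
  ∑ i : Fin L.g, (L.pr i : ℤ) * ((p.2 i - L.off p.1 i) / L.m)

theorem LD.tree_Md (L : LD) : L.Md = (2 ^ 80) ^ L.N1 := by
  rw [LD.Md, Nat.shiftLeft_eq', Nat.shiftLeft_eq, one_mul, ← pow_mul]
  rfl

theorem LD.cq_cast (L : LD) (hm : 1 ≤ L.m) (sg i a : ℕ) :
    ((L.cq sg i a : ℕ) : ZMod L.Md) =
      ∑ x ∈ (Finset.Icc (-(L.X : ℤ)) L.X).filter (fun x : ℤ => (x - (a : ℤ)) % (L.m : ℤ) = 0),
        (if (((sg * L.pr i : ℕ) : ℤ) * ((x - (a : ℤ)) / (L.m : ℤ))) % 2 = 0 then (1 : ZMod L.Md) else -1) *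
          ((2 : ZMod L.Md) ^ 80) ^ (L.wt i * x.natAbs ^ 2) := by
  have hM : 0 < L.Md := by
    rw [L.tree_Md]
    positivity
  rw [LD.cq, frc_eq, frc_eq, frc_eq, LD.cp, sumTo_eq, sum_filter, Int.Icc_eq_finset_map, sum_map,
    show ((L.X : ℤ) + 1 - -(L.X : ℤ)).toNat = 2 * L.X + 1 by omega, Nat.cast_sum]
  refine sum_congr rfl fun u _ => ?_
  have e0 : (Nat.castEmbedding.trans (addLeftEmbedding (-(L.X : ℤ)))) u = (u : ℤ) - L.X := by
    simp [sub_eq_neg_add]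
  rw [e0]
  generalize (u : ℤ) - L.X = x
  have hm' : (L.m : ℤ) ≠ 0 := by omega
  have e1 : x - ((Nat.mod a (Nat.mul 2 L.m) : ℕ) : ℤ) =
      x - a + (2 * (a / (2 * L.m) : ℕ) : ℤ) * L.m := by
    have := congrArg (Nat.cast : ℕ → ℤ) (Nat.mod_add_div a (2 * L.m))
    rw [Nat.cast_add, Nat.cast_mul, Nat.cast_mul, Nat.cast_ofNat] at this
    show x - ((a % (2 * L.m) : ℕ) : ℤ) = _
    linear_combination -this
  have e2 : ((Nat.mod (Nat.shiftLeft 1 (80 * (L.wt i * x.natAbs ^ 2))) L.Md : ℕ) : ZMod L.Md) =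
      (2 ^ 80) ^ (L.wt i * x.natAbs ^ 2) := by
    show (((_ : ℕ) % _ : ℕ) : ZMod L.Md) = _
    rw [ZMod.natCast_mod, Nat.shiftLeft_eq', Nat.shiftLeft_eq, one_mul, pow_mul, Nat.cast_pow,
      Nat.cast_pow, Nat.cast_ofNat]
  simp only [e1, Int.add_mul_emod_self_right, Int.add_mul_ediv_right _ _ hm']
  rw [mul_add, mul_left_comm _ 2, Int.add_mul_emod_self_left]
  rw [Nat.mul_eq (x := sg)]
  split_ifs
  · rw [e2, one_mul]
  · refine (Nat.cast_sub (Nat.mod_lt _ hM).le).trans ?_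
    rw [ZMod.natCast_self, zero_sub, neg_one_mul]
    exact congrArg _ e2
  · exact Nat.cast_zero

theorem tree_snoc {M : Type} [AddCommMonoid M] {n : ℕ} (s : ℕ → Finset ℕ)
    (F : (Fin (n + 1) → ℕ) → M) :
    ∑ r ∈ Fintype.piFinset (fun j : Fin (n + 1) => s j), F r =
      ∑ a ∈ s n, ∑ r ∈ Fintype.piFinset (fun j : Fin n => s j), F (Fin.snoc r a) := by
  rw [← sum_product']
  refine sum_nbij' (fun r => (r (Fin.last n), Fin.init r)) (fun p => Fin.snoc p.2 p.1)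
    (fun r hr => ?_) (fun p hp => ?_) (fun r _ => Fin.snoc_init_self r) (fun p _ => by simp)
    fun r _ => by rw [Fin.snoc_init_self]
  · rw [Fintype.mem_piFinset] at hr
    exact mem_product.2 ⟨hr _, Fintype.mem_piFinset.2 fun j => hr j.castSucc⟩
  · obtain ⟨h1, h2⟩ := mem_product.1 hp
    refine Fintype.mem_piFinset.2 fun j => ?_
    induction j using Fin.lastCases with
    | last => simpa using h1
    | cast j => simpa using Fintype.mem_piFinset.1 h2 j

theorem LD.tree_succ (L : LD) (sg i : ℕ) (acc : ℕ → ℕ) :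
    ((L.tree sg (i + 1) acc : ℕ) : ZMod L.Md) = ∑ r ∈ range (L.td i),
      ((L.cq sg i (acc i + r * L.gm i i) : ℕ) : ZMod L.Md) *
        (L.tree sg i fun j => acc j + r * L.gm i j : ℕ) := by
  show ((cond (Nat.beq (L.td i) 1) (L.cq sg i (acc i) * L.tree sg i acc % L.Md)
    ((sumTo (L.td i) fun r => (fun acc' : ℕ → ℕ => L.cq sg i (acc' i) * L.tree sg i acc')
      (cond (Nat.beq r 0) acc fun j => acc j + r * L.gm i j)) % L.Md) : ℕ) : ZMod L.Md) = _
  rw [cond_eq_ite]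
  split_ifs with h
  · rw [Nat.eq_of_beq_eq_true h]
    simp
  · rw [ZMod.natCast_mod, sumTo_eq, Nat.cast_sum]
    refine sum_congr rfl fun r _ => ?_
    cases r with
    | zero => simp
    | succ r => exact Nat.cast_mul _ _

theorem LD.tree_prod (L : LD) (hG : ∀ i j, i < L.g → j < L.g → i < j → L.gm i j = 0) (sg : ℕ) :
    ∀ i, i ≤ L.g → ∀ acc : ℕ → ℕ, ((L.tree sg i acc : ℕ) : ZMod L.Md) =
      ∑ r ∈ Fintype.piFinset (fun j : Fin i => range (L.td j)),
        ∏ j : Fin i, ((L.cq sg j (acc j + ∑ l : Fin i, r l * L.gm l j) : ℕ) : ZMod L.Md) := by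
  intro i
  induction i with
  | zero => exact fun _ _ => by simp [LD.tree]
  | succ i ih =>
    intro hi acc
    rw [L.tree_succ, tree_snoc fun j => range (L.td j)]
    refine sum_congr rfl fun a _ => ?_
    rw [ih (by omega), mul_sum]
    refine sum_congr rfl fun r _ => ?_
    have e : ∑ l : Fin i, r l * L.gm l i = 0 := sum_eq_zero fun l _ => by
      rw [hG l i (by omega) (by omega) l.2, mul_zero]
    simp only [Fin.prod_univ_castSucc, Fin.sum_univ_castSucc, Fin.snoc_castSucc, Fin.snoc_last,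
      Fin.val_castSucc, Fin.val_last, e, zero_add, add_assoc, add_comm (a * _)]
    exact mul_comm _ _

theorem tree_sign {R ι : Type} [CommRing R] (s : Finset ι) (f : ι → ℤ) :
    (∏ i ∈ s, if f i % 2 = 0 then (1 : R) else -1) = if (∑ i ∈ s, f i) % 2 = 0 then 1 else -1 := by
  classical
  induction s using Finset.induction_on with
  | empty => simp
  | insert a s ha ih =>
    rw [prod_insert ha, sum_insert ha, ih]
    split_ifs <;> first | omega | simp

theorem LD.tree_cast (L : LD) (hm : 1 ≤ L.m) (hG : ∀ i j, i < L.g → j < L.g → i < j → L.gm i j = 0)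
    (sg : ℕ) :
    ((L.tree sg L.g (fun _ => 0) : ℕ) : ZMod L.Md) =
      ∑ p ∈ L.Om, (if ((sg : ℤ) * L.sgn p) % 2 = 0 then (1 : ZMod L.Md) else -1) *
        ((2 : ZMod L.Md) ^ 80) ^ L.nz p.2 := by
  rw [L.tree_prod hG sg _ le_rfl, LD.Om, sum_filter, sum_product]
  refine sum_congr rfl fun r _ => ?_
  simp only [L.cq_cast hm, sum_filter, zero_add]
  rw [prod_univ_sum]
  refine sum_congr rfl fun x _ => ?_
  rw [Fintype.prod_ite_zero, prod_mul_distrib, prod_pow_eq_pow_sum, tree_sign]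
  simp only [LD.off, LD.sgn, LD.nz, Nat.cast_sum, mul_sum, Nat.cast_mul, mul_assoc]

theorem LD.card_Om_le (L : LD) (hm : 1 ≤ L.m) :
    L.Om.card ≤ (∏ i ∈ range L.g, L.td i) * (2 * L.X / L.m + 1) ^ L.g := by
  have h : L.Om.card ≤ ((Fintype.piFinset fun i : Fin L.g => range (L.td i)) ×ˢ
      Fintype.piFinset fun _ : Fin L.g => Finset.Icc (0 : ℤ) (2 * L.X / L.m : ℕ)).card := by
    refine card_le_card_of_injOn (fun p => (p.1, fun i => (p.2 i + L.X) / L.m)) (fun p hp => ?_)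
      fun p hp q hq e => ?_
    · obtain ⟨h1, h2⟩ := mem_product.1 (mem_filter.1 hp).1
      refine mem_coe.2 (mem_product.2 ⟨h1, Fintype.mem_piFinset.2 fun i => ?_⟩)
      have h3 := mem_Icc.1 (Fintype.mem_piFinset.1 h2 i)
      refine mem_Icc.2 ⟨Int.ediv_nonneg (by omega) (by omega), ?_⟩
      rw [Int.natCast_div]
      exact Int.ediv_le_ediv (by omega) (by omega)
    · obtain ⟨e1, e2⟩ := Prod.mk.inj e
      refine Prod.ext e1 (funext fun i => ?_)
      have h1 : p.2 i % L.m = L.off p.1 i % L.m :=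
        Int.emod_eq_emod_iff_emod_sub_eq_zero.2 ((mem_filter.1 hp).2 i)
      have h2 : q.2 i % L.m = L.off q.1 i % L.m :=
        Int.emod_eq_emod_iff_emod_sub_eq_zero.2 ((mem_filter.1 hq).2 i)
      have h3 : (p.2 i + L.X) % L.m = (q.2 i + L.X) % L.m := by
        rw [Int.add_emod, h1, e1, ← h2, ← Int.add_emod]
      have h4 := Int.emod_add_mul_ediv (p.2 i + L.X) L.m
      rw [h3, congrFun e2 i, Int.emod_add_mul_ediv] at h4
      omega
  rw [card_product, Fintype.card_piFinset, Fintype.card_piFinset] at h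
  simp only [card_range, Int.card_Icc, prod_const, card_univ, Fintype.card_fin] at h
  rwa [Fin.prod_univ_eq_prod_range, sub_zero, Int.toNat_natCast_add_one] at h

/-- digits of a sum of powers -/
theorem digit_sum_pow {σ : Type} (s : Finset σ) (f : σ → ℕ) {B K N : ℕ} (hB : 2 * s.card < B)
    (hN : N < K) :
    (∑ p ∈ s, 2 * B ^ f p) % B ^ K / B ^ N % B = 2 * (s.filter fun p => f p = N).card := by
  have hB0 : 0 < B := by omega
  have e : ∑ p ∈ s, 2 * B ^ f p = (∑ p ∈ s, if f p < N then 2 * B ^ f p else 0) +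
      B ^ N * (2 * (s.filter fun p => f p = N).card +
        B * ∑ p ∈ s, if N < f p then 2 * B ^ (f p - N - 1) else 0) := by
    rw [card_filter, mul_sum, mul_sum, ← sum_add_distrib, mul_sum, ← sum_add_distrib]
    refine sum_congr rfl fun p _ => ?_
    rcases lt_trichotomy (f p) N with h | h | h
    · rw [if_pos h, if_neg h.ne, if_neg h.not_gt]
      ring
    · rw [if_neg h.not_lt, if_pos h, if_neg h.not_gt, h]
      ring
    · obtain ⟨d, hd⟩ := Nat.exists_eq_add_of_lt h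
      rw [if_neg h.not_gt, if_neg h.ne', if_pos h, hd, show N + d + 1 - N - 1 = d by omega]
      ring
  have l : (∑ p ∈ s, if f p < N then 2 * B ^ f p else 0) < B ^ N := by
    refine Nat.lt_of_mul_lt_mul_left (a := B) (lt_of_le_of_lt ?_
      (Nat.mul_lt_mul_of_pos_right hB (pow_pos hB0 N)))
    rw [mul_sum, mul_comm 2, mul_assoc]
    refine sum_le_card_nsmul _ _ _ fun p _ => ?_
    split_ifs with h
    · rw [mul_left_comm, ← pow_succ']
      exact Nat.mul_le_mul_left _ (Nat.pow_le_pow_right hB0 h)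
    · exact Nat.zero_le _
  obtain ⟨d, rfl⟩ := Nat.exists_eq_add_of_lt hN
  rw [add_assoc, pow_add, Nat.mod_mul_right_div_self,
    Nat.mod_mod_of_dvd _ (dvd_pow_self B d.succ_ne_zero), e, Nat.add_mul_div_left _ _ (pow_pos hB0 N), Nat.div_eq_of_lt l, zero_add,
    Nat.add_mul_mod_self_left]
  exact Nat.mod_eq_of_lt (lt_of_le_of_lt (Nat.mul_le_mul_left _ (card_filter_le _ _)) hB)

theorem LD.count_le (L : LD) (hs : L.shape = true) {sh : List (ℕ × ℕ)} (hd : L.digs sh = true)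
    {N : ℕ} (h0 : 0 < N) (hN : N < L.N1) :
    (L.Om.filter fun p => L.sgn p % 2 = 0 ∧ L.nz p.2 = N).card ≤ cntOf sh N := by
  simp only [LD.shape, Bool.and_eq_true, allTo_iff, Bool.or_eq_true, Nat.ble_eq, Nat.beq_eq,
    Nat.blt_eq, prodTo_eq] at hs
  obtain ⟨s1, s2, -, hm, -, s3⟩ := hs
  have hG : ∀ i j, i < L.g → j < L.g → i < j → L.gm i j = 0 := fun i j hi hj h =>
    ((s1 i hi j hj).1.resolve_left h.not_ge).1
  have e : L.tot = (∑ p ∈ L.Om.filter fun p => L.sgn p % 2 = 0, 2 * (2 ^ 80) ^ L.nz p.2) % L.Md := by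
    refine (ZMod.natCast_eq_natCast_iff' _ _ _).1 ?_
    rw [cond_eq_ite, sum_filter, Nat.cast_sum]
    split_ifs with h
    · rw [Nat.mul_eq, Nat.cast_mul, L.tree_cast hm hG, mul_sum]
      refine sum_congr rfl fun p _ => ?_
      have h1 : L.sgn p = 0 := sum_eq_zero fun i _ => by
        have := (s2 i i.2).2.2.2
        rw [Nat.eq_of_beq_eq_true h, Nat.le_zero] at this
        rw [this, Nat.cast_zero, zero_mul]
      rw [h1, mul_zero, if_pos (Int.zero_emod 2), if_pos (Int.zero_emod 2), one_mul, Nat.cast_mul,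
        Nat.cast_pow, Nat.cast_pow, Nat.cast_ofNat]
    · rw [Nat.add_eq, Nat.cast_add, L.tree_cast hm hG, L.tree_cast hm hG, ← sum_add_distrib]
      refine sum_congr rfl fun p _ => ?_
      rw [Nat.cast_zero, zero_mul, if_pos (Int.zero_emod 2), Nat.cast_one, one_mul, one_mul]
      split_ifs
      · rw [one_mul, Nat.cast_mul, Nat.cast_pow, Nat.cast_pow, Nat.cast_ofNat, two_mul]
      · rw [neg_one_mul, add_neg_cancel, Nat.cast_zero]
  have h := (allTo_iff _ _).1 hd N hN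
  rw [Bool.or_eq_true, Nat.beq_eq, Nat.ble_eq] at h
  have h1 : L.tot / 2 ^ (80 * N) % 2 ^ 80 ≤ 2 * cntOf sh N := by
    rw [← Nat.shiftRight_eq_div_pow]
    exact h.resolve_left h0.ne'
  rw [pow_mul, e, L.tree_Md, digit_sum_pow _ _ _ hN, filter_filter] at h1
  · omega
  · refine lt_of_le_of_lt ?_ s3
    rw [mul_assoc]
    exact Nat.mul_le_mul_left _ ((card_filter_le _ _).trans (L.card_Om_le hm))

end Pool.Agent.Eps.B
end
end

-- part Pool.Agent.Lib.MP_3bda03_nt.B.Shell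
section

/-!
The short vectors of an integral lattice.
-/

set_option autoImplicit false

noncomputable section

open MeasureTheory Matrix Finset
open scoped ENNReal

namespace Pool.Agent.Eps.B

open Pool.Agent.Eps.H

/-- the integral basis -/
def LD.GZ (L : LD) : Matrix (Fin L.g) (Fin L.g) ℤ := fun i j => (L.gm i j : ℤ)

/-- the real basis -/
def LD.M (L : LD) : Matrix (Fin L.g) (Fin L.g) ℝ :=
  cz L.GZ * Matrix.diagonal fun i : Fin L.g => Real.sqrt (L.wt i)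

/-- residues modulo a triangular integer matrix -/
theorem exists_tri {g : ℕ} (T : Matrix (Fin g) (Fin g) ℤ) (hT : ∀ i j, i < j → T i j = 0)
    (hp : ∀ i, 0 < T i i) (k : Fin g → ℤ) :
    ∃ (r : Fin g → ℕ) (y : Fin g → ℤ), (∀ i, (r i : ℤ) < T i i) ∧
      k = (fun i => (r i : ℤ)) + y ᵥ* T := by
  induction g with
  | zero => exact ⟨fun i => i.elim0, fun i => i.elim0, fun i => i.elim0, funext fun i => i.elim0⟩
  | succ g ih =>
    obtain ⟨r, y, h1, h2⟩ := ih (T.submatrix Fin.castSucc Fin.castSucc)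
      (fun i j h => hT _ _ (Fin.castSucc_lt_castSucc_iff.2 h)) (fun i => hp _)
      fun j => k j.castSucc -
        k (Fin.last g) / T (Fin.last g) (Fin.last g) * T (Fin.last g) j.castSucc
    have h3 := Int.emod_nonneg (k (Fin.last g)) (hp (Fin.last g)).ne'
    refine ⟨Fin.snoc (α := fun _ => ℕ) r (k (Fin.last g) % T (Fin.last g) (Fin.last g)).toNat,
      Fin.snoc (α := fun _ => ℤ) y (k (Fin.last g) / T (Fin.last g) (Fin.last g)), fun i => ?_,
      funext fun j => ?_⟩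
    · refine Fin.lastCases ?_ (fun i => ?_) i
      · rw [Fin.snoc_last, Int.toNat_of_nonneg h3]
        exact Int.emod_lt_of_pos _ (hp _)
      · rw [Fin.snoc_castSucc]
        exact h1 i
    · rw [Pi.add_apply, Matrix.vecMul, dotProduct, Fin.sum_univ_castSucc]
      simp only [Fin.snoc_castSucc, Fin.snoc_last]
      refine Fin.lastCases ?_ (fun j => ?_) j
      · rw [Fin.snoc_last, Int.toNat_of_nonneg h3, Finset.sum_eq_zero fun i _ => by
          rw [hT _ _ (Fin.castSucc_lt_last i), mul_zero], zero_add, mul_comm]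
        exact (Int.emod_add_mul_ediv _ _).symm
      · have h4 := congrFun h2 j
        rw [Pi.add_apply, Matrix.vecMul, dotProduct] at h4
        simp only [Matrix.submatrix_apply] at h4
        rw [Fin.snoc_castSucc]
        linarith

theorem LD.shell_shape (L : LD) (hs : L.shape = true) :
    (∀ i j, i < L.g → j < L.g → i < j → L.gm i j = 0 ∧ L.tz i j = 0) ∧
    (∀ i j, i < L.g → j < L.g → ∑ l ∈ range L.g, L.tz i l * (L.gm l j : ℤ) = L.hz i j) ∧
    (∀ i, i < L.g → 1 ≤ L.td i ∧ 1 ≤ L.gm i i ∧ 1 ≤ L.wt i ∧ L.pr i ≤ L.pr 0) ∧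
    L.pr 0 ≤ 1 ∧ 1 ≤ L.m ∧ L.N1 ≤ (L.X + 1) ^ 2 := by
  simp only [LD.shape, Bool.and_eq_true, Bool.or_eq_true, allTo_iff, Nat.ble_eq, Nat.beq_eq,
    decide_eq_true_eq, sumZ_eq] at hs
  obtain ⟨h1, h2, h3, h4, h5, -⟩ := hs
  exact ⟨fun i j hi hj h => (h1 i hi j hj).1.resolve_left (not_le.2 h),
    fun i j hi hj => (h1 i hi j hj).2, h2, h3, h4, h5⟩

theorem shell_hz (L : LD) (i j : Fin L.g) : L.hz i j =
    L.m * ((if j = i then 1 else 0) + if (j : ℕ) = 0 then (L.pr i : ℤ) else 0) := by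
  rw [LD.hz]
  by_cases h : j = i
  · subst h
    by_cases h0 : (j : ℕ) = 0 <;> simp [h0]
  · rw [if_neg fun e => h (Fin.ext e).symm, if_neg h]
    split_ifs <;> simp

theorem shell_cnt (sh : List (ℕ × ℕ)) (s : Finset ℕ) (φ : ℕ → ℝ≥0∞) :
    ∑ N ∈ s, (cntOf sh N : ℝ≥0∞) * φ N ≤ (sh.map fun p => (p.2 : ℝ≥0∞) * φ p.1).sum := by
  induction sh with
  | nil => simp [cntOf, sumL_eq]
  | cons p sh ih =>
    have h1 : ∀ N, (cntOf (p :: sh) N : ℝ≥0∞) * φ N =
        (if p.1 = N then (p.2 : ℝ≥0∞) * φ p.1 else 0) + cntOf sh N * φ N := by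
      intro N
      have : cntOf (p :: sh) N = cond (Nat.beq p.1 N) p.2 0 + cntOf sh N := rfl
      rw [this, Nat.cast_add, add_mul, cond_eq_ite]
      simp only [Nat.beq_eq]
      split_ifs with h
      · rw [h]
      · simp
    simp only [h1]
    rw [Finset.sum_add_distrib, List.map_cons, List.sum_cons, Finset.sum_ite_eq]
    refine add_le_add ?_ ih
    split_ifs
    · exact le_rfl
    · exact zero_le

theorem LD.nsq_lv (L : LD) (k : Fin L.g → ℤ) : nsq (lv k L.M) = (L.nz (k ᵥ* L.GZ) : ℝ) := by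
  rw [LD.M, ← lv_vecMul, nsq, LD.nz]
  push_cast
  refine Finset.sum_congr rfl fun i _ => ?_
  rw [lv, Matrix.vecMul_diagonal, mul_pow, Real.sq_sqrt (Nat.cast_nonneg _), cv, mul_comm,
    Nat.cast_natAbs, Int.cast_abs, sq_abs]

theorem LD.det_GZ (L : LD) (hs : L.shape = true) :
    L.GZ.det = ((∏ i ∈ range L.g, L.gm i i : ℕ) : ℤ) := by
  rw [Matrix.det_of_isLowerTriangular L.GZ fun i j h => by
    rw [LD.GZ, ((L.shell_shape hs).1 i j i.2 j.2 h).1, Nat.cast_zero], Finset.prod_range]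
  push_cast
  rfl

theorem LD.det_sq (L : LD) (hs : L.shape = true) :
    L.M.det ^ 2 = ((∏ i ∈ range L.g, L.gm i i ^ 2 * L.wt i : ℕ) : ℝ) := by
  have h1 : (cz L.GZ).det = (L.GZ.det : ℝ) := ((Int.castRingHom ℝ).map_det L.GZ).symm
  rw [LD.M, Matrix.det_mul, Matrix.det_diagonal, h1, L.det_GZ hs, mul_pow, Finset.prod_range,
    Finset.prod_range]
  push_cast
  rw [Finset.prod_mul_distrib, ← Finset.prod_pow, ← Finset.prod_pow]
  congr 1
  exact Finset.prod_congr rfl fun i _ => Real.sq_sqrt (Nat.cast_nonneg _)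

theorem LD.exists_mem_Om (L : LD) (hs : L.shape = true) (k : Fin L.g → ℤ)
    (hk : L.nz (k ᵥ* L.GZ) < L.N1) :
    ∃ r : Fin L.g → ℕ, (r, k ᵥ* L.GZ) ∈ L.Om ∧ L.sgn (r, k ᵥ* L.GZ) % 2 = 0 := by
  obtain ⟨s1, s2, s3, s4, s5, s6⟩ := L.shell_shape hs
  obtain ⟨r, y, h1, h2⟩ := exists_tri (Matrix.of fun i j : Fin L.g => L.tz i j)
    (fun i j h => (s1 i j i.2 j.2 h).2) (fun i => by
      have := (s3 i i.2).1
      rw [LD.td] at this
      rw [Matrix.of_apply]
      omega) k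
  have hm : (L.m : ℤ) ≠ 0 := by omega
  have h3 : ∀ j : Fin L.g, (k ᵥ* L.GZ) j - L.off r j = L.m * ∑ i : Fin L.g, y i *
      ((if j = i then 1 else 0) + if (j : ℕ) = 0 then (L.pr i : ℤ) else 0) := by
    intro j
    have h4 : (fun i => (r i : ℤ)) ᵥ* L.GZ = L.off r := funext fun j => by
      simp only [Matrix.vecMul, dotProduct, LD.off, LD.GZ, Nat.cast_mul]
    rw [h2, Matrix.add_vecMul, Matrix.vecMul_vecMul, h4, Pi.add_apply, add_sub_cancel_left,
      Matrix.vecMul, dotProduct, Finset.mul_sum]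
    refine Finset.sum_congr rfl fun i _ => ?_
    have h5 := s2 i j i.2 j.2
    rw [Finset.sum_range] at h5
    rw [mul_left_comm, ← shell_hz, ← h5]
    rfl
  refine ⟨r, Finset.mem_filter.2 ⟨Finset.mem_product.2 ⟨Fintype.mem_piFinset.2 fun i => ?_,
    Fintype.mem_piFinset.2 fun i => ?_⟩, fun i => ?_⟩, ?_⟩
  · have := h1 i
    rw [Matrix.of_apply] at this
    rw [Finset.mem_range, LD.td]
    dsimp only
    omega
  · have h4 : L.wt i * ((k ᵥ* L.GZ) i).natAbs ^ 2 ≤ L.nz (k ᵥ* L.GZ) :=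
      Finset.single_le_sum (f := fun i : Fin L.g => L.wt i * ((k ᵥ* L.GZ) i).natAbs ^ 2)
        (fun _ _ => Nat.zero_le _) (Finset.mem_univ i)
    have h5 : ((k ᵥ* L.GZ) i).natAbs ^ 2 < (L.X + 1) ^ 2 :=
      ((Nat.le_mul_of_pos_left _ (s3 i i.2).2.2.1).trans h4).trans_lt (hk.trans_le s6)
    have h6 := lt_of_pow_lt_pow_left₀ 2 (Nat.zero_le _) h5
    rw [Finset.mem_Icc]
    dsimp only
    omega
  · dsimp only
    rw [h3, Int.mul_emod_right]
  · rw [LD.sgn]
    dsimp only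
    simp only [h3, Int.mul_ediv_cancel_left _ hm]
    simp only [Finset.mul_sum]
    rw [Finset.sum_comm]
    refine Int.emod_eq_zero_of_dvd (Finset.dvd_sum fun i _ => ?_)
    simp only [mul_left_comm _ (y i)]
    rw [← Finset.mul_sum]
    refine Dvd.dvd.mul_left ?_ _
    have h4 : ∑ j : Fin L.g, (L.pr j : ℤ) * (if (j : ℕ) = 0 then (L.pr i : ℤ) else 0) =
        L.pr 0 * L.pr i := by
      rw [Finset.sum_eq_single (⟨0, i.pos⟩ : Fin L.g)]
      · simp
      · intro j _ hj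
        rw [if_neg fun e => hj (Fin.ext e), mul_zero]
      · simp
    simp only [mul_add, Finset.sum_add_distrib, h4]
    simp only [mul_ite, mul_one, mul_zero, Finset.sum_ite_eq', Finset.mem_univ, if_true]
    have h5 := (s3 i i.2).2.2.2
    rcases (show L.pr 0 = 0 ∨ L.pr 0 = 1 by omega) with e | e
    · rw [e, show L.pr i = 0 by omega]
      simp
    · rw [e]
      exact ⟨L.pr i, by push_cast; ring⟩

/-- the shells bound the sum over the short vectors -/
def CntR {ι : Type} [Fintype ι] (A : Matrix ι ι ℝ) (sh : List (ℕ × ℕ)) (N1 : ℕ) : Prop :=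
  ∀ ψ : ℝ → ℝ≥0∞, sn A (fun ρ => if ρ < N1 then ψ ρ else 0) ≤
    (sh.map fun p => (p.2 : ℝ≥0∞) * ψ p.1).sum

theorem LD.cntR (L : LD) (hs : L.shape = true) {sh : List (ℕ × ℕ)} (hd : L.digs sh = true) :
    CntR L.M sh L.N1 := by
  classical
  intro ψ
  obtain ⟨-, -, s3, -⟩ := L.shell_shape hs
  have hdet : L.GZ.det ≠ 0 := by
    rw [L.det_GZ hs, Nat.cast_ne_zero]
    exact Finset.prod_ne_zero_iff.2 fun i hi =>
      Nat.one_le_iff_ne_zero.1 (s3 i (Finset.mem_range.1 hi)).2.1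
  have hpos : ∀ k : Fin L.g → ℤ, k ≠ 0 → 0 < L.nz (k ᵥ* L.GZ) := by
    intro k hk
    refine Nat.pos_of_ne_zero fun e => hk (Matrix.eq_zero_of_vecMul_eq_zero hdet ?_)
    funext i
    have h1 := Finset.sum_eq_zero_iff.1 e i (Finset.mem_univ i)
    have h2 := (Nat.mul_eq_zero.1 h1).resolve_left (Nat.one_le_iff_ne_zero.1 (s3 i i.2).2.2.1)
    exact Int.natAbs_eq_zero.1 (pow_eq_zero_iff two_ne_zero |>.1 h2)
  choose! r hr using L.exists_mem_Om hs
  set S := L.Om.filter fun p => L.sgn p % 2 = 0 ∧ L.nz p.2 ∈ Finset.Ico 1 L.N1 with hS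
  have hinj : Function.Injective fun k : {k : Fin L.g → ℤ // k ≠ 0} => (r k.1, k.1 ᵥ* L.GZ) := by
    intro k l h
    have h1 : k.1 ᵥ* L.GZ = l.1 ᵥ* L.GZ := congrArg Prod.snd h
    refine Subtype.ext (sub_eq_zero.1 (Matrix.eq_zero_of_vecMul_eq_zero hdet ?_))
    rw [Matrix.sub_vecMul, h1, sub_self]
  have h1 : sn L.M (fun ρ => if ρ < L.N1 then ψ ρ else 0) ≤ ∑ p ∈ S, ψ (L.nz p.2) := by
    refine le_trans (ENNReal.tsum_le_tsum fun k => ?_) ((ENNReal.tsum_comp_le_tsum_of_injective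
      hinj fun p => if p ∈ S then ψ (L.nz p.2) else 0).trans (le_of_eq ?_))
    · rw [L.nsq_lv]
      dsimp only
      by_cases h : L.nz (k.1 ᵥ* L.GZ) < L.N1
      · rw [if_pos (Nat.cast_lt.2 h), if_pos (Finset.mem_filter.2 ⟨(hr _ h).1, (hr _ h).2,
          Finset.mem_Ico.2 ⟨hpos _ k.2, h⟩⟩)]
      · rw [if_neg fun e => h (Nat.cast_lt.1 e)]
        exact zero_le
    · rw [tsum_eq_sum (s := S) fun p hp => if_neg hp]
      exact Finset.sum_congr rfl fun p hp => if_pos hp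
  refine h1.trans (le_trans ?_ (shell_cnt sh (Finset.Ico 1 L.N1) fun N => ψ N))
  rw [← Finset.sum_fiberwise_of_maps_to (t := Finset.Ico 1 L.N1) (g := fun p => L.nz p.2)
    fun p hp => (Finset.mem_filter.1 hp).2.2]
  refine Finset.sum_le_sum fun N hN => ?_
  rw [Finset.sum_congr rfl (g := fun _ => ψ N) fun p hp => by rw [(Finset.mem_filter.1 hp).2],
    Finset.sum_const, nsmul_eq_mul]
  refine mul_le_mul_left (Nat.cast_le.2 (le_trans (Finset.card_le_card fun p hp => ?_)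
    (L.count_le hs hd (Finset.mem_Ico.1 hN).1 (Finset.mem_Ico.1 hN).2))) _
  obtain ⟨h2, h3⟩ := Finset.mem_filter.1 hp
  obtain ⟨h4, h5, -⟩ := Finset.mem_filter.1 h2
  exact Finset.mem_filter.2 ⟨h4, h5, h3⟩

end Pool.Agent.Eps.B
end
end

-- part Pool.Agent.Lib.MP_3bda03_nt.B.Blk
section

/-!
From the checks to the description of a block.
-/

set_option autoImplicit false

noncomputable section

open MeasureTheory Matrix Finset
open scoped ENNReal

namespace Pool.Agent.Eps.B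

open Pool.Agent.Eps.H

theorem theta_int_le {y q : ℝ} (hy : 0 < y) (hq : Real.exp (-Real.pi * y) ≤ q) (hq1 : q ^ 3 < 1) :
    ∑' n : ℤ, ga y ((n : ℝ) ^ 2) ≤ ENNReal.ofReal (1 + 2 * q / (1 - q ^ 3)) := by
  have hq0 : 0 ≤ q := (Real.exp_pos _).le.trans hq
  have h3 : 0 ≤ q ^ 3 := by positivity
  have hs : HasSum (fun n : ℕ => q * (q ^ 3) ^ n) (q * (1 - q ^ 3)⁻¹) :=
    (hasSum_geometric_of_lt_one h3 hq1).mul_left q
  have h1 : ∑' n : ℕ, ga y (((n : ℝ) + 1) ^ 2) ≤ ENNReal.ofReal (q / (1 - q ^ 3)) := by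
    rw [div_eq_mul_inv, ← hs.tsum_eq,
      ENNReal.ofReal_tsum_of_nonneg (fun n => by positivity) hs.summable]
    refine ENNReal.tsum_le_tsum fun n => ENNReal.ofReal_le_ofReal ?_
    have e1 : ((3 * n + 1 : ℕ) : ℝ) ≤ ((n : ℝ) + 1) ^ 2 := by
      have : 3 * n + 1 ≤ (n + 1) ^ 2 := by nlinarith [Nat.le_mul_self n]
      exact_mod_cast this
    calc Real.exp (-Real.pi * y * ((n : ℝ) + 1) ^ 2)
        ≤ Real.exp (((3 * n + 1 : ℕ) : ℝ) * (-Real.pi * y)) := by
          refine Real.exp_le_exp.2 ?_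
          nlinarith [mul_pos Real.pi_pos hy]
      _ ≤ q ^ (3 * n + 1) := by
          rw [Real.exp_nat_mul]
          exact pow_le_pow_left₀ (Real.exp_pos _).le hq _
      _ = _ := by ring
  have h2 : 0 ≤ q / (1 - q ^ 3) := div_nonneg hq0 (by linarith)
  rw [tsum_of_nat_of_neg_add_one ENNReal.summable ENNReal.summable,
    tsum_eq_zero_add' ENNReal.summable,
    show 1 + 2 * q / (1 - q ^ 3) = 1 + q / (1 - q ^ 3) + q / (1 - q ^ 3) by ring,
    ENNReal.ofReal_add (by linarith) h2, ENNReal.ofReal_add zero_le_one h2]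
  refine add_le_add (add_le_add (by simp [ga]) ?_) ?_
  · simpa only [Int.cast_natCast, Nat.cast_add, Nat.cast_one, Int.cast_add, Int.cast_one] using h1
  · simpa only [Int.cast_neg, Int.cast_natCast, Int.cast_add, Int.cast_one, neg_sq] using h1

theorem blk_tsum_pi {g : ℕ} (f : Fin g → ℤ → ℝ≥0∞) :
    ∑' k : Fin g → ℤ, ∏ i, f i (k i) ≤ ∏ i, ∑' n, f i n := by
  rw [ENNReal.tsum_eq_iSup_sum]
  refine iSup_le fun s => ?_
  calc ∑ k ∈ s, ∏ i, f i (k i)
      ≤ ∑ k ∈ Fintype.piFinset fun i => s.image (· i), ∏ i, f i (k i) :=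
        sum_le_sum_of_subset fun k hk => Fintype.mem_piFinset.2 fun i => mem_image_of_mem _ hk
    _ = ∏ i, ∑ n ∈ s.image (· i), f i n := (prod_univ_sum _ _).symm
    _ ≤ _ := prod_le_prod' fun i _ => ENNReal.sum_le_tsum _

/-- a lattice inside the weighted integer lattice -/
theorem one_add_sn_le {g : ℕ} (D : Matrix (Fin g) (Fin g) ℤ) (hD : D.det ≠ 0) (w : Fin g → ℕ)
    (y : ℝ) :
    1 + sn (cz D * Matrix.diagonal fun i => Real.sqrt (w i)) (ga y) ≤
      ∏ i : Fin g, ∑' n : ℤ, ga (w i * y) ((n : ℝ) ^ 2) := by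
  refine (add_le_add le_rfl (sn_cz_mul_le D hD _ _)).trans (le_trans ?_ (blk_tsum_pi _))
  have e : ∀ k : Fin g → ℤ, ga y (nsq (lv k (Matrix.diagonal fun i => Real.sqrt (w i)))) =
      ∏ i, ga (w i * y) ((k i : ℝ) ^ 2) := fun k => by
    simp only [ga]
    rw [← ENNReal.ofReal_prod_of_nonneg fun i _ => (Real.exp_pos _).le, ← Real.exp_sum, nsq,
      mul_sum]
    refine congrArg _ (congrArg _ (sum_congr rfl fun i _ => ?_))
    rw [lv, vecMul_diagonal, mul_pow, Real.sq_sqrt (Nat.cast_nonneg _), cv]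
    ring
  rw [ENNReal.tsum_eq_add_tsum_ite (0 : Fin g → ℤ)]
  refine add_le_add (by simp [ga]) ?_
  refine le_trans (le_of_eq ?_) (ENNReal.tsum_comp_le_tsum_of_injective
    (Subtype.val_injective (p := fun k : Fin g → ℤ => k ≠ 0)) _)
  exact tsum_congr fun k => by rw [if_neg k.2, e]

theorem spec_of_cntR {ι : Type} [Fintype ι] {A : Matrix ι ι ℝ} {sh : List (ℕ × ℕ)} {N1 : ℕ}
    {k0 tbe : ℤ} (hc : CntR A sh N1)
    (ht : ENNReal.ofReal (Real.exp (Real.pi * (tt k0 * N1))) * (1 + sn A (ga (tt k0))) ≤ WW tbe) :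
    Spec A sh N1 k0 tbe := by
  intro ψ x c hx hψ
  have h1 : sn A ψ ≤ sn A fun ρ => (if ρ < N1 then ψ ρ else 0) +
      c * ga x N1 * ENNReal.ofReal (Real.exp (Real.pi * (tt k0 * N1))) * ga (tt k0) ρ := by
    refine sn_mono A fun ρ _ => ?_
    split_ifs with h
    · exact le_self_add
    · rw [zero_add, mul_assoc, mul_assoc]
      refine (hψ ρ (not_lt.1 h)).trans (mul_le_mul_right ?_ c)
      simp only [ga]
      rw [← ENNReal.ofReal_mul (Real.exp_pos _).le, ← ENNReal.ofReal_mul (Real.exp_pos _).le,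
        ← Real.exp_add, ← Real.exp_add]
      refine ENNReal.ofReal_le_ofReal (Real.exp_le_exp.2 ?_)
      nlinarith [mul_nonneg Real.pi_pos.le
        (mul_nonneg (sub_nonneg.2 hx) (sub_nonneg.2 (not_lt.1 h)))]
  rw [sn_add, sn_const_mul] at h1
  refine h1.trans (add_le_add (hc ψ) ?_)
  rw [mul_assoc, mul_assoc, mul_comm (ga x N1)]
  exact mul_le_mul_right (mul_le_mul_left
    ((mul_le_mul_right le_add_self _).trans ht) _) c

theorem blk_thz {y : ℝ} {q : ℕ} (hy : 0 < y) (hq : Real.exp (-Real.pi * y) ≤ vr q)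
    (h1 : mu q (mu q q) < one) : ∑' n : ℤ, ga y ((n : ℝ) ^ 2) ≤ ENNReal.ofReal (vr (thz q)) := by
  have h2 : vr q ^ 3 ≤ vr (mu q (mu q q)) := by
    rw [pow_succ', sq]
    exact mul_le_mu (mul_nonneg (vr_nonneg q) (vr_nonneg q)) le_rfl (vr_mul_le_mu q q)
  have h3 : vr (mu q (mu q q)) < 1 := vr_one ▸ vr_lt_iff.2 h1
  refine (theta_int_le hy hq (h2.trans_lt h3)).trans (ENNReal.ofReal_le_ofReal ?_)
  have h4 := mul_div_le_du (2 * q) one (Nat.sub_pos_of_lt h1)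
  rw [vr_sub, vr_one, vr_nat_mul, max_eq_left (by linarith), mul_one] at h4
  have h5 : vr (thz q) = 1 + vr (du (2 * q * one) (one - mu q (mu q q))) := by
    rw [← vr_one, ← vr_add]
    rfl
  rw [h5]
  refine add_le_add le_rfl (le_trans ?_ h4)
  have := vr_nonneg q
  exact div_le_div_of_nonneg_left (by positivity) (by linarith) (by linarith)

theorem blk_det_cz {ι : Type} [Fintype ι] [DecidableEq ι] {D : Matrix ι ι ℤ} {B : Matrix ι ι ℝ}
    (h : (cz D * B).det ≠ 0) : D.det ≠ 0 := fun h0 => h (by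
  rw [det_mul, cz, ← Int.cast_det, h0, Int.cast_zero, zero_mul])

theorem tail_sound {g : ℕ} {A : Matrix (Fin g) (Fin g) ℝ} {h : HB} {L : LD} {lk : ℕ}
    (hg : h.g = g) (hA : |A.det| = Wr (192 * h.ld)) (D : Matrix (Fin g) (Fin g) ℤ)
    (hD : Real.sqrt (2 ^ lk) • dual A = cz D * Matrix.diagonal fun i : Fin g => Real.sqrt (L.wt i))
    (hw : ∀ i, i < g → 1 ≤ L.wt i) (ht : tailOK h L lk = true) :
    ENNReal.ofReal (Real.exp (Real.pi * (tt h.k0 * h.N1))) * (1 + sn A (ga (tt h.k0))) ≤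
      WW h.tbe := by
  subst hg
  simp only [tailOK, Bool.and_eq_true, allTo_iff, Nat.blt_eq, Nat.ble_eq, frc_eq] at ht
  obtain ⟨t1, t2⟩ := ht
  have hA0 : A.det ≠ 0 := abs_pos.1 (hA ▸ Wr_pos _)
  have hD0 : D.det ≠ 0 := blk_det_cz (by
    rw [← hD, det_smul, det_dual]
    exact mul_ne_zero (pow_ne_zero _ (Real.sqrt_pos.2 (by positivity)).ne') (inv_ne_zero hA0))
  obtain ⟨y, hy⟩ : ∃ y, y = Wr ((16 * (-h.k0 - 24 * lk) : ℤ) : ℝ) := ⟨_, rfl⟩
  have y0 : 0 < y := hy ▸ Wr_pos _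
  have y1 : 2 ^ lk * y = (tt h.k0)⁻¹ := by
    rw [hy, ← tt_nat_mul, tt_eq_Wr, ← Wr_add, ← tt_neg, tt_eq_Wr]
    push_cast
    ring_nf
  have e1 : sn (dual A) (ga (tt h.k0)⁻¹) =
      sn (cz D * Matrix.diagonal fun i : Fin h.g => Real.sqrt (L.wt i)) (ga y) := by
    rw [← hD, sn_smul, Real.sq_sqrt (by positivity), ← y1]
    exact congrArg _ (funext fun ρ => (ga_mul _ _ _).symm)
  have e2 : 1 + sn (dual A) (ga (tt h.k0)⁻¹) ≤ val (prodU h.g fun i => thz (nome h lk (L.wt i))) := by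
    rw [e1]
    refine (one_add_sn_le D hD0 (fun i => L.wt i) y).trans ((prod_le_prod' fun (i : Fin h.g) _ =>
      blk_thz (q := nome h lk (L.wt i)) (mul_pos (Nat.cast_pos.2 (hw i i.2)) y0) ?_
        (t1 i i.2)).trans ?_)
    · refine (exp_le_ex ?_).trans (Wr_le_pu _)
      rw [Nat.mul_eq, vr_nat_mul, hy]
      exact mul_le_mul_of_nonneg_left (pd_le_Wr _) (Nat.cast_nonneg _)
    · rw [← ENNReal.ofReal_prod_of_nonneg fun i _ => vr_nonneg _,
        Fin.prod_univ_eq_prod_range (fun i => vr (thz (nome h lk (L.wt i))))]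
      exact ENNReal.ofReal_le_ofReal (prod_le_prodU _ (fun _ _ => vr_nonneg _) fun _ _ => le_rfl)
  have e3 : ENNReal.ofReal (Real.exp (Real.pi * (tt h.k0 * h.N1))) * Pn |A.det| h.g (tt h.k0) ≤
      val (pu (exu (Nat.mul (pu (16 * h.k0)) h.N1) - 192 * h.ld - 8 * h.g * h.k0)) := by
    rw [hA, show (192 * h.ld : ℝ) = 2 * ((96 * h.ld : ℤ) : ℝ) by push_cast; ring, Pn_tt,
      ← ENNReal.ofReal_mul (Real.exp_pos _).le]
    refine ENNReal.ofReal_le_ofReal (le_trans ?_ (Wr_le_pu _))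
    have e4 : tt h.k0 * h.N1 ≤ vr (Nat.mul (pu (16 * h.k0)) h.N1) := by
      rw [Nat.mul_eq, vr_mul_nat, tt_eq_Wr]
      refine mul_le_mul_of_nonneg_right ?_ (Nat.cast_nonneg _)
      simpa using Wr_le_pu (16 * h.k0)
    refine (mul_le_mul_of_nonneg_right (exp_le_exu e4) (Wr_pos _).le).trans (le_of_eq ?_)
    rw [← Wr_add]
    push_cast
    ring_nf
  rw [sn_ga_dual hA0 (tt_pos _), Fintype.card_fin, ← mul_assoc, mul_comm]
  exact (mul_le_val_mu e2 e3).trans ((val_mono t2).trans (pd_le_WW _))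

theorem blk_dual {ι : Type} [Fintype ι] [DecidableEq ι] {M N : Matrix ι ι ℝ} {c : ℝ}
    (hM : M.det ≠ 0) (h : N * Mᵀ = c • (1 : Matrix ι ι ℝ)) : c • dual M = N := by
  have e : Mᵀ * dual M = 1 := by
    rw [dual, ← transpose_mul, nonsing_inv_mul _ (isUnit_iff_ne_zero.2 hM), transpose_one]
  rw [← Matrix.mul_one N, ← e, ← Matrix.mul_assoc, h, smul_mul, Matrix.one_mul]

theorem blk_cnt (L : LD) {g : ℕ} (hg : L.g = g) (hs : L.shape = true) {sh : List (ℕ × ℕ)}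
    (hd : L.digs sh = true) : CntR (cz (Matrix.of fun i j : Fin g => (L.gm i j : ℤ)) *
      Matrix.diagonal fun i : Fin g => Real.sqrt (L.wt i)) sh L.N1 := by
  subst hg
  exact L.cntR hs hd

theorem blk_wt (L : LD) (hs : L.shape = true) (i : ℕ) (hi : i < L.g) : 1 ≤ L.wt i := by
  simp only [LD.shape, Bool.and_eq_true, allTo_iff, Nat.ble_eq] at hs
  exact (hs.2.1 i hi).2.2.1

theorem blk_Wr (a : ℕ) : Wr (192 * a) ^ 2 = 2 ^ a := by
  rw [sq, ← Wr_add, ← tt_nat_mul, tt_eq_Wr]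
  ring_nf

theorem blk_abs {x : ℝ} {a : ℕ} (h : x ^ 2 = 2 ^ a) : |x| = Wr (192 * a) := by
  rw [← blk_Wr, ← sq_abs] at h
  exact (pow_left_inj₀ (abs_nonneg _) (Wr_pos _).le two_ne_zero).1 h

theorem bk_of_check {L L' : LD} {V D k om lk : ℕ} {h h' : HB}
    (H : blkOK L L' V D k om lk h h' = true) (hd : L.digs h.sh = true) (hd' : L'.digs h'.sh = true)
    (ht : h.tabOK = true) (ht' : h'.tabOK = true) : BK h h' lk := by
  simp only [blkOK, pairOK, Bool.and_eq_true, allTo_iff, Nat.beq_eq, decide_eq_true_eq,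
    prodTo_eq, sumZ_eq] at H
  obtain ⟨hs, hs', ⟨g1, p1, p2, p3⟩, g2, g3, n1, n2, d1, d2, t1, t2⟩ := H
  have c0 : 0 < Real.sqrt (2 ^ lk) := Real.sqrt_pos.2 (by positivity)
  have m1 : L.M.det ^ 2 = 2 ^ h.ld := by
    rw [L.det_sq hs, d1]
    push_cast
    rfl
  have m0 : L.M.det ≠ 0 := fun h0 => by
    rw [h0] at m1
    exact (pow_pos two_pos _).ne (by simpa using m1)
  obtain ⟨DZ, hDZ⟩ : ∃ X : Matrix (Fin L.g) (Fin L.g) ℤ, X = Matrix.of fun i j : Fin L.g =>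
    mxz D i j := ⟨_, rfl⟩
  have q1 : DZ = (Matrix.of fun i j : Fin L.g => mxz V i j) *
      Matrix.of fun i j : Fin L.g => (L'.gm i j : ℤ) := by
    ext i j
    rw [hDZ, of_apply, ← (p3 i i.2 j j.2).1, mul_apply, ← Fin.sum_univ_eq_sum_range]
    rfl
  have q2 : DZ * L.GZᵀ = (k : ℤ) • (1 : Matrix (Fin L.g) (Fin L.g) ℤ) := by
    ext i j
    have := (p3 i i.2 j j.2).2
    rw [← Fin.sum_univ_eq_sum_range] at this
    rw [hDZ, mul_apply, Matrix.smul_apply, one_apply, smul_eq_mul, mul_ite, mul_one, mul_zero]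
    exact this.trans (if_congr Fin.val_inj rfl rfl)
  obtain ⟨N, hN⟩ : ∃ N, N = cz DZ * Matrix.diagonal fun i : Fin L.g => Real.sqrt (L'.wt i) :=
    ⟨_, rfl⟩
  have q3 : N * L.Mᵀ = Real.sqrt (2 ^ lk) • (1 : Matrix (Fin L.g) (Fin L.g) ℝ) := by
    have e1 : (Matrix.diagonal fun i : Fin L.g => Real.sqrt (L'.wt i) * Real.sqrt (L.wt i)) =
        Real.sqrt om • (1 : Matrix (Fin L.g) (Fin L.g) ℝ) := by
      rw [smul_one_eq_diagonal]
      refine congrArg _ (funext fun i => ?_)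
      rw [← Real.sqrt_mul (Nat.cast_nonneg _), ← Nat.cast_mul, mul_comm, p2 i i.2]
    have e2 : Real.sqrt (2 ^ lk) = Real.sqrt om * k := by
      have : (2 : ℝ) ^ lk = om * (k : ℝ) ^ 2 := by exact_mod_cast p1.symm
      rw [this, Real.sqrt_mul (Nat.cast_nonneg _), Real.sqrt_sq (Nat.cast_nonneg _)]
    rw [hN, LD.M, transpose_mul, diagonal_transpose, Matrix.mul_assoc,
      ← Matrix.mul_assoc (Matrix.diagonal _), diagonal_mul_diagonal, e1, smul_mul, Matrix.one_mul,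
      Matrix.mul_smul, ← cz_transpose, ← cz_mul, q2, e2, mul_smul]
    refine congrArg _ ?_
    ext i j
    simp only [cz, map_apply, Matrix.smul_apply, one_apply, smul_eq_mul, mul_ite, mul_one, mul_zero]
    split_ifs <;> simp
  have q4 := blk_dual m0 q3
  have m2 : N.det ^ 2 = 2 ^ h'.ld := by
    have e1 := congrArg (fun X : Matrix (Fin L.g) (Fin L.g) ℝ => X.det ^ 2) q3
    simp only [det_mul, det_transpose, det_smul, det_one, Fintype.card_fin, mul_one] at e1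
    rw [mul_pow, m1, ← pow_mul, mul_comm L.g, pow_mul, Real.sq_sqrt (by positivity), ← pow_mul,
      ← d2, pow_add, mul_comm] at e1
    exact mul_left_cancel₀ (by positivity) e1
  have m3 : N.det ≠ 0 := fun h0 => by
    rw [h0] at m2
    exact (pow_pos two_pos _).ne (by simpa using m2)
  have q5 : Real.sqrt (2 ^ lk) • dual N = L.M := blk_dual m3 (by
    rw [← transpose_transpose L.M, ← transpose_mul, q3, transpose_smul, transpose_one])
  have q6 : N = cz (Matrix.of fun i j : Fin L.g => mxz V i j) *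
      (cz (Matrix.of fun i j : Fin L.g => (L'.gm i j : ℤ)) *
        Matrix.diagonal fun i : Fin L.g => Real.sqrt (L'.wt i)) := by
    rw [hN, q1, cz_mul, Matrix.mul_assoc]
  refine ⟨⟨L.g, L.M, m0⟩, ⟨(Fintype.card_fin _).trans g2.symm, blk_abs m1, ?_, Or.inr ht⟩, ?_⟩
  · exact spec_of_cntR (n1 ▸ L.cntR hs hd) (tail_sound g2 (blk_abs m1) DZ (q4.trans hN)
      (fun i hi => blk_wt L' hs' i (g1 ▸ hi)) t1)
  · change Half (Real.sqrt (2 ^ lk) • dual L.M) h'
    rw [q4]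
    refine ⟨(Fintype.card_fin _).trans g3.symm, blk_abs m2, spec_of_cntR (fun ψ => ?_)
      (tail_sound g3 (blk_abs m2) L.GZ q5 (blk_wt L hs) t2), Or.inr ht'⟩
    rw [q6, n2]
    exact (sn_cz_mul_le _ (blk_det_cz (q6 ▸ m3)) _ _).trans (blk_cnt L' g1 hs' hd' ψ)

end Pool.Agent.Eps.B
end
end

-- part Pool.Agent.Lib.MP_3bda03_nt.B.BKs
section

/-!
The blocks exist.
-/

set_option autoImplicit false

namespace Pool.Agent.Eps.B

theorem bkE : BK hE hE 0 := bk_empty rfl rfl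

theorem bkZ : BK hZ hZ 0 := bk_of_check blkZ digZ digZ tabZ tabZ

theorem bkD2 : BK hD2 hD2d 2 := bk_of_check blkD2 digD2 digD2d tabD2 tabD2d

theorem bkD3 : BK hD3 hD3d 2 := bk_of_check blkD3 digD3 digD3d tabD3 tabD3d

theorem bkD4 : BK hD4 hD4d 2 := bk_of_check blkD4 digD4 digD4d tabD4 tabD4d

theorem bkD5 : BK hD5 hD5d 2 := bk_of_check blkD5 digD5 digD5d tabD5 tabD5d

theorem bkD6 : BK hD6 hD6d 2 := bk_of_check blkD6 digD6 digD6d tabD6 tabD6d

theorem bkD7 : BK hD7 hD7d 2 := bk_of_check blkD7 digD7 digD7d tabD7 tabD7d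

theorem bkE8 : BK hE8 hE8 2 := bk_of_check blkE8 digE8 digE8 tabE8 tabE8

theorem bkS16 : BK hS16 hS16d 4 := bk_of_check blkS16 digS16 digS16d tabS16 tabS16d

theorem bkS18 : BK hS18 hS18d 4 := bk_of_check blkS18 digS18 digS18d tabS18 tabS18d

theorem bkS19 : BK hS19 hS19d 4 := bk_of_check blkS19 digS19 digS19d tabS19 tabS19d

theorem bkS20 : BK hS20 hS20d 4 := bk_of_check blkS20 digS20 digS20d tabS20 tabS20d

theorem bkS21 : BK hS21 hS21d 4 := bk_of_check blkS21 digS21 digS21d tabS21 tabS21d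

theorem bkS22 : BK hS22 hS22d 4 := bk_of_check blkS22 digS22 digS22d tabS22 tabS22d

theorem bkS23 : BK hS23 hS23d 4 := bk_of_check blkS23 digS23 digS23d tabS23 tabS23d

theorem bkL17 : BK hL17 hL17d 5 := bk_of_check blkL17 digL17 digL17d tabL17 tabL17d

theorem bkL24 : BK hL24 hL24 6 := bk_of_check blkL24 digL24 digL24 tabL24 tabL24

end Pool.Agent.Eps.B
end
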