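import Pool.Agent.Lib.MP_3bda03_nt.B.Assoc

-- part Pool.Agent.Lib.MP_3bda03_nt.B.Law
section

/-!
The law of the dual lattice, and the choice of one lattice for both sides.
-/

set_option autoImplicit false

noncomputable section

open MeasureTheory Matrix Finset
open scoped ENNReal

namespace Pool.Agent.Eps.B

open Pool.Agent.Eps.H

section
variable {α β γ δ : Type} [Fintype α] [Fintype β] [Fintype γ] [Fintype δ]
  {Γ : ((ℝ → ℝ≥0∞) → ℝ≥0∞) → ℝ≥0∞}

/-- the mean over all gluings of two blocks -/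
def lawJ (Γ : ((ℝ → ℝ≥0∞) → ℝ≥0∞) → ℝ≥0∞) (A : Matrix α α ℝ) (B : Matrix β β ℝ) : ℝ≥0∞ :=
  ∫⁻ T in cube β α, Γ (sn (glue A B T))

theorem law_meas {Ω : Type} [MeasurableSpace Ω] {F : Matrix (α ⊕ β) (α ⊕ β) ℝ → ℝ≥0∞}
    (hF : Measurable F) {A : Ω → Matrix α α ℝ} {B : Ω → Matrix β β ℝ} (hA : Measurable A)
    (hB : Measurable B) : Measurable fun x => ∫⁻ T in cube β α, F (glue (A x) (B x) T) :=
  Measurable.lintegral_prod_right' (f := fun p : Ω × Matrix β α ℝ => F (glue (A p.1) (B p.1) p.2))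
    (hF.comp (measurable_glue (hA.comp measurable_fst) (hB.comp measurable_fst) measurable_snd))

theorem lawJ_meas (hΓ : MF Γ) {Ω : Type} [MeasurableSpace Ω] {A : Ω → Matrix α α ℝ}
    {B : Ω → Matrix β β ℝ} (hA : Measurable A) (hB : Measurable B) :
    Measurable fun x => lawJ Γ (A x) (B x) :=
  law_meas (F := fun g => Γ (sn g)) (hΓ _) hA hB

theorem law_glue_meas (A : Matrix α α ℝ) (B : Matrix β β ℝ) : Measurable (glue A B) :=
  measurable_glue measurable_const measurable_const measurable_id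

theorem law_ens (A : Matrix α α ℝ) (B : Matrix β β ℝ) (C : Matrix γ γ ℝ) (D : Matrix δ δ ℝ)
    {F : Matrix (((α ⊕ β) ⊕ γ) ⊕ δ) (((α ⊕ β) ⊕ γ) ⊕ δ) ℝ → ℝ≥0∞} (hF : Measurable F) :
    ∫⁻ g, F g ∂(ens (ens (ens (Measure.dirac A) B) C) D) =
      ∫⁻ T in cube β α, ∫⁻ T' in cube γ (α ⊕ β), ∫⁻ T'' in cube δ ((α ⊕ β) ⊕ γ),
        F (glue (glue (glue A B T) C T') D T'') := by
  have i1 := isProbabilityMeasure_ens (Measure.dirac A) B
  have i2 := isProbabilityMeasure_ens (ens (Measure.dirac A) B) C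
  have m1 := law_meas hF (A := fun X => X) (B := fun _ => D) measurable_id measurable_const
  have m2 := law_meas m1 (A := fun X => X) (B := fun _ => C) measurable_id measurable_const
  have m3 := law_meas m2 (A := fun X => X) (B := fun _ => B) measurable_id measurable_const
  rw [lintegral_ens _ D hF, lintegral_ens _ C m1, lintegral_ens _ B m2, lintegral_dirac' _ m3]

theorem law_reindex (P : Matrix α α ℝ) (e : β ≃ γ) (Q : Matrix β β ℝ) (S : Matrix γ α ℝ) :
    glue P (Matrix.reindex e e Q) S =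
      Matrix.reindex (Equiv.sumCongr (Equiv.refl α) e) (Equiv.sumCongr (Equiv.refl α) e)
        (glue P Q (Matrix.reindex e.symm (Equiv.refl α) S)) := by
  ext i j
  rcases i with i | i <;> rcases j with j | j <;> simp [glue, Matrix.mul_apply]

theorem lawJ_reindex (hΓ : MF Γ) (P : Matrix α α ℝ) (e : β ≃ γ) (Q : Matrix β β ℝ) :
    lawJ Γ P (Matrix.reindex e e Q) = lawJ Γ P Q := by
  unfold lawJ
  simp only [law_reindex, sn_reindex]
  exact lintegral_cube_reindex e.symm (Equiv.refl α) (F := fun S => Γ (sn (glue P Q S)))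
    ((hΓ _).comp (law_glue_meas P Q))

theorem law_assoc (P : Matrix α α ℝ) (C : Matrix β β ℝ) (Y : Matrix γ γ ℝ) (T : Matrix β α ℝ)
    (U : Matrix γ α ℝ) (S : Matrix γ β ℝ) :
    sn (glue (glue P C T) Y (Matrix.fromCols U S)) =
      sn (glue P (glue C Y S) (Matrix.fromRows T (U + S * T))) := by
  rw [← sn_reindex (Equiv.sumAssoc α β γ).symm (Equiv.sumAssoc α β γ).symm]
  congr 1
  unfold glue
  rw [Matrix.fromCols_mul_fromBlocks, Matrix.fromRows_mul, Matrix.add_mul, Matrix.mul_assoc]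
  ext i j
  rcases i with (i | i) | i <;> rcases j with (j | j) | j <;> simp

theorem law_shift (P : Matrix α α ℝ) (C : Matrix β β ℝ) (Y : Matrix γ γ ℝ) (T : Matrix β α ℝ)
    (W : Matrix γ α ℝ) (S : Matrix γ β ℝ) (z : Matrix γ β ℤ) :
    sn (glue P (glue C Y (cz z + S)) (Matrix.fromRows T W)) =
      sn (glue P (glue C Y S) (Matrix.fromRows T (W + -(cz z * T)))) := by
  have h1 := law_assoc P C Y T (W - (cz z + S) * T) (cz z + S)
  have h2 := law_assoc P C Y T (W - (cz z + S) * T) S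
  have e : Matrix.fromCols (W - (cz z + S) * T) (cz z + S) =
      cz (Matrix.fromCols 0 z) + Matrix.fromCols (W - (cz z + S) * T) S := by
    ext i j
    rcases j with j | j <;> simp [cz]
  have e2 : W - (cz z + S) * T + S * T = W + -(cz z * T) := by
    rw [Matrix.add_mul]
    abel
  rw [sub_add_cancel, e, sn_glue_add_cz, h2, e2] at h1
  exact h1.symm

theorem lawJ_per (hΓ : MF Γ) (P : Matrix α α ℝ) (C : Matrix β β ℝ) (Y : Matrix γ γ ℝ)
    (z : Matrix γ β ℤ) (S : Matrix γ β ℝ) :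
    lawJ Γ P (glue C Y (cz z + S)) = lawJ Γ P (glue C Y S) := by
  unfold lawJ
  rw [lintegral_cube_rows (F := fun T => Γ (sn (glue P (glue C Y (cz z + S)) T)))
      ((hΓ _).comp (law_glue_meas _ _)),
    lintegral_cube_rows (F := fun T => Γ (sn (glue P (glue C Y S) T)))
      ((hΓ _).comp (law_glue_meas _ _))]
  refine lintegral_congr fun T => ?_
  simp only [law_shift]
  have hm : Measurable fun W : Matrix γ α ℝ => Matrix.fromRows T W := by
    refine measurable_mx.2 fun a i => ?_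
    rcases a with a | a
    · exact measurable_const
    · exact measurable_entry a i
  refine lintegral_cube_add (F := fun W => Γ (sn (glue P (glue C Y S) (Matrix.fromRows T W))))
    ((hΓ _).comp ((law_glue_meas _ _).comp hm)) (fun y W => ?_) _
  have e : Matrix.fromRows T (cz y + W) = cz (Matrix.fromRows 0 y) + Matrix.fromRows T W := by
    ext i j
    rcases i with i | i <;> simp [cz]
  rw [e, sn_glue_add_cz]

variable [DecidableEq α] [DecidableEq β] [DecidableEq γ] [DecidableEq δ]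

theorem law_flip (hΓ : MF Γ) {A : Matrix α α ℝ} {B : Matrix β β ℝ} (hA : A.det ≠ 0)
    (hB : B.det ≠ 0) :
    ∫⁻ T in cube β α, Γ (sn (dual (glue A B T))) = lawJ Γ (dual B) (dual A) := by
  simp only [dual_glue hA hB, sn_reindex]
  exact lintegral_cube_flip (F := fun S => Γ (sn (glue (dual B) (dual A) S)))
    ((hΓ _).comp (law_glue_meas _ _)) fun z S => by rw [sn_glue_add_cz]

omit [DecidableEq γ] in
theorem law_step (hΓ : MF Γ) (P : Matrix γ γ ℝ) {A : Matrix α α ℝ} {B : Matrix β β ℝ}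
    (hA : A.det ≠ 0) (hB : B.det ≠ 0) :
    ∫⁻ T in cube β α, lawJ Γ P (dual (glue A B T)) =
      ∫⁻ T in cube β γ, lawJ Γ (glue P (dual B) T) (dual A) := by
  simp only [dual_glue hA hB, lawJ_reindex hΓ]
  rw [lintegral_cube_flip (F := fun S => lawJ Γ P (glue (dual B) (dual A) S))
    (lawJ_meas hΓ measurable_const (law_glue_meas _ _)) fun z S => lawJ_per hΓ _ _ _ z S]
  exact (assoc hΓ P (dual B) (dual A)).symm

theorem law_gen (hΓ : MF Γ) {A : Matrix α α ℝ} {B : Matrix β β ℝ} {C : Matrix γ γ ℝ}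
    {D : Matrix δ δ ℝ} (hA : A.det ≠ 0) (hB : B.det ≠ 0) (hC : C.det ≠ 0) (hD : D.det ≠ 0) :
    ∫⁻ g, Γ (sn (dual g)) ∂(ens (ens (ens (Measure.dirac A) B) C) D) =
      ∫⁻ g, Γ (sn g) ∂(ens (ens (ens (Measure.dirac (dual D)) (dual C)) (dual B)) (dual A)) := by
  rw [law_ens A B C D (F := fun g => Γ (sn (dual g))) ((hΓ _).comp measurable_dual),
    law_ens (dual D) (dual C) (dual B) (dual A) (F := fun g => Γ (sn g)) (hΓ _)]
  have d1 : ∀ T, (glue A B T).det ≠ 0 := fun T => by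
    rw [det_glue]
    exact mul_ne_zero hA hB
  have d2 : ∀ T T', (glue (glue A B T) C T').det ≠ 0 := fun T T' => by
    rw [det_glue]
    exact mul_ne_zero (d1 T) hC
  simp only [law_flip hΓ (d2 _ _) hD, law_step hΓ _ (d1 _) hC]
  rw [lintegral_lintegral_swap (f := fun T T' => lawJ Γ (glue (dual D) (dual C) T')
    (dual (glue A B T))) (lawJ_meas hΓ ((law_glue_meas _ _).comp measurable_snd)
      (measurable_dual.comp ((law_glue_meas _ _).comp measurable_fst))).aemeasurable]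
  exact lintegral_congr fun T' => law_step hΓ _ hA hB

end

theorem dual_law (b : ℕ → RB) {Γ : ((ℝ → ℝ≥0∞) → ℝ≥0∞) → ℝ≥0∞} (hΓ : MF Γ) :
    ∫⁻ g, Γ (sn (dual g)) ∂(mu4 b) = ∫⁻ g, Γ (sn g) ∂(mu4 (rev b)) :=
  law_gen hΓ (b 0).hM (b 1).hM (b 2).hM (b 3).hM

theorem two_sides (b : ℕ → RB) {Γ Γ' : ((ℝ → ℝ≥0∞) → ℝ≥0∞) → ℝ≥0∞} (hΓ : MF Γ) (hΓ' : MF Γ')
    (h : ∫⁻ g, Γ (sn g) ∂(mu4 b) + ∫⁻ g, Γ' (sn g) ∂(mu4 (rev b)) < 1) :
    ∃ g : Matrix (I4 b) (I4 b) ℝ, |g.det| = cov b 4 ∧ Γ (sn g) + Γ' (sn (dual g)) < 1 := by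
  have i := (good_mu4 b).prob
  by_contra hn
  rw [← dual_law b hΓ', ← lintegral_add_left (hΓ _)] at h
  refine absurd h (not_lt.2 ?_)
  calc (1 : ℝ≥0∞) = ∫⁻ _, 1 ∂(mu4 b) := by simp
    _ ≤ _ := lintegral_mono_ae ((good_mu4 b).det.mono fun g hg =>
      not_lt.1 fun k => hn ⟨g, hg, k⟩)

end Pool.Agent.Eps.B
end
end

-- part Pool.Agent.Lib.MP_3bda03_nt.B.Scale
section

/-!
The sign condition for a lattice of any covolume.
-/

set_option autoImplicit false

noncomputable section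

open MeasureTheory Matrix Finset
open scoped ENNReal

namespace Pool.Agent.Eps.B

open Pool.Agent.Eps.H

theorem scale_shift {f : ℝ → ℝ} (hc : Continuous f) (hi : IntegrableOn f (Set.Ioi 0)) (a : ℝ) :
    ∫ u in Set.Ioi (0 : ℝ), f (a + u) = (∫ u in Set.Ioi (0 : ℝ), f u) - ∫ u in (0 : ℝ)..a, f u := by
  have h := (measurePreserving_add_left (volume : Measure ℝ) a).setIntegral_preimage_emb
    (measurableEmbedding_addLeft a) f (Set.Ioi a)
  rw [Set.preimage_const_add_Ioi, sub_self] at h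
  rw [h, ← intervalIntegral.integral_interval_add_Ioi' (hc.intervalIntegrable a 0) hi,
    intervalIntegral.integral_symm]
  ring

theorem scale_exp {c : ℝ} (hc : c ≠ 0) (a : ℝ) :
    ∫ u in (0 : ℝ)..a, Real.exp (c * u) = (Real.exp (c * a) - 1) / c := by
  rw [intervalIntegral.integral_comp_mul_left (fun x => Real.exp x) hc, integral_exp, mul_zero,
    Real.exp_zero, smul_eq_mul, div_eq_inv_mul]

section
variable {ι : Type} [Fintype ι] [DecidableEq ι]

omit [DecidableEq ι] in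
theorem scale_theta (g : Matrix ι ι ℝ) (a u : ℝ) :
    theta (Real.exp (a / 2) • g) (Real.exp u) = theta g (Real.exp (a + u)) := by
  refine tsum_congr fun k => ?_
  rw [lv, Matrix.vecMul_smul, nsq_smul, ← Real.exp_nat_mul, Real.exp_add a u, lv]
  congr 1
  rw [show ((2 : ℕ) : ℝ) * (a / 2) = a by push_cast; ring]
  ring

theorem scale_dual {g : Matrix ι ι ℝ} (hg : g.det ≠ 0) (a : ℝ) :
    dual (Real.exp (a / 2) • g) = Real.exp (-a / 2) • dual g := by
  unfold dual
  rw [← Matrix.transpose_smul]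
  refine congrArg Matrix.transpose (Matrix.inv_eq_right_inv ?_)
  rw [Matrix.smul_mul, Matrix.mul_smul, smul_smul, ← Real.exp_add,
    show a / 2 + -a / 2 = 0 by ring, Real.exp_zero, one_smul,
    Matrix.mul_nonsing_inv g (isUnit_iff_ne_zero.2 hg)]

theorem scale_cont {g : Matrix ι ι ℝ} (hg : g.det ≠ 0) (x : ℝ) :
    Continuous fun u => Real.exp (x * u) * (theta g (Real.exp u) - 1) :=
  Continuous.mul (by fun_prop) (((ana_contOn hg).comp_continuous Real.continuous_exp
    fun u => Real.exp_pos u).sub continuous_const)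

theorem scale_int {g : Matrix ι ι ℝ} (hg : g.det ≠ 0) (a x : ℝ) :
    ∫ t in Set.Ioi (1 : ℝ), (theta (Real.exp (a / 2) • g) t - 1) * t ^ (x - 1) =
      Real.exp (-(x * a)) * ((∫ t in Set.Ioi (1 : ℝ), (theta g t - 1) * t ^ (x - 1)) -
        ∫ u in (0 : ℝ)..a, Real.exp (x * u) * (theta g (Real.exp u) - 1)) := by
  rw [← ana_integral_exp, ← ana_integral_exp,
    ← scale_shift (scale_cont hg x) (ana_integrableOn_exp hg x), ← integral_const_mul]
  refine integral_congr_ae (Filter.Eventually.of_forall fun u => ?_)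
  simp only [scale_theta]
  rw [← mul_assoc, ← Real.exp_add]
  congr 2
  ring

end

theorem goal_of_theta' {ι : Type} [Fintype ι] [DecidableEq ι] {n : ℕ} (hn : 1 ≤ n)
    (hι : Fintype.card ι = n) (g : Matrix ι ι ℝ) (hg : g.det ≠ 0)
    (hneg : ∀ s : ℝ, 0 < s → s < (n : ℝ) / 2 →
      (∫ t in Set.Ioi (1 : ℝ), (theta g t - 1) * t ^ (s - 1)) +
        |g.det|⁻¹ * (∫ t in Set.Ioi (1 : ℝ), (theta (dual g) t - 1) * t ^ ((n : ℝ) / 2 - s - 1)) <
      1 / s + |g.det|⁻¹ / ((n : ℝ) / 2 - s)) : Goal n := by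
  have h0 : 0 < |g.det| := abs_pos.2 hg
  have hn' : (0 : ℝ) < n := Nat.cast_pos.2 hn
  have hg' : (dual g).det ≠ 0 := by rw [det_dual]; exact inv_ne_zero hg
  obtain ⟨a, ha⟩ : ∃ a : ℝ, |g.det|⁻¹ = Real.exp (n / 2 * a) :=
    ⟨Real.log |g.det|⁻¹ / (n / 2), by
      rw [mul_div_cancel₀ _ (by positivity), Real.exp_log (inv_pos.2 h0)]⟩
  refine goal_of_theta hn hι (Real.exp (a / 2) • g) ?_ fun s hs hs' => ?_
  · rw [Matrix.det_smul, abs_mul, abs_pow, abs_of_pos (Real.exp_pos _), ← Real.exp_nat_mul, hι,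
      show (n : ℝ) * (a / 2) = n / 2 * a by ring, ← ha, inv_mul_cancel₀ h0.ne']
  have h1 := hneg s hs hs'
  set m : ℝ := n / 2 with hm
  have hms : 0 < m - s := sub_pos.2 hs'
  have key : (∫ u in (0 : ℝ)..a, Real.exp (s * u) * (theta g (Real.exp u) - 1)) +
      |g.det|⁻¹ * ∫ u in (0 : ℝ)..(-a), Real.exp ((m - s) * u) * (theta (dual g) (Real.exp u) - 1) =
      |g.det|⁻¹ * ((Real.exp (-(m - s) * a) - 1) / -(m - s)) - (Real.exp (s * a) - 1) / s := by
    have e1 := intervalIntegral.integral_comp_neg (a := a) (b := 0)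
      fun u => Real.exp ((m - s) * u) * (theta (dual g) (Real.exp u) - 1)
    rw [neg_zero, intervalIntegral.integral_symm] at e1
    have c2 : Continuous fun u =>
        Real.exp ((m - s) * -u) * (theta (dual g) (Real.exp (-u)) - 1) :=
      (scale_cont hg' (m - s)).comp continuous_neg
    rw [← e1, ← scale_exp hs.ne', ← scale_exp (neg_ne_zero.2 hms.ne'), mul_neg, ← sub_eq_add_neg,
      ← intervalIntegral.integral_const_mul, ← intervalIntegral.integral_const_mul,
      ← intervalIntegral.integral_sub ((scale_cont hg s).intervalIntegrable _ _)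
        ((c2.const_mul _).intervalIntegrable _ _),
      ← intervalIntegral.integral_sub (Continuous.intervalIntegrable (by fun_prop) _ _)
        (Continuous.intervalIntegrable (by fun_prop) _ _)]
    refine intervalIntegral.integral_congr fun u _ => ?_
    have e2 : Real.exp (s * u) * Real.exp u ^ (-m) = Real.exp (-(m - s) * u) := by
      rw [← Real.exp_mul, ← Real.exp_add]
      congr 1
      ring
    rw [theta_dual hg (Real.exp_pos u), hι, ← hm, ← Real.exp_neg,
      show (m - s) * -u = -(m - s) * u by ring, ← e2]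
    ring
  rw [scale_dual hg, scale_int hg, scale_int hg']
  have e3 : Real.exp (-((m - s) * -a)) = Real.exp (-(s * a)) * |g.det|⁻¹ := by
    rw [ha, ← Real.exp_add]
    congr 1
    ring
  have e4 : Real.exp (-(s * a)) * Real.exp (s * a) = 1 := by
    rw [← Real.exp_add, neg_add_cancel, Real.exp_zero]
  have e5 : Real.exp (-(s * a)) * (|g.det|⁻¹ * Real.exp (-(m - s) * a)) = 1 := by
    rw [ha, ← Real.exp_add, ← Real.exp_add, ← Real.exp_zero]
    congr 1
    ring
  have h2 := mul_lt_mul_of_pos_left h1 (Real.exp_pos (-(s * a)))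
  rw [e3]
  have e6 : Real.exp (-(s * a)) * (|g.det|⁻¹ * ((Real.exp (-(m - s) * a) - 1) / -(m - s)) -
      (Real.exp (s * a) - 1) / s) =
      Real.exp (-(s * a)) * (1 / s + |g.det|⁻¹ / (m - s)) - (1 / s + 1 / (m - s)) := by
    rw [div_neg]
    linear_combination (-1 / s) * e4 - (1 / (m - s)) * e5
  rw [← key] at e6
  linarith

end Pool.Agent.Eps.B
end
end
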