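import Pool.Agent.Lib.MP_3bda03_nt.B.SideMean
import Pool.Agent.Lib.MP_3bda03_nt.B.Scale

-- part Pool.Agent.Lib.MP_3bda03_nt.B.SidePath
section

/-!
The pathwise bound of one side.
-/

set_option autoImplicit false

noncomputable section

open MeasureTheory Matrix Finset
open scoped ENNReal

namespace Pool.Agent.Eps.B

open Pool.Agent.Eps.H

variable {ι : Type} [Fintype ι] [DecidableEq ι]

theorem sidePath_mPn (c : ℝ) (n : ℕ) : Measurable (Pn c n) :=
  (measurable_const.mul (measurable_id.pow_const _)).ennreal_ofReal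

theorem sidePath_mw (s : ℝ) : Measurable fun t : ℝ => ENNReal.ofReal (t ^ s) :=
  (measurable_id.pow_const _).ennreal_ofReal

theorem sidePath_Ioi {c T s : ℝ} {n : ℕ} (hc : 0 < c) (hT : 0 < T) (hs : s < (n : ℝ) / 2) :
    ∫⁻ t in Set.Ioi T, Pn c n t * ENNReal.ofReal (t ^ (s - 1)) =
      ENNReal.ofReal (c⁻¹ * T ^ (s - (n : ℝ) / 2) / ((n : ℝ) / 2 - s)) := by
  have ha : s - (n : ℝ) / 2 - 1 < -1 := by linarith
  have h1 := integral_Ioi_rpow_of_lt ha hT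
  have h2 : c⁻¹ * T ^ (s - (n : ℝ) / 2) / ((n : ℝ) / 2 - s) =
      ∫ t in Set.Ioi T, c⁻¹ * t ^ (s - (n : ℝ) / 2 - 1) := by
    rw [integral_const_mul, h1, sub_add_cancel, ← neg_sub ((n : ℝ) / 2) s, neg_div_neg_eq,
      mul_div_assoc]
  rw [h2, ofReal_integral_eq_lintegral_ofReal ((integrableOn_Ioi_rpow_of_lt ha hT).const_mul _)
    ((ae_restrict_mem measurableSet_Ioi).mono fun t ht =>
      mul_nonneg (inv_nonneg.2 hc.le) (Real.rpow_nonneg (hT.trans ht).le _))]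
  refine setLIntegral_congr_fun measurableSet_Ioi fun t ht => ?_
  have h0 : 0 < t := hT.trans ht
  simp only [Pn]
  rw [← ENNReal.ofReal_mul (by positivity), mul_assoc, ← Real.rpow_add h0]
  congr 3
  ring

theorem sidePath_ph {R T t ρ : ℝ} {n : ℕ} (hT : 0 < T) (ht : T ≤ t)
    (hR : (n : ℝ) / 2 ≤ Real.pi * R * T) :
    ph R t ρ ≤ ENNReal.ofReal ((t / T) ^ (-((n : ℝ) / 2))) * ph R T ρ := by
  simp only [ph, ga]
  split_ifs with h
  · have h0 : 0 < t / T := div_pos (hT.trans_le ht) hT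
    rw [← ENNReal.ofReal_mul (Real.rpow_nonneg h0.le _), Real.rpow_def_of_pos h0, ← Real.exp_add]
    refine ENNReal.ofReal_le_ofReal (Real.exp_le_exp.2 ?_)
    have h1 := mul_le_mul_of_nonneg_right (Real.log_le_sub_one_of_pos h0)
      (show 0 ≤ (n : ℝ) / 2 by positivity)
    have h2 : 0 ≤ t / T - 1 := sub_nonneg.2 ((one_le_div hT).2 ht)
    have h3 := mul_le_mul_of_nonneg_left hR h2
    have h4 : (t / T - 1) * (Real.pi * R * T) = Real.pi * (t - T) * R := by field_simp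
    have h5 := mul_le_mul_of_nonneg_left h (mul_nonneg Real.pi_pos.le (sub_nonneg.2 ht))
    nlinarith
  · exact zero_le

omit [DecidableEq ι] in
/-- the part of the Mellin integral beyond the last grid point -/
theorem tail_le {g : Matrix ι ι ℝ} {c R T s : ℝ} {n : ℕ} (hc : 0 < c) (hT : 1 ≤ T)
    (hR : (n : ℝ) / 2 ≤ Real.pi * R * T) (hs : s < (n : ℝ) / 2)
    (hX : 8 * ((Pn c n T)⁻¹ * sn g (ph R T)) ≤ 1) :
    ∫⁻ t in Set.Ioi T, sn g (ph R t) * ENNReal.ofReal (t ^ (s - 1)) ≤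
      ENNReal.ofReal (1 / 8 * (c⁻¹ * T ^ (s - (n : ℝ) / 2) / ((n : ℝ) / 2 - s))) := by
  have hT0 : 0 < T := one_pos.trans_le hT
  have hP : Pn c n T ≠ 0 := (ENNReal.ofReal_pos.2 (by positivity)).ne'
  have h1 : sn g (ph R T) ≤ ENNReal.ofReal (1 / 8) * Pn c n T := by
    have h2 := mul_le_mul_right hX (ENNReal.ofReal (1 / 8) * Pn c n T)
    have h3 : ENNReal.ofReal (1 / 8) * 8 = 1 := by
      rw [← ENNReal.ofReal_ofNat 8, ← ENNReal.ofReal_mul (by norm_num)]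
      norm_num
    rwa [mul_mul_mul_comm, h3, one_mul, ← mul_assoc,
      ENNReal.mul_inv_cancel hP ENNReal.ofReal_ne_top, one_mul, mul_one] at h2
  rw [ENNReal.ofReal_mul (by norm_num), ← sidePath_Ioi hc hT0 hs,
    ← lintegral_const_mul' _ _ ENNReal.ofReal_ne_top]
  refine setLIntegral_mono' measurableSet_Ioi fun t ht => ?_
  have h0 : 0 < t := hT0.trans ht
  rw [← mul_assoc]
  refine mul_le_mul_left ((sn_mono g fun ρ _ => sidePath_ph hT0 (le_of_lt ht) hR).trans ?_) _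
  rw [sn_const_mul]
  refine (mul_le_mul_right h1 _).trans_eq ?_
  rw [mul_left_comm, Pn, Pn, ← ENNReal.ofReal_mul (by positivity), mul_left_comm,
    ← Real.mul_rpow (by positivity) hT0.le, div_mul_cancel₀ _ hT0.ne']

theorem lintegral_Pn {c T s : ℝ} {n : ℕ} (hc : 0 < c) (hT : 1 ≤ T) (hs : s < (n : ℝ) / 2) :
    (∫⁻ t in Set.Ioc 1 T, Pn c n t * ENNReal.ofReal (t ^ (s - 1))) +
      ENNReal.ofReal (c⁻¹ * T ^ (s - (n : ℝ) / 2) / ((n : ℝ) / 2 - s)) =
      ENNReal.ofReal (c⁻¹ / ((n : ℝ) / 2 - s)) := by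
  rw [← sidePath_Ioi hc (one_pos.trans_le hT) hs,
    ← lintegral_union measurableSet_Ioi (Set.Ioc_disjoint_Ioi le_rfl), Set.Ioc_union_Ioi_eq_Ioi hT,
    sidePath_Ioi hc one_pos hs, Real.one_rpow, mul_one]

omit [DecidableEq ι] in
theorem sidePath_mS (g : Matrix ι ι ℝ) (R : ℝ) : Measurable fun t => sn g (ph R t) :=
  Measurable.of_uncurry_left (f := fun (g : Matrix ι ι ℝ) t => sn g (ph R t)) (measurable_sn_ph R)

theorem sidePath_theta {g : Matrix ι ι ℝ} (hg : g.det ≠ 0) {R : ℝ} (h : sn g (bi R) < 2) (s : ℝ) :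
    ENNReal.ofReal (∫ t in Set.Ioi (1 : ℝ), (theta g t - 1) * t ^ (s - 1)) =
      ∫⁻ t in Set.Ioi (1 : ℝ), sn g (ph R t) * ENNReal.ofReal (t ^ (s - 1)) := by
  have h0 : ∀ t : ℝ, 1 < t → 0 ≤ theta g t - 1 := fun t ht =>
    (hasSum_theta hg (one_pos.trans ht)).nonneg fun _ => (Real.exp_pos _).le
  rw [ofReal_integral_eq_lintegral_ofReal (integrableOn_theta hg s)
    ((ae_restrict_mem measurableSet_Ioi).mono fun t ht =>
      mul_nonneg (h0 t ht) (Real.rpow_nonneg (one_pos.trans ht).le _))]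
  refine setLIntegral_congr_fun measurableSet_Ioi fun t ht => ?_
  have e : sn g (ph R t) = sn g (ga t) :=
    tsum_congr fun k => if_pos (le_nsq_of_sn_bi_lt h k.1 k.2)
  rw [ENNReal.ofReal_mul (h0 t ht), ← sn_ga_eq hg (one_pos.trans ht), e]

theorem sidePath_cs {Z : ℝ → ℝ≥0∞} (hZ : Measurable Z) (M : ℕ) (β : ℕ → ℤ) (s : ℝ) :
    ∫⁻ t in Set.Ioc (1 : ℝ) (tt M), Z t * ENNReal.ofReal (t ^ (s - 1)) ≤
      (∫⁻ t in Set.Ioc (1 : ℝ) (tt M), geo β t * Z t ^ 2 * ENNReal.ofReal t⁻¹) ^ (1 / 2 : ℝ) *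
        HH M β s ^ (1 / 2 : ℝ) := by
  have m1 : Measurable fun t => geo β t * Z t ^ 2 * ENNReal.ofReal t⁻¹ :=
    ((measurable_geo β).mul (hZ.pow_const 2)).mul measurable_inv.ennreal_ofReal
  have m2 : Measurable fun t => (geo β t)⁻¹ * ENNReal.ofReal (t ^ (2 * s - 1)) :=
    (measurable_geo β).inv.mul (sidePath_mw _)
  refine le_trans (le_of_eq (setLIntegral_congr_fun measurableSet_Ioc fun t ht => ?_))
    (ENNReal.lintegral_mul_norm_pow_le m1.aemeasurable m2.aemeasurable (by norm_num) (by norm_num)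
      (by norm_num))
  have h0 : 0 < t := one_pos.trans ht.1
  have e : ENNReal.ofReal t⁻¹ * ENNReal.ofReal (t ^ (2 * s - 1)) =
      ENNReal.ofReal (t ^ (s - 1)) ^ 2 := by
    rw [← ENNReal.ofReal_mul (by positivity), ← ENNReal.ofReal_pow (by positivity),
      ← Real.rpow_neg_one, ← Real.rpow_add h0, ← Real.rpow_natCast, ← Real.rpow_mul h0.le]
    congr 2
    push_cast
    ring
  rw [← ENNReal.mul_rpow_of_nonneg _ _ (by norm_num), mul_mul_mul_comm, e,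
    mul_right_comm (geo β t), ENNReal.mul_inv_cancel (geo_ne_zero β t) (geo_ne_top β t), one_mul,
    ← mul_pow, one_div, ← Nat.cast_ofNat (R := ℝ), ENNReal.pow_rpow_inv_natCast two_ne_zero]

theorem side_path {g : Matrix ι ι ℝ} (hg : g.det ≠ 0) {c R s : ℝ} {n M : ℕ} {γ β : ℕ → ℤ}
    (hc : 0 < c) (hR : (n : ℝ) / 2 ≤ Real.pi * R * tt M) (hs : s < (n : ℝ) / 2)
    (h : Gam c n R M γ β (sn g) < 1) :
    ENNReal.ofReal (∫ t in Set.Ioi (1 : ℝ), (theta g t - 1) * t ^ (s - 1)) + GG c n M γ s ≤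
      ENNReal.ofReal (c⁻¹ / ((n : ℝ) / 2 - s)) +
        Gam c n R M γ β (sn g) ^ (1 / 2 : ℝ) * HH M β s ^ (1 / 2 : ℝ) := by
  have hT : 1 ≤ tt M := tt_zero ▸ tt_mono (Nat.cast_nonneg M)
  have a1 : sn g (bi R) / 2 ≤ Gam c n R M γ β (sn g) := by
    unfold Gam
    exact le_add_right le_add_self
  have a2 : 8 * ((Pn c n (tt M))⁻¹ * sn g (ph R (tt M))) ≤ Gam c n R M γ β (sn g) := by
    unfold Gam
    exact le_add_self
  have a3 : ∫⁻ t in Set.Ioc (1 : ℝ) (tt M), geo β t * (sn g (ph R t) + geo γ t - Pn c n t) ^ 2 *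
      ENNReal.ofReal t⁻¹ ≤ Gam c n R M γ β (sn g) := by
    unfold Gam
    exact le_add_right le_self_add
  have h1 : sn g (bi R) < 2 := by
    have := a1.trans_lt h
    rwa [ENNReal.div_lt_iff (Or.inl two_ne_zero) (Or.inl ENNReal.ofNat_ne_top), one_mul] at this
  have h2 := tail_le hc hT hR hs (a2.trans h.le)
  have h4 := (sidePath_cs (((sidePath_mS g R).add (measurable_geo γ)).sub (sidePath_mPn c n))
    M β s).trans (mul_le_mul_left (ENNReal.rpow_le_rpow a3 (by norm_num)) _)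
  have m1 : Measurable fun t => sn g (ph R t) * ENNReal.ofReal (t ^ (s - 1)) :=
    (sidePath_mS g R).mul (sidePath_mw _)
  have m2 : Measurable fun t => Pn c n t * ENNReal.ofReal (t ^ (s - 1)) :=
    (sidePath_mPn c n).mul (sidePath_mw _)
  have h5 : (∫⁻ t in Set.Ioc (1 : ℝ) (tt M), sn g (ph R t) * ENNReal.ofReal (t ^ (s - 1))) +
      ∫⁻ t in Set.Ioc (1 : ℝ) (tt M), geo γ t * ENNReal.ofReal (t ^ (s - 1)) ≤
      (∫⁻ t in Set.Ioc (1 : ℝ) (tt M), Pn c n t * ENNReal.ofReal (t ^ (s - 1))) +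
        Gam c n R M γ β (sn g) ^ (1 / 2 : ℝ) * HH M β s ^ (1 / 2 : ℝ) := by
    refine le_trans ?_ (add_le_add_right h4 _)
    rw [← lintegral_add_left m1, ← lintegral_add_left m2]
    refine lintegral_mono fun t => ?_
    rw [← add_mul, ← add_mul]
    exact mul_le_mul_left le_add_tsub _
  have h6 : 0 ≤ c⁻¹ * tt M ^ (s - (n : ℝ) / 2) / ((n : ℝ) / 2 - s) :=
    div_nonneg (mul_nonneg (inv_nonneg.2 hc.le) (Real.rpow_nonneg (tt_pos _).le _))
      (sub_nonneg.2 hs.le)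
  rw [sidePath_theta hg h1, ← Set.Ioc_union_Ioi_eq_Ioi hT,
    lintegral_union measurableSet_Ioi (Set.Ioc_disjoint_Ioi le_rfl), GG, add_add_add_comm,
    ← lintegral_Pn hc hT hs, add_right_comm (lintegral _ _) (ENNReal.ofReal _)]
  refine add_le_add h5 ((add_le_add_left h2 _).trans_eq ?_)
  rw [← ENNReal.ofReal_add (by positivity) (by positivity), ← add_mul]
  norm_num

end Pool.Agent.Eps.B
end
end

-- part Pool.Agent.Lib.MP_3bda03_nt.B.Chord
section

/-!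
Interpolation in the argument of the zeta function.
-/

set_option autoImplicit false

noncomputable section

open MeasureTheory Matrix Finset
open scoped ENNReal

namespace Pool.Agent.Eps.B

open Pool.Agent.Eps.H

theorem chord_exp (x : ℝ) {l : ℝ} (h0 : 0 ≤ l) (h1 : l ≤ 1) :
    (1 - l) + l * Real.exp x ≤ Real.exp (l * x + x ^ 2 / 8) := by
  have hD : ∀ y : ℝ, 0 < (1 - l) + l * Real.exp y := fun y => by
    rcases h0.eq_or_lt with h | h
    · rw [← h]; norm_num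
    · have := mul_pos h (Real.exp_pos y)
      linarith
  have dD : ∀ y : ℝ, HasDerivAt (fun y => (1 - l) + l * Real.exp y) (l * Real.exp y) y := fun y =>
    ((Real.hasDerivAt_exp y).const_mul l).const_add _
  set ψ : ℝ → ℝ := fun y => l + y / 4 - l * Real.exp y / ((1 - l) + l * Real.exp y) with hψ
  set φ : ℝ → ℝ := fun y => l * y + y ^ 2 / 8 - Real.log ((1 - l) + l * Real.exp y) with hφ
  have dφ : ∀ y, HasDerivAt φ (ψ y) y := fun y => by
    have e := ((((hasDerivAt_id y).const_mul l).add ((hasDerivAt_pow 2 y).div_const 8)).sub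
      ((dD y).log (hD y).ne'))
    refine e.congr_deriv ?_
    simp only [hψ]
    norm_num
    ring
  have dψ : ∀ y, HasDerivAt ψ (((1 - l) - l * Real.exp y) ^ 2 /
      (4 * ((1 - l) + l * Real.exp y) ^ 2)) y := fun y => by
    have e := (((hasDerivAt_id y).div_const 4).const_add l).sub
      (((Real.hasDerivAt_exp y).const_mul l).div (dD y) (hD y).ne')
    refine e.congr_deriv ?_
    have := (hD y).ne'
    field_simp
    ring
  have hm : Monotone ψ := monotone_of_deriv_nonneg (fun y => (dψ y).differentiableAt) fun y => by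
    rw [(dψ y).deriv]; positivity
  have ψ0 : ψ 0 = 0 := by simp [hψ]
  have φ0 : φ 0 = 0 := by simp [hφ]
  have hc : Continuous φ := continuous_iff_continuousAt.2 fun y => (dφ y).continuousAt
  have key : 0 ≤ φ x := by
    rcases lt_trichotomy x 0 with h | h | h
    · obtain ⟨c, hc1, hc2⟩ := exists_hasDerivAt_eq_slope φ ψ h hc.continuousOn fun y _ => dφ y
      have e := hm hc1.2.le
      rw [ψ0, hc2, φ0, div_le_iff₀ (by linarith)] at e
      linarith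
    · rw [h, φ0]
    · obtain ⟨c, hc1, hc2⟩ := exists_hasDerivAt_eq_slope φ ψ h hc.continuousOn fun y _ => dφ y
      have e := hm hc1.1.le
      rw [ψ0, hc2, φ0, le_div_iff₀ (by linarith)] at e
      linarith
  rw [← Real.log_le_iff_le_exp (hD x)]
  simp only [hφ] at key
  linarith

theorem chord_jm (m : ℕ) : ((2 * m + 1 : ℝ)) ^ 2 * 7 / 7680 ≤ (jm m : ℝ) := by
  have e := Nat.lt_mul_div_succ ((2 * m + 1) ^ 2 * 7) (by norm_num : 0 < 7680)
  have e1 : (((2 * m + 1) ^ 2 * 7 : ℕ) : ℝ) <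
      ((7680 * ((2 * m + 1) ^ 2 * 7 / 7680 + 1) : ℕ) : ℝ) := by exact_mod_cast e
  rw [jm, Int.cast_natCast, div_le_iff₀ (by norm_num)]
  rw [Nat.cast_mul 7680] at e1
  push_cast [-Nat.cast_div_charZero] at e1 ⊢
  linarith

theorem chord_Wr (m i : ℕ) {y l : ℝ} (hy0 : 0 ≤ y) (hy : y ≤ m + 1 / 2) (h0 : 0 ≤ l) (h1 : l ≤ 1) :
    (1 - l) * Wr (4 * y * i - jm m) + l * Wr (4 * y * (i + 1) - jm m) ≤ Wr (4 * y * (i + l)) := by
  set c := Real.log 2 / 384 with hc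
  have c0 : 0 < c := div_pos (Real.log_pos one_lt_two) (by norm_num)
  have c1 : c ≤ 7 / 3840 := by
    have := Real.log_two_lt_d9
    rw [hc]; linarith
  have e := chord_exp (4 * y * c) h0 h1
  have e1 : (1 - l) * Wr (4 * y * i - jm m) + l * Wr (4 * y * (i + 1) - jm m) =
      Real.exp ((4 * y * i - jm m) * c) * ((1 - l) + l * Real.exp (4 * y * c)) := by
    rw [Wr_eq_exp, Wr_eq_exp, ← hc, show (4 * y * (i + 1) - jm m) * c =
      (4 * y * i - jm m) * c + 4 * y * c by ring, Real.exp_add]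
    ring
  rw [e1, Wr_eq_exp, ← hc]
  refine (mul_le_mul_of_nonneg_left e (Real.exp_pos _).le).trans ?_
  rw [← Real.exp_add, Real.exp_le_exp]
  have e2 := chord_jm m
  have e3 : y ^ 2 ≤ (m + 1 / 2 : ℝ) ^ 2 := pow_le_pow_left₀ hy0 hy 2
  have e4 : 2 * y ^ 2 * c ≤ jm m := by
    have : y ^ 2 * c ≤ (m + 1 / 2 : ℝ) ^ 2 * (7 / 3840) :=
      mul_le_mul e3 c1 c0.le (by positivity)
    nlinarith
  nlinarith [mul_le_mul_of_nonneg_right e4 c0.le]

theorem chord_WW (m i : ℕ) {y l : ℝ} (hy0 : 0 ≤ y) (hy : y ≤ m + 1 / 2) (h0 : 0 ≤ l) (h1 : l ≤ 1)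
    {a b : ℤ} {x : ℝ} (ha : (a : ℝ) ≤ x + (4 * y * i - jm m))
    (hb : (b : ℝ) ≤ x + (4 * y * (i + 1) - jm m)) :
    ENNReal.ofReal (1 - l) * WW a + ENNReal.ofReal l * WW b ≤
      ENNReal.ofReal (Wr (x + 4 * y * (i + l))) := by
  have h1' : 0 ≤ 1 - l := by linarith
  rw [WW, WW, ← ENNReal.ofReal_mul h1', ← ENNReal.ofReal_mul h0,
    ← ENNReal.ofReal_add (mul_nonneg h1' (Wr_pos _).le) (mul_nonneg h0 (Wr_pos _).le)]
  refine ENNReal.ofReal_le_ofReal ?_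
  have e := mul_le_mul_of_nonneg_left (chord_Wr m i hy0 hy h0 h1) (Wr_pos x).le
  have ea := mul_le_mul_of_nonneg_left (Wr_mono ha) h1'
  have eb := mul_le_mul_of_nonneg_left (Wr_mono hb) h0
  rw [Wr_add] at ea eb ⊢
  linarith

theorem chord_cell (F : ℝ → ℝ≥0∞) (q : ℝ) (m : ℕ) :
    ∫⁻ t in Set.Ioc (tt ((m : ℤ) : ℝ)) (tt (((m : ℤ) : ℝ) + 1)), F t * ENNReal.ofReal (t ^ (q - 1)) =
      ∫⁻ t in Set.Ioc (tt ((m : ℤ) : ℝ)) (tt (((m : ℤ) : ℝ) + 1)),
        F t * ENNReal.ofReal (t ^ q) * ENNReal.ofReal t⁻¹ := by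
  refine setLIntegral_congr_fun measurableSet_Ioc fun t ht => ?_
  have t0 : 0 < t := (tt_pos _).trans ht.1
  rw [mul_assoc, ← ENNReal.ofReal_mul (Real.rpow_pos_of_pos t0 _).le, Real.rpow_sub_one t0.ne',
    div_eq_mul_inv]

theorem Gn_chord (cf : ℤ) (n M : ℕ) (γ : ℕ → ℤ) (i : ℕ) {l : ℝ} (h0 : 0 ≤ l) (h1 : l ≤ 1)
    (hi : i + 1 ≤ 2 * n) (hs : ((i : ℝ) + l) / 4 < (n : ℝ) / 2) :
    ENNReal.ofReal (1 - l) * Gn cf n M γ i + ENNReal.ofReal l * Gn cf n M γ (i + 1) ≤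
      GG (Wr (2 * cf)) n M γ (((i : ℝ) + l) / 4) := by
  rw [Gn, Gn, GG, mul_add, mul_add (ENNReal.ofReal l), add_add_add_comm]
  refine add_le_add ?_ ?_
  · rw [lintegral_cells, mul_left_comm, mul_left_comm (ENNReal.ofReal l), ← mul_add, mul_sum,
      mul_sum, ← sum_add_distrib, mul_sum]
    refine sum_le_sum fun m _ => ?_
    rw [chord_cell]
    refine le_trans ?_ (le_lintegral_cell m (a := γ m + 4 * m * (i + l))
      (c := γ (m + 1) + 4 * (m + 1) * (i + l)) fun η a b => le_of_eq ?_)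
    · have e : (((γ m + γ (m + 1)) / 2 : ℤ) : ℝ) ≤ (γ m + γ (m + 1)) / 2 := by
        have e1 : (γ m + γ (m + 1)) / 2 * 2 ≤ γ m + γ (m + 1) := Int.ediv_mul_le _ two_ne_zero
        have e2 : (((γ m + γ (m + 1)) / 2 * 2 : ℤ) : ℝ) ≤ ((γ m + γ (m + 1) : ℤ) : ℝ) := by
          exact_mod_cast e1
        rw [Int.cast_mul, Int.cast_add] at e2
        norm_num at e2
        linarith
      gcongr
      refine (chord_WW m i (y := m + 1 / 2) (x := (γ m + γ (m + 1)) / 2) (by positivity) le_rfl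
        h0 h1 ?_ ?_).trans (le_of_eq ?_)
      · generalize (γ m + γ (m + 1)) / 2 = z at e ⊢
        push_cast
        linarith
      · generalize (γ m + γ (m + 1)) / 2 = z at e ⊢
        push_cast
        linarith
      · congr 2
        ring
    · rw [geo_tt γ m a b, WW_geo, tt_rpow, ← ENNReal.ofReal_mul (Wr_pos _).le, ← Wr_add]
      congr 2
      push_cast
      ring
  · have hd : 0 < 2 * (2 * (n : ℝ) - i - l) := by linarith
    have hi' : (i : ℝ) + 1 ≤ 2 * n := by exact_mod_cast hi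
    have k : ∀ (j : ℕ) (w : ℝ≥0∞), j ≤ 2 * n → (j : ℝ) ≤ i + 1 →
        7 * w / ((2 * (2 * n - j + 1) : ℕ) : ℝ≥0∞) ≤
          ENNReal.ofReal (7 / (2 * (2 * (n : ℝ) - i - l))) * w := fun j w a b => by
      rw [ENNReal.ofReal_div_of_pos hd, ENNReal.ofReal_ofNat, div_eq_mul_inv, div_eq_mul_inv,
        mul_right_comm]
      gcongr
      rw [← ENNReal.ofReal_natCast]
      refine ENNReal.ofReal_le_ofReal ?_
      push_cast [a]
      linarith
    refine (add_le_add (mul_le_mul_right (k i _ (by omega) (by linarith)) _)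
      (mul_le_mul_right (k (i + 1) _ hi (by push_cast; rfl)) _)).trans ?_
    rw [mul_left_comm, mul_left_comm (ENNReal.ofReal l), ← mul_add]
    refine (mul_le_mul_right (chord_WW M i (y := M) (x := -2 * cf - 8 * n * M) (by positivity)
      (by linarith) h0 h1 ?_ ?_) _).trans (le_of_eq ?_)
    · push_cast; linarith
    · push_cast; linarith
    · rw [← ENNReal.ofReal_mul (by positivity), tt_rpow, ← Wr_neg, ← Wr_add]
      congr 1
      rw [show -(2 * (cf : ℝ)) + 16 * M * ((i + l) / 4 - n / 2) =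
        -2 * cf - 8 * n * M + 4 * M * (i + l) by ring,
        show (n : ℝ) / 2 - (i + l) / 4 = (2 * (n : ℝ) - i - l) / 4 by ring]
      have : 2 * (n : ℝ) - i - l ≠ 0 := by linarith
      field_simp
      ring

theorem chord_const (c : ℝ≥0∞) {x A B : ℝ≥0∞} {l : ℝ} (h0 : 0 ≤ l) (h1 : l ≤ 1)
    (h : x ≤ A ^ (1 - l) * B ^ l) : c * x ≤ (c * A) ^ (1 - l) * (c * B) ^ l := by
  have h1' : 0 ≤ 1 - l := by linarith
  rw [ENNReal.mul_rpow_of_nonneg _ _ h1', ENNReal.mul_rpow_of_nonneg _ _ h0, mul_mul_mul_comm,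
    ← ENNReal.rpow_add_of_nonneg _ _ h1' h0, sub_add_cancel, ENNReal.rpow_one]
  exact mul_le_mul_right h _

theorem chord_sum (s : Finset ℕ) {x A B : ℕ → ℝ≥0∞} {l : ℝ} (h0 : 0 ≤ l) (h1 : l ≤ 1)
    (h : ∀ m, x m ≤ A m ^ (1 - l) * B m ^ l) :
    ∑ m ∈ s, x m ≤ (∑ m ∈ s, A m) ^ (1 - l) * (∑ m ∈ s, B m) ^ l := by
  induction s using Finset.induction_on with
  | empty => simp
  | insert a s ha ih =>
    rw [sum_insert ha, sum_insert ha, sum_insert ha]
    exact (add_le_add (h a) ih).trans (geo_add _ _ _ _ h0 h1)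

theorem HH_geo (M : ℕ) (β : ℕ → ℤ) (i : ℕ) {l : ℝ} (h0 : 0 ≤ l) (h1 : l ≤ 1) :
    HH M β (((i : ℝ) + l) / 4) ≤ Hn M β i ^ (1 - l) * Hn M β (i + 1) ^ l := by
  rw [HH, Hn, Hn, lintegral_cells, mul_sum, mul_sum]
  refine chord_sum _ h0 h1 fun m => ?_
  rw [chord_cell]
  refine (GC.lintegral_le (m := m) (A := ENNReal.ofReal (Wr (-β m + 8 * m * (i + l))))
    (B := ENNReal.ofReal (Wr (-β (m + 1) + 8 * (m + 1) * (i + l)))) fun η a b => ?_).trans ?_
  · rw [geo_tt β m a b, WW_geo, tt_rpow, ← ENNReal.ofReal_inv_of_pos (Wr_pos _), ← Wr_neg,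
      ← ENNReal.ofReal_mul (Wr_pos _).le, ← Wr_add,
      ENNReal.ofReal_rpow_of_pos (Wr_pos _), ENNReal.ofReal_rpow_of_pos (Wr_pos _),
      ← ENNReal.ofReal_mul (Real.rpow_pos_of_pos (Wr_pos _) _).le, Wr_eq_exp, Wr_eq_exp,
      Wr_eq_exp, ← Real.exp_mul, ← Real.exp_mul, ← Real.exp_add]
    refine le_of_eq ?_
    congr 2
    push_cast
    ring
  · refine chord_const _ h0 h1 ?_
    simp only [ENNReal.div_eq_inv_mul]
    refine chord_const _ h0 h1 (le_trans (le_of_eq ?_) (geo_add _ _ _ _ h0 h1))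
    rw [WW_geo, WW_geo]
    congr 3 <;> push_cast <;> ring

/-- the dual norm is smaller than the drift for every argument -/
theorem drift_wins (cf : ℤ) (n M M' : ℕ) (γ β γ' β' : ℕ → ℤ)
    (h : ∀ i : ℕ, i ≤ 2 * n → WW (2 * cf) * Hn M β i + WW (-2 * cf) * Hn M' β' (2 * n - i) <
      (WW cf * Gn cf n M γ i + WW (-cf) * Gn (-cf) n M' γ' (2 * n - i)) ^ 2)
    {s : ℝ} (hs0 : 0 < s) (hs : s < (n : ℝ) / 2) :
    (WW (2 * cf) * HH M β s + WW (-2 * cf) * HH M' β' ((n : ℝ) / 2 - s)) ^ (1 / 2 : ℝ) <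
      WW cf * GG (Wr (2 * cf)) n M γ s +
        WW (-cf) * GG (Wr (2 * ((-cf : ℤ) : ℝ))) n M' γ' ((n : ℝ) / 2 - s) := by
  obtain ⟨i, hi1, hi2⟩ : ∃ i : ℕ, (i : ℝ) ≤ 4 * s ∧ 4 * s < i + 1 :=
    ⟨⌊4 * s⌋₊, Nat.floor_le (by linarith), Nat.lt_floor_add_one _⟩
  have hi : i + 1 ≤ 2 * n := by
    have : (i : ℝ) < ((2 * n : ℕ) : ℝ) := by push_cast; linarith
    exact Nat.cast_lt.1 this
  obtain ⟨l, hl⟩ : ∃ l : ℝ, l = 4 * s - i := ⟨_, rfl⟩
  have h0 : 0 ≤ l := by linarith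
  have h1 : l < 1 := by linarith
  have e1 : s = ((i : ℝ) + l) / 4 := by linarith
  have e2 : (n : ℝ) / 2 - s = (((2 * n - (i + 1) : ℕ) : ℝ) + (1 - l)) / 4 := by
    push_cast [hi]; linarith
  have e3 : 2 * n - (i + 1) + 1 = 2 * n - i := by omega
  have a1 := HH_geo M β i h0 h1.le
  have a2 := HH_geo M' β' (2 * n - (i + 1)) (l := 1 - l) (by linarith) (by linarith)
  have b1 := Gn_chord cf n M γ i h0 h1.le hi (by linarith)
  have b2 := Gn_chord (-cf) n M' γ' (2 * n - (i + 1)) (l := 1 - l) (by linarith) (by linarith)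
    (by omega) (by linarith)
  rw [← e2, e3, sub_sub_cancel] at a2 b2
  rw [← e1] at a1 b1
  rw [mul_comm] at a2
  have c := (add_le_add (chord_const (WW (2 * cf)) h0 h1.le a1)
    (chord_const (WW (-2 * cf)) h0 h1.le a2)).trans (geo_add _ _ _ _ h0 h1.le)
  have rt : ∀ X Y : ℝ≥0∞, X < Y ^ 2 → X ^ (1 / 2 : ℝ) < Y := fun X Y e => by
    have := ENNReal.rpow_lt_rpow e (show (0 : ℝ) < 1 / 2 by norm_num)
    rwa [← ENNReal.rpow_natCast, ← ENNReal.rpow_mul, show ((2 : ℕ) : ℝ) * (1 / 2) = 1 by norm_num,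
      ENNReal.rpow_one] at this
  have d1 := rt _ _ (h i (by omega))
  have d2 := rt _ _ (h (i + 1) hi)
  have c1 := ENNReal.rpow_le_rpow c (show (0 : ℝ) ≤ 1 / 2 by norm_num)
  rw [ENNReal.mul_rpow_of_nonneg _ _ (show (0 : ℝ) ≤ 1 / 2 by norm_num), ← ENNReal.rpow_mul,
    ← ENNReal.rpow_mul, mul_comm (1 - l), mul_comm l, ENNReal.rpow_mul, ENNReal.rpow_mul] at c1
  refine (c1.trans (geo_le_lin _ _ h0 h1.le)).trans_lt (lt_of_lt_of_le
    (ENNReal.add_lt_add_of_lt_of_le (ENNReal.mul_ne_top ENNReal.ofReal_ne_top d2.ne_top)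
      (ENNReal.mul_lt_mul_right (by simpa using h1) ENNReal.ofReal_ne_top d1)
      (mul_le_mul_right d2.le _)) ?_)
  refine le_trans (le_of_eq ?_) (add_le_add (mul_le_mul_right b1 _) (mul_le_mul_right b2 _))
  ring

end Pool.Agent.Eps.B
end
end

-- part Pool.Agent.Lib.MP_3bda03_nt.B.Crit
section

/-!
The criterion.
-/

set_option autoImplicit false

noncomputable section

open MeasureTheory Matrix Finset
open scoped ENNReal

namespace Pool.Agent.Eps.B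

open Pool.Agent.Eps.H

theorem crit_aux (u v : ℝ≥0∞) {x y I J D E P Q H K : ℝ≥0∞} (h : x + y < 1)
    (h1 : I + D ≤ P + x ^ (1 / 2 : ℝ) * H ^ (1 / 2 : ℝ))
    (h2 : J + E ≤ Q + y ^ (1 / 2 : ℝ) * K ^ (1 / 2 : ℝ)) (hP : P ≠ ⊤) (hQ : Q ≠ ⊤) (hu : u ≠ ⊤)
    (hv : v ≠ ⊤) (h3 : (u * u * H + v * v * K) ^ (1 / 2 : ℝ) < u * D + v * E) :
    u * I + v * J < u * P + v * Q := by
  have e : ∀ w z L : ℝ≥0∞, w * (z ^ (1 / 2 : ℝ) * L ^ (1 / 2 : ℝ)) =
      z ^ (1 - 1 / 2 : ℝ) * (w * w * L) ^ (1 / 2 : ℝ) := fun w z L => by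
    rw [ENNReal.mul_rpow_of_nonneg _ _ (by norm_num), ← sq, ← ENNReal.rpow_two, ← ENNReal.rpow_mul,
      mul_left_comm]
    norm_num
  have h4 := geo_add x (u * u * H) y (v * v * K) (η := 1 / 2) (by norm_num) (by norm_num)
  have h5 := h4.trans (mul_le_of_le_one_left' (ENNReal.rpow_le_one h.le (by norm_num)))
  have h6 := add_le_add (mul_le_mul_right h1 u) (mul_le_mul_right h2 v)
  simp only [mul_add, e] at h6
  rw [add_add_add_comm, add_add_add_comm (u * P)] at h6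
  by_contra h7
  have h8 := ((add_le_add_left (not_lt.1 h7) _).trans h6).trans (add_le_add_right h5 _)
  exact h3.not_ge ((ENNReal.add_le_add_iff_left
    (ENNReal.add_ne_top.2 ⟨ENNReal.mul_ne_top hu hP, ENNReal.mul_ne_top hv hQ⟩)).1 h8)

theorem crit (b : ℕ → RB) {n : ℕ} (hn : 1 ≤ n) (hd : dm b 4 = n) (cf : ℤ)
    (hc : cov b 4 = Wr (2 * cf)) (R R' : ℝ) (M M' : ℕ) (γ β γ' β' : ℕ → ℤ)
    (hR : (n : ℝ) / 2 ≤ Real.pi * R * tt M) (hR' : (n : ℝ) / 2 ≤ Real.pi * R' * tt M')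
    (h1 : ∫⁻ g, Gam (cov b 4) (dm b 4) R M γ β (sn g) ∂(mu4 b) +
      ∫⁻ g, Gam (cov (rev b) 4) (dm (rev b) 4) R' M' γ' β' (sn g) ∂(mu4 (rev b)) < 1)
    (h2 : ∀ i : ℕ, i ≤ 2 * n → WW (2 * cf) * Hn M β i + WW (-2 * cf) * Hn M' β' (2 * n - i) <
      (WW cf * Gn cf n M γ i + WW (-cf) * Gn (-cf) n M' γ' (2 * n - i)) ^ 2) : Goal n := by
  obtain ⟨g, hg, h⟩ := two_sides b (mf_Gam _ _ _ _ _ _) (mf_Gam _ _ _ _ _ _) h1
  have hW := Wr_pos cf
  have e1 : Wr (2 * cf) = Wr cf * Wr cf := by rw [two_mul, Wr_add]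
  have e2 : Wr (2 * ((-cf : ℤ) : ℝ)) = (Wr (2 * cf))⁻¹ := by
    rw [Int.cast_neg, mul_neg, Wr_neg]
  have e3 : Wr ((-cf : ℤ) : ℝ) = (Wr cf)⁻¹ := by rw [Int.cast_neg, Wr_neg]
  have h0 : g.det ≠ 0 := abs_pos.1 (hg ▸ cov_pos b 4)
  rw [cov_rev, dm_rev, hd, hc, ← e2] at h
  refine goal_of_theta' hn ((good_mu4 b).card.trans hd) g h0 fun s hs0 hs => ?_
  have ha : 0 < (n : ℝ) / 2 - s := sub_pos.2 hs
  have p1 := side_path h0 (Wr_pos _) hR hs (le_self_add.trans_lt h)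
  have p2 := side_path (g := dual g) (by rw [det_dual]; exact inv_ne_zero h0) (Wr_pos _) hR'
    (sub_lt_self _ hs0) (le_add_self.trans_lt h)
  have p3 := crit_aux (WW cf) (WW (-cf)) h p1 p2 ENNReal.ofReal_ne_top ENNReal.ofReal_ne_top
    (WW_ne_top _) (WW_ne_top _) (by
      have := drift_wins cf n M M' γ β γ' β' h2 hs0 hs
      rwa [two_mul cf, show -2 * cf = -cf + -cf by ring, WW_add, WW_add] at this)
  simp only [WW, e3] at p3
  rw [← ENNReal.ofReal_mul hW.le, ← ENNReal.ofReal_mul hW.le,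
    ← ENNReal.ofReal_mul (inv_pos.2 hW).le, ← ENNReal.ofReal_mul (inv_pos.2 hW).le,
    e2, e1, sub_sub_cancel, ← ENNReal.ofReal_add (p := Wr cf * (_ / _)) (by positivity)
      (by positivity)] at p3
  have p4 := (ENNReal.ofReal_lt_ofReal_iff (by positivity)).1 (ENNReal.ofReal_add_le.trans_lt p3)
  rw [hg, hc, e1]
  refine lt_of_mul_lt_mul_left ((congrArg₂ (· < ·) ?_ ?_).mp p4) hW.le
  · field_simp
  · field_simp
    ring

end Pool.Agent.Eps.B
end
end
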