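import Pool.Agent.Lib.MP_3bda03_nt.B.DatL

/-!
Checking the bases.
-/

set_option autoImplicit false

namespace Pool.Agent.Eps.B

theorem blkD2 : blkOK lD2 lD2d vD2 dD2 2 1 2 hD2 hD2d = true := by decide +kernel

theorem blkD4 : blkOK lD4 lD4d vD4 dD4 2 1 2 hD4 hD4d = true := by decide +kernel

theorem blkD6 : blkOK lD6 lD6d vD6 dD6 2 1 2 hD6 hD6d = true := by decide +kernel

theorem blkE8 : blkOK lE8 lE8 vE8 dE8 2 1 2 hE8 hE8 = true := by decide +kernel

theorem blkS18 : blkOK lS18 lS18d vS18 dS18 4 1 4 hS18 hS18d = true := by decide +kernel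

theorem blkS20 : blkOK lS20 lS20d vS20 dS20 4 1 4 hS20 hS20d = true := by decide +kernel

theorem blkS22 : blkOK lS22 lS22d vS22 dS22 4 1 4 hS22 hS22d = true := by decide +kernel

theorem blkL17 : blkOK lL17 lL17d vL17 dL17 4 2 5 hL17 hL17d = true := by decide +kernel

end Pool.Agent.Eps.B
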