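import Pool.Agent.Lib.MP_3bda03_nt.B.Assoc

-- part Pool.Agent.Lib.MP_3bda03_nt.B.Geo
section

/-!
Interpolation on the grid.
-/

set_option autoImplicit false

noncomputable section

open MeasureTheory Matrix Finset
open scoped ENNReal

namespace Pool.Agent.Eps.B

open Pool.Agent.Eps.H

theorem tt_pos (y : ℝ) : 0 < tt y := by
  exact Real.rpow_pos_of_pos two_pos _

theorem tt_zero : tt 0 = 1 := by
  simp [tt]

theorem tt_add (y z : ℝ) : tt (y + z) = tt y * tt z := by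
  rw [tt, tt, tt, add_div, Real.rpow_add two_pos]

theorem tt_neg (y : ℝ) : tt (-y) = (tt y)⁻¹ := by
  rw [tt, tt, neg_div, Real.rpow_neg two_pos.le]

theorem tt_mono {y z : ℝ} (h : y ≤ z) : tt y ≤ tt z := by
  exact Real.rpow_le_rpow_of_exponent_le one_le_two (by linarith)

theorem tt_eq_Wr (y : ℝ) : tt y = Wr (16 * y) := by
  rw [tt, Wr]
  congr 1
  ring

theorem tt_rpow (y q : ℝ) : tt y ^ q = Wr (16 * y * q) := by
  rw [tt, Wr, ← Real.rpow_mul two_pos.le]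
  congr 1
  ring

theorem tt_24 : tt 24 = 2 := by
  simp [tt]

theorem tt_48 : tt 48 = 4 := by
  rw [tt, show (48 : ℝ) / 24 = 2 by norm_num, Real.rpow_two]
  norm_num

theorem tt_nat_mul (k : ℕ) : tt (24 * k) = 2 ^ k := by
  rw [tt, show (24 * (k : ℝ)) / 24 = k by ring, Real.rpow_natCast]

theorem Wr_pos (x : ℝ) : 0 < Wr x := by
  exact Real.rpow_pos_of_pos two_pos _

theorem Wr_add (x y : ℝ) : Wr (x + y) = Wr x * Wr y := by
  rw [Wr, Wr, Wr, add_div, Real.rpow_add two_pos]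

theorem Wr_neg (x : ℝ) : Wr (-x) = (Wr x)⁻¹ := by
  rw [Wr, Wr, neg_div, Real.rpow_neg two_pos.le]

theorem Wr_mono {x y : ℝ} (h : x ≤ y) : Wr x ≤ Wr y := by
  exact Real.rpow_le_rpow_of_exponent_le one_le_two (by linarith)

theorem Wr_eq_exp (x : ℝ) : Wr x = Real.exp (x * (Real.log 2 / 384)) := by
  rw [Wr, Real.rpow_def_of_pos two_pos]
  congr 1
  ring

theorem geo_Wr_rpow (x q : ℝ) : Wr x ^ q = Wr (q * x) := by
  rw [Wr, Wr, ← Real.rpow_mul two_pos.le]
  congr 1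
  ring

theorem WW_add (e f : ℤ) : WW (e + f) = WW e * WW f := by
  rw [WW, WW, WW, Int.cast_add, Wr_add, ENNReal.ofReal_mul (Wr_pos _).le]

theorem WW_zero : WW 0 = 1 := by
  simp [WW, Wr]

theorem WW_neg (e : ℤ) : WW (-e) = (WW e)⁻¹ := by
  rw [WW, WW, Int.cast_neg, Wr_neg, ENNReal.ofReal_inv_of_pos (Wr_pos _)]

theorem WW_mono {e f : ℤ} (h : e ≤ f) : WW e ≤ WW f := by
  exact ENNReal.ofReal_le_ofReal (Wr_mono (by exact_mod_cast h))

theorem WW_ne_zero (e : ℤ) : WW e ≠ 0 := by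
  exact (ENNReal.ofReal_pos.2 (Wr_pos _)).ne'

theorem WW_ne_top (e : ℤ) : WW e ≠ ⊤ := ENNReal.ofReal_ne_top

theorem WW_geo (e f : ℤ) (η : ℝ) :
    WW e ^ (1 - η) * WW f ^ η = ENNReal.ofReal (Wr ((1 - η) * e + η * f)) := by
  rw [WW, WW, ENNReal.ofReal_rpow_of_pos (Wr_pos _), ENNReal.ofReal_rpow_of_pos (Wr_pos _),
    ← ENNReal.ofReal_mul (Real.rpow_nonneg (Wr_pos _).le _), Wr_add, geo_Wr_rpow, geo_Wr_rpow]

theorem Pn_tt (cf : ℤ) (d : ℕ) (y : ℝ) :
    Pn (Wr (2 * cf)) d (tt y) = ENNReal.ofReal (Wr (-2 * cf - 8 * d * y)) := by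
  rw [Pn, tt_rpow, ← Wr_neg, ← Wr_add]
  congr 2
  ring

theorem geo_add (A B A' B' : ℝ≥0∞) {η : ℝ} (h0 : 0 ≤ η) (h1 : η ≤ 1) :
    A ^ (1 - η) * B ^ η + A' ^ (1 - η) * B' ^ η ≤ (A + A') ^ (1 - η) * (B + B') ^ η := by
  have h := ENNReal.lintegral_mul_norm_pow_le (μ := (Measure.count : Measure (Fin 2)))
    (f := ![A, A']) (g := ![B, B']) (measurable_of_countable _).aemeasurable
    (measurable_of_countable _).aemeasurable (sub_nonneg.2 h1) h0 (sub_add_cancel 1 η)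
  simpa [lintegral_count, tsum_fintype, Fin.sum_univ_two] using h

theorem geo_le_lin (A B : ℝ≥0∞) {η : ℝ} (h0 : 0 ≤ η) (h1 : η ≤ 1) :
    A ^ (1 - η) * B ^ η ≤ ENNReal.ofReal (1 - η) * A + ENNReal.ofReal η * B := by
  rcases h0.eq_or_lt with rfl | h0'
  · simp
  rcases h1.eq_or_lt with rfl | h1'
  · simp
  have a0 : ENNReal.ofReal (1 - η) ≠ 0 := (ENNReal.ofReal_pos.2 (sub_pos.2 h1')).ne'
  have b0 : ENNReal.ofReal η ≠ 0 := (ENNReal.ofReal_pos.2 h0').ne'
  rcases eq_or_ne A ⊤ with rfl | hA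
  · rw [ENNReal.mul_top a0, top_add]
    exact le_top
  rcases eq_or_ne B ⊤ with rfl | hB
  · rw [ENNReal.mul_top b0, add_top]
    exact le_top
  rw [← ENNReal.ofReal_toReal hA, ← ENNReal.ofReal_toReal hB,
    ENNReal.ofReal_rpow_of_nonneg ENNReal.toReal_nonneg (sub_nonneg.2 h1),
    ENNReal.ofReal_rpow_of_nonneg ENNReal.toReal_nonneg h0,
    ← ENNReal.ofReal_mul (Real.rpow_nonneg ENNReal.toReal_nonneg _),
    ← ENNReal.ofReal_mul (sub_nonneg.2 h1), ← ENNReal.ofReal_mul h0,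
    ← ENNReal.ofReal_add (mul_nonneg (sub_nonneg.2 h1) ENNReal.toReal_nonneg)
      (mul_nonneg h0 ENNReal.toReal_nonneg)]
  exact ENNReal.ofReal_le_ofReal (Real.geom_mean_le_arith_mean2_weighted (sub_nonneg.2 h1) h0
    ENNReal.toReal_nonneg ENNReal.toReal_nonneg (sub_add_cancel 1 η))

theorem measurable_geo (γ : ℕ → ℤ) : Measurable (geo γ) := by
  have hW : Measurable Wr := by
    have e : Wr = fun x => Real.exp (x * (Real.log 2 / 384)) := funext Wr_eq_exp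
    rw [e]
    fun_prop
  have hl : Measurable fun t : ℝ => 24 * Real.logb 2 t :=
    (Real.measurable_log.div_const _).const_mul _
  have hf : Measurable fun t : ℝ => ⌊24 * Real.logb 2 t⌋₊ := hl.nat_floor
  have h1 : Measurable fun t : ℝ => ((⌊24 * Real.logb 2 t⌋₊ : ℕ) : ℝ) :=
    (measurable_of_countable (fun n : ℕ => (n : ℝ))).comp hf
  have h2 : Measurable fun t : ℝ => ((γ ⌊24 * Real.logb 2 t⌋₊ : ℤ) : ℝ) :=
    (measurable_of_countable (fun n : ℕ => ((γ n : ℤ) : ℝ))).comp hf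
  have h3 : Measurable fun t : ℝ => ((γ (⌊24 * Real.logb 2 t⌋₊ + 1) : ℤ) : ℝ) :=
    (measurable_of_countable (fun n : ℕ => ((γ (n + 1) : ℤ) : ℝ))).comp hf
  exact (hW.comp ((((hl.sub h1).const_sub 1).mul h2).add ((hl.sub h1).mul h3))).ennreal_ofReal

theorem geo_tt (γ : ℕ → ℤ) (m : ℕ) {η : ℝ} (h0 : 0 ≤ η) (h1 : η ≤ 1) :
    geo γ (tt ((m : ℤ) + η)) = WW (γ m) ^ (1 - η) * WW (γ (m + 1)) ^ η := by
  have e : 24 * Real.logb 2 (tt ((m : ℤ) + η)) = m + η := by
    rw [tt, Real.logb_rpow two_pos (by norm_num), Int.cast_natCast]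
    ring
  rw [WW_geo, geo, e]
  rcases h1.eq_or_lt with rfl | h1'
  · have e1 : ⌊(m : ℝ) + 1⌋₊ = m + 1 := by
      rw [← Nat.cast_succ, Nat.floor_natCast]
    rw [e1]
    congr 2
    push_cast
    ring
  · have e1 : ⌊(m : ℝ) + η⌋₊ = m := by
      rw [Nat.floor_eq_iff (by positivity)]
      constructor <;> linarith
    rw [e1, add_sub_cancel_left]

theorem geo_ne_zero (γ : ℕ → ℤ) (t : ℝ) : geo γ t ≠ 0 := by
  exact (ENNReal.ofReal_pos.2 (Wr_pos _)).ne'

theorem geo_ne_top (γ : ℕ → ℤ) (t : ℝ) : geo γ t ≠ ⊤ := ENNReal.ofReal_ne_top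

section
variable {m : ℤ} {f f' : ℝ → ℝ≥0∞} {A B A' B' : ℝ≥0∞}

theorem GC.mono (h : GC m f A B) (hA : A ≤ A') (hB : B ≤ B') : GC m f A' B' := by
  intro η h0 h1
  exact (h η h0 h1).trans (mul_le_mul' (ENNReal.rpow_le_rpow hA (sub_nonneg.2 h1))
    (ENNReal.rpow_le_rpow hB h0))

theorem GC.of_le (h : GC m f A B) (hf : ∀ t, tt m ≤ t → f' t ≤ f t) : GC m f' A B := by
  intro η h0 h1
  exact (hf _ (tt_mono (by linarith))).trans (h η h0 h1)

theorem GC.add (h : GC m f A B) (h' : GC m f' A' B') :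
    GC m (fun t => f t + f' t) (A + A') (B + B') := by
  intro η h0 h1
  exact (add_le_add (h η h0 h1) (h' η h0 h1)).trans (geo_add A B A' B' h0 h1)

theorem GC.mul (h : GC m f A B) (h' : GC m f' A' B') :
    GC m (fun t => f t * f' t) (A * A') (B * B') := by
  intro η h0 h1
  rw [ENNReal.mul_rpow_of_nonneg _ _ (sub_nonneg.2 h1), ENNReal.mul_rpow_of_nonneg _ _ h0,
    mul_mul_mul_comm]
  exact mul_le_mul' (h η h0 h1) (h' η h0 h1)

theorem GC.const (m : ℤ) (c : ℝ≥0∞) : GC m (fun _ => c) c c := by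
  intro η h0 h1
  rw [← ENNReal.rpow_add_of_nonneg _ _ (sub_nonneg.2 h1) h0, sub_add_cancel, ENNReal.rpow_one]

theorem GC.const_mul (h : GC m f A B) (c : ℝ≥0∞) : GC m (fun t => c * f t) (c * A) (c * B) := by
  exact (GC.const m c).mul h

theorem GC.zero (A B : ℝ≥0∞) (hf : ∀ t, f t = 0) : GC m f A B := by
  intro η _ _
  rw [hf]
  exact bot_le

theorem GC.sum {σ : Type} (s : Finset σ) {F : σ → ℝ → ℝ≥0∞} {a c : σ → ℝ≥0∞}
    (h : ∀ i ∈ s, GC m (F i) (a i) (c i)) :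
    GC m (fun t => ∑ i ∈ s, F i t) (∑ i ∈ s, a i) (∑ i ∈ s, c i) := by
  classical
  induction s using Finset.induction_on with
  | empty => exact GC.zero _ _ fun _ => Finset.sum_empty
  | insert i s hi ih =>
    simp only [Finset.sum_insert hi]
    exact (h i (Finset.mem_insert_self _ _)).add
      (ih fun j hj => h j (Finset.mem_insert_of_mem hj))

theorem GC.shift (k : ℤ) (h : GC (m + k) f A B) : GC m (fun t => f (tt k * t)) A B := by
  intro η h0 h1
  have e : tt k * tt (m + η) = tt (((m + k : ℤ) : ℝ) + η) := by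
    rw [← tt_add]
    congr 1
    push_cast
    ring
  show f (tt k * tt (m + η)) ≤ _
  rw [e]
  exact h η h0 h1

theorem GC.inv (h : GC (-m - 1) f A B) : GC m (fun t => f t⁻¹) B A := by
  intro η h0 h1
  have e : (tt (m + η))⁻¹ = tt (((-m - 1 : ℤ) : ℝ) + (1 - η)) := by
    rw [← tt_neg]
    congr 1
    push_cast
    ring
  show f (tt (m + η))⁻¹ ≤ _
  have h2 := h (1 - η) (sub_nonneg.2 h1) (by linarith)
  rw [sub_sub_cancel, mul_comm] at h2
  rw [e]
  exact h2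

theorem GC.left (h : GC m f A B) : f (tt m) ≤ A := by
  simpa using h 0 le_rfl zero_le_one

theorem GC.right (h : GC m f A B) : f (tt (m + 1)) ≤ B := by
  simpa using h 1 zero_le_one le_rfl

end

theorem gc_Pn (cf : ℤ) (d : ℕ) (m : ℤ) :
    GC m (Pn (Wr (2 * cf)) d) (WW (-2 * cf - 8 * d * m)) (WW (-2 * cf - 8 * d * (m + 1))) := by
  intro η _ _
  rw [Pn_tt, WW_geo]
  refine le_of_eq ?_
  congr 2
  push_cast
  ring

theorem gc_Pn_inv (cf : ℤ) (d : ℕ) (m : ℤ) :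
    GC m (fun t => (Pn (Wr (2 * cf)) d t)⁻¹) (WW (2 * cf + 8 * d * m))
      (WW (2 * cf + 8 * d * (m + 1))) := by
  intro η _ _
  show (Pn (Wr (2 * cf)) d (tt (m + η)))⁻¹ ≤ _
  rw [Pn_tt, WW_geo, ← ENNReal.ofReal_inv_of_pos (Wr_pos _), ← Wr_neg]
  refine le_of_eq ?_
  congr 2
  push_cast
  ring

theorem gc_geo (γ : ℕ → ℤ) (m : ℕ) : GC m (geo γ) (WW (γ m)) (WW (γ (m + 1))) := by
  intro η h0 h1
  exact (geo_tt γ m h0 h1).le

/-- the substitution on a cell -/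
theorem geo_subst (m : ℤ) (f : ℝ → ℝ≥0∞) :
    ∫⁻ t in Set.Ioc (tt m) (tt (m + 1)), f t * ENNReal.ofReal t⁻¹ =
      hc * ∫⁻ η in Set.Ioc (0 : ℝ) 1, f (tt (m + η)) := by
  have hl : 0 < Real.log 2 / 24 := div_pos (Real.log_pos one_lt_two) (by norm_num)
  have e : (fun η : ℝ => tt (m + η)) = fun η => Real.exp ((m + η) * (Real.log 2 / 24)) := by
    funext η
    rw [tt, Real.rpow_def_of_pos two_pos]
    congr 1
    ring
  have hm : StrictMono fun η : ℝ => tt (m + η) := by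
    rw [e]
    intro a b hab
    exact Real.exp_lt_exp.2 (mul_lt_mul_of_pos_right (by linarith) hl)
  have hd : ∀ η : ℝ, HasDerivAt (fun η : ℝ => tt (m + η)) (tt (m + η) * (Real.log 2 / 24)) η := by
    intro η
    have h := (((hasDerivAt_id η).const_add (m : ℝ)).mul_const (Real.log 2 / 24)).exp
    rw [one_mul] at h
    rw [congrFun e η, e]
    exact h
  have hcont : Continuous fun η : ℝ => tt (m + η) :=
    continuous_iff_continuousAt.2 fun η => (hd η).continuousAt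
  have hi := hcont.image_Ioc_of_strictMono hm (a := 0) (b := 1)
  rw [add_zero] at hi
  rw [← hi, lintegral_image_eq_lintegral_abs_deriv_mul measurableSet_Ioc
    (fun η _ => (hd η).hasDerivWithinAt) hm.injective.injOn, hc,
    ← lintegral_const_mul' _ _ ENNReal.ofReal_ne_top]
  refine lintegral_congr fun η => ?_
  have hp := tt_pos (m + η)
  rw [abs_of_pos (mul_pos hp hl), mul_comm (f _), ← mul_assoc,
    ← ENNReal.ofReal_mul (mul_pos hp hl).le, mul_right_comm, mul_inv_cancel₀ hp.ne', one_mul]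

theorem geo_int (p : ℝ → ℝ) (hp : Continuous p) (h0 : ∀ η ∈ Set.Ioc (0 : ℝ) 1, 0 ≤ p η) :
    ∫⁻ η in Set.Ioc (0 : ℝ) 1, ENNReal.ofReal (p η) = ENNReal.ofReal (∫ η in (0 : ℝ)..1, p η) := by
  rw [intervalIntegral.integral_of_le zero_le_one, ofReal_integral_eq_lintegral_ofReal
    (hp.integrableOn_Icc.mono_set Set.Ioc_subset_Icc_self)
    ((ae_restrict_iff' measurableSet_Ioc).2 (Filter.Eventually.of_forall h0))]

theorem geo_inv (n : ℕ) [n.AtLeastTwo] (hn : (0 : ℝ) < ofNat(n)) :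
    ENNReal.ofReal (ofNat(n) : ℝ)⁻¹ = (ofNat(n) : ℝ≥0∞)⁻¹ := by
  rw [ENNReal.ofReal_inv_of_pos hn, ENNReal.ofReal_ofNat]

theorem geo_poly (a b c : ℝ) : ∫ η in (0 : ℝ)..1, (a + b * η + c * η ^ 2) = a + b / 2 + c / 3 := by
  rw [intervalIntegral.integral_add (Continuous.intervalIntegrable (by fun_prop) _ _)
    (Continuous.intervalIntegrable (by fun_prop) _ _), intervalIntegral.integral_add
    (Continuous.intervalIntegrable (by fun_prop) _ _)
    (Continuous.intervalIntegrable (by fun_prop) _ _), intervalIntegral.integral_const_mul,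
    intervalIntegral.integral_const_mul, integral_id, integral_pow]
  simp
  ring

theorem geo_i1 : ∫⁻ η in Set.Ioc (0 : ℝ) 1, ENNReal.ofReal ((1 - η) * (1 - η)) = 3⁻¹ := by
  rw [geo_int _ (by fun_prop) fun η _ => mul_self_nonneg _, ← geo_inv 3 (by norm_num)]
  have e : (fun η : ℝ => (1 - η) * (1 - η)) = fun η => 1 + -2 * η + 1 * η ^ 2 := by
    funext η
    ring
  rw [e, geo_poly]
  norm_num

theorem geo_i2 : ∫⁻ η in Set.Ioc (0 : ℝ) 1, ENNReal.ofReal ((1 - η) * η) = 6⁻¹ := by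
  rw [geo_int _ (by fun_prop) fun η hη => mul_nonneg (sub_nonneg.2 hη.2) hη.1.le,
    ← geo_inv 6 (by norm_num)]
  have e : (fun η : ℝ => (1 - η) * η) = fun η => 0 + 1 * η + -1 * η ^ 2 := by
    funext η
    ring
  rw [e, geo_poly]
  norm_num

theorem geo_i3 : ∫⁻ η in Set.Ioc (0 : ℝ) 1, ENNReal.ofReal (η * η) = 3⁻¹ := by
  rw [geo_int _ (by fun_prop) fun η _ => mul_self_nonneg _, ← geo_inv 3 (by norm_num)]
  have e : (fun η : ℝ => η * η) = fun η => 0 + 0 * η + 1 * η ^ 2 := by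
    funext η
    ring
  rw [e, geo_poly]
  norm_num

/-- the integral over a cell, with a linear weight -/
theorem lintegral_cell_le (m : ℤ) {f : ℝ → ℝ≥0∞} {x y A B : ℝ≥0∞}
    (h : ∀ η : ℝ, 0 ≤ η → η ≤ 1 → f (tt (m + η)) ≤
      (ENNReal.ofReal (1 - η) * x + ENNReal.ofReal η * y) * (A ^ (1 - η) * B ^ η)) :
    ∫⁻ t in Set.Ioc (tt m) (tt (m + 1)), f t * ENNReal.ofReal t⁻¹ ≤
      hc * (x * (A / 3 + B / 6) + y * (A / 6 + B / 3)) := by
  rw [geo_subst]
  refine mul_le_mul' le_rfl ?_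
  have hle : ∀ η ∈ Set.Ioc (0 : ℝ) 1, f (tt (m + η)) ≤
      ENNReal.ofReal ((1 - η) * (1 - η)) * (x * A) + ENNReal.ofReal ((1 - η) * η) * (x * B) +
        ENNReal.ofReal ((1 - η) * η) * (y * A) + ENNReal.ofReal (η * η) * (y * B) := by
    intro η hη
    refine (h η hη.1.le hη.2).trans ((mul_le_mul' le_rfl (geo_le_lin A B hη.1.le hη.2)).trans
      (le_of_eq ?_))
    rw [ENNReal.ofReal_mul (sub_nonneg.2 hη.2), ENNReal.ofReal_mul (sub_nonneg.2 hη.2),
      ENNReal.ofReal_mul hη.1.le]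
    ring
  refine (setLIntegral_mono' measurableSet_Ioc hle).trans (le_of_eq ?_)
  have m1 : Measurable fun η : ℝ => ENNReal.ofReal ((1 - η) * (1 - η)) := by fun_prop
  have m2 : Measurable fun η : ℝ => ENNReal.ofReal ((1 - η) * η) := by fun_prop
  have m3 : Measurable fun η : ℝ => ENNReal.ofReal (η * η) := by fun_prop
  rw [lintegral_add_right _ (m3.mul_const _), lintegral_add_right _ (m2.mul_const _),
    lintegral_add_right _ (m2.mul_const _), lintegral_mul_const _ m1, lintegral_mul_const _ m2,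
    lintegral_mul_const _ m2, lintegral_mul_const _ m3, geo_i1, geo_i2, geo_i3]
  simp only [div_eq_mul_inv]
  ring

theorem GC.lintegral_le {m : ℤ} {f : ℝ → ℝ≥0∞} {A B : ℝ≥0∞} (h : GC m f A B) :
    ∫⁻ t in Set.Ioc (tt m) (tt (m + 1)), f t * ENNReal.ofReal t⁻¹ ≤ hc * ((A + B) / 2) := by
  have h2 := lintegral_cell_le m (f := f) (x := 1) (y := 1) (A := A) (B := B) fun η h0 h1 => by
    rw [mul_one, mul_one, ← ENNReal.ofReal_add (sub_nonneg.2 h1) h0, sub_add_cancel,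
      ENNReal.ofReal_one, one_mul]
    exact h η h0 h1
  refine h2.trans (le_of_eq ?_)
  have e : (3 : ℝ≥0∞)⁻¹ + 6⁻¹ = 2⁻¹ := by
    rw [← geo_inv 3 (by norm_num), ← geo_inv 6 (by norm_num), ← geo_inv 2 (by norm_num),
      ← ENNReal.ofReal_add (by norm_num) (by norm_num)]
    norm_num
  simp only [div_eq_mul_inv]
  rw [← e]
  ring

/-- the midpoint bound for an exponential -/
theorem le_lintegral_cell (m : ℤ) {f : ℝ → ℝ≥0∞} {a c : ℝ}
    (h : ∀ η : ℝ, 0 ≤ η → η ≤ 1 → ENNReal.ofReal (Wr ((1 - η) * a + η * c)) ≤ f (tt (m + η))) :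
    hc * ENNReal.ofReal (Wr ((a + c) / 2)) ≤
      ∫⁻ t in Set.Ioc (tt m) (tt (m + 1)), f t * ENNReal.ofReal t⁻¹ := by
  rw [geo_subst]
  refine mul_le_mul' le_rfl (le_trans ?_ (setLIntegral_mono' measurableSet_Ioc
    fun η hη => h η hη.1.le hη.2))
  have hc' : Continuous fun η : ℝ => Wr ((1 - η) * a + η * c) := by
    simp only [Wr_eq_exp]
    fun_prop
  rw [geo_int _ hc' fun η _ => (Wr_pos _).le]
  refine ENNReal.ofReal_le_ofReal ?_
  set L : ℝ := (c - a) * (Real.log 2 / 384) with hL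
  have hi : ∫ η in (0 : ℝ)..1, Wr ((a + c) / 2) * ((η - 1 / 2) * L + 1) = Wr ((a + c) / 2) := by
    rw [intervalIntegral.integral_const_mul, intervalIntegral.integral_add
      (Continuous.intervalIntegrable (by fun_prop) _ _)
      (Continuous.intervalIntegrable (by fun_prop) _ _), intervalIntegral.integral_mul_const,
      intervalIntegral.integral_sub (Continuous.intervalIntegrable (by fun_prop) _ _)
      (Continuous.intervalIntegrable (by fun_prop) _ _), integral_id]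
    simp
  rw [← hi]
  refine intervalIntegral.integral_mono_on zero_le_one
    (Continuous.intervalIntegrable (by fun_prop) _ _) (hc'.intervalIntegrable _ _) fun η _ => ?_
  have e : (1 - η) * a + η * c = (a + c) / 2 + (η - 1 / 2) * (c - a) := by ring
  rw [e, Wr_add, Wr_eq_exp ((η - 1 / 2) * (c - a)), mul_assoc (η - 1 / 2), ← hL]
  exact mul_le_mul_of_nonneg_left (Real.add_one_le_exp _) (Wr_pos _).le

theorem lintegral_cells (f : ℝ → ℝ≥0∞) (M : ℕ) :
    ∫⁻ t in Set.Ioc (1 : ℝ) (tt M), f t =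
      ∑ m ∈ range M, ∫⁻ t in Set.Ioc (tt ((m : ℤ) : ℝ)) (tt (((m : ℤ) : ℝ) + 1)), f t := by
  induction M with
  | zero => simp [tt_zero]
  | succ M ih =>
    have h1 : (1 : ℝ) ≤ tt M := tt_zero ▸ tt_mono (Nat.cast_nonneg M)
    have h2 : tt M ≤ tt ((M : ℝ) + 1) := tt_mono (by linarith)
    rw [Finset.sum_range_succ, ← ih, Nat.cast_succ, Int.cast_natCast,
      ← Set.Ioc_union_Ioc_eq_Ioc h1 h2,
      lintegral_union measurableSet_Ioc (Set.Ioc_disjoint_Ioc_of_le le_rfl)]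

end Pool.Agent.Eps.B
end
end

-- part Pool.Agent.Lib.MP_3bda03_nt.B.Conv
section

/-!
Logarithmic convexity.
-/

set_option autoImplicit false

noncomputable section

open MeasureTheory Matrix Finset
open scoped ENNReal

namespace Pool.Agent.Eps.B

open Pool.Agent.Eps.H

theorem conv_pos {x y η : ℝ} (hx : 0 < x) (hy : 0 < y) (h0 : 0 ≤ η) (h1 : η ≤ 1) :
    0 < (1 - η) * x + η * y := by
  rcases h0.eq_or_lt with h | h
  · subst h
    simpa using hx
  · exact add_pos_of_nonneg_of_pos (mul_nonneg (sub_nonneg.2 h1) hx.le) (mul_pos h hy)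

section
variable {f f' : ℝ → ℝ≥0∞}

theorem conv_congr (h : LC f) (e : ∀ t, 0 < t → f' t = f t) : LC f' := by
  intro x y η hx hy h0 h1
  rw [e _ hx, e _ hy, e _ (conv_pos hx hy h0 h1)]
  exact h x y η hx hy h0 h1

theorem LC.add (h : LC f) (h' : LC f') : LC fun t => f t + f' t := by
  intro x y η hx hy h0 h1
  exact (add_le_add (h x y η hx hy h0 h1) (h' x y η hx hy h0 h1)).trans (geo_add _ _ _ _ h0 h1)

theorem LC.mul (h : LC f) (h' : LC f') : LC fun t => f t * f' t := by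
  intro x y η hx hy h0 h1
  refine (mul_le_mul' (h x y η hx hy h0 h1) (h' x y η hx hy h0 h1)).trans_eq ?_
  rw [ENNReal.mul_rpow_of_nonneg _ _ (sub_nonneg.2 h1), ENNReal.mul_rpow_of_nonneg _ _ h0]
  ring

theorem LC.const (c : ℝ≥0∞) : LC fun _ => c := by
  intro x y η _ _ h0 h1
  rw [← ENNReal.rpow_add_of_nonneg _ _ (sub_nonneg.2 h1) h0, sub_add_cancel, ENNReal.rpow_one]

theorem LC.sum {σ : Type} (s : Finset σ) {F : σ → ℝ → ℝ≥0∞} (h : ∀ i ∈ s, LC (F i)) :
    LC fun t => ∑ i ∈ s, F i t := by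
  classical
  induction s using Finset.induction_on with
  | empty => simpa using LC.const 0
  | insert a s ha ih =>
    simp only [Finset.sum_insert ha]
    exact (h a (mem_insert_self a s)).add (ih fun i hi => h i (mem_insert_of_mem hi))

theorem conv_lintegral {Ω : Type} [MeasurableSpace Ω] (μ : Measure Ω) {F : Ω → ℝ → ℝ≥0∞}
    (hm : ∀ t, Measurable fun a => F a t) (h : ∀ a, LC (F a)) : LC fun t => ∫⁻ a, F a t ∂μ := by
  intro x y η hx hy h0 h1
  exact (lintegral_mono fun a => h a x y η hx hy h0 h1).trans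
    (ENNReal.lintegral_mul_norm_pow_le (hm x).aemeasurable (hm y).aemeasurable (sub_nonneg.2 h1)
      h0 (sub_add_cancel 1 η))

theorem LC.tsum {σ : Type} [Countable σ] {F : σ → ℝ → ℝ≥0∞} (h : ∀ i, LC (F i)) :
    LC fun t => ∑' i, F i t := by
  let _ : MeasurableSpace σ := ⊤
  refine conv_congr (conv_lintegral Measure.count (fun _ => measurable_from_top) h) fun t _ => ?_
  exact (lintegral_count' measurable_from_top).symm

theorem LC.lintegral {Ω : Type} [MeasurableSpace Ω] (μ : Measure Ω) {F : Ω → ℝ → ℝ≥0∞}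
    (hm : ∀ t, Measurable fun a => F a t) (h : ∀ a, LC (F a)) : LC fun t => ∫⁻ a, F a t ∂μ :=
  conv_lintegral μ hm h

theorem LC.scale (h : LC f) {c : ℝ} (hc : 0 < c) : LC fun t => f (c * t) := by
  intro x y η hx hy h0 h1
  have e : c * ((1 - η) * x + η * y) = (1 - η) * (c * x) + η * (c * y) := by ring
  simp only [e]
  exact h _ _ η (mul_pos hc hx) (mul_pos hc hy) h0 h1

end

theorem lc_ga (ρ : ℝ) : LC fun t => ga t ρ := by
  intro x y η _ _ _ _
  simp only [ga]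
  rw [ENNReal.ofReal_rpow_of_pos (Real.exp_pos _), ENNReal.ofReal_rpow_of_pos (Real.exp_pos _),
    ← ENNReal.ofReal_mul (by positivity), ← Real.exp_mul, ← Real.exp_mul, ← Real.exp_add]
  exact le_of_eq (by congr 2; ring)

theorem lc_ph (R ρ : ℝ) : LC fun t => ph R t ρ := by
  unfold ph
  split_ifs
  · exact lc_ga ρ
  · exact LC.const 0

theorem lc_pl (R ρ : ℝ) : LC fun t => pl R t ρ := by
  unfold pl
  split_ifs
  · exact lc_ga ρ
  · exact LC.const 0

theorem conv_rpow {a : ℝ} (ha : a ≤ 0) : LC fun t => ENNReal.ofReal (t ^ a) := by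
  intro x y η hx hy h0 h1
  rw [ENNReal.ofReal_rpow_of_pos (Real.rpow_pos_of_pos hx _),
    ENNReal.ofReal_rpow_of_pos (Real.rpow_pos_of_pos hy _), ← ENNReal.ofReal_mul (by positivity)]
  refine ENNReal.ofReal_le_ofReal ?_
  have h2 := Real.geom_mean_le_arith_mean2_weighted (sub_nonneg.2 h1) h0 hx.le hy.le
    (sub_add_cancel 1 η)
  refine (Real.rpow_le_rpow_of_nonpos (by positivity) h2 ha).trans_eq ?_
  rw [Real.mul_rpow (by positivity) (by positivity), ← Real.rpow_mul hx.le, ← Real.rpow_mul hy.le,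
    ← Real.rpow_mul hx.le, ← Real.rpow_mul hy.le, mul_comm a, mul_comm a]

theorem lc_Pn (c : ℝ) (d : ℕ) : LC (Pn c d) := by
  refine conv_congr ((LC.const (ENNReal.ofReal c⁻¹)).mul
    (conv_rpow (a := -((d : ℝ) / 2)) (neg_nonpos.2 (by positivity)))) fun t ht => ?_
  exact ENNReal.ofReal_mul' (Real.rpow_nonneg ht.le _)

theorem lc_sn_ga {ι : Type} [Fintype ι] (M : Matrix ι ι ℝ) : LC fun t => sn M (ga t) :=
  LC.tsum fun _ => lc_ga _

theorem lc_lay_ph (b : ℕ → RB) (R : ℝ) (j : ℕ) : LC fun t => lay b j (ph R t) :=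
  (LC.const _).mul (LC.tsum fun _ => LC.lintegral volume
    (fun t => (measurable_ph R t).comp (measurable_nsq.add_const _)) fun _ => lc_ph R _)

theorem lc_hh (b : ℕ → RB) (R : ℝ) (j : ℕ) : LC (hh b R j) :=
  (lc_Pn _ _).mul ((LC.const _).mul (LC.tsum fun _ => (lc_ga _).mul (LC.lintegral volume
    (fun t => (measurable_pl R t).comp (measurable_nsq.add_const _)) fun _ => lc_pl R _)))

theorem conv_tt (y : ℝ) : tt y = Real.exp (Real.log 2 / 24 * y) := by
  rw [tt, Real.rpow_def_of_pos two_pos]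
  congr 1
  ring

/-- arithmetic against geometric position inside a cell -/
theorem exists_lam {η : ℝ} (h0 : 0 ≤ η) (h1 : η ≤ 1) :
    ∃ l : ℝ, 0 ≤ l ∧ l ≤ η ∧ η - l ≤ 1 / 256 ∧ tt η = (1 - l) + l * tt 1 := by
  rw [conv_tt, conv_tt, mul_one]
  have a1 : 0.0288 < Real.log 2 / 24 := by linarith [Real.log_two_gt_d9]
  have a2 : Real.log 2 / 24 < 0.0289 := by linarith [Real.log_two_lt_d9]
  generalize Real.log 2 / 24 = h at a1 a2
  have hp : 0 < h := by linarith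
  have e1 : h + 1 ≤ Real.exp h := Real.add_one_le_exp h
  have e2 : Real.exp h ≤ 1 + h + h ^ 2 / 2 + 2 / 9 * h ^ 3 := by
    have := Real.exp_bound' hp.le (by linarith) (n := 3) (by norm_num)
    simp only [Finset.sum_range_succ, Finset.range_zero, Finset.sum_empty, Nat.factorial] at this
    norm_num at this
    linarith
  have e3 := Real.quadratic_le_exp_of_nonneg (mul_nonneg hp.le h0)
  have e4 : Real.exp (h * η) ≤ (1 - η) + η * Real.exp h := by
    have := Real.geom_mean_le_arith_mean2_weighted (sub_nonneg.2 h1) h0 zero_le_one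
      (Real.exp_pos h).le (sub_add_cancel 1 η)
    rwa [Real.one_rpow, one_mul, mul_one, ← Real.exp_mul] at this
  have d0 : 0 < Real.exp h - 1 := by linarith
  have e5 : 0 ≤ h * η := mul_nonneg hp.le h0
  refine ⟨(Real.exp (h * η) - 1) / (Real.exp h - 1), div_nonneg (by nlinarith) d0.le, ?_, ?_, ?_⟩
  · rw [div_le_iff₀ d0]
    linarith
  · rw [sub_le_comm, le_div_iff₀ d0]
    have b1 : η * (Real.exp h - 1) ≤ η * (h + h ^ 2 / 2 + 2 / 9 * h ^ 3) :=
      mul_le_mul_of_nonneg_left (by linarith) h0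
    have b2 : h ^ 2 * (η - η ^ 2) ≤ h ^ 2 * (1 / 4) :=
      mul_le_mul_of_nonneg_left (by nlinarith [sq_nonneg (η - 1 / 2)]) (sq_nonneg h)
    have b3 : η * h ^ 3 ≤ h ^ 3 := mul_le_of_le_one_left (by positivity) h1
    have b4 : h * (h / 8 + 2 / 9 * h ^ 2) ≤ h * (1 / 256) :=
      mul_le_mul_of_nonneg_left (by nlinarith) hp.le
    nlinarith
  · field_simp
    ring

theorem LC.gc {f : ℝ → ℝ≥0∞} (h : LC f) (m : ℤ) {A B c : ℝ} (hA0 : 0 < A) (hB0 : 0 < B)
    (hA : f (tt m) ≤ ENNReal.ofReal A) (hB : f (tt (m + 1)) ≤ ENNReal.ofReal B) (hc1 : 1 ≤ c)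
    (hc : (A / B) ^ (1 / 256 : ℝ) ≤ c) :
    GC m f (ENNReal.ofReal (A * c)) (ENNReal.ofReal (B * c)) := by
  intro η h0 h1
  obtain ⟨l, l0, l1, l2, l3⟩ := exists_lam h0 h1
  have c0 : 0 < c := one_pos.trans_le hc1
  have e : tt (m + η) = (1 - l) * tt m + l * tt (m + 1) := by
    rw [tt_add, tt_add, l3]
    ring
  rw [e]
  refine (h _ _ l (tt_pos _) (tt_pos _) l0 (l1.trans h1)).trans
    ((mul_le_mul' (ENNReal.rpow_le_rpow hA (sub_nonneg.2 (l1.trans h1)))
      (ENNReal.rpow_le_rpow hB l0)).trans ?_)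
  rw [ENNReal.ofReal_rpow_of_pos hA0, ENNReal.ofReal_rpow_of_pos hB0,
    ENNReal.ofReal_rpow_of_pos (mul_pos hA0 c0), ENNReal.ofReal_rpow_of_pos (mul_pos hB0 c0),
    ← ENNReal.ofReal_mul (by positivity), ← ENNReal.ofReal_mul (by positivity)]
  refine ENNReal.ofReal_le_ofReal ?_
  have k1 : (A / B) ^ (η - l) ≤ c := by
    rcases le_total (A / B) 1 with k | k
    · exact (Real.rpow_le_one (by positivity) k (sub_nonneg.2 l1)).trans hc1
    · exact (Real.rpow_le_rpow_of_exponent_le k l2).trans hc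
  have k2 : A ^ (1 - l) * B ^ l = A ^ (1 - η) * B ^ η * (A / B) ^ (η - l) := by
    have p1 : A ^ (1 - l) = A ^ (1 - η) * A ^ (η - l) := by
      rw [← Real.rpow_add hA0]
      congr 1
      ring
    have p2 : B ^ η = B ^ l * B ^ (η - l) := by
      rw [← Real.rpow_add hB0]
      congr 1
      ring
    have p3 : B ^ (η - l) ≠ 0 := (Real.rpow_pos_of_pos hB0 _).ne'
    rw [Real.div_rpow hA0.le hB0.le, p1, p2]
    field_simp
  have k3 : (A * c) ^ (1 - η) * (B * c) ^ η = A ^ (1 - η) * B ^ η * c := by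
    have p1 : c ^ (1 - η) * c ^ η = c := by
      rw [← Real.rpow_add c0, sub_add_cancel, Real.rpow_one]
    rw [Real.mul_rpow hA0.le c0.le, Real.mul_rpow hB0.le c0.le]
    calc _ = A ^ (1 - η) * B ^ η * (c ^ (1 - η) * c ^ η) := by ring
      _ = _ := by rw [p1]
  rw [k2, k3]
  exact mul_le_mul_of_nonneg_left k1 (by positivity)

theorem LC.gc_lin {f : ℝ → ℝ≥0∞} (h : LC f) (m : ℤ) {A B : ℝ} (hA0 : 0 < A) (hB0 : 0 < B)
    (hA : f (tt m) ≤ ENNReal.ofReal A) (hB : f (tt (m + 1)) ≤ ENNReal.ofReal B) :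
    GC m f (ENNReal.ofReal (A + A * max (A - B) 0 / (256 * B)))
      (ENNReal.ofReal (B + max (A - B) 0 / 256)) := by
  have m0 : 0 ≤ max (A - B) 0 := le_max_right _ _
  have k := h.gc m hA0 hB0 hA hB (c := 1 + max (A - B) 0 / (256 * B))
    (le_add_of_nonneg_right (by positivity)) (by
      have e : A / B = 1 + (A - B) / B := by field_simp; ring
      have k1 : -1 ≤ (A - B) / B := by
        have : 0 < A / B := by positivity
        linarith
      rw [e]
      refine (_root_.rpow_one_add_le_one_add_mul_self k1 (by norm_num) (by norm_num)).trans ?_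
      have k2 : (A - B) / B ≤ max (A - B) 0 / B :=
        div_le_div_of_nonneg_right (le_max_left _ _) hB0.le
      have k3 : max (A - B) 0 / (256 * B) = 1 / 256 * (max (A - B) 0 / B) := by field_simp
      rw [k3]
      linarith)
  have e1 : A * (1 + max (A - B) 0 / (256 * B)) = A + A * max (A - B) 0 / (256 * B) := by ring
  have e2 : B * (1 + max (A - B) 0 / (256 * B)) = B + max (A - B) 0 / 256 := by field_simp
  rwa [e1, e2] at k

theorem LC.gc_WW {f : ℝ → ℝ≥0∞} (h : LC f) (m : ℤ) {a c q : ℤ} (hA : f (tt m) ≤ WW a)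
    (hB : f (tt (m + 1)) ≤ WW c) (hq0 : 0 ≤ q) (hq : a - c ≤ 256 * q) :
    GC m f (WW (a + q)) (WW (c + q)) := by
  have q0 : (0 : ℝ) ≤ q := by exact_mod_cast hq0
  have q1 : (a : ℝ) - c ≤ 256 * q := by exact_mod_cast hq
  have k := h.gc m (Wr_pos a) (Wr_pos c) hA hB (c := Wr q)
    (Real.one_le_rpow one_le_two (by positivity)) (by
      rw [Wr, Wr, Wr, ← Real.rpow_sub two_pos, ← Real.rpow_mul zero_le_two]
      exact Real.rpow_le_rpow_of_exponent_le one_le_two (by linarith))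
  rw [← Wr_add, ← Wr_add] at k
  simpa only [WW, Int.cast_add] using k

end Pool.Agent.Eps.B
end
end

-- part Pool.Agent.Lib.MP_3bda03_nt.B.Brk
section

/-!
Summing the excess over all pairs of parallel fibres.
-/

set_option autoImplicit false

noncomputable section

open MeasureTheory Matrix Finset
open scoped ENNReal

namespace Pool.Agent.Eps.B

open Pool.Agent.Eps.H

/-- the choice of the splitting index for the pair `(p, q)` -/
def lsel (l1 : ℕ) (p q : ℤ) : ℕ := if p ^ 2 + q ^ 2 = 2 then l1 else 0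

theorem brk_35 : (3 / 5 : ℝ≥0∞) = ENNReal.ofReal (3 / 5) := by
  rw [ENNReal.ofReal_div_of_pos (by norm_num)]
  simp

theorem brk_geom : ∑' u : ℕ, ((3 / 5 : ℝ≥0∞) ^ 3) ^ u = ENNReal.ofReal (125 / 98) := by
  rw [ENNReal.tsum_geometric, brk_35, ← ENNReal.ofReal_pow (by norm_num), ← ENNReal.ofReal_one,
    ← ENNReal.ofReal_sub _ (by norm_num), ← ENNReal.ofReal_inv_of_pos (by norm_num)]
  norm_num

theorem brk_sq (p : ℤ) : 3 * (p.natAbs : ℤ) - 2 ≤ p ^ 2 := by
  rw [← Int.natAbs_sq]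
  generalize (p.natAbs : ℤ) = a
  rcases le_or_gt a 1 with h | h <;> nlinarith

theorem tsum_pq_le {y : ℝ≥0∞} (hy : y ≤ 3 / 5) :
    ∑' x : {x : ℤ × ℤ // 0 < x.1 ∧ x.2 ≠ 0 ∧ x.1 ^ 2 + x.2 ^ 2 ≠ 2},
      y ^ (x.1.1 ^ 2 + x.1.2 ^ 2 - 4).toNat ≤ 4 := by
  have h1 : ∀ x : {x : ℤ × ℤ // 0 < x.1 ∧ x.2 ≠ 0 ∧ x.1 ^ 2 + x.2 ^ 2 ≠ 2}, x.1.1 = 1 →
      2 ≤ x.1.2.natAbs := by
    rintro ⟨⟨p, q⟩, h0, hq, hN⟩ (rfl : p = 1)
    by_contra h
    have : q = 1 ∨ q = -1 := by simp only at hq h; omega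
    rcases this with rfl | rfl <;> exact hN rfl
  let f : {x : ℤ × ℤ // 0 < x.1 ∧ x.2 ≠ 0 ∧ x.1 ^ 2 + x.2 ^ 2 ≠ 2} → Bool × Bool × ℕ × ℕ :=
    fun x => (decide (0 < x.1.2), decide (x.1.1 = 1), (x.1.1 - 2).toNat,
      if x.1.1 = 1 then x.1.2.natAbs - 2 else x.1.2.natAbs - 1)
  have hf : Function.Injective f := by
    intro x x' h
    simp only [f, Prod.mk.injEq, decide_eq_decide] at h
    obtain ⟨a1, a2, a3, a4⟩ := h
    have b1 := h1 x
    have b2 := h1 x'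
    have b3 := x.2.1
    have b4 := x'.2.1
    have b5 := x.2.2.1
    have b6 := x'.2.2.1
    refine Subtype.ext (Prod.ext (by omega) ?_)
    split_ifs at a4 <;> omega
  have h35 : (3 / 5 : ℝ≥0∞) ≤ 1 := ENNReal.div_le_of_le_mul (by norm_num)
  refine (ENNReal.tsum_le_tsum fun x => ?_).trans ((ENNReal.tsum_comp_le_tsum_of_injective hf
    fun z => 3 / 5 * (((3 / 5 : ℝ≥0∞) ^ 3) ^ z.2.2.1 * ((3 / 5) ^ 3) ^ z.2.2.2)).trans ?_)
  · rw [← pow_add, ← pow_mul, ← pow_succ']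
    refine (pow_le_pow_left' hy _).trans (pow_le_pow_right_of_le_one' h35 ?_)
    have b1 := h1 x
    have b3 := x.2.1
    have b5 := x.2.2.1
    have c1 := brk_sq x.1.1
    have c2 := brk_sq x.1.2
    simp only [f]
    split_ifs with h
    · have c3 : x.1.1 ^ 2 = 1 := by rw [h]; rfl
      omega
    · omega
  · simp only [ENNReal.tsum_prod', tsum_bool, ENNReal.tsum_mul_left, ENNReal.tsum_mul_right,
      brk_geom]
    rw [brk_35, ← ENNReal.ofReal_mul (by norm_num),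
      ← ENNReal.ofReal_add (by norm_num) (by norm_num),
      ← ENNReal.ofReal_add (by norm_num) (by norm_num), ← ENNReal.ofReal_mul (by norm_num),
      ← ENNReal.ofReal_ofNat 4]
    exact ENNReal.ofReal_le_ofReal (by norm_num)

theorem brk_ga (k : ℕ) {t ν : ℝ} (ht : 1 ≤ t) (hν : 1 / 6 ≤ ν) :
    ga t (k * ν) ≤ (3 / 5 : ℝ≥0∞) ^ k := by
  have h1 : Real.exp (-(13 / 25)) ≤ 3 / 5 := by
    have := Real.sum_le_exp_of_nonneg (x := 13 / 25) (by norm_num) 4
    simp only [sum_range_succ, range_zero, sum_empty, Nat.factorial] at this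
    rw [Real.exp_neg, inv_le_comm₀ (Real.exp_pos _) (by norm_num)]
    refine le_trans ?_ this
    norm_num
  have h2 : 13 / 25 ≤ Real.pi * (t * ν) := by
    have := Real.pi_gt_d2
    have h3 : 1 / 6 ≤ t * ν := by nlinarith
    nlinarith
  rw [brk_35, ← ENNReal.ofReal_pow (by norm_num)]
  refine ENNReal.ofReal_le_ofReal (le_trans ?_ (pow_le_pow_left₀ (Real.exp_pos _).le h1 k))
  rw [← Real.exp_nat_mul]
  refine Real.exp_le_exp.2 ?_
  have h4 : (0 : ℝ) ≤ k := Nat.cast_nonneg k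
  nlinarith [mul_le_mul_of_nonneg_left h2 h4]

theorem brk_rpow {a c t N : ℝ} (h : a ≤ c) (ht : 0 < t) (hN : 4 ≤ N) :
    (N * t) ^ (-c) * (t / N) ^ (-a) ≤ (4 * t) ^ (-c) * (t / 4) ^ (-a) := by
  have e : ∀ x : ℝ, 0 < x → (x * t) ^ (-c) * (t / x) ^ (-a) =
      x ^ (a - c) * (t ^ (-c) * t ^ (-a)) := fun x hx => by
    rw [Real.mul_rpow hx.le ht.le, Real.div_rpow ht.le hx.le, Real.rpow_sub hx,
      Real.rpow_neg hx.le, Real.rpow_neg hx.le]
    field_simp
  rw [e N (by linarith), e 4 (by norm_num)]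
  exact mul_le_mul_of_nonneg_right (Real.rpow_le_rpow_of_nonpos (by norm_num) hN (by linarith))
    (by positivity)

variable (b : ℕ → RB)

theorem PP_mul_ee_anti (j : ℕ) {t N : ℝ} (ht : 0 < t) (hN : 4 ≤ N) :
    PP b j (N * t) * (1 + ee b j 0 (t / N)) ≤ PP b j (4 * t) * (1 + ee b j 0 (t / 4)) := by
  have hc := fun l => (cov_pos b l).le
  simp only [ee, Nat.not_lt_zero, if_false, mul_add, mul_one, mul_sum, ← mul_assoc]
  refine add_le_add (ENNReal.ofReal_le_ofReal (mul_le_mul_of_nonneg_left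
    (Real.rpow_le_rpow_of_nonpos (by linarith) (by nlinarith) (by
      rw [neg_nonpos]; positivity)) (inv_nonneg.2 (hc j)))) (sum_le_sum fun l hl => ?_)
  refine mul_le_mul' ?_ (sn_mono _ fun ρ hρ => ga_anti ?_ hρ)
  · have hN0 : 0 < N := by linarith
    have h1 : (dm b (l + 1) : ℝ) ≤ dm b j := by
      exact_mod_cast sum_le_sum_of_subset (range_subset_range.2 (mem_range.1 hl))
    simp only [PP, Pn]
    rw [← ENNReal.ofReal_mul (mul_nonneg (inv_nonneg.2 (hc j)) (by positivity)),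
      ← ENNReal.ofReal_mul (mul_nonneg (inv_nonneg.2 (hc j)) (by positivity)),
      mul_mul_mul_comm, mul_mul_mul_comm _ ((4 * t) ^ _)]
    exact ENNReal.ofReal_le_ofReal (mul_le_mul_of_nonneg_left
      (brk_rpow (by linarith) ht hN) (mul_nonneg (inv_nonneg.2 (hc _)) (inv_nonneg.2 (hc _))))
  · rw [inv_div, inv_div]
    exact div_le_div_of_nonneg_right hN ht.le

theorem brk_one (R : ℝ) (l1 j : ℕ) {t : ℝ} (ht : 0 < t) {q : ℤ} (hq : q ^ 2 = 1) (ν : ℝ) :
    brk b R l1 j t 1 q ν =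
      ENNReal.ofReal (cov b j)⁻¹ * sm (dm b j) (ph R (2 * t)) ν +
        PP b j (2 * t) * ga (2 * t) ν * ee b j l1 (t / 2) +
        2 * (PP b j t * (ENNReal.ofReal (cov b j)⁻¹ * (ga t ν * sm (dm b j) (pl R t) ν))) := by
  have h1 : (q : ℝ) ^ 2 = 1 := by exact_mod_cast hq
  have h2 : (fun ρ => ph R t ρ * ph R t ρ) = ph R (2 * t) := funext fun ρ => by
    simp only [ph]
    split_ifs
    · rw [← ga_add, ← two_mul, ga_mul]
    · simp
  simp only [brk, h1, Int.cast_one, one_pow, one_mul, one_add_one_eq_two, h2]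
  ring

theorem brk_le (R : ℝ) (j : ℕ) {t : ℝ} (ht : 1 ≤ t) {p q : ℤ} (hp : 0 < p) (hq : q ≠ 0)
    (hN : p ^ 2 + q ^ 2 ≠ 2) {ν : ℝ} (hν : 1 / 6 ≤ ν) :
    brk b R 0 j t p q ν ≤ (3 / 5 : ℝ≥0∞) ^ (p ^ 2 + q ^ 2 - 4).toNat *
      (PP b j (4 * t) * ga (4 * t) ν * (1 + ee b j 0 (t / 4)) +
        3 / 4 * (PP b j t * (ENNReal.ofReal (cov b j)⁻¹ * (ga t ν * sm (dm b j) (pl R t) ν)))) := by
  have hp1 : 1 ≤ p ^ 2 := by nlinarith
  have hq1 : 1 ≤ q ^ 2 := by have := sq_pos_of_ne_zero hq; omega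
  have h5 : 4 ≤ p ^ 2 + q ^ 2 := by
    have c1 := brk_sq p
    have c2 := brk_sq q
    by_contra h
    have d1 : p = 1 := by omega
    have d2 : q = 1 ∨ q = -1 := by omega
    rcases d2 with rfl | rfl <;> exact hN (by rw [d1]; rfl)
  obtain ⟨n, hn⟩ := Int.eq_ofNat_of_zero_le (sub_nonneg.2 h5)
  have hP : (1 : ℝ) ≤ (p : ℝ) ^ 2 := by exact_mod_cast hp1
  have hQ : (1 : ℝ) ≤ (q : ℝ) ^ 2 := by exact_mod_cast hq1
  have hn' : (p : ℝ) ^ 2 + (q : ℝ) ^ 2 = n + 4 := by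
    have : ((p ^ 2 + q ^ 2 - 4 : ℤ) : ℝ) = (n : ℤ) := congrArg _ hn
    push_cast at this
    linarith
  rw [hn, Int.toNat_natCast, brk]
  generalize (p : ℝ) ^ 2 = P at hP hn'
  generalize (q : ℝ) ^ 2 = Q at hQ hn'
  have h0 : (0 : ℝ) ≤ n := Nat.cast_nonneg n
  have hph : ∀ ρ, ph R t ρ ≤ ga t ρ := fun ρ => (ph_add_pl R t ρ).symm ▸ le_self_add
  have e1 : ENNReal.ofReal (cov b j)⁻¹ * sm (dm b j) (fun ρ => ph R t (P * ρ) * ph R t (Q * ρ)) ν ≤
      PP b j ((P + Q) * t) * ga ((P + Q) * t) ν := by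
    refine (mul_le_mul_right (sm_mono _ (φ := ga ((P + Q) * t)) fun σ _ => ?_) _).trans_eq ?_
    · rw [← ga_mul, add_mul, ga_add]
      exact mul_le_mul' (hph _) (hph _)
    · rw [sm_ga _ (by positivity), PP, Pn,
        ENNReal.ofReal_mul (inv_nonneg.2 (cov_pos b j).le), mul_assoc]
  have e2 : ga ((P + Q) * t) ν ≤ (3 / 5 : ℝ≥0∞) ^ n * ga (4 * t) ν := by
    rw [← ga_mul, hn', add_mul, ga_add, ga_mul t 4]
    exact mul_le_mul_left (brk_ga n ht hν) _
  have e3 : ∀ P Q : ℝ, 1 ≤ P → P + Q = n + 4 → sm (dm b j) (pl R t) (P * ν) * ga t (Q * ν) ≤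
      (3 / 5 : ℝ≥0∞) ^ n * (3 / 5) ^ 2 * (ga t ν * sm (dm b j) (pl R t) ν) := by
    intro P Q hP h
    have a1 := sm_pl_add_le (dm b j) R t ν (σ := (P - 1) * ν) (by nlinarith)
    rw [show ν + (P - 1) * ν = P * ν by ring] at a1
    refine (mul_le_mul_left a1 _).trans ?_
    rw [mul_right_comm, ← ga_add, show (P - 1) * ν + Q * ν = ((n + 2 : ℕ) : ℝ) * ν + ν by
      push_cast; linear_combination ν * h, ga_add, ← pow_add, mul_assoc]
    exact mul_le_mul_left (brk_ga _ ht hν) _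
  have e4 : ((3 / 5 : ℝ≥0∞) ^ 2 + (3 / 5) ^ 2) ≤ 3 / 4 := by
    rw [brk_35, ← ENNReal.ofReal_pow (by norm_num), ← ENNReal.ofReal_add (by norm_num)
      (by norm_num), ENNReal.le_div_iff_mul_le (by norm_num) (by norm_num),
      ← ENNReal.ofReal_ofNat 4, ← ENNReal.ofReal_mul (by norm_num), ← ENNReal.ofReal_ofNat 3]
    exact ENNReal.ofReal_le_ofReal (by norm_num)
  have e5 := PP_mul_ee_anti b j (t := t) (N := P + Q) (by linarith) (by linarith)
  rw [mul_add]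
  refine add_le_add ((add_le_add_left e1 _).trans ?_) ?_
  · calc _ = ga ((P + Q) * t) ν * (PP b j ((P + Q) * t) * (1 + ee b j 0 (t / (P + Q)))) := by ring
      _ ≤ _ := mul_le_mul' e2 e5
      _ = _ := by ring
  · calc _ = PP b j t * ENNReal.ofReal (cov b j)⁻¹ *
          (sm (dm b j) (pl R t) (P * ν) * ga t (Q * ν) +
            sm (dm b j) (pl R t) (Q * ν) * ga t (P * ν)) := by ring
      _ ≤ _ := mul_le_mul_right (add_le_add (e3 P Q hP hn') (e3 Q P hQ (by linarith))) _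
      _ = ((3 / 5) ^ 2 + (3 / 5) ^ 2) * ((3 / 5 : ℝ≥0∞) ^ n * (PP b j t *
          (ENNReal.ofReal (cov b j)⁻¹ * (ga t ν * sm (dm b j) (pl R t) ν)))) := by ring
      _ ≤ _ := mul_le_mul_left e4 _
      _ = _ := by ring

theorem brk_split (F : ℤ × ℤ → ℝ≥0∞) : ∑' x : {x : ℤ × ℤ // 0 < x.1 ∧ x.2 ≠ 0}, F x.1 ≤
    F (1, 1) + F (1, -1) +
      ∑' x : {x : ℤ × ℤ // 0 < x.1 ∧ x.2 ≠ 0 ∧ x.1 ^ 2 + x.2 ^ 2 ≠ 2}, F x.1 := by
  let f : Bool ⊕ {x : ℤ × ℤ // 0 < x.1 ∧ x.2 ≠ 0 ∧ x.1 ^ 2 + x.2 ^ 2 ≠ 2} →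
      {x : ℤ × ℤ // 0 < x.1 ∧ x.2 ≠ 0} :=
    Sum.elim (fun s => s.rec ⟨(1, 1), by decide⟩ ⟨(1, -1), by decide⟩)
      fun x => ⟨x.1, x.2.1, x.2.2.1⟩
  have hf : Function.Surjective f := by
    rintro ⟨⟨p, q⟩, hp, hq⟩
    by_cases h : p ^ 2 + q ^ 2 = 2
    · have c1 := brk_sq p
      have c2 := brk_sq q
      simp only at hp hq
      obtain rfl : p = 1 := by omega
      have d2 : q = 1 ∨ q = -1 := by omega
      rcases d2 with rfl | rfl
      · exact ⟨Sum.inl false, rfl⟩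
      · exact ⟨Sum.inl true, rfl⟩
    · exact ⟨Sum.inr ⟨(p, q), hp, hq, h⟩, rfl⟩
  refine (ENNReal.tsum_le_tsum_comp_of_surjective hf fun x => F x.1).trans_eq ?_
  rw [Summable.tsum_sum ENNReal.summable ENNReal.summable, tsum_bool]
  rfl

theorem brk_key (R : ℝ) (l1 j : ℕ) {t : ℝ} (ht : 1 ≤ t) {ν : ℝ} (hν : 1 / 6 ≤ ν) :
    ∑' x : {x : ℤ × ℤ // 0 < x.1 ∧ x.2 ≠ 0}, brk b R (lsel l1 x.1.1 x.1.2) j t x.1.1 x.1.2 ν ≤
      2 * ENNReal.ofReal (cov b j)⁻¹ * sm (dm b j) (ph R (2 * t)) ν +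
        7 * (PP b j t * ENNReal.ofReal (cov b j)⁻¹) * (ga t ν * sm (dm b j) (pl R t) ν) +
        2 * (PP b j (2 * t) * ee b j l1 (t / 2)) * ga (2 * t) ν +
        4 * (PP b j (4 * t) * (1 + ee b j 0 (t / 4))) * ga (4 * t) ν := by
  have ht0 : 0 < t := by linarith
  have e : (4 : ℝ≥0∞) * (3 / 4) = 3 := ENNReal.mul_div_cancel (by norm_num) (by norm_num)
  have a0 := brk_split fun x => brk b R (lsel l1 x.1 x.2) j t x.1 x.2 ν
  have a1 : lsel l1 1 1 = l1 := if_pos (by norm_num)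
  have a2 : lsel l1 1 (-1) = l1 := if_pos (by norm_num)
  simp only [a1, a2] at a0
  rw [brk_one b R l1 j ht0 (q := 1) (by norm_num),
    brk_one b R l1 j ht0 (q := -1) (by norm_num)] at a0
  obtain ⟨K, hK⟩ : ∃ K, K = PP b j (4 * t) * ga (4 * t) ν * (1 + ee b j 0 (t / 4)) + 3 / 4 *
    (PP b j t * (ENNReal.ofReal (cov b j)⁻¹ * (ga t ν * sm (dm b j) (pl R t) ν))) := ⟨_, rfl⟩
  have a3 : ∑' x : {x : ℤ × ℤ // 0 < x.1 ∧ x.2 ≠ 0 ∧ x.1 ^ 2 + x.2 ^ 2 ≠ 2},
      brk b R (lsel l1 x.1.1 x.1.2) j t x.1.1 x.1.2 ν ≤ 4 * K := by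
    refine le_trans ?_ (mul_le_mul_left (tsum_pq_le le_rfl) K)
    rw [← ENNReal.tsum_mul_right]
    refine ENNReal.tsum_le_tsum fun x => ?_
    rw [lsel, if_neg x.2.2.2, hK]
    exact brk_le b R j ht x.2.1 x.2.2.1 x.2.2.2 hν
  refine a0.trans ((add_le_add le_rfl a3).trans_eq ?_)
  rw [hK, mul_add (4 : ℝ≥0∞), ← mul_assoc 4 (3 / 4), e]
  ring

theorem sum_brk (R : ℝ) (l1 j : ℕ) (hm : MinN (b j).M) {t : ℝ} (ht : 1 ≤ t) :
    ∑' w : {w : Fin (b j).g → ℤ // w ≠ 0}, ∑' x : {x : ℤ × ℤ // 0 < x.1 ∧ x.2 ≠ 0},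
      brk b R (lsel l1 x.1.1 x.1.2) j t x.1.1 x.1.2 (nsq (lv w.1 (b j).M)) ≤ VV b R l1 j t := by
  refine le_trans (ENNReal.tsum_le_tsum fun w => brk_key b R l1 j ht (hm w.1 w.2)) (le_of_eq ?_)
  rw [ENNReal.tsum_add, ENNReal.tsum_add, ENNReal.tsum_add, ENNReal.tsum_mul_left,
    ENNReal.tsum_mul_left, ENNReal.tsum_mul_left, ENNReal.tsum_mul_left]
  unfold VV lay hh vt sn
  ring

end Pool.Agent.Eps.B
end
end

-- part Pool.Agent.Lib.MP_3bda03_nt.B.Var
section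

/-!
Second moments.
-/

set_option autoImplicit false

noncomputable section

open MeasureTheory Matrix Finset
open scoped ENNReal

namespace Pool.Agent.Eps.B

open Pool.Agent.Eps.H

theorem var_single {α : Type} (P : α → Prop) [DecidablePred P] (c : ℝ≥0∞)
    (h : ∀ a a', P a → P a' → a = a') : ∑' a, (if P a then c else 0) ≤ c := by
  by_cases k : ∃ a, P a
  · obtain ⟨a, ha⟩ := k
    rw [tsum_eq_single a fun a' n => if_neg fun k => n (h _ _ k ha), if_pos ha]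
  · simp only [not_exists] at k
    simp [k]

theorem var_pos {a c : ℤ} (h : 0 < a * c) (hc : 0 < c) : 0 < a :=
  (mul_pos_iff_of_pos_right hc).1 h

/-- a sum over the dependent pairs of nonzero vectors -/
theorem tsum_dep_le {κ : Type} [Fintype κ] [DecidableEq κ]
    (E : (κ → ℤ) → (κ → ℤ) → ℝ≥0∞) (y : (κ → ℤ) → ℝ≥0∞) (f : (κ → ℤ) → ℤ → ℤ → ℝ≥0∞)
    (hi : ∀ l l', Ind2 (l, l') → E l l' ≤ y l * y l')
    (hd : ∀ w p q, w ≠ 0 → 0 < p → q ≠ 0 → IsCoprime p q →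
      E (p • w) (q • w) ≤ y (p • w) * y (q • w) + f w p q) :
    ∑' l : {l : κ → ℤ // l ≠ 0}, ∑' l' : {l : κ → ℤ // l ≠ 0}, E l.1 l'.1 ≤
      (∑' l : {l : κ → ℤ // l ≠ 0}, y l.1) ^ 2 +
        ∑' w : {w : κ → ℤ // w ≠ 0}, ∑' x : {x : ℤ × ℤ // 0 < x.1 ∧ x.2 ≠ 0}, f w.1 x.1.1 x.1.2 := by
  classical
  let g : (κ → ℤ) → (κ → ℤ) → {w : κ → ℤ // w ≠ 0} × {x : ℤ × ℤ // 0 < x.1 ∧ x.2 ≠ 0} → ℝ≥0∞ :=
    fun l l' a => if a.2.1.1 • a.1.1 = l ∧ a.2.1.2 • a.1.1 = l' then f a.1.1 a.2.1.1 a.2.1.2 else 0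
  have h1 : ∀ l l' : {l : κ → ℤ // l ≠ 0}, E l.1 l'.1 ≤ y l.1 * y l'.1 + ∑' a, g l.1 l'.1 a := by
    rintro ⟨l, hl⟩ ⟨l', hl'⟩
    by_cases h : Ind2 (l, l')
    · exact (hi l l' h).trans le_self_add
    obtain ⟨w, p, q, hp, -, e1, e2⟩ := exists_of_not_ind2 hl h
    have hg : 0 < Int.gcd p q := Int.gcd_pos_of_ne_zero_left _ hp.ne'
    obtain ⟨p', q', hc, ha, hb⟩ := Int.exists_gcd_one hg
    have e3 : l = p' • ((Int.gcd p q : ℤ) • w) := by rw [smul_smul, ← ha, e1]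
    have e4 : l' = q' • ((Int.gcd p q : ℤ) • w) := by rw [smul_smul, ← hb, e2]
    have hp' : 0 < p' := var_pos (ha ▸ hp) (by exact_mod_cast hg)
    have hq' : q' ≠ 0 := fun k => hl' (by rw [e4, k, zero_smul])
    have hw : (Int.gcd p q : ℤ) • w ≠ 0 := fun k => hl (by rw [e3, k, smul_zero])
    have k := hd _ p' q' hw hp' hq' (Int.isCoprime_iff_gcd_eq_one.2 hc)
    rw [← e3, ← e4] at k
    refine k.trans (add_le_add le_rfl (le_trans (le_of_eq ?_)
      (ENNReal.le_tsum (⟨_, hw⟩, ⟨(p', q'), hp', hq'⟩))))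
    exact (if_pos ⟨e3.symm, e4.symm⟩).symm
  refine (ENNReal.tsum_le_tsum fun l => ENNReal.tsum_le_tsum fun l' => h1 l l').trans ?_
  simp only [ENNReal.tsum_add]
  refine add_le_add (le_of_eq ?_) ?_
  · simp only [ENNReal.tsum_mul_left, ENNReal.tsum_mul_right, sq]
  · refine le_trans (le_of_eq (ENNReal.tsum_prod' (f := fun z : {l : κ → ℤ // l ≠ 0} ×
      {l : κ → ℤ // l ≠ 0} => ∑' a, g z.1.1 z.2.1 a)).symm) (le_trans ?_ (le_of_eq
        (ENNReal.tsum_prod' (f := fun a : {w : κ → ℤ // w ≠ 0} ×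
          {x : ℤ × ℤ // 0 < x.1 ∧ x.2 ≠ 0} => f a.1.1 a.2.1.1 a.2.1.2))))
    rw [ENNReal.tsum_comm]
    refine ENNReal.tsum_le_tsum fun a => var_single _ _ fun z z' k k' => ?_
    exact Prod.ext (Subtype.ext (k.1.symm.trans k'.1)) (Subtype.ext (k.2.symm.trans k'.2))

variable (b : ℕ → RB)

theorem var_base : Var b (Fin (b 0).g) (Measure.dirac (b 0).M) 1 := by
  intro R t l1 _
  have m := measurable_sn (ι := Fin (b 0).g) (κ := Fin (b 0).g) (measurable_ph R t)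
  rw [lintegral_dirac' _ (m.pow_const 2), lintegral_dirac' _ m]
  exact le_self_add

theorem var_step {ι : Type} [Fintype ι] [DecidableEq ι] {μ : Measure (Matrix ι ι ℝ)} {k : ℕ}
    (hk : 1 ≤ k) (h : Good b ι μ k) (hv : Var b ι μ k) (hm : MinN (b k).M) :
    Var b (ι ⊕ Fin (b k).g) (ens μ (b k).M) (k + 1) := by
  intro R t l1 ht
  have ht0 : 0 < t := one_pos.trans_le ht
  have := h.prob
  have : IsProbabilityMeasure (volume.restrict (cube (Fin (b k).g) ι)) :=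
    ⟨by rw [Measure.restrict_apply_univ, volume_cube]⟩
  have mψ := measurable_ph R t
  have hA : ∀ᵐ A ∂μ, A.det ≠ 0 ∧ |A.det| = cov b k := h.det.mono fun A k' =>
    ⟨fun n => (cov_pos b k).ne' (by rw [← k', n, abs_zero]), k'⟩
  let F : (Fin (b k).g → ℤ) → Matrix ι ι ℝ × Matrix (Fin (b k).g) ι ℝ → ℝ≥0∞ :=
    fun l z => fib z.1 (ph R t) l (nsq (lv l (b k).M)) z.2
  have mF : ∀ l, Measurable (F l) := fun l => measurable_fib mψ l _
  let Y : Matrix ι ι ℝ × Matrix (Fin (b k).g) ι ℝ → ℝ≥0∞ :=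
    fun z => ∑' l : {l : Fin (b k).g → ℤ // l ≠ 0}, F l.1 z
  have mY : Measurable Y := Measurable.tsum fun l => mF l.1
  have mS : Measurable fun A : Matrix ι ι ℝ => sn A (ph R t) := measurable_sn mψ
  have mS' : Measurable fun z : Matrix ι ι ℝ × Matrix (Fin (b k).g) ι ℝ => sn z.1 (ph R t) :=
    mS.comp measurable_fst
  let y : (Fin (b k).g → ℤ) → ℝ≥0∞ :=
    fun l => ENNReal.ofReal (cov b k)⁻¹ * sm (dm b k) (ph R t) (nsq (lv l (b k).M))
  have ey : ∑' l : {l : Fin (b k).g → ℤ // l ≠ 0}, y l.1 = lay b k (ph R t) :=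
    ENNReal.tsum_mul_left
  have e0 : ∫⁻ g, sn g (ph R t) ^ 2 ∂(ens μ (b k).M) =
      ∫⁻ z, (sn z.1 (ph R t) + Y z) ^ 2 ∂(μ.prod (volume.restrict (cube (Fin (b k).g) ι))) := by
    rw [lintegral_ens μ _ ((measurable_sn mψ).pow_const 2),
      lintegral_prod _ ((mS'.fun_add mY).pow_const 2).aemeasurable]
    simp only [sn_glue]
    rfl
  have e1 : ∫⁻ z, sn z.1 (ph R t) ^ 2 ∂(μ.prod (volume.restrict (cube (Fin (b k).g) ι))) =
      ∫⁻ A, sn A (ph R t) ^ 2 ∂μ := by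
    rw [lintegral_prod _ (mS'.pow_const 2).aemeasurable]
    simp only [lintegral_const, measure_univ, mul_one]
  have e2 : ∫⁻ z, 2 * sn z.1 (ph R t) * Y z ∂(μ.prod (volume.restrict (cube (Fin (b k).g) ι))) =
      2 * (∫⁻ A, sn A (ph R t) ∂μ) * lay b k (ph R t) := by
    rw [lintegral_prod _ ((mS'.const_mul 2).fun_mul mY).aemeasurable, ← lintegral_const_mul _ mS,
      ← lintegral_mul_const _ (mS.const_mul 2)]
    refine lintegral_congr_ae (hA.mono fun A k' => ?_)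
    have m1 : ∀ l, Measurable fun T => F l (A, T) := fun l => (mF l).comp measurable_prodMk_left
    change ∫⁻ T in _, 2 * sn A (ph R t) * ∑' l : {l : Fin (b k).g → ℤ // l ≠ 0}, F l.1 (A, T) =
      2 * sn A (ph R t) * lay b k (ph R t)
    rw [lintegral_const_mul _ (Measurable.tsum fun l => m1 _),
      lintegral_tsum fun l => (m1 _).aemeasurable, ← ey]
    refine congrArg _ (tsum_congr fun l => ?_)
    exact (lintegral_fib k'.1 mψ l.2 _).trans (by rw [k'.2, h.card])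
  have e3 : ∫⁻ z, Y z ^ 2 ∂(μ.prod (volume.restrict (cube (Fin (b k).g) ι))) ≤
      lay b k (ph R t) ^ 2 + VV b R l1 k t := by
    have e : ∀ z, Y z ^ 2 = ∑' l : {l : Fin (b k).g → ℤ // l ≠ 0},
        ∑' l' : {l : Fin (b k).g → ℤ // l ≠ 0}, F l.1 z * F l'.1 z := fun z => by
      simp only [ENNReal.tsum_mul_left, ENNReal.tsum_mul_right, sq, Y]
    simp only [e]
    rw [lintegral_tsum fun l =>
      (Measurable.tsum fun l' => (mF _).fun_mul (mF _)).aemeasurable, ← ey]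
    refine le_trans (le_of_eq (tsum_congr fun l => lintegral_tsum fun l' =>
      ((mF _).fun_mul (mF _)).aemeasurable)) (le_trans (tsum_dep_le
        (fun l l' => ∫⁻ z, F l z * F l' z ∂(μ.prod (volume.restrict (cube (Fin (b k).g) ι)))) y
        (fun w p q => brk b R (lsel l1 p q) k t p q (nsq (lv w (b k).M))) ?_ ?_)
        (add_le_add le_rfl (sum_brk b R l1 k hm ht)))
    · intro l l' hl
      rw [lintegral_prod _ ((mF _).fun_mul (mF _)).aemeasurable]
      refine le_of_eq ((lintegral_congr_ae (hA.mono fun A k' => ?_)).trans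
        ((lintegral_const (y l * y l')).trans (by rw [measure_univ, mul_one])))
      exact (lintegral_fib_mul k'.1 mψ hl _ _).trans (by rw [k'.2, h.card])
    · intro w p q hw _ _ hc
      rw [lintegral_prod _ ((mF _).fun_mul (mF _)).aemeasurable]
      simp only [F, y, lv_smul, nsq_smul]
      exact dep_le b h hw hc R _ ht0 _
  rw [e0, (good_step b h).mean _ mψ, Finset.sum_range_succ, ← h.mean _ mψ,
    Finset.sum_Ico_succ_top hk]
  simp only [add_sq]
  rw [lintegral_add_right _ (mY.pow_const 2), lintegral_add_left (mS'.pow_const 2), e1, e2]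
  refine (add_le_add (add_le_add (hv R t l1 ht) le_rfl) e3).trans (le_of_eq ?_)
  ring

theorem var_mu4 (hm : ∀ j, j < 4 → MinN (b j).M) : Var b (I4 b) (mu4 b) 4 :=
  var_step b (by norm_num) (good_step b (good_step b (good_base b)))
    (var_step b (by norm_num) (good_step b (good_base b))
      (var_step b le_rfl (good_base b) (var_base b) (hm 1 (by norm_num))) (hm 2 (by norm_num)))
    (hm 3 (by norm_num))

theorem var_pt (f : ℝ≥0∞) {x m : ℝ≥0∞} (hx : x ≠ ⊤) (hm : m ≠ ⊤) :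
    (f + x - m) ^ 2 + (2 * m * f + 2 * x * m) ≤ f ^ 2 + (2 * x * f + (x ^ 2 + m ^ 2)) := by
  rcases eq_or_ne f ⊤ with rfl | hf
  · simp
  lift f to NNReal using hf
  lift x to NNReal using hx
  lift m to NNReal using hm
  norm_cast
  rw [← NNReal.coe_le_coe]
  rcases le_total m (f + x) with h | h
  · push_cast [NNReal.coe_sub h]
    exact le_of_eq (by ring)
  · rw [tsub_eq_zero_of_le h]
    push_cast
    nlinarith [sq_nonneg ((f : ℝ) + x - m)]

/-- the second moment of the positive part about a shifted centre -/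
theorem lintegral_sq_shift {Ω : Type} [MeasurableSpace Ω] (μ : Measure Ω) [IsProbabilityMeasure μ]
    {f : Ω → ℝ≥0∞} (hf : Measurable f) {m v w p x : ℝ≥0∞} (hm : ∫⁻ a, f a ∂μ = m) (hm' : m ≠ ⊤)
    (hv : ∫⁻ a, f a ^ 2 ∂μ ≤ m ^ 2 + v) (hx : m + w ≤ p + x) (hp : p ≠ ⊤) :
    ∫⁻ a, (f a + w - p) ^ 2 ∂μ ≤ v + x ^ 2 := by
  rcases eq_or_ne x ⊤ with rfl | hx'
  · simp
  have h1 : ∀ a, (f a + w - p) ^ 2 + (2 * m * f a + 2 * x * m) ≤
      f a ^ 2 + (2 * x * f a + (x ^ 2 + m ^ 2)) := fun a => by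
    refine le_trans (add_le_add (pow_le_pow_left' ?_ 2) le_rfl) (var_pt (f a) hx' hm')
    rw [tsub_le_iff_right, ← ENNReal.add_le_add_iff_right hm']
    calc f a + w + m = f a + (m + w) := by ring
      _ ≤ f a + (p + x) := add_le_add le_rfl hx
      _ = f a + x + p := by ring
      _ ≤ f a + x - m + m + p := add_le_add le_tsub_add le_rfl
      _ = f a + x - m + p + m := by ring
  have h2 := lintegral_mono (μ := μ) h1
  rw [lintegral_add_right _ ((hf.const_mul _).add_const _),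
    lintegral_add_right _ measurable_const, lintegral_add_left (hf.pow_const 2),
    lintegral_add_right _ measurable_const, lintegral_const_mul _ hf, lintegral_const_mul _ hf,
    lintegral_const, lintegral_const, hm, measure_univ, mul_one, mul_one] at h2
  have h3 : 2 * m * m + 2 * x * m ≠ ⊤ := by finiteness
  rw [← ENNReal.add_le_add_iff_right h3]
  refine h2.trans ((add_le_add hv le_rfl).trans (le_of_eq ?_))
  ring

end Pool.Agent.Eps.B
end
end

-- part Pool.Agent.Lib.MP_3bda03_nt.B.SideMean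
section

/-!
The mean of the test functional.
-/

set_option autoImplicit false

noncomputable section

open MeasureTheory Matrix Finset
open scoped ENNReal

namespace Pool.Agent.Eps.B

open Pool.Agent.Eps.H

theorem sideMean_meas {ι : Type} [Fintype ι] (c : ℝ) (n : ℕ) (R : ℝ) (γ β : ℕ → ℤ) :
    Measurable fun p : Matrix ι ι ℝ × ℝ =>
      geo β p.2 * (sn p.1 (ph R p.2) + geo γ p.2 - Pn c n p.2) ^ 2 * ENNReal.ofReal p.2⁻¹ :=
  (((measurable_geo β).comp measurable_snd).mul ((((measurable_sn_ph R).add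
    ((measurable_geo γ).comp measurable_snd)).sub
      ((measurable_snd.pow_const _).const_mul _).ennreal_ofReal).pow_const 2)).mul
    measurable_snd.inv.ennreal_ofReal

theorem sideMean_logb (y : ℝ) : Real.logb 2 (tt y) = y / 24 :=
  Real.logb_rpow two_pos (by norm_num)

theorem mf_Gam (c : ℝ) (n : ℕ) (R : ℝ) (M : ℕ) (γ β : ℕ → ℤ) : MF (Gam c n R M γ β) := by
  intro ι _
  exact ((sideMean_meas c n R γ β).lintegral_prod_right'.add
    ((measurable_sn (measurable_bi R)).div_const 2)).add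
    (((measurable_sn (measurable_ph R _)).const_mul _).const_mul 8)

theorem er_ne_top (b : ℕ → RB) (R : ℝ) (k l0 : ℕ) {t : ℝ} (ht : 0 < t) : er b R k l0 t ≠ ⊤ := by
  refine ENNReal.sum_ne_top.2 fun l _ => ?_
  split_ifs
  · exact ne_top_of_le_ne_top (ENNReal.mul_ne_top (PP_ne_top b l t) (vt_ne_top b l ht))
      (lay_ph_le b l R ht)
  · exact ENNReal.mul_ne_top (PP_ne_top b _ t) (vt_ne_top (fun j => (b j).dl) l (inv_pos.2 ht))

/-- the second moment at one point -/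
theorem point_mean (b : ℕ → RB) (hm : ∀ j, j < 4 → MinN (b j).M) (R : ℝ) {l0 : ℕ} (l1 : ℕ)
    (hl : l0 ≤ 4) {t : ℝ} (ht : 1 ≤ t) {w r : ℝ≥0∞}
    (hr : (w + er b R 4 l0 t) * (PP b l0 t)⁻¹ ≤ r) :
    ∫⁻ g, (sn g (ph R t) + w - PP b 4 t) ^ 2 ∂(mu4 b) ≤
      (∑ j ∈ Ico 1 4, VV b R l1 j t) + (r - 1) ^ 2 * PP b l0 t ^ 2 := by
  have ht0 : 0 < t := one_pos.trans_le ht
  have hg := good_mu4 b
  have := hg.prob
  have hmean := hg.mean _ (measurable_ph R t)
  rw [← mul_pow]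
  refine lintegral_sq_shift (mu4 b) (measurable_sn (measurable_ph R t)) rfl ?_
    (var_mu4 b hm R t l1 ht) ?_ (PP_ne_top b 4 t)
  · rw [hmean]
    exact ENNReal.sum_ne_top.2 fun l _ => ne_top_of_le_ne_top
      (ENNReal.mul_ne_top (PP_ne_top b l t) (vt_ne_top b l ht0)) (lay_ph_le b l R ht0)
  · have h1 : w + er b R 4 l0 t ≤ (r - 1) * PP b l0 t + PP b l0 t := by
      rw [← add_one_mul]
      calc w + er b R 4 l0 t = (w + er b R 4 l0 t) * (PP b l0 t)⁻¹ * PP b l0 t := by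
            rw [mul_assoc, ENNReal.inv_mul_cancel (PP_ne_zero b l0 ht0) (PP_ne_top b l0 t), mul_one]
        _ ≤ _ := mul_le_mul_left (hr.trans le_tsub_add) _
    rw [hmean, ← ENNReal.add_le_add_iff_right (PP_ne_top b l0 t), add_right_comm]
    calc _ ≤ PP b 4 t + er b R 4 l0 t + w := add_le_add_left (mean_le b R hl ht0) _
      _ = PP b 4 t + (w + er b R 4 l0 t) := by ring
      _ ≤ _ := by rw [add_assoc]; exact add_le_add_right h1 _

theorem sq_sub_one_le (A B : ℝ≥0∞) {η : ℝ} (h0 : 0 ≤ η) (h1 : η ≤ 1) :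
    (A ^ (1 - η) * B ^ η - 1) ^ 2 ≤
      ENNReal.ofReal (1 - η) * (A - 1) ^ 2 + ENNReal.ofReal η * (B - 1) ^ 2 := by
  have e : ENNReal.ofReal (1 - η) + ENNReal.ofReal η = 1 := by
    rw [← ENNReal.ofReal_add (sub_nonneg.2 h1) h0, sub_add_cancel, ENNReal.ofReal_one]
  have h := ENNReal.rpow_arith_mean_le_arith_mean2_rpow _ _ (A - 1) (B - 1) e (p := 2) one_le_two
  simp only [ENNReal.rpow_ofNat] at h
  refine (pow_le_pow_left' (tsub_le_iff_right.2 ((geo_le_lin A B h0 h1).trans ?_)) 2).trans h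
  calc _ ≤ ENNReal.ofReal (1 - η) * (A - 1 + 1) + ENNReal.ofReal η * (B - 1 + 1) :=
        add_le_add (mul_le_mul_right le_tsub_add _) (mul_le_mul_right le_tsub_add _)
    _ = _ := by rw [mul_add, mul_add, mul_one, mul_one, add_add_add_comm, e]

theorem side_mean (b : ℕ → RB) (hm : ∀ j, j < 4 → MinN (b j).M) (R : ℝ) (M : ℕ) (γ β : ℕ → ℤ)
    (l0 l1 : ℕ → ℕ) (vA vB rA rB pA pB : ℕ → ℝ≥0∞) (hl : ∀ m, m < M → l0 m ≤ 4)
    (hv : ∀ m : ℕ, m < M →
      GC m (fun t => geo β t * ∑ j ∈ Ico 1 4, VV b R (l1 m) j t) (vA m) (vB m))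
    (hr : ∀ m : ℕ, m < M →
      GC m (fun t => (geo γ t + er b R 4 (l0 m) t) * (PP b (l0 m) t)⁻¹) (rA m) (rB m))
    (hp : ∀ m : ℕ, m < M → GC m (fun t => geo β t * PP b (l0 m) t ^ 2) (pA m) (pB m)) :
    ∫⁻ g, Gam (cov b 4) (dm b 4) R M γ β (sn g) ∂(mu4 b) ≤
      hc * (∑ m ∈ range M, ((vA m + vB m) / 2 + ((rA m - 1) ^ 2 * (pA m / 3 + pB m / 6) +
        (rB m - 1) ^ 2 * (pA m / 6 + pB m / 3)))) +
      (∑ j ∈ range 4, lay b j (bi R)) / 2 +
      8 * ((PP b 4 (tt M))⁻¹ * ∑ j ∈ range 4, lay b j (ph R (tt M))) := by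
  have hg := good_mu4 b
  have := hg.prob
  have m1 := sideMean_meas (ι := I4 b) (cov b 4) (dm b 4) R γ β
  have m2 : Measurable fun g : Matrix (I4 b) (I4 b) ℝ => sn g (bi R) :=
    measurable_sn (measurable_bi R)
  have m3 : Measurable fun g : Matrix (I4 b) (I4 b) ℝ => sn g (ph R (tt M)) :=
    measurable_sn (measurable_ph R _)
  unfold Gam
  rw [lintegral_add_right _ ((m3.const_mul _).const_mul 8), lintegral_add_right _ (m2.div_const 2),
    lintegral_const_mul _ (m3.const_mul _), lintegral_const_mul _ m3,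
    hg.mean _ (measurable_ph R _)]
  simp only [div_eq_mul_inv (sn _ (bi R))]
  rw [lintegral_mul_const _ m2, hg.mean _ (measurable_bi R), ← div_eq_mul_inv,
    lintegral_lintegral_swap m1.aemeasurable, lintegral_cells, mul_sum (range M)]
  refine add_le_add (add_le_add (sum_le_sum fun m hM => ?_) le_rfl) le_rfl
  have hM' := mem_range.1 hM
  have m4 : Measurable fun t : ℝ => vA m ^ (1 - (24 * Real.logb 2 t - (m : ℤ))) *
      vB m ^ (24 * Real.logb 2 t - (m : ℤ)) := by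
    have : Measurable fun t : ℝ => 24 * Real.logb 2 t - (m : ℤ) :=
      ((Real.measurable_log.div_const _).const_mul 24).sub_const _
    exact (measurable_const.pow (this.const_sub 1)).mul (measurable_const.pow this)
  rw [mul_add]
  refine (setLIntegral_mono' (g := fun t => vA m ^ (1 - (24 * Real.logb 2 t - (m : ℤ))) *
      vB m ^ (24 * Real.logb 2 t - (m : ℤ)) * ENNReal.ofReal t⁻¹ +
      ((geo γ t + er b R 4 (l0 m) t) * (PP b (l0 m) t)⁻¹ - 1) ^ 2 *
        (geo β t * PP b (l0 m) t ^ 2) * ENNReal.ofReal t⁻¹) measurableSet_Ioc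
      fun t ht => ?_).trans ?_
  · have h1 : 1 ≤ t := by
      refine le_trans ?_ ht.1.le
      rw [← tt_zero]
      exact tt_mono (by positivity)
    have h0 : 0 < t := one_pos.trans_le h1
    have m5 : Measurable fun g : Matrix (I4 b) (I4 b) ℝ =>
        (sn g (ph R t) + geo γ t - Pn (cov b 4) (dm b 4) t) ^ 2 :=
      (((measurable_sn (measurable_ph R t)).add_const _).sub_const _).pow_const 2
    have k0 := Real.logb_le_logb_of_le one_lt_two (tt_pos _) ht.1.le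
    have k1 := Real.logb_le_logb_of_le one_lt_two h0 ht.2
    rw [sideMean_logb] at k0 k1
    have hv' := hv m hM' (24 * Real.logb 2 t - (m : ℤ)) (by linarith) (by linarith)
    have e : tt (((m : ℤ) : ℝ) + (24 * Real.logb 2 t - (m : ℤ))) = t := by
      rw [add_sub_cancel, tt, mul_div_cancel_left₀ _ (by norm_num),
        Real.rpow_logb two_pos (by norm_num) h0]
    rw [e] at hv'
    rw [lintegral_mul_const _ (m5.const_mul _), lintegral_const_mul _ m5, ← add_mul]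
    refine mul_le_mul_left ((mul_le_mul_right (point_mean b hm R (l1 m) (hl m hM') h1 le_rfl)
      _).trans ?_) _
    rw [mul_add]
    exact add_le_add hv' (le_of_eq (by ring))
  · refine (lintegral_add_left (m4.mul measurable_inv.ennreal_ofReal) _).le.trans ?_
    refine add_le_add (GC.lintegral_le (f := fun t => vA m ^ (1 - (24 * Real.logb 2 t - (m : ℤ))) *
      vB m ^ (24 * Real.logb 2 t - (m : ℤ))) fun η _ _ => le_of_eq ?_) (lintegral_cell_le _
      fun η h0 h1 => mul_le_mul' ((pow_le_pow_left' (tsub_le_tsub_right (hr m hM' η h0 h1) 1)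
        2).trans (sq_sub_one_le _ _ h0 h1)) (hp m hM' η h0 h1))
    have e : 24 * Real.logb 2 (tt (((m : ℤ) : ℝ) + η)) - (m : ℤ) = η := by
      rw [sideMean_logb]; ring
    simp only [e]

end Pool.Agent.Eps.B
end
end
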