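import Pool.Agent.Lib.MP_3bda03_nt.B.Snd
import Pool.Agent.Lib.MP_3bda03_nt.B.BKs
import Pool.Agent.Lib.MP_3bda03_nt.B.KN0
import Pool.Agent.Lib.MP_3bda03_nt.B.KN1
import Pool.Agent.Lib.MP_3bda03_nt.B.KN2
import Pool.Agent.Lib.MP_3bda03_nt.B.KN3
import Pool.Agent.Lib.MP_3bda03_nt.B.KN4
import Pool.Agent.Lib.MP_3bda03_nt.B.KN5
import Pool.Agent.Lib.MP_3bda03_nt.B.KN6
import Pool.Agent.Lib.MP_3bda03_nt.B.KN7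
import Pool.Agent.Lib.MP_3bda03_nt.B.KN8
import Pool.Agent.Lib.MP_3bda03_nt.B.KN9
import Pool.Agent.Lib.MP_3bda03_nt.B.KN10
import Pool.Agent.Lib.MP_3bda03_nt.B.KN11

/-!
All dimensions up to 96.
-/

set_option autoImplicit false

namespace Pool.Agent.Eps.B

open Pool.Agent.Eps.H

theorem goal1 : Goal 1 :=
  goal_of_check bkZ bkE bkE bkE
    ⟨rfl, rfl, rfl, rfl, rfl, rfl, rfl⟩ ⟨rfl, rfl, rfl, rfl, rfl, rfl, rfl⟩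
    ⟨rfl, rfl, rfl, rfl, rfl, rfl, rfl⟩ ⟨rfl, rfl, rfl, rfl, rfl, rfl, rfl⟩
    (by decide) chk1

theorem goal2 : Goal 2 :=
  goal_of_check bkD2 bkE bkE bkE
    ⟨rfl, rfl, rfl, rfl, rfl, rfl, rfl⟩ ⟨rfl, rfl, rfl, rfl, rfl, rfl, rfl⟩
    ⟨rfl, rfl, rfl, rfl, rfl, rfl, rfl⟩ ⟨rfl, rfl, rfl, rfl, rfl, rfl, rfl⟩
    (by decide) chk2

theorem goal3 : Goal 3 :=
  goal_of_check bkD3 bkE bkE bkE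
    ⟨rfl, rfl, rfl, rfl, rfl, rfl, rfl⟩ ⟨rfl, rfl, rfl, rfl, rfl, rfl, rfl⟩
    ⟨rfl, rfl, rfl, rfl, rfl, rfl, rfl⟩ ⟨rfl, rfl, rfl, rfl, rfl, rfl, rfl⟩
    (by decide) chk3

theorem goal4 : Goal 4 :=
  goal_of_check bkD4 bkE bkE bkE
    ⟨rfl, rfl, rfl, rfl, rfl, rfl, rfl⟩ ⟨rfl, rfl, rfl, rfl, rfl, rfl, rfl⟩
    ⟨rfl, rfl, rfl, rfl, rfl, rfl, rfl⟩ ⟨rfl, rfl, rfl, rfl, rfl, rfl, rfl⟩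
    (by decide) chk4

theorem goal5 : Goal 5 :=
  goal_of_check bkD5 bkE bkE bkE
    ⟨rfl, rfl, rfl, rfl, rfl, rfl, rfl⟩ ⟨rfl, rfl, rfl, rfl, rfl, rfl, rfl⟩
    ⟨rfl, rfl, rfl, rfl, rfl, rfl, rfl⟩ ⟨rfl, rfl, rfl, rfl, rfl, rfl, rfl⟩
    (by decide) chk5

theorem goal6 : Goal 6 :=
  goal_of_check bkD6 bkE bkE bkE
    ⟨rfl, rfl, rfl, rfl, rfl, rfl, rfl⟩ ⟨rfl, rfl, rfl, rfl, rfl, rfl, rfl⟩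
    ⟨rfl, rfl, rfl, rfl, rfl, rfl, rfl⟩ ⟨rfl, rfl, rfl, rfl, rfl, rfl, rfl⟩
    (by decide) chk6

theorem goal7 : Goal 7 :=
  goal_of_check bkD7 bkE bkE bkE
    ⟨rfl, rfl, rfl, rfl, rfl, rfl, rfl⟩ ⟨rfl, rfl, rfl, rfl, rfl, rfl, rfl⟩
    ⟨rfl, rfl, rfl, rfl, rfl, rfl, rfl⟩ ⟨rfl, rfl, rfl, rfl, rfl, rfl, rfl⟩
    (by decide) chk7

theorem goal8 : Goal 8 :=
  goal_of_check bkE8 bkE bkE bkE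
    ⟨rfl, rfl, rfl, rfl, rfl, rfl, rfl⟩ ⟨rfl, rfl, rfl, rfl, rfl, rfl, rfl⟩
    ⟨rfl, rfl, rfl, rfl, rfl, rfl, rfl⟩ ⟨rfl, rfl, rfl, rfl, rfl, rfl, rfl⟩
    (by decide) chk8

theorem goal9 : Goal 9 :=
  goal_of_check bkZ bkE bkE bkE8
    ⟨rfl, rfl, rfl, rfl, rfl, rfl, rfl⟩ ⟨rfl, rfl, rfl, rfl, rfl, rfl, rfl⟩
    ⟨rfl, rfl, rfl, rfl, rfl, rfl, rfl⟩ ⟨rfl, rfl, rfl, rfl, rfl, rfl, rfl⟩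
    (by decide) chk9

theorem goal10 : Goal 10 :=
  goal_of_check bkD2 bkE bkE bkE8
    ⟨rfl, rfl, rfl, rfl, rfl, rfl, rfl⟩ ⟨rfl, rfl, rfl, rfl, rfl, rfl, rfl⟩
    ⟨rfl, rfl, rfl, rfl, rfl, rfl, rfl⟩ ⟨rfl, rfl, rfl, rfl, rfl, rfl, rfl⟩
    (by decide) chk10

theorem goal11 : Goal 11 :=
  goal_of_check bkD3 bkE bkE bkE8
    ⟨rfl, rfl, rfl, rfl, rfl, rfl, rfl⟩ ⟨rfl, rfl, rfl, rfl, rfl, rfl, rfl⟩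
    ⟨rfl, rfl, rfl, rfl, rfl, rfl, rfl⟩ ⟨rfl, rfl, rfl, rfl, rfl, rfl, rfl⟩
    (by decide) chk11

theorem goal12 : Goal 12 :=
  goal_of_check bkD4 bkE bkE bkE8
    ⟨rfl, rfl, rfl, rfl, rfl, rfl, rfl⟩ ⟨rfl, rfl, rfl, rfl, rfl, rfl, rfl⟩
    ⟨rfl, rfl, rfl, rfl, rfl, rfl, rfl⟩ ⟨rfl, rfl, rfl, rfl, rfl, rfl, rfl⟩
    (by decide) chk12

theorem goal13 : Goal 13 :=
  goal_of_check bkD5 bkE bkE bkE8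
    ⟨rfl, rfl, rfl, rfl, rfl, rfl, rfl⟩ ⟨rfl, rfl, rfl, rfl, rfl, rfl, rfl⟩
    ⟨rfl, rfl, rfl, rfl, rfl, rfl, rfl⟩ ⟨rfl, rfl, rfl, rfl, rfl, rfl, rfl⟩
    (by decide) chk13

theorem goal14 : Goal 14 :=
  goal_of_check bkD6 bkE bkE bkE8
    ⟨rfl, rfl, rfl, rfl, rfl, rfl, rfl⟩ ⟨rfl, rfl, rfl, rfl, rfl, rfl, rfl⟩
    ⟨rfl, rfl, rfl, rfl, rfl, rfl, rfl⟩ ⟨rfl, rfl, rfl, rfl, rfl, rfl, rfl⟩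
    (by decide) chk14

theorem goal15 : Goal 15 :=
  goal_of_check bkD7 bkE bkE bkE8
    ⟨rfl, rfl, rfl, rfl, rfl, rfl, rfl⟩ ⟨rfl, rfl, rfl, rfl, rfl, rfl, rfl⟩
    ⟨rfl, rfl, rfl, rfl, rfl, rfl, rfl⟩ ⟨rfl, rfl, rfl, rfl, rfl, rfl, rfl⟩
    (by decide) chk15

theorem goal16 : Goal 16 :=
  goal_of_check bkS16 bkE bkE bkE
    ⟨rfl, rfl, rfl, rfl, rfl, rfl, rfl⟩ ⟨rfl, rfl, rfl, rfl, rfl, rfl, rfl⟩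
    ⟨rfl, rfl, rfl, rfl, rfl, rfl, rfl⟩ ⟨rfl, rfl, rfl, rfl, rfl, rfl, rfl⟩
    (by decide) chk16

theorem goal17 : Goal 17 :=
  goal_of_check bkL17 bkE bkE bkE
    ⟨rfl, rfl, rfl, rfl, rfl, rfl, rfl⟩ ⟨rfl, rfl, rfl, rfl, rfl, rfl, rfl⟩
    ⟨rfl, rfl, rfl, rfl, rfl, rfl, rfl⟩ ⟨rfl, rfl, rfl, rfl, rfl, rfl, rfl⟩
    (by decide) chk17

theorem goal18 : Goal 18 :=
  goal_of_check bkS18 bkE bkE bkE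
    ⟨rfl, rfl, rfl, rfl, rfl, rfl, rfl⟩ ⟨rfl, rfl, rfl, rfl, rfl, rfl, rfl⟩
    ⟨rfl, rfl, rfl, rfl, rfl, rfl, rfl⟩ ⟨rfl, rfl, rfl, rfl, rfl, rfl, rfl⟩
    (by decide) chk18

theorem goal19 : Goal 19 :=
  goal_of_check bkS19 bkE bkE bkE
    ⟨rfl, rfl, rfl, rfl, rfl, rfl, rfl⟩ ⟨rfl, rfl, rfl, rfl, rfl, rfl, rfl⟩
    ⟨rfl, rfl, rfl, rfl, rfl, rfl, rfl⟩ ⟨rfl, rfl, rfl, rfl, rfl, rfl, rfl⟩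
    (by decide) chk19

theorem goal20 : Goal 20 :=
  goal_of_check bkS20 bkE bkE bkE
    ⟨rfl, rfl, rfl, rfl, rfl, rfl, rfl⟩ ⟨rfl, rfl, rfl, rfl, rfl, rfl, rfl⟩
    ⟨rfl, rfl, rfl, rfl, rfl, rfl, rfl⟩ ⟨rfl, rfl, rfl, rfl, rfl, rfl, rfl⟩
    (by decide) chk20

theorem goal21 : Goal 21 :=
  goal_of_check bkS21 bkE bkE bkE
    ⟨rfl, rfl, rfl, rfl, rfl, rfl, rfl⟩ ⟨rfl, rfl, rfl, rfl, rfl, rfl, rfl⟩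
    ⟨rfl, rfl, rfl, rfl, rfl, rfl, rfl⟩ ⟨rfl, rfl, rfl, rfl, rfl, rfl, rfl⟩
    (by decide) chk21

theorem goal22 : Goal 22 :=
  goal_of_check bkS22 bkE bkE bkE
    ⟨rfl, rfl, rfl, rfl, rfl, rfl, rfl⟩ ⟨rfl, rfl, rfl, rfl, rfl, rfl, rfl⟩
    ⟨rfl, rfl, rfl, rfl, rfl, rfl, rfl⟩ ⟨rfl, rfl, rfl, rfl, rfl, rfl, rfl⟩
    (by decide) chk22

theorem goal23 : Goal 23 :=
  goal_of_check bkS23 bkE bkE bkE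
    ⟨rfl, rfl, rfl, rfl, rfl, rfl, rfl⟩ ⟨rfl, rfl, rfl, rfl, rfl, rfl, rfl⟩
    ⟨rfl, rfl, rfl, rfl, rfl, rfl, rfl⟩ ⟨rfl, rfl, rfl, rfl, rfl, rfl, rfl⟩
    (by decide) chk23

theorem goal24 : Goal 24 :=
  goal_of_check bkL24 bkE bkE bkE
    ⟨rfl, rfl, rfl, rfl, rfl, rfl, rfl⟩ ⟨rfl, rfl, rfl, rfl, rfl, rfl, rfl⟩
    ⟨rfl, rfl, rfl, rfl, rfl, rfl, rfl⟩ ⟨rfl, rfl, rfl, rfl, rfl, rfl, rfl⟩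
    (by decide) chk24

theorem goal25 : Goal 25 :=
  goal_of_check bkZ bkE bkE bkL24
    ⟨rfl, rfl, rfl, rfl, rfl, rfl, rfl⟩ ⟨rfl, rfl, rfl, rfl, rfl, rfl, rfl⟩
    ⟨rfl, rfl, rfl, rfl, rfl, rfl, rfl⟩ ⟨rfl, rfl, rfl, rfl, rfl, rfl, rfl⟩
    (by decide) chk25

theorem goal26 : Goal 26 :=
  goal_of_check bkD2 bkE bkE bkL24
    ⟨rfl, rfl, rfl, rfl, rfl, rfl, rfl⟩ ⟨rfl, rfl, rfl, rfl, rfl, rfl, rfl⟩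
    ⟨rfl, rfl, rfl, rfl, rfl, rfl, rfl⟩ ⟨rfl, rfl, rfl, rfl, rfl, rfl, rfl⟩
    (by decide) chk26

theorem goal27 : Goal 27 :=
  goal_of_check bkD3 bkE bkE bkL24
    ⟨rfl, rfl, rfl, rfl, rfl, rfl, rfl⟩ ⟨rfl, rfl, rfl, rfl, rfl, rfl, rfl⟩
    ⟨rfl, rfl, rfl, rfl, rfl, rfl, rfl⟩ ⟨rfl, rfl, rfl, rfl, rfl, rfl, rfl⟩
    (by decide) chk27

theorem goal28 : Goal 28 :=
  goal_of_check bkD4 bkE bkE bkL24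
    ⟨rfl, rfl, rfl, rfl, rfl, rfl, rfl⟩ ⟨rfl, rfl, rfl, rfl, rfl, rfl, rfl⟩
    ⟨rfl, rfl, rfl, rfl, rfl, rfl, rfl⟩ ⟨rfl, rfl, rfl, rfl, rfl, rfl, rfl⟩
    (by decide) chk28

theorem goal29 : Goal 29 :=
  goal_of_check bkD5 bkE bkE bkL24
    ⟨rfl, rfl, rfl, rfl, rfl, rfl, rfl⟩ ⟨rfl, rfl, rfl, rfl, rfl, rfl, rfl⟩
    ⟨rfl, rfl, rfl, rfl, rfl, rfl, rfl⟩ ⟨rfl, rfl, rfl, rfl, rfl, rfl, rfl⟩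
    (by decide) chk29

theorem goal30 : Goal 30 :=
  goal_of_check bkD6 bkE bkE bkL24
    ⟨rfl, rfl, rfl, rfl, rfl, rfl, rfl⟩ ⟨rfl, rfl, rfl, rfl, rfl, rfl, rfl⟩
    ⟨rfl, rfl, rfl, rfl, rfl, rfl, rfl⟩ ⟨rfl, rfl, rfl, rfl, rfl, rfl, rfl⟩
    (by decide) chk30

theorem goal31 : Goal 31 :=
  goal_of_check bkD7 bkE bkE bkL24
    ⟨rfl, rfl, rfl, rfl, rfl, rfl, rfl⟩ ⟨rfl, rfl, rfl, rfl, rfl, rfl, rfl⟩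
    ⟨rfl, rfl, rfl, rfl, rfl, rfl, rfl⟩ ⟨rfl, rfl, rfl, rfl, rfl, rfl, rfl⟩
    (by decide) chk31

theorem goal32 : Goal 32 :=
  goal_of_check bkE8 bkE bkE bkL24
    ⟨rfl, rfl, rfl, rfl, rfl, rfl, rfl⟩ ⟨rfl, rfl, rfl, rfl, rfl, rfl, rfl⟩
    ⟨rfl, rfl, rfl, rfl, rfl, rfl, rfl⟩ ⟨rfl, rfl, rfl, rfl, rfl, rfl, rfl⟩
    (by decide) chk32

theorem goal33 : Goal 33 :=
  goal_of_check bkL17 bkE bkE bkS16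
    ⟨rfl, rfl, rfl, rfl, rfl, rfl, rfl⟩ ⟨rfl, rfl, rfl, rfl, rfl, rfl, rfl⟩
    ⟨rfl, rfl, rfl, rfl, rfl, rfl, rfl⟩ ⟨rfl, rfl, rfl, rfl, rfl, rfl, rfl⟩
    (by decide) chk33

theorem goal34 : Goal 34 :=
  goal_of_check bkS18 bkE bkE bkS16
    ⟨rfl, rfl, rfl, rfl, rfl, rfl, rfl⟩ ⟨rfl, rfl, rfl, rfl, rfl, rfl, rfl⟩
    ⟨rfl, rfl, rfl, rfl, rfl, rfl, rfl⟩ ⟨rfl, rfl, rfl, rfl, rfl, rfl, rfl⟩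
    (by decide) chk34

theorem goal35 : Goal 35 :=
  goal_of_check bkS19 bkE bkE bkS16
    ⟨rfl, rfl, rfl, rfl, rfl, rfl, rfl⟩ ⟨rfl, rfl, rfl, rfl, rfl, rfl, rfl⟩
    ⟨rfl, rfl, rfl, rfl, rfl, rfl, rfl⟩ ⟨rfl, rfl, rfl, rfl, rfl, rfl, rfl⟩
    (by decide) chk35

theorem goal36 : Goal 36 :=
  goal_of_check bkS20 bkE bkE bkS16
    ⟨rfl, rfl, rfl, rfl, rfl, rfl, rfl⟩ ⟨rfl, rfl, rfl, rfl, rfl, rfl, rfl⟩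
    ⟨rfl, rfl, rfl, rfl, rfl, rfl, rfl⟩ ⟨rfl, rfl, rfl, rfl, rfl, rfl, rfl⟩
    (by decide) chk36

theorem goal37 : Goal 37 :=
  goal_of_check bkS21 bkE bkE bkS16
    ⟨rfl, rfl, rfl, rfl, rfl, rfl, rfl⟩ ⟨rfl, rfl, rfl, rfl, rfl, rfl, rfl⟩
    ⟨rfl, rfl, rfl, rfl, rfl, rfl, rfl⟩ ⟨rfl, rfl, rfl, rfl, rfl, rfl, rfl⟩
    (by decide) chk37

theorem goal38 : Goal 38 :=
  goal_of_check bkS22 bkE bkE bkS16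
    ⟨rfl, rfl, rfl, rfl, rfl, rfl, rfl⟩ ⟨rfl, rfl, rfl, rfl, rfl, rfl, rfl⟩
    ⟨rfl, rfl, rfl, rfl, rfl, rfl, rfl⟩ ⟨rfl, rfl, rfl, rfl, rfl, rfl, rfl⟩
    (by decide) chk38

theorem goal39 : Goal 39 :=
  goal_of_check bkS23 bkE bkE bkS16
    ⟨rfl, rfl, rfl, rfl, rfl, rfl, rfl⟩ ⟨rfl, rfl, rfl, rfl, rfl, rfl, rfl⟩
    ⟨rfl, rfl, rfl, rfl, rfl, rfl, rfl⟩ ⟨rfl, rfl, rfl, rfl, rfl, rfl, rfl⟩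
    (by decide) chk39

theorem goal40 : Goal 40 :=
  goal_of_check bkS16 bkE bkE bkL24
    ⟨rfl, rfl, rfl, rfl, rfl, rfl, rfl⟩ ⟨rfl, rfl, rfl, rfl, rfl, rfl, rfl⟩
    ⟨rfl, rfl, rfl, rfl, rfl, rfl, rfl⟩ ⟨rfl, rfl, rfl, rfl, rfl, rfl, rfl⟩
    (by decide) chk40

theorem goal41 : Goal 41 :=
  goal_of_check bkL17 bkE bkE bkL24
    ⟨rfl, rfl, rfl, rfl, rfl, rfl, rfl⟩ ⟨rfl, rfl, rfl, rfl, rfl, rfl, rfl⟩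
    ⟨rfl, rfl, rfl, rfl, rfl, rfl, rfl⟩ ⟨rfl, rfl, rfl, rfl, rfl, rfl, rfl⟩
    (by decide) chk41

theorem goal42 : Goal 42 :=
  goal_of_check bkS18 bkE bkE bkL24
    ⟨rfl, rfl, rfl, rfl, rfl, rfl, rfl⟩ ⟨rfl, rfl, rfl, rfl, rfl, rfl, rfl⟩
    ⟨rfl, rfl, rfl, rfl, rfl, rfl, rfl⟩ ⟨rfl, rfl, rfl, rfl, rfl, rfl, rfl⟩
    (by decide) chk42

theorem goal43 : Goal 43 :=
  goal_of_check bkS19 bkE bkE bkL24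
    ⟨rfl, rfl, rfl, rfl, rfl, rfl, rfl⟩ ⟨rfl, rfl, rfl, rfl, rfl, rfl, rfl⟩
    ⟨rfl, rfl, rfl, rfl, rfl, rfl, rfl⟩ ⟨rfl, rfl, rfl, rfl, rfl, rfl, rfl⟩
    (by decide) chk43

theorem goal44 : Goal 44 :=
  goal_of_check bkS20 bkE bkE bkL24
    ⟨rfl, rfl, rfl, rfl, rfl, rfl, rfl⟩ ⟨rfl, rfl, rfl, rfl, rfl, rfl, rfl⟩
    ⟨rfl, rfl, rfl, rfl, rfl, rfl, rfl⟩ ⟨rfl, rfl, rfl, rfl, rfl, rfl, rfl⟩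
    (by decide) chk44

theorem goal45 : Goal 45 :=
  goal_of_check bkS21 bkE bkE bkL24
    ⟨rfl, rfl, rfl, rfl, rfl, rfl, rfl⟩ ⟨rfl, rfl, rfl, rfl, rfl, rfl, rfl⟩
    ⟨rfl, rfl, rfl, rfl, rfl, rfl, rfl⟩ ⟨rfl, rfl, rfl, rfl, rfl, rfl, rfl⟩
    (by decide) chk45

theorem goal46 : Goal 46 :=
  goal_of_check bkS22 bkE bkE bkL24
    ⟨rfl, rfl, rfl, rfl, rfl, rfl, rfl⟩ ⟨rfl, rfl, rfl, rfl, rfl, rfl, rfl⟩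
    ⟨rfl, rfl, rfl, rfl, rfl, rfl, rfl⟩ ⟨rfl, rfl, rfl, rfl, rfl, rfl, rfl⟩
    (by decide) chk46

theorem goal47 : Goal 47 :=
  goal_of_check bkS23 bkE bkE bkL24
    ⟨rfl, rfl, rfl, rfl, rfl, rfl, rfl⟩ ⟨rfl, rfl, rfl, rfl, rfl, rfl, rfl⟩
    ⟨rfl, rfl, rfl, rfl, rfl, rfl, rfl⟩ ⟨rfl, rfl, rfl, rfl, rfl, rfl, rfl⟩
    (by decide) chk47

theorem goal48 : Goal 48 :=
  goal_of_check bkL24 bkE bkE bkL24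
    ⟨rfl, rfl, rfl, rfl, rfl, rfl, rfl⟩ ⟨rfl, rfl, rfl, rfl, rfl, rfl, rfl⟩
    ⟨rfl, rfl, rfl, rfl, rfl, rfl, rfl⟩ ⟨rfl, rfl, rfl, rfl, rfl, rfl, rfl⟩
    (by decide) chk48

theorem goal49 : Goal 49 :=
  goal_of_check bkZ bkE bkL24 bkL24
    ⟨rfl, rfl, rfl, rfl, rfl, rfl, rfl⟩ ⟨rfl, rfl, rfl, rfl, rfl, rfl, rfl⟩
    ⟨rfl, rfl, rfl, rfl, rfl, rfl, rfl⟩ ⟨rfl, rfl, rfl, rfl, rfl, rfl, rfl⟩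
    (by decide) chk49

theorem goal50 : Goal 50 :=
  goal_of_check bkD2 bkE bkL24 bkL24
    ⟨rfl, rfl, rfl, rfl, rfl, rfl, rfl⟩ ⟨rfl, rfl, rfl, rfl, rfl, rfl, rfl⟩
    ⟨rfl, rfl, rfl, rfl, rfl, rfl, rfl⟩ ⟨rfl, rfl, rfl, rfl, rfl, rfl, rfl⟩
    (by decide) chk50

theorem goal51 : Goal 51 :=
  goal_of_check bkD3 bkE bkL24 bkL24
    ⟨rfl, rfl, rfl, rfl, rfl, rfl, rfl⟩ ⟨rfl, rfl, rfl, rfl, rfl, rfl, rfl⟩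
    ⟨rfl, rfl, rfl, rfl, rfl, rfl, rfl⟩ ⟨rfl, rfl, rfl, rfl, rfl, rfl, rfl⟩
    (by decide) chk51

theorem goal52 : Goal 52 :=
  goal_of_check bkD4 bkE bkL24 bkL24
    ⟨rfl, rfl, rfl, rfl, rfl, rfl, rfl⟩ ⟨rfl, rfl, rfl, rfl, rfl, rfl, rfl⟩
    ⟨rfl, rfl, rfl, rfl, rfl, rfl, rfl⟩ ⟨rfl, rfl, rfl, rfl, rfl, rfl, rfl⟩
    (by decide) chk52

theorem goal53 : Goal 53 :=
  goal_of_check bkD5 bkE bkL24 bkL24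
    ⟨rfl, rfl, rfl, rfl, rfl, rfl, rfl⟩ ⟨rfl, rfl, rfl, rfl, rfl, rfl, rfl⟩
    ⟨rfl, rfl, rfl, rfl, rfl, rfl, rfl⟩ ⟨rfl, rfl, rfl, rfl, rfl, rfl, rfl⟩
    (by decide) chk53

theorem goal54 : Goal 54 :=
  goal_of_check bkD6 bkE bkL24 bkL24
    ⟨rfl, rfl, rfl, rfl, rfl, rfl, rfl⟩ ⟨rfl, rfl, rfl, rfl, rfl, rfl, rfl⟩
    ⟨rfl, rfl, rfl, rfl, rfl, rfl, rfl⟩ ⟨rfl, rfl, rfl, rfl, rfl, rfl, rfl⟩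
    (by decide) chk54

theorem goal55 : Goal 55 :=
  goal_of_check bkD7 bkE bkL24 bkL24
    ⟨rfl, rfl, rfl, rfl, rfl, rfl, rfl⟩ ⟨rfl, rfl, rfl, rfl, rfl, rfl, rfl⟩
    ⟨rfl, rfl, rfl, rfl, rfl, rfl, rfl⟩ ⟨rfl, rfl, rfl, rfl, rfl, rfl, rfl⟩
    (by decide) chk55

theorem goal56 : Goal 56 :=
  goal_of_check bkE8 bkE bkL24 bkL24
    ⟨rfl, rfl, rfl, rfl, rfl, rfl, rfl⟩ ⟨rfl, rfl, rfl, rfl, rfl, rfl, rfl⟩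
    ⟨rfl, rfl, rfl, rfl, rfl, rfl, rfl⟩ ⟨rfl, rfl, rfl, rfl, rfl, rfl, rfl⟩
    (by decide) chk56

theorem goal57 : Goal 57 :=
  goal_of_check bkL17 bkE bkL24 bkS16
    ⟨rfl, rfl, rfl, rfl, rfl, rfl, rfl⟩ ⟨rfl, rfl, rfl, rfl, rfl, rfl, rfl⟩
    ⟨rfl, rfl, rfl, rfl, rfl, rfl, rfl⟩ ⟨rfl, rfl, rfl, rfl, rfl, rfl, rfl⟩
    (by decide) chk57

theorem goal58 : Goal 58 :=
  goal_of_check bkS18 bkE bkL24 bkS16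
    ⟨rfl, rfl, rfl, rfl, rfl, rfl, rfl⟩ ⟨rfl, rfl, rfl, rfl, rfl, rfl, rfl⟩
    ⟨rfl, rfl, rfl, rfl, rfl, rfl, rfl⟩ ⟨rfl, rfl, rfl, rfl, rfl, rfl, rfl⟩
    (by decide) chk58

theorem goal59 : Goal 59 :=
  goal_of_check bkS19 bkE bkL24 bkS16
    ⟨rfl, rfl, rfl, rfl, rfl, rfl, rfl⟩ ⟨rfl, rfl, rfl, rfl, rfl, rfl, rfl⟩
    ⟨rfl, rfl, rfl, rfl, rfl, rfl, rfl⟩ ⟨rfl, rfl, rfl, rfl, rfl, rfl, rfl⟩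
    (by decide) chk59

theorem goal60 : Goal 60 :=
  goal_of_check bkS20 bkE bkL24 bkS16
    ⟨rfl, rfl, rfl, rfl, rfl, rfl, rfl⟩ ⟨rfl, rfl, rfl, rfl, rfl, rfl, rfl⟩
    ⟨rfl, rfl, rfl, rfl, rfl, rfl, rfl⟩ ⟨rfl, rfl, rfl, rfl, rfl, rfl, rfl⟩
    (by decide) chk60

theorem goal61 : Goal 61 :=
  goal_of_check bkS21 bkE bkL24 bkS16
    ⟨rfl, rfl, rfl, rfl, rfl, rfl, rfl⟩ ⟨rfl, rfl, rfl, rfl, rfl, rfl, rfl⟩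
    ⟨rfl, rfl, rfl, rfl, rfl, rfl, rfl⟩ ⟨rfl, rfl, rfl, rfl, rfl, rfl, rfl⟩
    (by decide) chk61

theorem goal62 : Goal 62 :=
  goal_of_check bkS22 bkE bkL24 bkS16
    ⟨rfl, rfl, rfl, rfl, rfl, rfl, rfl⟩ ⟨rfl, rfl, rfl, rfl, rfl, rfl, rfl⟩
    ⟨rfl, rfl, rfl, rfl, rfl, rfl, rfl⟩ ⟨rfl, rfl, rfl, rfl, rfl, rfl, rfl⟩
    (by decide) chk62

theorem goal63 : Goal 63 :=
  goal_of_check bkS23 bkE bkL24 bkS16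
    ⟨rfl, rfl, rfl, rfl, rfl, rfl, rfl⟩ ⟨rfl, rfl, rfl, rfl, rfl, rfl, rfl⟩
    ⟨rfl, rfl, rfl, rfl, rfl, rfl, rfl⟩ ⟨rfl, rfl, rfl, rfl, rfl, rfl, rfl⟩
    (by decide) chk63

theorem goal64 : Goal 64 :=
  goal_of_check bkS16 bkE bkL24 bkL24
    ⟨rfl, rfl, rfl, rfl, rfl, rfl, rfl⟩ ⟨rfl, rfl, rfl, rfl, rfl, rfl, rfl⟩
    ⟨rfl, rfl, rfl, rfl, rfl, rfl, rfl⟩ ⟨rfl, rfl, rfl, rfl, rfl, rfl, rfl⟩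
    (by decide) chk64

theorem goal65 : Goal 65 :=
  goal_of_check bkL17 bkE bkL24 bkL24
    ⟨rfl, rfl, rfl, rfl, rfl, rfl, rfl⟩ ⟨rfl, rfl, rfl, rfl, rfl, rfl, rfl⟩
    ⟨rfl, rfl, rfl, rfl, rfl, rfl, rfl⟩ ⟨rfl, rfl, rfl, rfl, rfl, rfl, rfl⟩
    (by decide) chk65

theorem goal66 : Goal 66 :=
  goal_of_check bkS18 bkE bkL24 bkL24
    ⟨rfl, rfl, rfl, rfl, rfl, rfl, rfl⟩ ⟨rfl, rfl, rfl, rfl, rfl, rfl, rfl⟩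
    ⟨rfl, rfl, rfl, rfl, rfl, rfl, rfl⟩ ⟨rfl, rfl, rfl, rfl, rfl, rfl, rfl⟩
    (by decide) chk66

theorem goal67 : Goal 67 :=
  goal_of_check bkS19 bkE bkL24 bkL24
    ⟨rfl, rfl, rfl, rfl, rfl, rfl, rfl⟩ ⟨rfl, rfl, rfl, rfl, rfl, rfl, rfl⟩
    ⟨rfl, rfl, rfl, rfl, rfl, rfl, rfl⟩ ⟨rfl, rfl, rfl, rfl, rfl, rfl, rfl⟩
    (by decide) chk67

theorem goal68 : Goal 68 :=
  goal_of_check bkS20 bkE bkL24 bkL24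
    ⟨rfl, rfl, rfl, rfl, rfl, rfl, rfl⟩ ⟨rfl, rfl, rfl, rfl, rfl, rfl, rfl⟩
    ⟨rfl, rfl, rfl, rfl, rfl, rfl, rfl⟩ ⟨rfl, rfl, rfl, rfl, rfl, rfl, rfl⟩
    (by decide) chk68

theorem goal69 : Goal 69 :=
  goal_of_check bkS21 bkE bkL24 bkL24
    ⟨rfl, rfl, rfl, rfl, rfl, rfl, rfl⟩ ⟨rfl, rfl, rfl, rfl, rfl, rfl, rfl⟩
    ⟨rfl, rfl, rfl, rfl, rfl, rfl, rfl⟩ ⟨rfl, rfl, rfl, rfl, rfl, rfl, rfl⟩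
    (by decide) chk69

theorem goal70 : Goal 70 :=
  goal_of_check bkS22 bkE bkL24 bkL24
    ⟨rfl, rfl, rfl, rfl, rfl, rfl, rfl⟩ ⟨rfl, rfl, rfl, rfl, rfl, rfl, rfl⟩
    ⟨rfl, rfl, rfl, rfl, rfl, rfl, rfl⟩ ⟨rfl, rfl, rfl, rfl, rfl, rfl, rfl⟩
    (by decide) chk70

theorem goal71 : Goal 71 :=
  goal_of_check bkS23 bkE bkL24 bkL24
    ⟨rfl, rfl, rfl, rfl, rfl, rfl, rfl⟩ ⟨rfl, rfl, rfl, rfl, rfl, rfl, rfl⟩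
    ⟨rfl, rfl, rfl, rfl, rfl, rfl, rfl⟩ ⟨rfl, rfl, rfl, rfl, rfl, rfl, rfl⟩
    (by decide) chk71

theorem goal72 : Goal 72 :=
  goal_of_check bkL24 bkE bkL24 bkL24
    ⟨rfl, rfl, rfl, rfl, rfl, rfl, rfl⟩ ⟨rfl, rfl, rfl, rfl, rfl, rfl, rfl⟩
    ⟨rfl, rfl, rfl, rfl, rfl, rfl, rfl⟩ ⟨rfl, rfl, rfl, rfl, rfl, rfl, rfl⟩
    (by decide) chk72

theorem goal73 : Goal 73 :=
  goal_of_check bkZ bkL24 bkL24 bkL24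
    ⟨rfl, rfl, rfl, rfl, rfl, rfl, rfl⟩ ⟨rfl, rfl, rfl, rfl, rfl, rfl, rfl⟩
    ⟨rfl, rfl, rfl, rfl, rfl, rfl, rfl⟩ ⟨rfl, rfl, rfl, rfl, rfl, rfl, rfl⟩
    (by decide) chk73

theorem goal74 : Goal 74 :=
  goal_of_check bkD2 bkL24 bkL24 bkL24
    ⟨rfl, rfl, rfl, rfl, rfl, rfl, rfl⟩ ⟨rfl, rfl, rfl, rfl, rfl, rfl, rfl⟩
    ⟨rfl, rfl, rfl, rfl, rfl, rfl, rfl⟩ ⟨rfl, rfl, rfl, rfl, rfl, rfl, rfl⟩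
    (by decide) chk74

theorem goal75 : Goal 75 :=
  goal_of_check bkD3 bkL24 bkL24 bkL24
    ⟨rfl, rfl, rfl, rfl, rfl, rfl, rfl⟩ ⟨rfl, rfl, rfl, rfl, rfl, rfl, rfl⟩
    ⟨rfl, rfl, rfl, rfl, rfl, rfl, rfl⟩ ⟨rfl, rfl, rfl, rfl, rfl, rfl, rfl⟩
    (by decide) chk75

theorem goal76 : Goal 76 :=
  goal_of_check bkD4 bkL24 bkL24 bkL24
    ⟨rfl, rfl, rfl, rfl, rfl, rfl, rfl⟩ ⟨rfl, rfl, rfl, rfl, rfl, rfl, rfl⟩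
    ⟨rfl, rfl, rfl, rfl, rfl, rfl, rfl⟩ ⟨rfl, rfl, rfl, rfl, rfl, rfl, rfl⟩
    (by decide) chk76

theorem goal77 : Goal 77 :=
  goal_of_check bkD5 bkL24 bkL24 bkL24
    ⟨rfl, rfl, rfl, rfl, rfl, rfl, rfl⟩ ⟨rfl, rfl, rfl, rfl, rfl, rfl, rfl⟩
    ⟨rfl, rfl, rfl, rfl, rfl, rfl, rfl⟩ ⟨rfl, rfl, rfl, rfl, rfl, rfl, rfl⟩
    (by decide) chk77

theorem goal78 : Goal 78 :=
  goal_of_check bkD6 bkL24 bkL24 bkL24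
    ⟨rfl, rfl, rfl, rfl, rfl, rfl, rfl⟩ ⟨rfl, rfl, rfl, rfl, rfl, rfl, rfl⟩
    ⟨rfl, rfl, rfl, rfl, rfl, rfl, rfl⟩ ⟨rfl, rfl, rfl, rfl, rfl, rfl, rfl⟩
    (by decide) chk78

theorem goal79 : Goal 79 :=
  goal_of_check bkD7 bkL24 bkL24 bkL24
    ⟨rfl, rfl, rfl, rfl, rfl, rfl, rfl⟩ ⟨rfl, rfl, rfl, rfl, rfl, rfl, rfl⟩
    ⟨rfl, rfl, rfl, rfl, rfl, rfl, rfl⟩ ⟨rfl, rfl, rfl, rfl, rfl, rfl, rfl⟩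
    (by decide) chk79

theorem goal80 : Goal 80 :=
  goal_of_check bkE8 bkL24 bkL24 bkL24
    ⟨rfl, rfl, rfl, rfl, rfl, rfl, rfl⟩ ⟨rfl, rfl, rfl, rfl, rfl, rfl, rfl⟩
    ⟨rfl, rfl, rfl, rfl, rfl, rfl, rfl⟩ ⟨rfl, rfl, rfl, rfl, rfl, rfl, rfl⟩
    (by decide) chk80

theorem goal81 : Goal 81 :=
  goal_of_check bkL17 bkL24 bkL24 bkS16
    ⟨rfl, rfl, rfl, rfl, rfl, rfl, rfl⟩ ⟨rfl, rfl, rfl, rfl, rfl, rfl, rfl⟩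
    ⟨rfl, rfl, rfl, rfl, rfl, rfl, rfl⟩ ⟨rfl, rfl, rfl, rfl, rfl, rfl, rfl⟩
    (by decide) chk81

theorem goal82 : Goal 82 :=
  goal_of_check bkS18 bkL24 bkL24 bkS16
    ⟨rfl, rfl, rfl, rfl, rfl, rfl, rfl⟩ ⟨rfl, rfl, rfl, rfl, rfl, rfl, rfl⟩
    ⟨rfl, rfl, rfl, rfl, rfl, rfl, rfl⟩ ⟨rfl, rfl, rfl, rfl, rfl, rfl, rfl⟩
    (by decide) chk82

theorem goal83 : Goal 83 :=
  goal_of_check bkS19 bkL24 bkL24 bkS16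
    ⟨rfl, rfl, rfl, rfl, rfl, rfl, rfl⟩ ⟨rfl, rfl, rfl, rfl, rfl, rfl, rfl⟩
    ⟨rfl, rfl, rfl, rfl, rfl, rfl, rfl⟩ ⟨rfl, rfl, rfl, rfl, rfl, rfl, rfl⟩
    (by decide) chk83

theorem goal84 : Goal 84 :=
  goal_of_check bkS20 bkL24 bkL24 bkS16
    ⟨rfl, rfl, rfl, rfl, rfl, rfl, rfl⟩ ⟨rfl, rfl, rfl, rfl, rfl, rfl, rfl⟩
    ⟨rfl, rfl, rfl, rfl, rfl, rfl, rfl⟩ ⟨rfl, rfl, rfl, rfl, rfl, rfl, rfl⟩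
    (by decide) chk84

theorem goal85 : Goal 85 :=
  goal_of_check bkS21 bkL24 bkL24 bkS16
    ⟨rfl, rfl, rfl, rfl, rfl, rfl, rfl⟩ ⟨rfl, rfl, rfl, rfl, rfl, rfl, rfl⟩
    ⟨rfl, rfl, rfl, rfl, rfl, rfl, rfl⟩ ⟨rfl, rfl, rfl, rfl, rfl, rfl, rfl⟩
    (by decide) chk85

theorem goal86 : Goal 86 :=
  goal_of_check bkS22 bkL24 bkL24 bkS16
    ⟨rfl, rfl, rfl, rfl, rfl, rfl, rfl⟩ ⟨rfl, rfl, rfl, rfl, rfl, rfl, rfl⟩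
    ⟨rfl, rfl, rfl, rfl, rfl, rfl, rfl⟩ ⟨rfl, rfl, rfl, rfl, rfl, rfl, rfl⟩
    (by decide) chk86

theorem goal87 : Goal 87 :=
  goal_of_check bkS23 bkL24 bkL24 bkS16
    ⟨rfl, rfl, rfl, rfl, rfl, rfl, rfl⟩ ⟨rfl, rfl, rfl, rfl, rfl, rfl, rfl⟩
    ⟨rfl, rfl, rfl, rfl, rfl, rfl, rfl⟩ ⟨rfl, rfl, rfl, rfl, rfl, rfl, rfl⟩
    (by decide) chk87

theorem goal88 : Goal 88 :=
  goal_of_check bkS16 bkL24 bkL24 bkL24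
    ⟨rfl, rfl, rfl, rfl, rfl, rfl, rfl⟩ ⟨rfl, rfl, rfl, rfl, rfl, rfl, rfl⟩
    ⟨rfl, rfl, rfl, rfl, rfl, rfl, rfl⟩ ⟨rfl, rfl, rfl, rfl, rfl, rfl, rfl⟩
    (by decide) chk88

theorem goal89 : Goal 89 :=
  goal_of_check bkL17 bkL24 bkL24 bkL24
    ⟨rfl, rfl, rfl, rfl, rfl, rfl, rfl⟩ ⟨rfl, rfl, rfl, rfl, rfl, rfl, rfl⟩
    ⟨rfl, rfl, rfl, rfl, rfl, rfl, rfl⟩ ⟨rfl, rfl, rfl, rfl, rfl, rfl, rfl⟩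
    (by decide) chk89

theorem goal90 : Goal 90 :=
  goal_of_check bkS18 bkL24 bkL24 bkL24
    ⟨rfl, rfl, rfl, rfl, rfl, rfl, rfl⟩ ⟨rfl, rfl, rfl, rfl, rfl, rfl, rfl⟩
    ⟨rfl, rfl, rfl, rfl, rfl, rfl, rfl⟩ ⟨rfl, rfl, rfl, rfl, rfl, rfl, rfl⟩
    (by decide) chk90

theorem goal91 : Goal 91 :=
  goal_of_check bkS19 bkL24 bkL24 bkL24
    ⟨rfl, rfl, rfl, rfl, rfl, rfl, rfl⟩ ⟨rfl, rfl, rfl, rfl, rfl, rfl, rfl⟩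
    ⟨rfl, rfl, rfl, rfl, rfl, rfl, rfl⟩ ⟨rfl, rfl, rfl, rfl, rfl, rfl, rfl⟩
    (by decide) chk91

theorem goal92 : Goal 92 :=
  goal_of_check bkS20 bkL24 bkL24 bkL24
    ⟨rfl, rfl, rfl, rfl, rfl, rfl, rfl⟩ ⟨rfl, rfl, rfl, rfl, rfl, rfl, rfl⟩
    ⟨rfl, rfl, rfl, rfl, rfl, rfl, rfl⟩ ⟨rfl, rfl, rfl, rfl, rfl, rfl, rfl⟩
    (by decide) chk92

theorem goal93 : Goal 93 :=
  goal_of_check bkS21 bkL24 bkL24 bkL24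
    ⟨rfl, rfl, rfl, rfl, rfl, rfl, rfl⟩ ⟨rfl, rfl, rfl, rfl, rfl, rfl, rfl⟩
    ⟨rfl, rfl, rfl, rfl, rfl, rfl, rfl⟩ ⟨rfl, rfl, rfl, rfl, rfl, rfl, rfl⟩
    (by decide) chk93

theorem goal94 : Goal 94 :=
  goal_of_check bkS22 bkL24 bkL24 bkL24
    ⟨rfl, rfl, rfl, rfl, rfl, rfl, rfl⟩ ⟨rfl, rfl, rfl, rfl, rfl, rfl, rfl⟩
    ⟨rfl, rfl, rfl, rfl, rfl, rfl, rfl⟩ ⟨rfl, rfl, rfl, rfl, rfl, rfl, rfl⟩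
    (by decide) chk94

theorem goal95 : Goal 95 :=
  goal_of_check bkS23 bkL24 bkL24 bkL24
    ⟨rfl, rfl, rfl, rfl, rfl, rfl, rfl⟩ ⟨rfl, rfl, rfl, rfl, rfl, rfl, rfl⟩
    ⟨rfl, rfl, rfl, rfl, rfl, rfl, rfl⟩ ⟨rfl, rfl, rfl, rfl, rfl, rfl, rfl⟩
    (by decide) chk95

theorem goal96 : Goal 96 :=
  goal_of_check bkL24 bkL24 bkL24 bkL24
    ⟨rfl, rfl, rfl, rfl, rfl, rfl, rfl⟩ ⟨rfl, rfl, rfl, rfl, rfl, rfl, rfl⟩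
    ⟨rfl, rfl, rfl, rfl, rfl, rfl, rfl⟩ ⟨rfl, rfl, rfl, rfl, rfl, rfl, rfl⟩
    (by decide) chk96

theorem goal_small {n : ℕ} (h1 : 1 ≤ n) (h2 : n ≤ 96) : Goal n := by
  interval_cases n
  · exact goal1
  · exact goal2
  · exact goal3
  · exact goal4
  · exact goal5
  · exact goal6
  · exact goal7
  · exact goal8
  · exact goal9
  · exact goal10
  · exact goal11
  · exact goal12
  · exact goal13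
  · exact goal14
  · exact goal15
  · exact goal16
  · exact goal17
  · exact goal18
  · exact goal19
  · exact goal20
  · exact goal21
  · exact goal22
  · exact goal23
  · exact goal24
  · exact goal25
  · exact goal26
  · exact goal27
  · exact goal28
  · exact goal29
  · exact goal30
  · exact goal31
  · exact goal32
  · exact goal33
  · exact goal34
  · exact goal35
  · exact goal36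
  · exact goal37
  · exact goal38
  · exact goal39
  · exact goal40
  · exact goal41
  · exact goal42
  · exact goal43
  · exact goal44
  · exact goal45
  · exact goal46
  · exact goal47
  · exact goal48
  · exact goal49
  · exact goal50
  · exact goal51
  · exact goal52
  · exact goal53
  · exact goal54
  · exact goal55
  · exact goal56
  · exact goal57
  · exact goal58
  · exact goal59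
  · exact goal60
  · exact goal61
  · exact goal62
  · exact goal63
  · exact goal64
  · exact goal65
  · exact goal66
  · exact goal67
  · exact goal68
  · exact goal69
  · exact goal70
  · exact goal71
  · exact goal72
  · exact goal73
  · exact goal74
  · exact goal75
  · exact goal76
  · exact goal77
  · exact goal78
  · exact goal79
  · exact goal80
  · exact goal81
  · exact goal82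
  · exact goal83
  · exact goal84
  · exact goal85
  · exact goal86
  · exact goal87
  · exact goal88
  · exact goal89
  · exact goal90
  · exact goal91
  · exact goal92
  · exact goal93
  · exact goal94
  · exact goal95
  · exact goal96

end Pool.Agent.Eps.B
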