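import Pool.Agent.Lib.MP_3bda03_nt.B.BKs
import Pool.Agent.Lib.MP_3bda03_nt.B.Assoc
import Pool.Agent.Lib.MP_3bda03_nt.B.SideMean
import Pool.Agent.Lib.MP_3bda03_nt.B.Crit

-- part Pool.Agent.Lib.MP_3bda03_nt.B.Node
section

/-!
Soundness of the values at the grid points.
-/

set_option autoImplicit false

noncomputable section

open MeasureTheory Matrix Finset
open scoped ENNReal

namespace Pool.Agent.Eps.B

open Pool.Agent.Eps.H

/-- the radius -/
def SD.R (S : SD) : ℝ := (S.Rn : ℝ) / 256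

theorem SD.vr_Rf (S : SD) : vr S.Rf = S.R := vr_shift S.Rn

variable {b : ℕ → RB} {S : SD}

theorem node_valid (hv : S.valid = true) : S.d 0 = 0 ∧ S.c 0 = 0 ∧
    (∀ l, l < 4 → S.layV l = true) ∧ S.n * one ≤ 6 * md (tdn S.M) S.Rf := by
  simp only [SD.valid, Bool.and_eq_true, Nat.beq_eq, decide_eq_true_eq, allTo_iff,
    Nat.ble_eq] at hv
  exact ⟨hv.1, hv.2.1, hv.2.2.1, hv.2.2.2.2⟩

theorem node_layV {l : ℕ} (h : S.layV l = true) : S.d (l + 1) = S.d l + (S.y l).hb.g ∧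
    S.c (l + 1) = S.c l + 96 * (S.y l).hb.ld + 4 * (S.y l).a * (S.y l).hb.g ∧
    ((S.y l).hb.g = 0 ∨ ((S.y l).hb.k0 ≤ (S.y l).a ∧ S.Rf ≤ (S.y l).ad * (S.y l).hb.N1 ∧
      one ≤ 6 * ((S.y l).ad * (S.y l).hb.nm))) := by
  simpa only [SD.layV, Bool.and_eq_true, Bool.or_eq_true, Nat.beq_eq, decide_eq_true_eq,
    Nat.ble_eq, ile] using h

theorem node_d (S : SD) {j : ℕ} (hj : j < 4) : S.d j = (S.y j).d := by
  have h : Nat.ble 4 j = false := by
    rw [← Bool.not_eq_true, Nat.ble_eq]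
    omega
  rw [SD.d, h, cond_false]

theorem node_c (S : SD) {j : ℕ} (hj : j < 4) : S.c j = (S.y j).cf := by
  have h : Nat.ble 4 j = false := by
    rw [← Bool.not_eq_true, Nat.ble_eq]
    omega
  rw [SD.c, h, cond_false]

theorem node_pe (S : SD) (j : ℕ) (k : ℤ) : S.pe j k = -2 * S.c j - 8 * S.d j * k := by
  show -2 * S.c j - ((8 * S.d j : ℕ) : ℤ) * k = _
  push_cast
  ring

theorem node_ad (y : Ly) : vr y.ad ≤ tt y.a := by
  refine (pd_le_Wr (16 * y.a)).trans_eq ?_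
  rw [tt_eq_Wr]
  push_cast
  rfl

theorem node_tdn (m : ℕ) : vr (tdn m) ≤ tt m := by
  refine (pd_le_Wr ((16 * m : ℕ) : ℤ)).trans_eq ?_
  rw [tt_eq_Wr]
  push_cast
  rfl

theorem node_tun (m : ℕ) : tt m ≤ vr (tun m) := by
  refine le_of_eq_of_le ?_ (Wr_le_pu ((16 * m : ℕ) : ℤ))
  rw [tt_eq_Wr]
  push_cast
  rfl

theorem node_xd (y : Ly) (m : ℕ) : vr (y.xd m) ≤ tt y.a * tt m := by
  refine (pd_le_Wr (16 * (y.a + (m : ℤ)))).trans_eq ?_
  rw [← tt_add, tt_eq_Wr]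
  push_cast
  rfl

theorem node_xu (y : Ly) (Rf N : ℕ) : Real.pi * vr (y.ru Rf N) ≤ vr (y.xu Rf N) :=
  mul_le_mu (vr_nonneg _) pi_le_piU le_rfl

theorem node_ad_mul (y : Ly) {Rf N : ℕ} (h : Rf ≤ y.ad * N) : vr Rf ≤ tt y.a * N := by
  refine (vr_le_iff.2 h).trans ?_
  rw [vr_mul_nat]
  exact mul_le_mul_of_nonneg_right (node_ad y) (Nat.cast_nonneg _)

theorem Rl.g_eq (H : Rl b S) {j : ℕ} (hj : j < 4) : (b j).g = (S.y j).hb.g := by
  simpa using (H j hj).1.card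

theorem Rl.dm_eq (H : Rl b S) (hv : S.valid = true) {j : ℕ} (hj : j ≤ 4) : dm b j = S.d j := by
  obtain ⟨h0, -, hl, -⟩ := node_valid hv
  induction j with
  | zero => rw [h0, dm, sum_range_zero]
  | succ j ih =>
    rw [(node_layV (hl j hj)).1, ← ih (by omega), ← H.g_eq hj, dm, sum_range_succ, dm]

theorem Rl.cov_eq (H : Rl b S) (hv : S.valid = true) {j : ℕ} (hj : j ≤ 4) :
    cov b j = Wr (2 * S.c j) := by
  obtain ⟨-, h0, hl, -⟩ := node_valid hv
  induction j with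
  | zero => simp [h0, cov, Wr]
  | succ j ih =>
    rw [(node_layV (hl j hj)).2.1, cov, prod_range_succ, ← cov, ih (by omega), (H j hj).1.det,
      ← Wr_add]
    congr 1
    push_cast
    ring

theorem Rl.PP_tt (H : Rl b S) (hv : S.valid = true) {j : ℕ} (hj : j ≤ 4) (k : ℤ) :
    PP b j (tt k) = WW (S.pe j k) := by
  rw [PP, H.cov_eq hv hj, H.dm_eq hv hj, Pn_tt, WW, node_pe]
  push_cast
  rfl

theorem Rl.gc_PP (H : Rl b S) (hv : S.valid = true) {j : ℕ} (hj : j ≤ 4) (m : ℤ) :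
    GC m (PP b j) (WW (S.pe j m)) (WW (S.pe j (m + 1))) := by
  show GC m (Pn (cov b j) (dm b j)) _ _
  rw [H.cov_eq hv hj, H.dm_eq hv hj, node_pe, node_pe]
  exact gc_Pn _ _ _

theorem Rl.gc_PP_inv (H : Rl b S) (hv : S.valid = true) {j : ℕ} (hj : j ≤ 4) (m : ℤ) :
    GC m (fun t => (PP b j t)⁻¹) (WW (-S.pe j m)) (WW (-S.pe j (m + 1))) := by
  show GC m (fun t => (Pn (cov b j) (dm b j) t)⁻¹) _ _
  have e : ∀ k : ℤ, -S.pe j k = 2 * S.c j + 8 * S.d j * k := fun k => by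
    rw [node_pe]
    ring
  rw [H.cov_eq hv hj, H.dm_eq hv hj, e, e]
  exact gc_Pn_inv _ _ _

theorem Rl.minN (H : Rl b S) (hv : S.valid = true) (j : ℕ) (hj : j < 4) : MinN (b j).M := by
  intro w hw
  obtain ⟨-, -, hl, -⟩ := node_valid hv
  rcases (node_layV (hl j hj)).2.2 with h | ⟨-, -, h⟩
  · have : IsEmpty (Fin (b j).g) := by
      rw [H.g_eq hj, h]
      infer_instance
    exact absurd (Subsingleton.elim _ _) hw
  · have h1 := vr_le_iff.2 h
    rw [vr_one, vr_nat_mul] at h1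
    have h2 := node_ad_mul (S.y j) (le_refl ((S.y j).ad * (S.y j).hb.nm))
    have h3 := (H j hj).1.min w hw
    push_cast at h1
    linarith

theorem SD.radius (hv : S.valid = true) : (S.n : ℝ) / 2 ≤ Real.pi * S.R * tt S.M := by
  have h1 := vr_le_iff.2 (node_valid hv).2.2.2
  rw [vr_nat_mul, vr_one, vr_nat_mul] at h1
  have h2 := md_le_mul (tdn S.M) S.Rf
  have h3 := mul_le_mul_of_nonneg_right (node_tdn S.M) (vr_nonneg S.Rf)
  have h4 := mul_le_mul_of_nonneg_right Real.pi_gt_three.le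
    (mul_nonneg (tt_pos S.M).le (vr_nonneg S.Rf))
  rw [← S.vr_Rf]
  push_cast at h1
  linarith

theorem node_beq {g : ℕ} (h : g ≠ 0) : Nat.beq g 0 = false := by
  rw [← Bool.not_eq_true, Nat.beq_eq]
  exact h

theorem node_tq0 (y : Ly) (Rf N : ℕ) :
    y.tq Rf N 0 = cond (Nat.beq (y.d % 2) 0) one (2 * sqU (y.ru Rf N)) := rfl

theorem node_tqS (y : Ly) (Rf N q : ℕ) : y.tq Rf N (q + 1) =
    du (2 * mu (y.tq Rf N q) (y.xu Rf N)) (y.d % 2 + 2 * (q + 1)) := rfl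

theorem Ly.tm_le_tq (y : Ly) (Rf N q : ℕ) :
    tm (y.d % 2 + 2 * q) (Real.pi * vr (y.ru Rf N)) ≤ vr (y.tq Rf N q) := by
  have hX : 0 ≤ Real.pi * vr (y.ru Rf N) := mul_nonneg Real.pi_pos.le (vr_nonneg _)
  induction q with
  | zero =>
    rw [node_tq0, Nat.mul_zero, Nat.add_zero]
    rcases Nat.mod_two_eq_zero_or_one y.d with h | h
    · rw [h, tm_zero, Nat.beq_refl, cond_true, vr_one]
    · rw [h, tm_one hX, mul_div_cancel_left₀ _ Real.pi_ne_zero, node_beq one_ne_zero, cond_false,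
        vr_nat_mul]
      have := sqrt_le_sqU (y.ru Rf N)
      push_cast
      linarith
  | succ q ih =>
    rw [node_tqS, Nat.mul_succ, ← Nat.add_assoc]
    refine le_trans ?_ (div_le_du _ (by omega))
    rw [tm_add_two _ hX, vr_nat_mul, ← mul_div_assoc]
    push_cast
    refine div_le_div_of_nonneg_right ?_ (by positivity)
    have := mul_le_mu hX ih (node_xu y Rf N)
    linarith

theorem Ly.sub_le_ru (y : Ly) (Rf N : ℕ) : vr Rf - tt y.a * N ≤ vr (y.ru Rf N) := by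
  show _ ≤ vr (Rf - y.ad * N)
  rw [vr_sub]
  refine le_trans ?_ (le_max_left _ _)
  have := node_ad_mul y (le_refl (y.ad * N))
  linarith

theorem node_split {α : Type} (l : List α) (p : α → Bool) (f : α → ℝ≥0∞) :
    (l.map f).sum = ((l.filter p).map f).sum + ((l.filter fun x => not (p x)).map f).sum := by
  induction l with
  | nil => simp
  | cons a l ih =>
    rw [List.map_cons, List.sum_cons, ih, List.filter_cons, List.filter_cons]
    cases p a
    · simp [add_left_comm]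
    · simp [add_assoc]

/-- splitting the shells -/
theorem Ly.sum_split (y : Ly) (Rf : ℕ) (f : ℕ × ℕ → ℝ≥0∞) :
    (y.hb.sh.map f).sum = ((y.lo Rf).map f).sum + ((y.hi Rf).map f).sum := by
  exact node_split _ _ f

theorem Ly.le_of_mem_hi (y : Ly) (Rf : ℕ) {p : ℕ × ℕ} (hp : p ∈ y.hi Rf) :
    vr Rf ≤ tt y.a * p.1 := by
  have h := (List.mem_filter.1 hp).2
  rw [Bool.not_eq_true', ← Bool.not_eq_true, Nat.blt_eq, not_lt] at h
  exact node_ad_mul y h

/-- a function that vanishes outside the ball only sees the low shells -/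
theorem node_sn_le {ι : Type} [Fintype ι] [DecidableEq ι] {M : Matrix ι ι ℝ} {y : Ly}
    (H : HalfA M y.hb y.a) {Rf : ℕ} (hk : y.hb.k0 ≤ y.a) (hR : Rf ≤ y.ad * y.hb.N1)
    {ψ : ℝ → ℝ≥0∞} (hψ : ∀ ρ, vr Rf ≤ ρ → ψ ρ = 0) {f : ℕ × ℕ → ℕ}
    (hf : ∀ p : ℕ × ℕ, ψ (tt y.a * p.1) ≤ val (f p)) :
    sn M ψ ≤ val (sumL (y.lo Rf) fun p => p.2 * f p) := by
  have h := H.spec ψ 1 0 (by rw [mul_one]; exact tt_mono (by exact_mod_cast hk))
    (fun ρ hρ => by rw [hψ ρ ((node_ad_mul y hR).trans hρ)]; exact zero_le)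
  rw [zero_mul, add_zero, y.sum_split Rf] at h
  refine h.trans ?_
  have h0 : ((y.hi Rf).map fun p => (p.2 : ℝ≥0∞) * ψ (tt y.a * p.1)).sum = 0 := by
    refine List.sum_eq_zero fun x hx => ?_
    obtain ⟨p, hp, rfl⟩ := List.mem_map.1 hx
    rw [hψ _ (y.le_of_mem_hi Rf hp), mul_zero]
  rw [h0, add_zero, val_sumL]
  refine List.sum_le_sum fun p _ => ?_
  rw [val_nat_mul]
  exact mul_le_mul_right (hf p) _

theorem node_cov (H : Rl b S) (hv : S.valid = true) {j : ℕ} (hj : j < 4) :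
    ENNReal.ofReal (cov b j)⁻¹ = WW (-2 * (S.y j).cf) := by
  rw [H.cov_eq hv hj.le, node_c S hj, ← Wr_neg, WW]
  push_cast
  rw [neg_mul]

theorem node_tm (y : Ly) (Rf N : ℕ) :
    tm y.d (Real.pi * vr (y.ru Rf N)) ≤ vr (y.tq Rf N (y.d / 2)) := by
  have h := y.tm_le_tq Rf N (y.d / 2)
  rwa [Nat.mod_add_div] at h

theorem Rl.en_sound (H : Rl b S) (hv : S.valid = true) {j : ℕ} (hj : j < 4) :
    lay b j (bi S.R) ≤ val (S.en j) := by
  by_cases hg : (S.y j).hb.g = 0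
  · rw [lay, sn_of_card_eq_zero ((H j hj).1.card.trans hg), mul_zero]
    exact zero_le
  obtain ⟨hk, hR, -⟩ := (node_layV ((node_valid hv).2.2.1 j hj)).2.2.resolve_left hg
  rw [SD.en, node_beq hg, cond_false, lay, mul_comm, node_cov H hv hj, H.dm_eq hv hj.le,
    node_d S hj, ← S.vr_Rf]
  refine mul_le_val_mu ?_ (WW_le_pu _)
  exact node_sn_le (H j hj).1 hk hR (fun ρ hρ => sm_bi_of_le _ hρ) fun p =>
    (sm_bi_le _ (vr_nonneg _) ((S.y j).sub_le_ru S.Rf p.1)).trans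
      (ENNReal.ofReal_le_ofReal (node_tm _ _ _))

theorem node_mn {a : ℝ≥0∞} {X D x y : ℕ} (hx : a ≤ val x) (hy : X < D → a ≤ val y) :
    a ≤ val (cond (Nat.blt X D) (mn x y) x) := by
  cases h : Nat.blt X D
  · exact hx
  · rw [cond_true, mn]
    cases Nat.ble x y
    exacts [hy (Nat.blt_eq ▸ h), hx]

/-- the crude bound for one shell -/
theorem node_hv1 (y : Ly) (R : ℝ) (m N : ℕ) {pe : ℤ} {c : ℝ≥0∞}
    (hc : c * ENNReal.ofReal (tt m ^ (-((y.d : ℝ) / 2))) = WW pe) :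
    WW pe * c * (ga (tt m) (tt y.a * N) * sm y.d (pl R (tt m)) (tt y.a * N)) ≤
      val (pu (2 * pe + ex (2 * (y.xd m * N)))) := by
  refine le_trans ?_ (WW_le_pu _)
  have h1 : sm y.d (pl R (tt m)) (tt y.a * N) ≤
      ENNReal.ofReal (tt m ^ (-((y.d : ℝ) / 2))) * ga (tt m) (tt y.a * N) := by
    rw [← sm_ga _ (tt_pos _), ← sm_ph_add_pl y.d R]
    exact le_add_self
  have h2 : ga (tt m) (tt y.a * N + tt y.a * N) ≤ WW (ex (2 * (y.xd m * N))) := by
    refine ga_le_WW ?_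
    rw [vr_nat_mul, vr_mul_nat]
    have := mul_le_mul_of_nonneg_right (node_xd y m) (Nat.cast_nonneg N)
    push_cast
    linarith
  rw [ga_add] at h2
  calc _ ≤ WW pe * c * (ga (tt m) (tt y.a * N) *
        (ENNReal.ofReal (tt m ^ (-((y.d : ℝ) / 2))) * ga (tt m) (tt y.a * N))) := by gcongr
    _ = WW pe * (c * ENNReal.ofReal (tt m ^ (-((y.d : ℝ) / 2)))) *
        (ga (tt m) (tt y.a * N) * ga (tt m) (tt y.a * N)) := by ring
    _ ≤ WW (2 * pe + ex (2 * (y.xd m * N))) := by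
      rw [hc, WW_add, two_mul pe, WW_add]
      gcongr

/-- the sharp bound for one shell -/
theorem node_hv2 (y : Ly) (Rf m N : ℕ) (pe e : ℤ)
    (hX : 2 * mu (tun m) (y.xu Rf N) < y.d * one) :
    WW pe * WW e * (ga (tt m) (tt y.a * N) * sm y.d (pl (vr Rf) (tt m)) (tt y.a * N)) ≤
      val (du (y.d * one * mu (y.tq Rf N (y.d / 2))
        (pu (pe + e + ex (y.xd m * N + md (tdn m) Rf))))
        (y.d * one - 2 * mu (tun m) (y.xu Rf N))) := by
  have hr := vr_nonneg (y.ru Rf N)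
  have hp : 0 ≤ Real.pi * vr (y.ru Rf N) := mul_nonneg Real.pi_pos.le hr
  have hd : vr (y.d * one) = y.d := by rw [vr_nat_mul, vr_one, mul_one]
  have h1 : 2 * (tt m * (Real.pi * vr (y.ru Rf N))) ≤ vr (2 * mu (tun m) (y.xu Rf N)) := by
    rw [vr_nat_mul]
    have := mul_le_mu hp (node_tun m) (node_xu y Rf N)
    push_cast
    linarith
  have h2 : vr (2 * mu (tun m) (y.xu Rf N)) < y.d := (vr_lt_iff.2 hX).trans_eq hd
  have h3 := sm_pl_le y.d (tt_pos m) hr (y.sub_le_ru Rf N) (h1.trans_lt h2)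
  have h4 : ga (tt m) (tt y.a * N + vr Rf) ≤ WW (ex (y.xd m * N + md (tdn m) Rf)) := by
    refine ga_le_WW ?_
    rw [vr_add, vr_mul_nat]
    have := mul_le_mul_of_nonneg_right (node_xd y m) (Nat.cast_nonneg N)
    have := md_le_mul (tdn m) Rf
    have := mul_le_mul_of_nonneg_right (node_tdn m) (vr_nonneg Rf)
    linarith
  rw [ga_add] at h4
  have h5 := mul_div_le_du (y.d * one) (mu (y.tq Rf N (y.d / 2))
    (pu (pe + e + ex (y.xd m * N + md (tdn m) Rf)))) (Nat.sub_pos_of_lt hX)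
  rw [vr_sub, hd, max_eq_left (sub_pos.2 h2).le] at h5
  have h6 := mul_le_mu (Wr_pos _).le (node_tm y Rf N)
    (Wr_le_pu (pe + e + ex (y.xd m * N + md (tdn m) Rf)))
  have h7 : (y.d : ℝ) / (y.d - 2 * (tt m * (Real.pi * vr (y.ru Rf N)))) ≤
      y.d / (y.d - vr (2 * mu (tun m) (y.xu Rf N))) :=
    div_le_div_of_nonneg_left (Nat.cast_nonneg _) (sub_pos.2 h2) (by linarith)
  have h8 := mul_le_mul h6 h7 (div_nonneg (Nat.cast_nonneg _) (by linarith)) (vr_nonneg _)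
  calc _ ≤ WW pe * WW e * (ga (tt m) (tt y.a * N) * (ga (tt m) (vr Rf) *
        ENNReal.ofReal (tm y.d (Real.pi * vr (y.ru Rf N)) *
          (y.d / (y.d - 2 * (tt m * (Real.pi * vr (y.ru Rf N)))))))) := by gcongr
    _ ≤ WW (pe + e + ex (y.xd m * N + md (tdn m) Rf)) *
        ENNReal.ofReal (tm y.d (Real.pi * vr (y.ru Rf N)) *
          (y.d / (y.d - 2 * (tt m * (Real.pi * vr (y.ru Rf N)))))) := by
      rw [← mul_assoc (ga _ _), ← mul_assoc, WW_add, WW_add]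
      gcongr
    _ ≤ _ := by
      rw [WW, ← ENNReal.ofReal_mul (Wr_pos _).le]
      refine ENNReal.ofReal_le_ofReal (le_trans ?_ h5)
      rw [← mul_assoc, mul_comm (Wr _)]
      exact h8.trans_eq (by ring)

theorem Rl.hv_sound (H : Rl b S) (hv : S.valid = true) {j : ℕ} (hj : j < 4) (m : ℕ) :
    hh b S.R j (tt ((m : ℤ) : ℝ)) ≤ val (S.hv j m) := by
  by_cases hg : (S.y j).hb.g = 0
  · rw [hh, sn_of_card_eq_zero ((H j hj).1.card.trans hg), mul_zero, mul_zero]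
    exact zero_le
  obtain ⟨hk, hR, -⟩ := (node_layV ((node_valid hv).2.2.1 j hj)).2.2.resolve_left hg
  have hP := H.PP_tt hv hj.le (m : ℤ)
  have hc : WW (-2 * (S.y j).cf) * ENNReal.ofReal (tt m ^ (-(((S.y j).d : ℝ) / 2))) =
      WW (S.pe j m) := by
    rw [← hP, ← node_cov H hv hj, PP, Pn, H.dm_eq hv hj.le, node_d S hj,
      ENNReal.ofReal_mul (inv_pos.2 (cov_pos b j)).le, Int.cast_natCast]
  rw [SD.hv, node_beq hg, cond_false, hh, hP, ← mul_assoc, ← sn_const_mul, node_cov H hv hj,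
    H.dm_eq hv hj.le, node_d S hj, ← S.vr_Rf, Int.cast_natCast]
  refine node_sn_le (H j hj).1 hk hR
    (fun ρ hρ => by rw [sm_pl_of_le _ _ hρ, mul_zero, mul_zero]) fun p => ?_
  exact node_mn (node_hv1 (S.y j) (vr S.Rf) m p.1 hc) (node_hv2 (S.y j) S.Rf m p.1 _ _)

end Pool.Agent.Eps.B
end
end

-- part Pool.Agent.Lib.MP_3bda03_nt.B.NodeM
section

/-!
Soundness of the truncated means at the grid points.
-/

set_option autoImplicit false

noncomputable section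

open MeasureTheory Matrix Finset
open scoped ENNReal

namespace Pool.Agent.Eps.B

open Pool.Agent.Eps.H

theorem nodem_vr_sumL {α : Type} (l : List α) (f : α → ℕ) :
    vr (sumL l f) = (l.map fun a => vr (f a)).sum := by
  rw [sumL_eq]
  induction l with
  | nil => simp [vr]
  | cons a l ih => simp only [List.map_cons, List.sum_cons, vr_add, ih]

theorem nodem_swap {α : Type} (l : List α) (w : α → ℝ) (F : α → ℕ → ℝ) (c s t : ℝ) (n : ℕ) :
    (l.map fun p => w p * (c + ∑ q ∈ range n, s * t ^ q * F p q)).sum =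
      c * (l.map w).sum + s * ∑ q ∈ range n, (l.map fun p => w p * F p q).sum * t ^ q := by
  induction l with
  | nil => simp
  | cons a l ih =>
    have e : w a * ∑ q ∈ range n, s * t ^ q * F a q = s * ∑ q ∈ range n, w a * F a q * t ^ q := by
      rw [Finset.mul_sum, Finset.mul_sum]
      exact Finset.sum_congr rfl fun q _ => by ring
    simp only [List.map_cons, List.sum_cons, ih, add_mul, Finset.sum_add_distrib]
    linear_combination e

theorem nodem_qs_nonneg (d : ℕ) {X : ℝ} (hX : 0 ≤ X) : 0 ≤ qs d X :=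
  add_nonneg (by split_ifs <;> norm_num) (Finset.sum_nonneg fun _ _ => tm_nonneg _ hX)

theorem nodem_ofReal {α : Type} (l : List α) (w : α → ℕ) (F : α → ℝ) (h : ∀ p, 0 ≤ F p) :
    (l.map fun p => (w p : ℝ≥0∞) * ENNReal.ofReal (F p)).sum =
      ENNReal.ofReal (l.map fun p => (w p : ℝ) * F p).sum := by
  induction l with
  | nil => simp
  | cons a l ih =>
    rw [List.map_cons, List.sum_cons, ih, List.map_cons, List.sum_cons, ENNReal.ofReal_add
      (mul_nonneg (Nat.cast_nonneg _) (h a)) (List.sum_nonneg fun x hx => ?_),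
      ENNReal.ofReal_mul (Nat.cast_nonneg _), ENNReal.ofReal_natCast]
    obtain ⟨p, -, rfl⟩ := List.mem_map.1 hx
    exact mul_nonneg (Nat.cast_nonneg _) (h p)

theorem nodem_tdn (m : ℕ) : vr (tdn m) ≤ tt ((m : ℤ) : ℝ) := by
  refine (pd_le_Wr _).trans (le_of_eq ?_)
  rw [tt_eq_Wr]
  simp

theorem nodem_tun (m : ℕ) : tt ((m : ℤ) : ℝ) ≤ vr (tun m) := by
  refine le_trans (le_of_eq ?_) (Wr_le_pu _)
  rw [tt_eq_Wr]
  simp

theorem nodem_xd (y : Ly) (m N : ℕ) :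
    vr (Nat.mul (y.xd m) N) ≤ tt y.a * tt ((m : ℤ) : ℝ) * N := by
  rw [Nat.mul_eq, vr_mul_nat, ← tt_add, tt_eq_Wr]
  refine mul_le_mul_of_nonneg_right ((pd_le_Wr _).trans (le_of_eq ?_)) (Nat.cast_nonneg _)
  congr 1
  show (((16 : ℤ) * (y.a + (m : ℤ)) : ℤ) : ℝ) = _
  push_cast
  ring

theorem Ly.poly_le (y : Ly) (Rf m : ℕ) :
    ((y.lo Rf).map fun p => (p.2 : ℝ) *
        qs y.d (tt ((m : ℤ) : ℝ) * (Real.pi * vr (y.ru Rf p.1)))).sum ≤
      vr (Nat.add (y.c0 Rf)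
        (mu (cond (Nat.beq (Nat.mod y.d 2) 0) one (pu (Int.ofNat (Nat.mul 8 m))))
          (horU (y.co Rf) (tun m) (Nat.div y.d 2)))) := by
  have ht := (tt_pos ((m : ℤ) : ℝ)).le
  have hX : ∀ N, 0 ≤ Real.pi * vr (y.ru Rf N) := fun N => mul_nonneg Real.pi_pos.le (vr_nonneg _)
  have e : ∀ (q : ℕ) (N : ℕ), tm (y.d % 2 + 2 * q) (tt ((m : ℤ) : ℝ) * (Real.pi * vr (y.ru Rf N))) =
      Real.sqrt (tt ((m : ℤ) : ℝ)) ^ (y.d % 2) * tt ((m : ℤ) : ℝ) ^ q *
        tm (y.d % 2 + 2 * q) (Real.pi * vr (y.ru Rf N)) := fun q N => by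
    rw [tm_mul _ ht (hX N), pow_add, pow_mul, Real.sq_sqrt ht]
  simp only [qs, e]
  rw [nodem_swap, Nat.add_eq, vr_add, add_comm, add_comm (vr _), mul_comm (Real.sqrt _ ^ _)]
  refine add_le_add ?_ ?_
  · rw [mul_comm]
    refine mul_le_mu (Finset.sum_nonneg fun q _ => mul_nonneg (List.sum_nonneg fun x hx => ?_)
      (pow_nonneg ht _)) ?_ (le_horU _ (fun q _ => ?_) ht (nodem_tun m))
    · obtain ⟨p, -, rfl⟩ := List.mem_map.1 hx
      exact mul_nonneg (Nat.cast_nonneg _) (tm_nonneg _ (hX _))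
    · rcases Nat.mod_two_eq_zero_or_one y.d with h | h
      · rw [show Nat.mod y.d 2 = 0 from h, h, pow_zero, show Nat.beq 0 0 = true from rfl, cond_true]
        exact vr_one.ge
      · rw [show Nat.mod y.d 2 = 1 from h, h, pow_one, show Nat.beq 1 0 = false from rfl,
          cond_false]
        refine le_trans (le_of_eq ?_) (Wr_le_pu (Int.ofNat (Nat.mul 8 m)))
        rw [Real.sqrt_eq_iff_mul_self_eq ht (Wr_pos _).le, ← Wr_add, tt_eq_Wr]
        congr 1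
        simp
        ring
    · rw [Ly.co, nodem_vr_sumL]
      refine List.sum_le_sum fun p _ => ?_
      rw [Nat.mul_eq, vr_nat_mul]
      exact mul_le_mul_of_nonneg_left (y.tm_le_tq Rf p.1 q) (Nat.cast_nonneg _)
  · by_cases h : y.d % 2 = 0 ∧ y.d ≠ 0
    · rw [if_pos h, zero_mul]
      exact vr_nonneg _
    · have h' : and (Nat.beq (Nat.mod y.d 2) 0) (not (Nat.beq y.d 0)) = false := by
        rw [Bool.eq_false_iff]
        intro h'
        simp only [Bool.and_eq_true, Bool.not_eq_true', Nat.beq_eq, ← Bool.not_eq_true] at h'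
        exact h h'
      rw [if_neg h, one_mul, Ly.c0, h', cond_false, Nat.mul_eq, vr_nat_mul, vr_one, mul_one,
        sumL_eq, Nat.cast_list_sum, List.map_map]
      rfl

variable {b : ℕ → RB} {S : SD}

theorem Rl.mv_sound (H : Rl b S) (hv : S.valid = true) {j : ℕ} (hj : j < 4) (m : ℕ) :
    lay b j (ph S.R (tt ((m : ℤ) : ℝ))) ≤ val (S.mv j m) := by
  have hb := (H j hj).1
  by_cases hg : (S.y j).hb.g = 0
  · rw [lay, sn_of_card_eq_zero (hb.card.trans hg), mul_zero]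
    exact zero_le
  have hg' : Nat.beq (S.y j).hb.g 0 = false := by
    rw [Bool.eq_false_iff]
    exact fun h => hg (Nat.eq_of_beq_eq_true h)
  have hk : (S.y j).hb.k0 ≤ (S.y j).a := by
    simp only [SD.valid, Bool.and_eq_true, allTo_iff] at hv
    have := hv.2.2.1 j hj
    simp only [SD.layV, hg', Bool.and_eq_true, Bool.false_or, ile, decide_eq_true_eq] at this
    exact this.2.2.1
  have hd : dm b j = (S.y j).d := by
    rw [H.dm_eq hv hj.le, SD.d, show Nat.ble 4 j = false from by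
      rw [Bool.eq_false_iff, Ne, Nat.ble_eq]; omega, cond_false]
  have hP := H.PP_tt hv hj.le m
  have h3 : ga (tt ((m : ℤ) : ℝ)) S.R ≤ WW (ex (md (tdn m) S.Rf)) := by
    refine ga_le_WW ((md_le_mul _ _).trans ?_)
    rw [← S.vr_Rf]
    exact mul_le_mul_of_nonneg_right (nodem_tdn m) (vr_nonneg _)
  have h4 := (S.y j).poly_le S.Rf m
  have h5 := nodem_xd (S.y j) m
  have ht1 : 1 ≤ tt ((m : ℤ) : ℝ) := tt_zero.ge.trans (tt_mono (by simp))
  rw [SD.mv, hg', cond_false, Int.ofNat_eq_natCast m]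
  beta_reduce
  generalize S.pe j m = pe at hP ⊢
  generalize tt ((m : ℤ) : ℝ) = t at hP h3 h4 h5 ht1 ⊢
  have ht : 0 < t := one_pos.trans_le ht1
  rw [PP, Pn, ENNReal.ofReal_mul (inv_pos.2 (cov_pos b j)).le, hd] at hP
  rw [lay, hd]
  generalize S.y j = y at hb hk h4 h5 hP ⊢
  have h1 : ∀ ρ, sm y.d (ph S.R t) ρ ≤ ENNReal.ofReal (t ^ (-((y.d : ℝ) / 2))) * ga t ρ := fun ρ => by
    rw [← sm_ga _ ht, ← sm_ph_add_pl y.d S.R]
    exact le_self_add
  have h2 := hb.spec (sm y.d (ph S.R t)) t (ENNReal.ofReal (t ^ (-((y.d : ℝ) / 2))))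
    ((tt_mono (Int.cast_le.2 hk)).trans (le_mul_of_one_le_right (tt_pos _).le ht1)) fun ρ _ => h1 ρ
  refine (mul_le_mul_right h2 _).trans ?_
  rw [y.sum_split S.Rf, mul_add, mul_add, add_assoc, ← mul_assoc, hP,
    Nat.add_eq (x := mu _ _), val_add, Nat.add_eq (x := sumL _ _), val_add]
  refine add_le_add ?_ (add_le_add ?_ ?_)
  · refine le_trans ?_ (mul_le_val_mu (WW_le_pu _) (ENNReal.ofReal_le_ofReal h4))
    rw [← nodem_ofReal _ _ _ fun p => nodem_qs_nonneg _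
      (mul_nonneg ht.le (mul_nonneg Real.pi_pos.le (vr_nonneg _))), ← List.sum_map_mul_left,
      ← List.sum_map_mul_left]
    refine List.sum_le_sum fun p _ => ?_
    have := sm_ph_le y.d (ρ := tt y.a * p.1) ht (vr_nonneg (y.ru S.Rf p.1))
      (R := S.R) (by rw [← S.vr_Rf]; exact y.sub_le_ru S.Rf p.1)
    rw [Int.add_def, WW_add, ← hP]
    calc _ ≤ ENNReal.ofReal (cov b j)⁻¹ * (p.2 * (ENNReal.ofReal (t ^ (-((y.d : ℝ) / 2))) *
          (WW (ex (md (tdn m) S.Rf)) *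
            ENNReal.ofReal (qs y.d (t * (Real.pi * vr (y.ru S.Rf p.1))))))) := by
          refine mul_le_mul_right (mul_le_mul_right (this.trans ?_) _) _
          gcongr
      _ = _ := by ring
  · rw [val_sumL, ← List.sum_map_mul_left]
    refine List.sum_le_sum fun p _ => ?_
    rw [Nat.mul_eq, val_nat_mul, mul_left_comm]
    refine mul_le_mul_right (le_trans ?_ (WW_le_pu _)) _
    rw [Int.add_def, WW_add, ← hP, mul_assoc]
    refine mul_le_mul_right ((h1 _).trans (mul_le_mul_right (ga_le_WW ((h5 _).trans_eq ?_)) _)) _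
    ring
  · refine le_trans ?_ (WW_le_pu _)
    rw [Int.add_def, Int.add_def, WW_add, WW_add, mul_assoc]
    exact mul_le_mul_right (mul_le_mul_right (ga_le_WW (h5 _)) _) _

theorem Rl.ms_sound (H : Rl b S) (hv : S.valid = true) {l0 : ℕ} (hl : l0 ≤ 4) (m : ℕ) :
    ∑ l ∈ range l0, lay b l (ph S.R (tt ((m : ℤ) : ℝ))) ≤ val (S.ms l0 m) := by
  refine le_trans ?_ (val_mono (Nat.le_succ _))
  rw [val_sumTo]
  refine Finset.sum_le_sum fun l hl' => ?_
  rw [frc_eq]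
  exact H.mv_sound hv ((Finset.mem_range.1 hl').trans_le hl) m

theorem Rl.fv_sound (H : Rl b S) (hv : S.valid = true) (m : ℕ) :
    ∑ j ∈ Ico 1 4, (2 * lay b j (ph S.R (2 * tt ((m : ℤ) : ℝ))) +
      7 * hh b S.R j (tt ((m : ℤ) : ℝ))) ≤ val (S.fv m) := by
  refine le_trans ?_ (val_mono (Nat.le_succ _))
  rw [val_sumTo, Finset.sum_Ico_eq_sum_range]
  refine Finset.sum_le_sum fun l hl => ?_
  have hl' : l + 1 < 4 := by
    have := Finset.mem_range.1 hl
    omega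
  have e : 2 * tt ((m : ℤ) : ℝ) = tt (((m + 24 : ℕ) : ℤ) : ℝ) := by
    push_cast
    rw [tt_add, tt_24, mul_comm]
  rw [frc_eq, Nat.add_eq, Nat.add_eq, Nat.mul_eq, Nat.mul_eq, val_add, val_nat_mul, val_nat_mul,
    add_comm 1 l, e]
  exact add_le_add (mul_le_mul_right (H.mv_sound hv hl' _) _)
    (mul_le_mul_right (H.hv_sound hv hl' _) _)

theorem nodem_gc {f : ℝ → ℝ≥0∞} (h : LC f) (m : ℕ) {A B : ℕ} (hA : f (tt ((m : ℤ) : ℝ)) ≤ val (A + 1))
    (hB : f (tt (((m + 1 : ℕ) : ℤ) : ℝ)) ≤ val (B + 1)) :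
    GC m f (val (corA (A + 1) (B + 1))) (val (corB (A + 1) (B + 1))) :=
  (h.gc_lin m (vr_pos A.succ_pos) (vr_pos B.succ_pos) hA (by simpa [val] using hB)).mono
    (ENNReal.ofReal_le_ofReal (le_corA _ B.succ_pos)) (ENNReal.ofReal_le_ofReal (le_corB _ _))

theorem Rl.gc_ms (H : Rl b S) (hv : S.valid = true) {l0 : ℕ} (hl : l0 ≤ 4) (m : ℕ) :
    GC m (fun t => ∑ l ∈ range l0, lay b l (ph S.R t))
      (val (corA (S.ms l0 m) (S.ms l0 (m + 1)))) (val (corB (S.ms l0 m) (S.ms l0 (m + 1)))) := by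
  exact nodem_gc (LC.sum _ fun l _ => lc_lay_ph b S.R l) m (H.ms_sound hv hl m)
    (H.ms_sound hv hl (m + 1))

theorem Rl.gc_fv (H : Rl b S) (hv : S.valid = true) (m : ℕ) :
    GC m (fun t => ∑ j ∈ Ico 1 4, (2 * lay b j (ph S.R (2 * t)) + 7 * hh b S.R j t))
      (val (corA (S.fv m) (S.fv (m + 1)))) (val (corB (S.fv m) (S.fv (m + 1)))) := by
  exact nodem_gc (LC.sum _ fun l _ => ((LC.const 2).mul ((lc_lay_ph b S.R l).scale two_pos)).add
    ((LC.const 7).mul (lc_hh b S.R l))) m (H.fv_sound hv m) (H.fv_sound hv (m + 1))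

end Pool.Agent.Eps.B
end
end

-- part Pool.Agent.Lib.MP_3bda03_nt.B.Cell
section

/-!
Soundness of the cost of a side.
-/

set_option autoImplicit false

noncomputable section

open MeasureTheory Matrix Finset
open scoped ENNReal

namespace Pool.Agent.Eps.B

open Pool.Agent.Eps.H

variable {b : ℕ → RB} {S : SD}

theorem SD.l0_le (S : SD) (m : ℕ) : S.l0 m ≤ 4 := by
  unfold SD.l0
  rw [sumTo_eq]
  calc ∑ l ∈ range 4, cond (Nat.ble (S.y l).m0 m) 1 0 ≤ ∑ _l ∈ range 4, 1 := by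
        refine Finset.sum_le_sum fun l _ => ?_
        cases Nat.ble (S.y l).m0 m <;> simp
    _ = 4 := by simp

theorem cell_nz_of_ne {y : Ly} (h : y.hb.g ≠ 0) (x : ℕ) : nz y x = x := by
  unfold nz
  have : Nat.beq y.hb.g 0 = false := by
    cases hb : Nat.beq y.hb.g 0
    · rfl
    · exact absurd (Nat.eq_of_beq_eq_true hb) h
  rw [this]
  rfl

theorem cell_cond_blt {α : Type} (l k : ℕ) (x y : α) :
    cond (Nat.blt l k) x y = if l < k then x else y := by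
  by_cases h : l < k
  · rw [if_pos h, (Nat.blt_eq).mpr h]
    rfl
  · rw [if_neg h]
    have : Nat.blt l k = false := by
      cases hb : Nat.blt l k
      · rfl
      · exact absurd ((Nat.blt_eq).mp hb) h
    rw [this]
    rfl

theorem cell_vt_zero (H : Rl b S) {j : ℕ} (hj : j < 4) (hg : (S.y j).hb.g = 0) (t : ℝ) :
    vt b j t = 0 :=
  sn_of_card_eq_zero (((H j hj).1.card).trans hg) _ _

theorem cell_vs_zero (H : Rl b S) {j : ℕ} (hj : j < 4) (hg : (S.y j).hb.g = 0) (t : ℝ) :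
    vs b j t = 0 :=
  sn_of_card_eq_zero (((H j hj).1.card).trans hg) _ _

theorem cell_gc_vt (H : Rl b S) {j : ℕ} (hj : j < 4) {k : ℤ}
    (hk : (S.y j).hb.k0 ≤ (S.y j).a + k) :
    GC k (vt b j) (WW ((S.y j).hb.th ((S.y j).a + k))) (WW ((S.y j).hb.th ((S.y j).a + (k + 1)))) := by
  have h := (H j hj).1.tab k hk
  rw [add_assoc] at h
  exact h

theorem cell_gc_vs (H : Rl b S) {j : ℕ} (hj : j < 4) {k : ℤ}
    (hk : (S.y j).ho.k0 ≤ (S.y j).ao - k - 1) :
    GC k (fun t => vs b j t⁻¹) (WW ((S.y j).ho.th ((S.y j).ao - k)))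
      (WW ((S.y j).ho.th ((S.y j).ao - (k + 1)))) := by
  have h := (H j hj).2.tab (-k - 1) (by linarith)
  have e1 : (S.y j).ao + (-k - 1) + 1 = (S.y j).ao - k := by ring
  have e2 : (S.y j).ao + (-k - 1) = (S.y j).ao - (k + 1) := by ring
  rw [e1, e2] at h
  exact GC.inv (f := vs b j) h

theorem cell_WW3 (a c d : ℤ) : WW a * (WW c * WW d) ≤ val (pu (Int.add (Int.add a c) d)) := by
  rw [← WW_add, ← WW_add, ← add_assoc]
  exact WW_le_pu _

theorem Rl.gc_ev (H : Rl b S) (hv : S.valid = true) {j : ℕ} (hj : j < 4) (l1 : ℕ) (m k : ℤ)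
    {f : ℝ → ℝ≥0∞} {eA eB : ℤ} (hf : GC m f (WW eA) (WW eB))
    (hk : ∀ l, l < j → (S.y l).hb.g ≠ 0 →
      if l < l1 then (S.y l).hb.k0 ≤ (S.y l).a + (m + k) else (S.y l).ho.k0 ≤ (S.y l).ao - (m + k) - 1) :
    GC m (fun t => f t * ee b j l1 (tt k * t)) (val (S.ev j l1 (m + k) eA))
      (val (S.ev j l1 (m + 1 + k) eB)) := by
  have e0 : m + 1 + k = m + k + 1 := by ring
  rw [e0]
  unfold SD.ev ee
  rw [val_sumTo, val_sumTo]
  simp only [Finset.mul_sum]
  refine GC.sum _ fun l hl => ?_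
  have hlj : l < j := Finset.mem_range.mp hl
  have hl4 : l < 4 := hlj.trans hj
  by_cases hg : (S.y l).hb.g = 0
  · refine GC.zero _ _ fun t => ?_
    rw [cell_vt_zero H hl4 hg, cell_vs_zero H hl4 hg]
    simp
  · have hk' := hk l hlj hg
    rw [cell_nz_of_ne hg, cell_nz_of_ne hg, cell_cond_blt, cell_cond_blt]
    by_cases h1 : l < l1
    · simp only [if_pos h1] at hk' ⊢
      have h2 := GC.shift k ((H.gc_PP hv hl4.le (m + k)).mul (cell_gc_vt H hl4 hk'))
      exact (hf.mul h2).mono (cell_WW3 _ _ _) (cell_WW3 _ _ _)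
    · simp only [if_neg h1] at hk' ⊢
      have h2 := GC.shift k ((H.gc_PP hv (show l + 1 ≤ 4 by omega) (m + k)).mul (cell_gc_vs H hl4 hk'))
      exact (hf.mul h2).mono (cell_WW3 _ _ _) (cell_WW3 _ _ _)

theorem cell_k0_le (hv : S.valid = true) {j : ℕ} (hj : j < 4) (hg : (S.y j).hb.g ≠ 0) :
    (S.y j).hb.k0 ≤ (S.y j).a := by
  unfold SD.valid at hv
  simp only [Bool.and_eq_true] at hv
  have h := (allTo_iff _ _).mp hv.2.2.1 j hj
  unfold SD.layV at h
  simp only [Bool.and_eq_true, Bool.or_eq_true] at h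
  rcases h.2.2 with h1 | h1
  · exact absurd (Nat.eq_of_beq_eq_true h1) hg
  · exact of_decide_eq_true h1.1

theorem cell_V (hv : S.valid = true) {m : ℕ} (hm : m < S.M) {l : ℕ} (hl : l < 4)
    (hg : (S.y l).hb.g ≠ 0) :
    (l < S.l0 m ∨ (S.y l).ho.k0 ≤ (S.y l).ao - m - 1) ∧
      (l = 3 ∨ ((S.y l).ho.k0 ≤ (S.y l).ao - m + 47 ∧
        if l < S.l1 m then (S.y l).hb.k0 ≤ (S.y l).a + m - 24
        else (S.y l).ho.k0 ≤ (S.y l).ao - m + 23)) := by
  unfold SD.valid at hv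
  simp only [Bool.and_eq_true] at hv
  have h := (allTo_iff _ _).mp hv.2.2.2.1 m hm
  unfold SD.cellV at h
  have h2 := (allTo_iff _ _).mp h l hl
  rw [cell_cond_blt] at h2
  simp only [Bool.and_eq_true, Bool.or_eq_true] at h2
  rcases h2 with h1 | ⟨h1, h3⟩
  · exact absurd (Nat.eq_of_beq_eq_true h1) hg
  · refine ⟨?_, ?_⟩
    · rcases h1 with h1 | h1
      · exact Or.inl ((Nat.blt_eq).mp h1)
      · exact Or.inr (of_decide_eq_true h1)
    · rcases h3 with h3 | ⟨h3, h4⟩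
      · exact Or.inl (Nat.eq_of_beq_eq_true h3)
      · refine Or.inr ⟨of_decide_eq_true h3, ?_⟩
        by_cases h5 : l < S.l1 m
        · rw [if_pos h5] at h4 ⊢
          exact of_decide_eq_true h4
        · rw [if_neg h5] at h4 ⊢
          exact of_decide_eq_true h4

theorem Rl.gc_pt (H : Rl b S) (hv : S.valid = true) {j : ℕ} (hj : j < 4)
    (hg : (S.y j).hb.g ≠ 0) (m k : ℕ) :
    GC m (fun t => PP b j (tt k * t) * vt b j (tt k * t)) (WW (S.pt j ((m + k : ℕ) : ℤ)))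
      (WW (S.pt j ((m + 1 + k : ℕ) : ℤ))) := by
  have h0 := cell_k0_le hv hj hg
  have hk : (S.y j).hb.k0 ≤ (S.y j).a + ((m : ℤ) + (k : ℤ)) := by omega
  have h2 := GC.shift (k : ℤ) ((H.gc_PP hv hj.le ((m : ℤ) + (k : ℤ))).mul (cell_gc_vt H hj hk))
  rw [Int.cast_natCast, ← WW_add, ← WW_add] at h2
  have e1 : ((m + k : ℕ) : ℤ) = (m : ℤ) + (k : ℤ) := by push_cast; ring
  have e2 : ((m + 1 + k : ℕ) : ℤ) = (m : ℤ) + (k : ℤ) + 1 := by push_cast; ring
  rw [e1, e2]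
  exact h2

theorem cell_half (t : ℝ) : t / 2 = tt (((-24 : ℤ)) : ℝ) * t := by
  have : (((-24 : ℤ)) : ℝ) = -24 := by norm_num
  rw [this, tt_neg, tt_24]
  ring

theorem cell_quarter (t : ℝ) : t / 4 = tt (((-48 : ℤ)) : ℝ) * t := by
  have : (((-48 : ℤ)) : ℝ) = -48 := by norm_num
  rw [this, tt_neg, tt_48]
  ring

theorem cell_two (t : ℝ) : 2 * t = tt ((24 : ℕ) : ℝ) * t := by
  have : ((24 : ℕ) : ℝ) = 24 := by norm_num
  rw [this, tt_24]

theorem cell_four (t : ℝ) : 4 * t = tt ((48 : ℕ) : ℝ) * t := by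
  have : ((48 : ℕ) : ℝ) = 48 := by norm_num
  rw [this, tt_48]

theorem cell_sub (m k : ℕ) : Int.subNatNat m k = (m : ℤ) + (-(k : ℤ)) := by
  rw [Int.subNatNat_eq_coe]
  ring

theorem cell_sub' (m k : ℕ) : Int.subNatNat (m + 1) k = (m : ℤ) + 1 + (-(k : ℤ)) := by
  rw [Int.subNatNat_eq_coe]
  push_cast
  ring

theorem cell_sum3 (F : ℕ → ℝ≥0∞) : ∑ j ∈ Ico 1 4, F j = ∑ j ∈ range 3, F (Nat.succ j) := by
  rw [Finset.sum_Ico_eq_sum_range]
  refine Finset.sum_congr rfl fun j _ => ?_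
  rw [add_comm]

theorem cell_gc_base (H : Rl b S) (hv : S.valid = true) {j : ℕ} (hj : j < 4)
    (hg : (S.y j).hb.g ≠ 0) (m k : ℕ) :
    GC m (fun t => geo S.bet t * (PP b j (tt k * t) * vt b j (tt k * t)))
      (WW (Int.add (S.bet m) (S.pt j (Int.ofNat (Nat.add m k)))))
      (WW (Int.add (S.bet (m + 1)) (S.pt j (Int.ofNat (Nat.add (m + 1) k))))) := by
  have h := (gc_geo S.bet m).mul (H.gc_pt hv hj hg m k)
  rw [← WW_add, ← WW_add] at h
  exact h

theorem cell_gc_t2 (H : Rl b S) (hv : S.valid = true) {m : ℕ} (hm : m < S.M) :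
    GC m (fun t => ∑ j ∈ Ico 1 4,
        geo S.bet t * (PP b j (2 * t) * vt b j (2 * t)) * ee b j (S.l1 m) (t / 2))
      (val (S.t2 (S.l1 m) m)) (val (S.t2 (S.l1 m) (m + 1))) := by
  unfold SD.t2
  rw [val_sumTo, val_sumTo]
  simp only [cell_sum3]
  refine GC.sum _ fun j hj => ?_
  have hj4 : Nat.succ j < 4 := by
    have := Finset.mem_range.mp hj
    omega
  by_cases hg : (S.y (Nat.succ j)).hb.g = 0
  · refine GC.zero _ _ fun t => ?_
    rw [cell_vt_zero H hj4 hg]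
    simp
  · rw [cell_nz_of_ne hg, cell_nz_of_ne hg, cell_sub, cell_sub']
    simp only [cell_half, cell_two]
    refine H.gc_ev hv hj4 (S.l1 m) m (-24) (cell_gc_base H hv hj4 hg m 24) fun l hl hgl => ?_
    have h := (cell_V hv hm (hl.trans hj4) hgl).2
    rcases h with h | ⟨_, h⟩
    · omega
    · by_cases h5 : l < S.l1 m
      · rw [if_pos h5] at h ⊢
        omega
      · rw [if_neg h5] at h ⊢
        omega

theorem cell_gc_t3 (H : Rl b S) (hv : S.valid = true) {m : ℕ} (hm : m < S.M) :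
    GC m (fun t => ∑ j ∈ Ico 1 4,
        geo S.bet t * (PP b j (4 * t) * vt b j (4 * t)) * (1 + ee b j 0 (t / 4)))
      (val (S.t3 m)) (val (S.t3 (m + 1))) := by
  unfold SD.t3
  rw [val_sumTo, val_sumTo]
  simp only [cell_sum3]
  refine GC.sum _ fun j hj => ?_
  have hj4 : Nat.succ j < 4 := by
    have := Finset.mem_range.mp hj
    omega
  by_cases hg : (S.y (Nat.succ j)).hb.g = 0
  · refine GC.zero _ _ fun t => ?_
    rw [cell_vt_zero H hj4 hg]
    simp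
  · rw [cell_nz_of_ne hg, cell_nz_of_ne hg, cell_sub, cell_sub']
    simp only [cell_quarter, cell_four, mul_add, mul_one, Nat.add_eq, val_add]
    have hb := cell_gc_base H hv hj4 hg m 48
    refine GC.add (hb.mono (WW_le_pu _) (WW_le_pu _)) ?_
    refine H.gc_ev hv hj4 0 m (-48) hb fun l hl hgl => ?_
    have h := (cell_V hv hm (hl.trans hj4) hgl).2
    rw [if_neg (Nat.not_lt_zero l)]
    rcases h with h | ⟨h, _⟩
    · omega
    · omega

theorem cell_val_vE (l1 m' F : ℕ) : val (S.vE l1 m' F) =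
    val (mu (pu (S.bet m')) F) + (2 * val (S.t2 l1 m') + 4 * val (S.t3 m')) := by
  show val (mu (pu (S.bet m')) F + (2 * S.t2 l1 m' + 4 * S.t3 m')) = _
  rw [val_add, val_add, val_nat_mul, val_nat_mul]
  norm_num

theorem Rl.gc_v (H : Rl b S) (hv : S.valid = true) {m : ℕ} (hm : m < S.M) :
    GC m (fun t => geo S.bet t * ∑ j ∈ Ico 1 4, VV b S.R (S.l1 m) j t)
      (val (S.vE (S.l1 m) m (corA (S.fv m) (S.fv (m + 1)))))
      (val (S.vE (S.l1 m) (m + 1) (corB (S.fv m) (S.fv (m + 1))))) := by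
  rw [cell_val_vE, cell_val_vE]
  have h1 := ((gc_geo S.bet m).mul (H.gc_fv hv m)).mono
    (mul_le_val_mu (WW_le_pu _) le_rfl) (mul_le_val_mu (WW_le_pu _) le_rfl)
  have h := h1.add (((cell_gc_t2 H hv hm).const_mul 2).add ((cell_gc_t3 H hv hm).const_mul 4))
  refine h.of_le fun t _ => le_of_eq ?_
  unfold VV
  simp only [Finset.mul_sum, ← Finset.sum_add_distrib]
  refine Finset.sum_congr rfl fun j _ => ?_
  ring

theorem cell_er_split (R : ℝ) {l0 : ℕ} (hl : l0 ≤ 4) (t : ℝ) :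
    er b R 4 l0 t = (∑ l ∈ range l0, lay b l (ph R t)) +
      ∑ l ∈ range 4, if l < l0 then 0 else PP b (l + 1) t * vs b l t⁻¹ := by
  have h1 : ∑ l ∈ range l0, lay b l (ph R t) =
      ∑ l ∈ range 4, if l < l0 then lay b l (ph R t) else 0 := by
    rw [← Finset.sum_filter]
    refine Finset.sum_congr ?_ fun _ _ => rfl
    ext l
    simp only [Finset.mem_range, Finset.mem_filter]
    omega
  rw [h1, ← Finset.sum_add_distrib]
  unfold er
  refine Finset.sum_congr rfl fun l _ => ?_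
  by_cases h : l < l0
  · simp only [if_pos h, add_zero]
  · simp only [if_neg h, zero_add]

theorem cell_val_rE (l0 m' F : ℕ) : val (S.rE l0 m' F) =
    val (pu (S.gam m' + -S.pe l0 m')) + val (mu (pu (-S.pe l0 m')) F) +
      ∑ l ∈ range 4, val (cond (Nat.blt l l0) 0 (nz (S.y l)
        (pu (Int.add (Int.add (-S.pe l0 m') (S.pe (l + 1) m'))
          ((S.y l).ho.th ((S.y l).ao - m')))))) := by
  rw [← val_sumTo, ← val_add, ← val_add]
  rfl

theorem Rl.gc_r (H : Rl b S) (hv : S.valid = true) {m : ℕ} (hm : m < S.M) :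
    GC m (fun t => (geo S.gam t + er b S.R 4 (S.l0 m) t) * (PP b (S.l0 m) t)⁻¹)
      (val (S.rE (S.l0 m) m (corA (S.ms (S.l0 m) m) (S.ms (S.l0 m) (m + 1)))))
      (val (S.rE (S.l0 m) (m + 1) (corB (S.ms (S.l0 m) m) (S.ms (S.l0 m) (m + 1))))) := by
  have hl := S.l0_le m
  have hV := fun l hl4 hg => (cell_V (l := l) hv hm hl4 hg).1
  generalize S.l0 m = l0 at hl hV ⊢
  rw [cell_val_rE, cell_val_rE]
  have hP := H.gc_PP_inv hv hl (m : ℤ)
  have e1 : ((m + 1 : ℕ) : ℤ) = (m : ℤ) + 1 := by push_cast; ring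
  rw [e1]
  have h1 := (gc_geo S.gam m).mul hP
  rw [← WW_add, ← WW_add] at h1
  have h1' := h1.mono (WW_le_pu _) (WW_le_pu _)
  have h2 := (hP.mul (H.gc_ms hv hl m)).mono
    (mul_le_val_mu (WW_le_pu _) le_rfl) (mul_le_val_mu (WW_le_pu _) le_rfl)
  have h3 : GC m (fun t => ∑ l ∈ range 4,
      (PP b l0 t)⁻¹ * (if l < l0 then 0 else PP b (l + 1) t * vs b l t⁻¹))
      (∑ l ∈ range 4, val (cond (Nat.blt l l0) 0 (nz (S.y l)
        (pu (Int.add (Int.add (-S.pe l0 m) (S.pe (l + 1) m))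
          ((S.y l).ho.th ((S.y l).ao - m)))))))
      (∑ l ∈ range 4, val (cond (Nat.blt l l0) 0 (nz (S.y l)
        (pu (Int.add (Int.add (-S.pe l0 (m + 1)) (S.pe (l + 1) (m + 1)))
          ((S.y l).ho.th ((S.y l).ao - (m + 1)))))))) := by
    refine GC.sum _ fun l hl' => ?_
    have hl4 : l < 4 := Finset.mem_range.mp hl'
    by_cases h5 : l < l0
    · refine GC.zero _ _ fun t => ?_
      rw [if_pos h5, mul_zero]
    · by_cases hg : (S.y l).hb.g = 0
      · refine GC.zero _ _ fun t => ?_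
        rw [if_neg h5, cell_vs_zero H hl4 hg, mul_zero, mul_zero]
      · rw [cell_nz_of_ne hg, cell_nz_of_ne hg, cell_cond_blt, cell_cond_blt]
        simp only [if_neg h5]
        have hk : (S.y l).ho.k0 ≤ (S.y l).ao - m - 1 := (hV l hl4 hg).resolve_left h5
        exact (hP.mul ((H.gc_PP hv (show l + 1 ≤ 4 by omega) (m : ℤ)).mul
          (cell_gc_vs H hl4 hk))).mono (cell_WW3 _ _ _) (cell_WW3 _ _ _)
  refine ((h1'.add h2).add h3).of_le fun t _ => le_of_eq ?_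
  rw [cell_er_split S.R hl, ← Finset.mul_sum]
  ring

theorem Rl.gc_p (H : Rl b S) (hv : S.valid = true) (m : ℕ) :
    GC m (fun t => geo S.bet t * PP b (S.l0 m) t ^ 2) (val (S.pE (S.l0 m) m))
      (val (S.pE (S.l0 m) (m + 1))) := by
  have hP := H.gc_PP hv (S.l0_le m) (m : ℤ)
  have h := (gc_geo S.bet m).mul (hP.mul hP)
  rw [← WW_add, ← WW_add, ← WW_add, ← WW_add, ← two_mul, ← two_mul] at h
  have e1 : (m : ℤ) + 1 = ((m + 1 : ℕ) : ℤ) := by push_cast; ring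
  rw [e1] at h
  refine (h.mono (WW_le_pu _) (WW_le_pu _)).of_le fun t _ => le_of_eq ?_
  rw [sq]

theorem le_cellC (vA vB rA rB pA pB : ℕ) :
    (val vA + val vB) / 2 + ((val rA - 1) ^ 2 * (val pA / 3 + val pB / 6) +
      (val rB - 1) ^ 2 * (val pA / 6 + val pB / 3)) ≤ val (cellC vA vB rA rB pA pB) := by
  have hd : ∀ (x k : ℕ), 0 < k → val x / (k : ℝ≥0∞) ≤ val (du x k) :=
    fun x k hk => div_le_val_du hk le_rfl
  have h2 := hd (vA + vB) 2 (by norm_num)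
  have hA3 := hd pA 3 (by norm_num)
  have hA6 := hd pA 6 (by norm_num)
  have hB3 := hd pB 3 (by norm_num)
  have hB6 := hd pB 6 (by norm_num)
  simp only [Nat.cast_ofNat] at h2 hA3 hA6 hB3 hB6
  show _ ≤ val (du (vA + vB) 2 + (mu (sqm rA) (du pA 3 + du pB 6) + mu (sqm rB) (du pA 6 + du pB 3)))
  rw [val_add, val_add, ← val_add vA vB]
  refine add_le_add h2 (add_le_add ?_ ?_)
  · refine mul_le_val_mu (sq_sub_one_le_sqm le_rfl) ?_
    rw [val_add]
    exact add_le_add hA3 hB6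
  · refine mul_le_val_mu (sq_sub_one_le_sqm le_rfl) ?_
    rw [val_add]
    exact add_le_add hA6 hB3

theorem cell_eq (m : ℕ) : S.cell m =
    cellC (S.vE (S.l1 m) m (corA (S.fv m) (S.fv (m + 1))))
      (S.vE (S.l1 m) (m + 1) (corB (S.fv m) (S.fv (m + 1))))
      (S.rE (S.l0 m) m (corA (S.ms (S.l0 m) m) (S.ms (S.l0 m) (m + 1))))
      (S.rE (S.l0 m) (m + 1) (corB (S.ms (S.l0 m) m) (S.ms (S.l0 m) (m + 1))))
      (S.pE (S.l0 m) m) (S.pE (S.l0 m) (m + 1)) := by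
  unfold SD.cell
  simp only [frc_eq, Nat.succ_eq_add_one]

theorem Rl.cost_sound (H : Rl b S) (hv : S.valid = true) :
    ∫⁻ g, Gam (cov b 4) (dm b 4) S.R S.M S.gam S.bet (sn g) ∂(mu4 b) ≤ val S.cost := by
  refine (side_mean b (H.minN hv) S.R S.M S.gam S.bet S.l0 S.l1 _ _ _ _ _ _
    (fun m _ => S.l0_le m) (fun m hm => H.gc_v hv hm) (fun m hm => H.gc_r hv hm)
    (fun m _ => H.gc_p hv m)).trans ?_
  show _ ≤ val (mu hU (sumTo S.M S.cell) + du (sumTo 4 S.en) 2 +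
    8 * mu (pu (-S.pe 4 (S.M : ℤ))) (frc S.M (S.ms 4)))
  rw [val_add, val_add, val_nat_mul, frc_eq]
  refine add_le_add (add_le_add ?_ ?_) ?_
  · refine mul_le_val_mu hc_le_hU ?_
    rw [val_sumTo]
    refine Finset.sum_le_sum fun m _ => ?_
    rw [cell_eq]
    exact le_cellC _ _ _ _ _ _
  · have h : ∑ j ∈ range 4, lay b j (bi S.R) ≤ val (sumTo 4 S.en) := by
      rw [val_sumTo]
      exact Finset.sum_le_sum fun j hj => H.en_sound hv (Finset.mem_range.mp hj)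
    have h2 := div_le_val_du (k := 2) (by norm_num) h
    simpa only [Nat.cast_ofNat] using h2
  · have hP := H.PP_tt hv (le_refl 4) (S.M : ℤ)
    have hs := H.ms_sound hv (le_refl 4) S.M
    rw [Int.cast_natCast] at hP hs
    rw [hP, ← WW_neg, Nat.cast_ofNat]
    exact mul_le_mul_right (mul_le_val_mu (WW_le_pu _) hs) _

end Pool.Agent.Eps.B
end
end

-- part Pool.Agent.Lib.MP_3bda03_nt.B.Snd
section

/-!
Soundness of the checker.
-/

set_option autoImplicit false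

noncomputable section

open MeasureTheory Matrix Finset
open scoped ENNReal

namespace Pool.Agent.Eps.B

open Pool.Agent.Eps.H

theorem jn_eq (m : ℕ) : jn m = jm m := rfl

theorem snd_pow (x : ℝ) (k : ℕ) : Wr x ^ k = Wr (x * k) := by
  rw [Wr_eq_exp, Wr_eq_exp, ← Real.exp_nat_mul]
  congr 1
  ring

theorem snd_sum (n : ℕ) (c : ℕ → ℕ) (f : ℕ → ℤ) (e : ℤ) :
    ENNReal.ofReal (∑ k ∈ range n, c k * Wr (f k) * Wr e ^ k) =
      ∑ k ∈ range n, c k * WW (f k + e * k) := by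
  rw [ENNReal.ofReal_sum_of_nonneg fun k _ =>
    mul_nonneg (mul_nonneg (Nat.cast_nonneg _) (Wr_pos _).le) (pow_pos (Wr_pos _) _).le]
  refine Finset.sum_congr rfl fun k _ => ?_
  rw [snd_pow, mul_assoc, ← Wr_add, ENNReal.ofReal_mul (Nat.cast_nonneg _), ENNReal.ofReal_natCast,
    WW]
  push_cast
  rfl

theorem snd_trap (M : ℕ) (A : ℕ → ℝ≥0∞) : ∑ m ∈ range M, (A m + A (m + 1)) ≤
    ∑ m ∈ range (M + 1), (cond (or (Nat.beq m 0) (Nat.beq m M)) 1 2 : ℕ) * A m := by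
  have h1 : ∑ m ∈ range M, A m = ∑ m ∈ range (M + 1), if m = M then 0 else A m := by
    rw [Finset.sum_range_succ, if_pos rfl, add_zero]
    exact Finset.sum_congr rfl fun m hm => (if_neg (mem_range.1 hm).ne).symm
  have h2 : ∑ m ∈ range M, A (m + 1) = ∑ m ∈ range (M + 1), if m = 0 then 0 else A m := by
    rw [Finset.sum_range_succ', if_pos rfl, add_zero]
    exact Finset.sum_congr rfl fun m _ => (if_neg m.succ_ne_zero).symm
  rw [Finset.sum_add_distrib, h1, h2, ← Finset.sum_add_distrib]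
  refine Finset.sum_le_sum fun m _ => ?_
  cases h : (Nat.beq m 0 || Nat.beq m M)
  · simp only [cond_false, Nat.cast_ofNat, two_mul]
    refine add_le_add ?_ ?_ <;> split_ifs <;> simp
  · simp only [Bool.or_eq_true, Nat.beq_eq] at h
    rcases h with h | h <;> simp only [h, if_true, cond_true, Nat.cast_one, one_mul] <;>
      split_ifs <;> simp

theorem SD.gn_sound (S : SD) (i : ℕ) : val (S.gn i) ≤ WW S.cf * Gn S.cf S.n S.M S.gam i := by
  have h1 : val (horD S.gc (pd (Int.ofNat (Nat.mul 4 i))) S.M) ≤ ∑ k ∈ range S.M, (1 : ℕ) *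
      WW (S.cf + ((S.gam k + S.gam (k + 1)) / 2 - jn k) + Int.ofNat (Nat.mul 4 i) * k) := by
    rw [← snd_sum S.M (fun _ => 1) fun k => S.cf + ((S.gam k + S.gam (k + 1)) / 2 - jn k)]
    exact ENNReal.ofReal_le_ofReal (horD_le S.M (fun k _ => by
      rw [Nat.cast_one, one_mul]; exact pd_le_Wr _) (pd_le_Wr _))
  have h2 := val_md_le hL_le_hc (val_md_le (pd_le_WW (Int.ofNat (Nat.mul 2 i))) h1)
  have h3 : val (7 * pd (-S.cf - 8 * S.n * S.M + 4 * S.M * i - jn S.M)) ≤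
      7 * WW (-S.cf - 8 * S.n * S.M + 4 * S.M * i - jn S.M) := by
    rw [val_nat_mul]
    exact mul_le_mul_right (pd_le_WW _) _
  refine (val_add _ _).trans_le ((add_le_add h2 (val_div_le _ h3)).trans_eq ?_)
  rw [Gn, mul_add (WW S.cf), mul_left_comm (WW S.cf), Finset.mul_sum _ _ (WW S.cf),
    Finset.mul_sum _ _ (WW _), ← mul_div_assoc, mul_left_comm (WW S.cf), ← WW_add]
  congr 2
  · refine Finset.sum_congr rfl fun k _ => ?_
    rw [Nat.cast_one, one_mul, ← WW_add, ← WW_add, jn_eq]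
    congr 1
    simp only [Int.ofNat_eq_natCast, Nat.mul_eq]
    push_cast
    ring
  · rw [jn_eq]
    congr 2
    ring

theorem SD.hn_sound (S : SD) (i : ℕ) : WW (2 * S.cf) * Hn S.M S.bet i ≤ val (S.hn i) := by
  have h1 : ∑ k ∈ range (S.M + 1), (cond (or (Nat.beq k 0) (Nat.beq k S.M)) 1 2 : ℕ) *
      WW (2 * S.cf - S.bet k + Int.ofNat (Nat.mul 8 i) * k) ≤
      val (horU S.hcf (pu (Int.ofNat (Nat.mul 8 i))) (Nat.succ S.M)) := by
    rw [← snd_sum (S.M + 1) _ fun k => 2 * S.cf - S.bet k]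
    refine ENNReal.ofReal_le_ofReal (le_horU _ (fun k _ => ?_) (Wr_pos _).le (Wr_le_pu _))
    refine le_of_le_of_eq ?_ (vr_nat_mul _ _).symm
    exact mul_le_mul_of_nonneg_left (Wr_le_pu _) (Nat.cast_nonneg _)
  have h2 := (snd_trap S.M fun k => WW (2 * S.cf - S.bet k + Int.ofNat (Nat.mul 8 i) * k)).trans h1
  refine le_of_eq_of_le ?_ (mul_le_val_mu hc_le_hU (div_le_val_du two_pos h2))
  rw [Hn, mul_left_comm, Finset.mul_sum, Nat.cast_ofNat, div_eq_mul_inv, Finset.sum_mul]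
  refine congrArg _ (Finset.sum_congr rfl fun k _ => ?_)
  rw [div_eq_mul_inv, ← mul_assoc, mul_add, ← WW_add, ← WW_add]
  simp only [Int.ofNat_eq_natCast, Nat.mul_eq]
  congr 3 <;> push_cast <;> ring

theorem goal_of_rl {b : ℕ → RB} {S S' : SD} (H : Rl b S) (H' : Rl (rev b) S') (hn : 1 ≤ S.n)
    (hc : check S S' = true) : Goal S.n := by
  simp only [check, Bool.and_eq_true, Nat.beq_eq, decide_eq_true_eq, Nat.blt_eq, allTo_iff] at hc
  obtain ⟨e1, e2, v1, v2, c1, c2⟩ := hc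
  refine crit b hn (H.dm_eq v1 le_rfl) S.cf (H.cov_eq v1 le_rfl) S.R S'.R S.M S'.M S.gam S.bet
    S'.gam S'.bet (SD.radius v1) (e1 ▸ SD.radius v2) ?_ fun i hi => ?_
  · refine (add_le_add (H.cost_sound v1) (H'.cost_sound v2)).trans_lt ?_
    rw [← val_add, ← val_one]
    exact val_lt c1
  · have h1 := val_lt (Nat.blt_eq.mp (c2 i (Nat.lt_succ_of_le hi)))
    have h2 := add_le_add (S.gn_sound i) (S'.gn_sound (2 * S.n - i))
    have h3 := add_le_add (S.hn_sound i) (S'.hn_sound (2 * S.n - i))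
    rw [← val_add] at h2 h3
    rw [e2, e1] at h2
    rw [e2, mul_neg, ← neg_mul] at h3
    exact h3.trans_lt (h1.trans_le ((val_md_le h2 h2).trans_eq (sq _).symm))

theorem goal_of_check {S S' : SD} {h0 h0' h1 h1' h2 h2' h3 h3' : HB} {k0 k1 k2 k3 : ℕ}
    (B0 : BK h0 h0' k0) (B1 : BK h1 h1' k1) (B2 : BK h2 h2' k2) (B3 : BK h3 h3' k3)
    (F0 : Fit S.y0 S'.y3 h0 h0' k0) (F1 : Fit S.y1 S'.y2 h1 h1' k1)
    (F2 : Fit S.y2 S'.y1 h2 h2' k2) (F3 : Fit S.y3 S'.y0 h3 h3' k3) (hn : 1 ≤ S.n)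
    (hc : check S S' = true) : Goal S.n := by
  obtain ⟨b, H, H'⟩ := exists_rl B0 B1 B2 B3 F0 F1 F2 F3
  exact goal_of_rl H H' hn hc

end Pool.Agent.Eps.B
end
end
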